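import Pool.Agent.RT.SBase

/-! RT/ChernJ.  Port of `RS/Chern.lean` to weights depending on the element (`θ j`); the final
exponential is `exp (∑_j θ j)`.

`theta_le`: for `f` supported on `PP S ≤ S1`, `lam = 1/log S1`: for `2 ≤ PP S ≤ S1`,
`PP S ^ lam - 1 = exp(t) - 1 ≤ 2 t`, `t = log PP S/log S1 ≤ 1` (as in `RS.wt_theta`). -/

namespace Pool.Agent.RT

open Finset Pool.Agent.RS

variable {ι κ : Type} [Fintype ι] [DecidableEq ι] [DecidableEq κ] [Fintype κ]

private theorem chern_rpow {p : ι → ℕ} (hp : ∀ i, 2 ≤ p i) {lam : ℝ} (hlam : 0 ≤ lam)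
    (S : Finset ι) : 1 ≤ PP p S ^ lam := by
  exact Real.one_le_rpow (one_le_PP hp S) hlam

private theorem chern_ph {p : ι → ℕ} (hp : ∀ i, 2 ≤ p i) (S : Finset ι) : 0 < PH p S :=
  lt_of_lt_of_le one_pos (one_le_PH hp S)

open Classical in
private theorem chern_step {p : ι → ℕ} (hp : ∀ i, 2 ≤ p i) (y : κ → Finset ι → ℝ)
    (hy0 : ∀ j, y j ∅ = 1) {D lam θ : ℝ} (hlam : 0 ≤ lam) (hθ0 : 0 ≤ θ) (J : Finset κ) (i : κ)
    (hi : i ∉ J)
    (hθ : ∑ S ∈ (univ : Finset (Finset ι)).filter (fun S => S ≠ ∅),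
      y i S ^ 2 / PH p S * (PP p S ^ lam - 1) ≤ θ) :
    ∑ σ : ι → Option κ, Yd p y D σ ^ 2 * (∏ j ∈ J, PP p (cell σ j) ^ lam) *
        (PP p (cell σ i) ^ lam - 1) / PH p (supp σ) ≤
      θ * ∑ σ : ι → Option κ,
        Yd p y D σ ^ 2 * (∏ j ∈ J, PP p (cell σ j) ^ lam) / PH p (supp σ) := by
  have hprod : ∀ σ : ι → Option κ, 0 ≤ ∏ j ∈ J, PP p (cell σ j) ^ lam := fun σ =>
    prod_nonneg fun j _ => le_trans zero_le_one (chern_rpow hp hlam _)
  obtain ⟨F, hF⟩ : ∃ F : (ι → Option κ) → Finset ι → ℝ,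
      ∀ σ' S, F σ' S = (if PP p S * PP p (supp σ') ≤ D then (y i S * Yt y σ') ^ 2 else 0) *
          (∏ j ∈ J, PP p (cell σ' j) ^ lam) *
          (PP p S ^ lam - 1) / (PH p S * PH p (supp σ')) := ⟨_, fun _ _ => rfl⟩
  have h1 : ∑ σ : ι → Option κ, Yd p y D σ ^ 2 * (∏ j ∈ J, PP p (cell σ j) ^ lam) *
        (PP p (cell σ i) ^ lam - 1) / PH p (supp σ) =
      ∑ σ : ι → Option κ, F (era σ i) (cell σ i) := by
    apply sum_congr rfl
    intro σ _
    have h2 : ∏ j ∈ J, PP p (cell (era σ i) j) ^ lam = ∏ j ∈ J, PP p (cell σ j) ^ lam := by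
      apply prod_congr rfl
      intro j hj
      have hji : j ≠ i := by
        rintro rfl
        exact hi hj
      rw [cell_era_of_ne σ hji]
    have h3 : Yd p y D σ ^ 2 =
        if PP p (cell σ i) * PP p (supp (era σ i)) ≤ D then
          (y i (cell σ i) * Yt y (era σ i)) ^ 2 else 0 := by
      unfold Yd
      rw [PP_supp_split p σ i, Yt_split y hy0 σ i]
      split_ifs
      · rfl
      · exact zero_pow two_ne_zero
    rw [hF, h3, h2, PH_supp_split p σ i]
  rw [h1, decomp i F, mul_sum]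
  refine le_trans (sum_le_sum (g := fun σ : ι → Option κ =>
    θ * (Yd p y D σ ^ 2 * (∏ j ∈ J, PP p (cell σ j) ^ lam) / PH p (supp σ))) ?_) ?_
  · intro σ _
    have hphs := chern_ph hp (supp σ)
    have h2 : ∀ S ∈ (univ \ supp σ).powerset, F σ S ≤
        (Yd p y D σ ^ 2 * (∏ j ∈ J, PP p (cell σ j) ^ lam) / PH p (supp σ)) *
          (y i S ^ 2 / PH p S * (PP p S ^ lam - 1)) := by
      intro S _
      have hph := chern_ph hp S
      have hpp : (1 : ℝ) ≤ PP p S := one_le_PP hp S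
      have hpl : 0 ≤ PP p S ^ lam - 1 := sub_nonneg.mpr (chern_rpow hp hlam S)
      have h3 : (if PP p S * PP p (supp σ) ≤ D then (y i S * Yt y σ) ^ 2 else 0) ≤
          Yd p y D σ ^ 2 * y i S ^ 2 := by
        have hps : (1 : ℝ) ≤ PP p (supp σ) := one_le_PP hp _
        split_ifs with h
        · have h4 : PP p (supp σ) ≤ D := by nlinarith
          unfold Yd
          rw [if_pos h4]
          exact le_of_eq (by ring)
        · positivity
      have h5 : (Yd p y D σ ^ 2 * (∏ j ∈ J, PP p (cell σ j) ^ lam) / PH p (supp σ)) *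
          (y i S ^ 2 / PH p S * (PP p S ^ lam - 1)) =
          (Yd p y D σ ^ 2 * y i S ^ 2) * (∏ j ∈ J, PP p (cell σ j) ^ lam) *
          (PP p S ^ lam - 1) / (PH p S * PH p (supp σ)) := by
        field_simp
      rw [h5, hF]
      apply div_le_div_of_nonneg_right _ (mul_pos hph hphs).le
      apply mul_le_mul_of_nonneg_right _ hpl
      exact mul_le_mul_of_nonneg_right h3 (hprod σ)
    refine le_trans (sum_le_sum h2) ?_
    rw [← mul_sum, mul_comm θ]
    apply mul_le_mul_of_nonneg_left _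
      (div_nonneg (mul_nonneg (sq_nonneg _) (hprod σ)) hphs.le)
    refine le_trans ?_ hθ
    have h6 : ∑ S ∈ (univ \ supp σ).powerset, y i S ^ 2 / PH p S * (PP p S ^ lam - 1) =
        ∑ S ∈ (univ \ supp σ).powerset.filter (fun S => S ≠ ∅),
          y i S ^ 2 / PH p S * (PP p S ^ lam - 1) := by
      symm
      apply sum_filter_of_ne
      intro S _ hS
      rintro rfl
      apply hS
      rw [PP_empty, Real.one_rpow, sub_self, mul_zero]
    rw [h6]
    apply sum_le_sum_of_subset_of_nonneg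
    · intro S hS
      rw [mem_filter] at hS ⊢
      exact ⟨mem_univ _, hS.2⟩
    · intro S _ _
      exact mul_nonneg (div_nonneg (sq_nonneg _) (chern_ph hp S).le)
        (sub_nonneg.mpr (chern_rpow hp hlam S))
  · apply sum_le_sum_of_subset_of_nonneg (filter_subset _ _)
    intro σ _ _
    exact mul_nonneg hθ0 (div_nonneg (mul_nonneg (sq_nonneg _) (hprod σ))
      (chern_ph hp (supp σ)).le)

open Classical in
private theorem chernoff {p : ι → ℕ} (hp : ∀ i, 2 ≤ p i) (y : κ → Finset ι → ℝ)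
    (hy0 : ∀ j, y j ∅ = 1) {D lam : ℝ} (hlam : 0 ≤ lam) (θ : κ → ℝ) (hθ0 : ∀ j, 0 ≤ θ j)
    (hθ : ∀ j, ∑ S ∈ (univ : Finset (Finset ι)).filter (fun S => S ≠ ∅),
      y j S ^ 2 / PH p S * (PP p S ^ lam - 1) ≤ θ j) :
    ∑ σ : ι → Option κ, Yd p y D σ ^ 2 * PP p (supp σ) ^ lam / PH p (supp σ) ≤
      (∏ j, (1 + θ j)) * ∑ σ : ι → Option κ, Yd p y D σ ^ 2 / PH p (supp σ) := by
  have key : ∀ J : Finset κ, ∑ σ : ι → Option κ,
      Yd p y D σ ^ 2 * (∏ j ∈ J, PP p (cell σ j) ^ lam) / PH p (supp σ) ≤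
      (∏ j ∈ J, (1 + θ j)) * ∑ σ : ι → Option κ, Yd p y D σ ^ 2 / PH p (supp σ) := by
    intro J
    induction J using Finset.induction_on with
    | empty => simp
    | insert i J hi ih =>
      have h1 : ∑ σ : ι → Option κ,
          Yd p y D σ ^ 2 * (∏ j ∈ insert i J, PP p (cell σ j) ^ lam) / PH p (supp σ) =
          ∑ σ : ι → Option κ, Yd p y D σ ^ 2 * (∏ j ∈ J, PP p (cell σ j) ^ lam) / PH p (supp σ) +
          ∑ σ : ι → Option κ, Yd p y D σ ^ 2 * (∏ j ∈ J, PP p (cell σ j) ^ lam) *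
            (PP p (cell σ i) ^ lam - 1) / PH p (supp σ) := by
        rw [← sum_add_distrib]
        apply sum_congr rfl
        intro σ _
        rw [prod_insert hi]
        ring
      have h2 := chern_step hp y hy0 (D := D) hlam (hθ0 i) J i hi (hθ i)
      rw [h1, prod_insert hi, mul_assoc]
      have h3 := mul_le_mul_of_nonneg_left ih (by linarith [hθ0 i] : (0 : ℝ) ≤ 1 + θ i)
      linarith
  have h1 := key univ
  refine le_trans (le_of_eq ?_) h1
  apply sum_congr rfl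
  intro σ _
  rw [Real.finsetProd_rpow _ _ (fun j _ => le_trans zero_le_one (one_le_PP hp _)),
    ← PP_supp_eq_prod]

open Classical in
theorem tailJ {p : ι → ℕ} (hp : ∀ i, 2 ≤ p i) (y : κ → Finset ι → ℝ) (hy0 : ∀ j, y j ∅ = 1)
    {D D2 lam : ℝ} (hD2 : 0 < D2) (hlam : 0 ≤ lam) (θ : κ → ℝ) (hθ0 : ∀ j, 0 ≤ θ j)
    (hθ : ∀ j, ∑ S ∈ (univ : Finset (Finset ι)).filter (fun S => S ≠ ∅),
      y j S ^ 2 / PH p S * (PP p S ^ lam - 1) ≤ θ j) :
    ∑ σ ∈ (univ : Finset (ι → Option κ)).filter (fun σ => D2 < PP p (supp σ)),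
        Yd p y D σ ^ 2 / PH p (supp σ) ≤
      D2 ^ (-lam) * Real.exp (∑ j, θ j) *
        ∑ σ : ι → Option κ, Yd p y D σ ^ 2 / PH p (supp σ) := by
  have hZ : 0 ≤ ∑ σ : ι → Option κ, Yd p y D σ ^ 2 / PH p (supp σ) :=
    sum_nonneg fun σ _ => div_nonneg (sq_nonneg _) (chern_ph hp _).le
  have h1 : ∑ σ ∈ (univ : Finset (ι → Option κ)).filter (fun σ => D2 < PP p (supp σ)),
        Yd p y D σ ^ 2 / PH p (supp σ) ≤
      D2 ^ (-lam) *
        ∑ σ : ι → Option κ, Yd p y D σ ^ 2 * PP p (supp σ) ^ lam / PH p (supp σ) := by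
    rw [mul_sum]
    refine le_trans (sum_le_sum (g := fun σ : ι → Option κ => D2 ^ (-lam) *
      (Yd p y D σ ^ 2 * PP p (supp σ) ^ lam / PH p (supp σ))) ?_) ?_
    · intro σ hσ
      rw [mem_filter] at hσ
      have h2 : 1 ≤ D2 ^ (-lam) * PP p (supp σ) ^ lam := by
        rw [Real.rpow_neg hD2.le, ← div_eq_inv_mul,
          one_le_div (Real.rpow_pos_of_pos hD2 lam)]
        exact Real.rpow_le_rpow hD2.le hσ.2.le hlam
      have h3 : D2 ^ (-lam) * (Yd p y D σ ^ 2 * PP p (supp σ) ^ lam / PH p (supp σ)) =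
          (D2 ^ (-lam) * PP p (supp σ) ^ lam) * (Yd p y D σ ^ 2 / PH p (supp σ)) := by ring
      rw [h3]
      exact le_mul_of_one_le_left (div_nonneg (sq_nonneg _) (chern_ph hp _).le) h2
    · apply sum_le_sum_of_subset_of_nonneg (filter_subset _ _)
      intro σ _ _
      exact mul_nonneg (Real.rpow_nonneg hD2.le _) (div_nonneg (mul_nonneg (sq_nonneg _)
        (le_trans zero_le_one (chern_rpow hp hlam _))) (chern_ph hp _).le)
  refine h1.trans ?_
  rw [mul_assoc]
  apply mul_le_mul_of_nonneg_left _ (Real.rpow_nonneg hD2.le _)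
  refine (chernoff hp y hy0 hlam θ hθ0 hθ).trans ?_
  apply mul_le_mul_of_nonneg_right _ hZ
  rw [Real.exp_sum]
  apply prod_le_prod
  · intro j _
    linarith [hθ0 j]
  · intro j _
    rw [add_comm]
    exact Real.add_one_le_exp (θ j)

private theorem chern_log {p : ι → ℕ} (hp : ∀ i, 2 ≤ p i) (S : Finset ι) :
    0 ≤ Real.log (PP p S) := Real.log_nonneg (one_le_PP hp S)

open Classical in
theorem theta_le {p : ι → ℕ} (hp : ∀ i, 2 ≤ p i) (f : Finset ι → ℝ) {S1 E : ℝ} (hS1 : 1 < S1)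
    (hfs : ∀ S, f S ≠ 0 → PP p S ≤ S1)
    (hE : ∑ S ∈ (univ : Finset (Finset ι)).filter (fun S => S ≠ ∅),
      f S ^ 2 / PH p S * Real.log (PP p S) ≤ E) :
    ∑ S ∈ (univ : Finset (Finset ι)).filter (fun S => S ≠ ∅),
      f S ^ 2 / PH p S * (PP p S ^ (1 / Real.log S1) - 1) ≤ 2 * E / Real.log S1 := by
  have hL := Real.log_pos hS1
  have h1 : ∑ S ∈ (univ : Finset (Finset ι)).filter (fun S => S ≠ ∅),
      f S ^ 2 / PH p S * (PP p S ^ (1 / Real.log S1) - 1) ≤
      ∑ S ∈ (univ : Finset (Finset ι)).filter (fun S => S ≠ ∅),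
        f S ^ 2 / PH p S * Real.log (PP p S) * (2 / Real.log S1) := by
    apply Finset.sum_le_sum
    intro S _
    by_cases hf : f S = 0
    · simp [hf]
    · have h2 := hfs S hf
      have h3 := chern_log hp S
      have h4 := chern_ph hp S
      have h5 : (1 : ℝ) ≤ PP p S := one_le_PP hp S
      have h6 : Real.log (PP p S) ≤ Real.log S1 := Real.log_le_log (by linarith) h2
      have h7 : PP p S ^ (1 / Real.log S1) - 1 ≤ 2 * (Real.log (PP p S) / Real.log S1) := by
        rw [Real.rpow_def_of_pos (by linarith), mul_one_div]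
        have h8 : 0 ≤ Real.log (PP p S) / Real.log S1 := by positivity
        have h9 : Real.log (PP p S) / Real.log S1 ≤ 1 := (div_le_one hL).mpr h6
        generalize Real.log (PP p S) / Real.log S1 = u at h8 h9
        have h10 := Real.abs_exp_sub_one_sub_id_le (x := u) (by rw [abs_of_nonneg h8]; exact h9)
        have h11 := (abs_le.mp h10).2
        nlinarith
      have h12 : f S ^ 2 / PH p S * Real.log (PP p S) * (2 / Real.log S1) =
          f S ^ 2 / PH p S * (2 * (Real.log (PP p S) / Real.log S1)) := by ring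
      rw [h12]
      exact mul_le_mul_of_nonneg_left h7 (by positivity)
  refine h1.trans ?_
  rw [← Finset.sum_mul]
  have h13 := mul_le_mul_of_nonneg_right hE (by positivity : 0 ≤ 2 / Real.log S1)
  refine h13.trans (le_of_eq ?_)
  ring

end Pool.Agent.RT
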