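import Pool.Agent.RT.SBase

/-! RT/Gam.  The sum over the patterns `T`, `|T| < r`.

`b T' U = ∑_{S ⊇ T', S ∩ U = ∅, PP S PP U ≤ D} f S/PH S`.  Since
`∏_{i∈S∩T} (1 - p i) = ∑_{T' ⊆ S ∩ T} ∏_{T'} (-p i)` (`Finset.prod_one_add`/`prod_add`):
`cT T U = ∑_{T' ⊆ T} (∏_{T'} (-p)) b T' U`, so `cT^2 ≤ 2^|T| ∑_{T'⊆T} (PP T')^2 (b T')^2` and
`∑_{|T|<r} cT^2/PP T ≤ 2^r ∑_{|T'|<r} (PP T')^2 (b T')^2 ∑_{T ⊇ T'} 1/PP T ≤ 2^r Φ ∑_{|T'|<r} PP T' (b T')^2`
(`∑_{T ⊇ T'} 1/PP T = (1/PP T') ∏_{i ∉ T'} (1 + 1/p i) ≤ Φ/PP T'`).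
`Gam_le`: Cauchy-Schwarz `(b T')^2 ≤ (∑_{S⊇T'} f^2/PH) (∑_{S ⊇ T'} 1/PH S) ≤ (∑_{S⊇T'} f^2/PH) Φ/PH T'`,
`PP T'/PH T' ≤ 2^|T'| ≤ 2^r`, and `∑_{|T'|<r} ∑_{S⊇T'} f^2/PH = ∑_S (f^2/PH) #{T' ⊆ S : |T'| < r}
 ≤ (1+s)^r ∑ f^2/PH` (`∑_{j<r} C(n,j) ≤ (1+n)^r`).
`Gam_small`: if `PP U S1 ≤ D` the truncation is void (`f S ≠ 0 → PP S ≤ S1`), so by the moment condition
`b T' U = -∑_{S ⊇ T', S ∩ U ≠ ∅} f/PH` for `|T'| < r`; if `T' ∩ U ≠ ∅` then `b T' U = 0`; otherwise
`∑_{S ⊇ T', S ∩ U ≠ ∅} 1/PH S ≤ ∑_{i∈U} ∑_{S ⊇ insert i T'} 1/PH S ≤ (Φ/PH T') ∑_{i∈U} 1/(p i - 1)`: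
the same bound as before with the extra factor `∑_{i∈U} 1/(p i - 1)`. -/

namespace Pool.Agent.RT

open Finset Pool.Agent.RS

variable {ι : Type} [Fintype ι] [DecidableEq ι]

open Classical in
/-- the truncated sum over `S ⊇ T'` -/
noncomputable def bT (p : ι → ℕ) (f : Finset ι → ℝ) (D : ℝ) (T' U : Finset ι) : ℝ :=
  ∑ S ∈ (univ \ U).powerset.filter (fun S => T' ⊆ S ∧ PP p S * PP p U ≤ D), f S / PH p S

omit [Fintype ι] in
private theorem gamA_prod (p : ι → ℕ) (S T : Finset ι) :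
    ∏ i ∈ S ∩ T, (1 - (p i : ℝ)) =
      ∑ A ∈ T.powerset, if A ⊆ S then ∏ i ∈ A, (-(p i : ℝ)) else 0 := by
  have h1 : ∀ i, 1 - (p i : ℝ) = 1 + (-(p i : ℝ)) := fun i => by ring
  simp_rw [h1]
  rw [Finset.prod_one_add, ← Finset.sum_filter]
  congr 1
  ext A
  simp only [mem_powerset, mem_filter, subset_inter_iff]
  tauto

open Classical in
private theorem gamA_cT (p : ι → ℕ) (f : Finset ι → ℝ) (D : ℝ) (T U : Finset ι) :
    cT p f D T U = ∑ A ∈ T.powerset, (∏ i ∈ A, (-(p i : ℝ))) * bT p f D A U := by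
  unfold cT bT
  have h1 : ∀ S ∈ (univ \ U).powerset,
      (if PP p S * PP p U ≤ D then f S / PH p S * ∏ i ∈ S ∩ T, (1 - (p i : ℝ)) else 0) =
      ∑ A ∈ T.powerset, if (A ⊆ S ∧ PP p S * PP p U ≤ D) then
        (∏ i ∈ A, (-(p i : ℝ))) * (f S / PH p S) else 0 := by
    intro S _
    by_cases hc : PP p S * PP p U ≤ D
    · rw [if_pos hc, gamA_prod, Finset.mul_sum]
      refine Finset.sum_congr rfl fun A _ => ?_
      by_cases hA : A ⊆ S
      · rw [if_pos hA, if_pos ⟨hA, hc⟩]; ring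
      · rw [if_neg hA, if_neg (fun h => hA h.1)]; ring
    · rw [if_neg hc]
      symm
      refine Finset.sum_eq_zero fun A _ => ?_
      rw [if_neg (fun h => hc h.2)]
  rw [Finset.sum_congr rfl h1, Finset.sum_comm]
  refine Finset.sum_congr rfl fun A _ => ?_
  rw [Finset.mul_sum, Finset.sum_filter]

omit [Fintype ι] [DecidableEq ι] in
private theorem gamA_one_le {p : ι → ℕ} (hp : ∀ i, 2 ≤ p i) (i : ι) : (2 : ℝ) ≤ p i := by
  exact_mod_cast hp i

omit [Fintype ι] [DecidableEq ι] in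
private theorem gamA_PPpos {p : ι → ℕ} (hp : ∀ i, 2 ≤ p i) (S : Finset ι) : 0 < PP p S :=
  Finset.prod_pos fun i _ => by linarith [gamA_one_le hp i]

omit [Fintype ι] [DecidableEq ι] in
private theorem gamA_PHpos {p : ι → ℕ} (hp : ∀ i, 2 ≤ p i) (S : Finset ι) : 0 < PH p S :=
  Finset.prod_pos fun i _ => by linarith [gamA_one_le hp i]

private theorem gamA_sq {p : ι → ℕ} (f : Finset ι → ℝ) (D : ℝ) (T U : Finset ι) :
    cT p f D T U ^ 2 ≤ 2 ^ T.card * ∑ A ∈ T.powerset, PP p A ^ 2 * bT p f D A U ^ 2 := by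
  rw [gamA_cT]
  refine (sq_sum_le_card_mul_sum_sq).trans ?_
  rw [card_powerset]
  push_cast
  refine le_of_eq ?_
  congr 1
  refine Finset.sum_congr rfl fun A _ => ?_
  rw [mul_pow]
  congr 1
  rw [Finset.prod_neg]
  unfold PP
  rw [mul_pow, ← pow_mul, mul_comm (#A) 2, pow_mul]
  simp

/-- `∑_{T ⊇ A} 1/PP T ≤ Φ/PP A` -/
private theorem gamA_sup {p : ι → ℕ} (hp : ∀ i, 2 ≤ p i) {Φ : ℝ}
    (hΦ : ∏ i, (1 + 1 / ((p i : ℝ) - 1)) ≤ Φ) (A : Finset ι) :
    ∑ T ∈ (univ : Finset (Finset ι)).filter (fun T => A ⊆ T), 1 / PP p T ≤ Φ / PP p A := by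
  have h1 : ∑ T ∈ (univ : Finset (Finset ι)).filter (fun T => A ⊆ T), 1 / PP p T
      = ∑ B ∈ (univ \ A).powerset, 1 / PP p A * ∏ i ∈ B, (1 / (p i : ℝ)) := by
    symm
    refine Finset.sum_bij' (fun B _ => A ∪ B) (fun T _ => T \ A) ?_ ?_ ?_ ?_ ?_
    · intro B hB; simp
    · intro T hT; simp only [mem_powerset]; exact sdiff_subset_sdiff (subset_univ _) le_rfl
    · intro B hB
      simp only [mem_powerset] at hB
      have hd : Disjoint A B := by
        rw [Finset.disjoint_left]; intro x hx hxB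
        have := hB hxB
        simp at this; exact this hx
      rw [Finset.union_sdiff_left, Finset.sdiff_eq_self_iff_disjoint]
      exact hd.symm
    · intro T hT
      simp only [mem_filter, mem_univ, true_and] at hT
      exact Finset.union_sdiff_of_subset hT
    · intro B hB
      simp only [mem_powerset] at hB
      have hd : Disjoint A B := by
        rw [Finset.disjoint_left]; intro x hx hxB
        have := hB hxB
        simp at this; exact this hx
      unfold PP
      rw [Finset.prod_union hd]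
      simp only [one_div, mul_inv, Finset.prod_inv_distrib]
  rw [h1, ← Finset.mul_sum, ← Finset.prod_one_add]
  have h2 : ∏ i ∈ univ \ A, (1 + 1 / (p i : ℝ)) ≤ Φ := by
    refine le_trans ?_ hΦ
    calc ∏ i ∈ univ \ A, (1 + 1 / (p i : ℝ)) ≤ ∏ i ∈ univ \ A, (1 + 1 / ((p i : ℝ) - 1)) := by
          refine Finset.prod_le_prod (fun i _ => ?_) (fun i _ => ?_)
          · have := gamA_one_le hp i
            positivity
          · have := gamA_one_le hp i
            have h3 : 1 / (p i : ℝ) ≤ 1 / ((p i : ℝ) - 1) :=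
              one_div_le_one_div_of_le (by linarith) (by linarith)
            linarith
      _ ≤ ∏ i, (1 + 1 / ((p i : ℝ) - 1)) := by
          have h5 : ∀ i, 0 ≤ 1 / ((p i : ℝ) - 1) := fun i => by
            have := gamA_one_le hp i
            have : 0 < (p i : ℝ) - 1 := by linarith
            positivity
          rw [← Finset.prod_sdiff (subset_univ A)]
          have h3 : 1 ≤ ∏ i ∈ A, (1 + 1 / ((p i : ℝ) - 1)) := by
            have h4 := Finset.prod_le_prod (s := A) (f := fun _ => (1 : ℝ))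
              (g := fun i => 1 + 1 / ((p i : ℝ) - 1)) (fun i _ => zero_le_one)
              (fun i _ => by have := h5 i; linarith)
            simpa using h4
          refine le_mul_of_one_le_right ?_ h3
          exact Finset.prod_nonneg fun i _ => by have := h5 i; linarith
  have h3 := gamA_PPpos hp A
  rw [one_div, div_eq_inv_mul]
  exact mul_le_mul_of_nonneg_left h2 (by positivity)

omit [Fintype ι] [DecidableEq ι] in
/-- `PP A / PH A ≤ 2^|A|` -/
private theorem gamA_ratio {p : ι → ℕ} (hp : ∀ i, 2 ≤ p i) (A : Finset ι) :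
    PP p A ≤ 2 ^ A.card * PH p A := by
  unfold PP PH
  rw [← Finset.prod_const, ← Finset.prod_mul_distrib]
  refine Finset.prod_le_prod (fun i _ => by positivity) (fun i _ => ?_)
  linarith [gamA_one_le hp i]

omit [Fintype ι] in
/-- the number of subsets with less than `r` elements -/
private theorem gamA_card (S : Finset ι) (r : ℕ) :
    ((S.powerset.filter (fun A => A.card < r)).card : ℝ) ≤ (1 + (S.card : ℝ)) ^ r := by
  cases r with
  | zero => simp
  | succ m =>
    have h1 : (S.powerset.filter (fun A => A.card < m + 1)).card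
        ≤ ∑ j ∈ range (m + 1), S.card.choose j := by
      have : S.powerset.filter (fun A => A.card < m + 1)
          ⊆ (range (m + 1)).biUnion (fun j => powersetCard j S) := by
        intro A hA
        simp only [mem_filter, mem_powerset] at hA
        simp only [mem_biUnion, mem_range, mem_powersetCard]
        exact ⟨A.card, hA.2, hA.1, rfl⟩
      refine (card_le_card this).trans (card_biUnion_le.trans ?_)
      simp
    have h2 : ∑ j ∈ range (m + 1), S.card.choose j ≤ (1 + S.card) ^ m := by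
      rw [add_comm 1, add_pow]
      refine Finset.sum_le_sum fun j hj => ?_
      simp only [one_pow, mul_one, Nat.cast_id]
      have h3 : S.card.choose j ≤ S.card ^ j := Nat.choose_le_pow S.card j
      have h4 : 1 ≤ m.choose j := Nat.choose_pos (by simp at hj; omega)
      nlinarith [Nat.zero_le (S.card ^ j)]
    have h5 : ((S.powerset.filter (fun A => A.card < m + 1)).card : ℝ)
        ≤ (1 + (S.card : ℝ)) ^ m := by exact_mod_cast h1.trans h2
    refine h5.trans ?_
    exact pow_le_pow_right₀ (by linarith [Nat.cast_nonneg (α := ℝ) S.card]) (by omega)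

open Classical in
/-- common part: if `(b T')^2 ≤ (∑_{S⊇T'} f^2/PH) * ε * Φ/PH T'` for all `|T'| < r` -/
theorem Gam_common {p : ι → ℕ} (hp : ∀ i, 2 ≤ p i) (f : Finset ι → ℝ) {D S1 : ℝ} {r s : ℕ}
    (hfs : ∀ S, f S ≠ 0 → PP p S ≤ S1) (hs : ∀ S : Finset ι, PP p S ≤ S1 → S.card ≤ s) {Φ : ℝ}
    (hΦ : ∏ i, (1 + 1 / ((p i : ℝ) - 1)) ≤ Φ) (U : Finset ι) {ε : ℝ} (hε : 0 ≤ ε)
    (hb : ∀ T' : Finset ι, T'.card < r → bT p f D T' U ^ 2 ≤
      (∑ S ∈ (univ : Finset (Finset ι)).filter (fun S => T' ⊆ S), f S ^ 2 / PH p S) *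
        (ε * Φ / PH p T')) :
    ∑ T ∈ (univ : Finset (Finset ι)).filter (fun T => T.card < r), cT p f D T U ^ 2 / PP p T ≤
      4 ^ r * Φ ^ 2 * (1 + (s : ℝ)) ^ r * (∑ S, f S ^ 2 / PH p S) * ε := by
  have hΦ0 : 0 < Φ := by
    refine lt_of_lt_of_le ?_ hΦ
    refine Finset.prod_pos fun i _ => ?_
    have := gamA_one_le hp i
    have : 0 < (p i : ℝ) - 1 := by linarith
    positivity
  set g : Finset ι → ℝ := fun A => PP p A ^ 2 * bT p f D A U ^ 2 with hg
  have hg0 : ∀ A, 0 ≤ g A := fun A => by positivity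
  -- step 1
  have s1 : ∑ T ∈ (univ : Finset (Finset ι)).filter (fun T => T.card < r),
      cT p f D T U ^ 2 / PP p T ≤
      ∑ T ∈ (univ : Finset (Finset ι)).filter (fun T => T.card < r),
        ∑ A ∈ T.powerset, 2 ^ r * (g A * (1 / PP p T)) := by
    refine Finset.sum_le_sum fun T hT => ?_
    simp only [mem_filter, mem_univ, true_and] at hT
    have h1 := gamA_PPpos hp T
    rw [← Finset.mul_sum, ← Finset.sum_mul, one_div, ← mul_assoc, ← div_eq_mul_inv]
    refine div_le_div_of_nonneg_right ?_ h1.le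
    refine (gamA_sq f D T U).trans ?_
    refine mul_le_mul_of_nonneg_right ?_ (Finset.sum_nonneg fun A _ => hg0 A)
    exact pow_le_pow_right₀ (by norm_num) hT.le
  -- step 2
  have s2 : ∑ T ∈ (univ : Finset (Finset ι)).filter (fun T => T.card < r),
        ∑ A ∈ T.powerset, 2 ^ r * (g A * (1 / PP p T)) ≤
      ∑ A ∈ (univ : Finset (Finset ι)).filter (fun T => T.card < r),
        ∑ T ∈ (univ : Finset (Finset ι)).filter (fun T => A ⊆ T),
          2 ^ r * (g A * (1 / PP p T)) := by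
    rw [Finset.sum_sigma', Finset.sum_sigma']
    refine le_trans (le_of_eq ?_) (Finset.sum_le_sum_of_subset_of_nonneg
      (s := (((univ : Finset (Finset ι)).filter (fun T => T.card < r)).sigma
        (fun T => T.powerset)).map
          ⟨fun x => (⟨x.2, x.1⟩ : Σ _ : Finset ι, Finset ι), ?_⟩) ?_ ?_)
    · rw [Finset.sum_map]
      rfl
    · rintro ⟨a, b⟩ ⟨c, d⟩ h
      simp only [Sigma.mk.injEq, heq_eq_eq] at h ⊢
      exact ⟨h.2, h.1⟩
    · intro x hx
      simp only [mem_map, mem_sigma, mem_filter, mem_univ, true_and, mem_powerset,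
        Function.Embedding.coeFn_mk] at hx ⊢
      obtain ⟨y, ⟨hy1, hy2⟩, rfl⟩ := hx
      exact ⟨lt_of_le_of_lt (card_le_card hy2) hy1, hy2⟩
    · intro x _ _
      have h1 := gamA_PPpos hp x.2
      have h2 := hg0 x.1
      positivity
  -- step 3
  have s3 : ∑ A ∈ (univ : Finset (Finset ι)).filter (fun T => T.card < r),
        ∑ T ∈ (univ : Finset (Finset ι)).filter (fun T => A ⊆ T),
          2 ^ r * (g A * (1 / PP p T)) ≤
      ∑ A ∈ (univ : Finset (Finset ι)).filter (fun T => T.card < r),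
        ∑ S ∈ (univ : Finset (Finset ι)).filter (fun S => A ⊆ S),
          (4 ^ r * Φ ^ 2 * ε) * (f S ^ 2 / PH p S) := by
    refine Finset.sum_le_sum fun A hA => ?_
    simp only [mem_filter, mem_univ, true_and] at hA
    have h1 := gamA_PPpos hp A
    have h2 := gamA_PHpos hp A
    rw [← Finset.mul_sum, ← Finset.mul_sum, ← Finset.mul_sum]
    set F := ∑ S ∈ (univ : Finset (Finset ι)).filter (fun S => A ⊆ S), f S ^ 2 / PH p S with hF
    have hF0 : 0 ≤ F := Finset.sum_nonneg fun S _ => by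
      have := gamA_PHpos hp S
      positivity
    have h3 := gamA_sup hp hΦ A
    have h4 := hb A hA
    have h5 := gamA_ratio hp A
    have h6 : (2 : ℝ) ^ A.card ≤ 2 ^ r := pow_le_pow_right₀ (by norm_num) hA.le
    have h7 : PP p A ≤ 2 ^ r * PH p A := h5.trans (mul_le_mul_of_nonneg_right h6 h2.le)
    calc 2 ^ r * (g A * ∑ T ∈ (univ : Finset (Finset ι)).filter (fun T => A ⊆ T), 1 / PP p T)
        ≤ 2 ^ r * (g A * (Φ / PP p A)) := by
          refine mul_le_mul_of_nonneg_left (mul_le_mul_of_nonneg_left h3 (hg0 A)) (by positivity)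
      _ = 2 ^ r * Φ * PP p A * bT p f D A U ^ 2 := by
          simp only [hg]; field_simp
      _ ≤ 2 ^ r * Φ * PP p A * (F * (ε * Φ / PH p A)) := by
          refine mul_le_mul_of_nonneg_left h4 (by positivity)
      _ = (2 ^ r * Φ ^ 2 * ε * F / PH p A) * PP p A := by
          field_simp
      _ ≤ (2 ^ r * Φ ^ 2 * ε * F / PH p A) * (2 ^ r * PH p A) := by
          refine mul_le_mul_of_nonneg_left h7 (by positivity)
      _ = 4 ^ r * Φ ^ 2 * ε * F := by
          have : (4 : ℝ) ^ r = 2 ^ r * 2 ^ r := by rw [← mul_pow]; norm_num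
          rw [this]; field_simp
  -- step 4
  have s4 : ∑ A ∈ (univ : Finset (Finset ι)).filter (fun T => T.card < r),
        ∑ S ∈ (univ : Finset (Finset ι)).filter (fun S => A ⊆ S),
          (4 ^ r * Φ ^ 2 * ε) * (f S ^ 2 / PH p S) =
      ∑ S : Finset ι, ((S.powerset.filter (fun A => A.card < r)).card : ℝ) *
        ((4 ^ r * Φ ^ 2 * ε) * (f S ^ 2 / PH p S)) := by
    have e1 : ∀ A : Finset ι, ∑ S ∈ (univ : Finset (Finset ι)).filter (fun S => A ⊆ S),
          (4 ^ r * Φ ^ 2 * ε) * (f S ^ 2 / PH p S) =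
        ∑ S : Finset ι, if A ⊆ S then (4 ^ r * Φ ^ 2 * ε) * (f S ^ 2 / PH p S) else 0 :=
      fun A => Finset.sum_filter _ _
    simp_rw [e1]
    rw [Finset.sum_comm]
    refine Finset.sum_congr rfl fun S _ => ?_
    rw [← Finset.sum_filter, Finset.sum_const, nsmul_eq_mul]
    congr 2
    congr 1
    ext A
    simp only [mem_filter, mem_univ, true_and, mem_powerset]
    tauto
  refine s1.trans (s2.trans (s3.trans (le_of_eq s4 |>.trans ?_)))
  have e2 : 4 ^ r * Φ ^ 2 * (1 + (s : ℝ)) ^ r * (∑ S, f S ^ 2 / PH p S) * ε =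
      ∑ S : Finset ι, (1 + (s : ℝ)) ^ r * ((4 ^ r * Φ ^ 2 * ε) * (f S ^ 2 / PH p S)) := by
    rw [← Finset.mul_sum, ← Finset.mul_sum]; ring
  rw [e2]
  refine Finset.sum_le_sum fun S _ => ?_
  by_cases hfS : f S = 0
  · rw [hfS]; simp
  · have h1 : S.card ≤ s := hs S (hfs S hfS)
    have h2 := gamA_PHpos hp S
    refine mul_le_mul_of_nonneg_right ((gamA_card S r).trans ?_) (by positivity)
    refine pow_le_pow_left₀ (by positivity) ?_ r
    have : (S.card : ℝ) ≤ s := by exact_mod_cast h1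
    linarith

omit [Fintype ι] [DecidableEq ι] in
private theorem gb_PH_pos {p : ι → ℕ} (hp : ∀ i, 2 ≤ p i) (S : Finset ι) : 0 < PH p S := by
  unfold PH
  apply prod_pos
  intro i _
  have : (2 : ℝ) ≤ p i := by exact_mod_cast hp i
  linarith

omit [Fintype ι] [DecidableEq ι] in
private theorem gb_PP_nonneg (p : ι → ℕ) (S : Finset ι) : 0 ≤ PP p S := by
  unfold PP
  exact prod_nonneg fun i _ => Nat.cast_nonneg _

omit [Fintype ι] [DecidableEq ι] in
private theorem gb_inv_PH {p : ι → ℕ} (S : Finset ι) :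
    1 / PH p S = ∏ i ∈ S, (1 / ((p i : ℝ) - 1)) := by
  unfold PH
  rw [prod_div_distrib, prod_const_one]

omit [DecidableEq ι] in
private theorem gb_prodPhi_nonneg {p : ι → ℕ} (hp : ∀ i, 2 ≤ p i) :
    0 ≤ ∏ i, (1 + 1 / ((p i : ℝ) - 1)) := by
  apply prod_nonneg
  intro i _
  have h1 : (2 : ℝ) ≤ p i := by exact_mod_cast hp i
  have h2 : 0 ≤ 1 / ((p i : ℝ) - 1) := by
    apply div_nonneg zero_le_one
    linarith
  linarith

open Classical in
private theorem gb_sum_sup_le {p : ι → ℕ} (hp : ∀ i, 2 ≤ p i) {Φ : ℝ}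
    (hΦ : ∏ i, (1 + 1 / ((p i : ℝ) - 1)) ≤ Φ) (T' : Finset ι) :
    ∑ S ∈ (univ : Finset (Finset ι)).filter (fun S => T' ⊆ S), 1 / PH p S ≤ Φ / PH p T' := by
  have h1 : ∀ S ∈ (univ : Finset (Finset ι)).filter (fun S => T' ⊆ S),
      1 / PH p S = (1 / PH p T') * (1 / PH p (S \ T')) := by
    intro S hS
    have hTS : T' ⊆ S := (mem_filter.1 hS).2
    rw [gb_inv_PH, gb_inv_PH, gb_inv_PH, mul_comm, prod_sdiff hTS]
  rw [sum_congr rfl h1, ← mul_sum]
  have hinj : Set.InjOn (fun S : Finset ι => S \ T')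
      ((univ : Finset (Finset ι)).filter (fun S => T' ⊆ S) : Set (Finset ι)) := by
    intro S hS S' hS' h
    have h2 : T' ⊆ S := (mem_filter.1 hS).2
    have h3 : T' ⊆ S' := (mem_filter.1 hS').2
    have h4 : S \ T' = S' \ T' := h
    rw [← sdiff_union_of_subset h2, h4, sdiff_union_of_subset h3]
  have h2 : ∑ S ∈ (univ : Finset (Finset ι)).filter (fun S => T' ⊆ S), 1 / PH p (S \ T')
      ≤ Φ := by
    calc ∑ S ∈ (univ : Finset (Finset ι)).filter (fun S => T' ⊆ S), 1 / PH p (S \ T')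
        = ∑ R ∈ ((univ : Finset (Finset ι)).filter (fun S => T' ⊆ S)).image
            (fun S : Finset ι => S \ T'), 1 / PH p R := by
          rw [sum_image hinj]
      _ ≤ ∑ R ∈ (univ : Finset ι).powerset, 1 / PH p R := by
          apply sum_le_sum_of_subset_of_nonneg
          · intro R _
            exact mem_powerset.2 (subset_univ R)
          · intro R _ _
            exact (div_pos one_pos (gb_PH_pos hp R)).le
      _ = ∏ i, (1 + 1 / ((p i : ℝ) - 1)) := by
          rw [prod_one_add]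
          exact sum_congr rfl fun R _ => gb_inv_PH R
      _ ≤ Φ := hΦ
  calc (1 / PH p T') * ∑ S ∈ (univ : Finset (Finset ι)).filter (fun S => T' ⊆ S),
        1 / PH p (S \ T') ≤ (1 / PH p T') * Φ :=
        mul_le_mul_of_nonneg_left h2 (div_pos one_pos (gb_PH_pos hp T')).le
    _ = Φ / PH p T' := by ring

open Classical in
private theorem gb_cs_le {p : ι → ℕ} (hp : ∀ i, 2 ≤ p i) (f : Finset ι → ℝ) (T' : Finset ι)
    (F : Finset (Finset ι)) (hF : ∀ S ∈ F, T' ⊆ S) :
    (∑ S ∈ F, f S / PH p S) ^ 2 ≤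
      (∑ S ∈ (univ : Finset (Finset ι)).filter (fun S => T' ⊆ S), f S ^ 2 / PH p S) *
        ∑ S ∈ F, 1 / PH p S := by
  have h1 : (∑ S ∈ F, f S / PH p S) ^ 2 ≤ (∑ S ∈ F, f S ^ 2 / PH p S) * ∑ S ∈ F, 1 / PH p S := by
    apply sum_sq_le_sum_mul_sum_of_sq_le_mul
    · intro S _
      exact div_nonneg (sq_nonneg _) (gb_PH_pos hp S).le
    · intro S _
      exact (div_pos one_pos (gb_PH_pos hp S)).le
    · intro S _
      apply le_of_eq
      ring
  refine le_trans h1 (mul_le_mul_of_nonneg_right ?_ ?_)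
  · apply sum_le_sum_of_subset_of_nonneg
    · intro S hS
      exact mem_filter.2 ⟨mem_univ S, hF S hS⟩
    · intro S _ _
      exact div_nonneg (sq_nonneg _) (gb_PH_pos hp S).le
  · exact sum_nonneg fun S _ => (div_pos one_pos (gb_PH_pos hp S)).le

open Classical in
theorem Gam_le {p : ι → ℕ} (hp : ∀ i, 2 ≤ p i) (f : Finset ι → ℝ) {D S1 : ℝ} {r s : ℕ}
    (hfs : ∀ S, f S ≠ 0 → PP p S ≤ S1) (hs : ∀ S : Finset ι, PP p S ≤ S1 → S.card ≤ s) {Φ : ℝ}
    (hΦ : ∏ i, (1 + 1 / ((p i : ℝ) - 1)) ≤ Φ) (U : Finset ι) :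
    ∑ T ∈ (univ : Finset (Finset ι)).filter (fun T => T.card < r), cT p f D T U ^ 2 / PP p T ≤
      4 ^ r * Φ ^ 2 * (1 + (s : ℝ)) ^ r * ∑ S, f S ^ 2 / PH p S := by
  have h := Gam_common (D := D) (r := r) hp f hfs hs hΦ U (ε := 1) zero_le_one ?_
  · rw [mul_one] at h
    exact h
  · intro T' _
    rw [one_mul]
    unfold bT
    refine le_trans (gb_cs_le hp f T' _ (fun S hS => (mem_filter.1 hS).2.1)) ?_
    apply mul_le_mul_of_nonneg_left
    · refine le_trans ?_ (gb_sum_sup_le hp hΦ T')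
      apply sum_le_sum_of_subset_of_nonneg
      · intro S hS
        exact mem_filter.2 ⟨mem_univ S, (mem_filter.1 hS).2.1⟩
      · intro S _ _
        exact (div_pos one_pos (gb_PH_pos hp S)).le
    · exact sum_nonneg fun S _ => div_nonneg (sq_nonneg _) (gb_PH_pos hp S).le

open Classical in
theorem Gam_small {p : ι → ℕ} (hp : ∀ i, 2 ≤ p i) (f : Finset ι → ℝ) {D S1 : ℝ} {r s : ℕ}
    (hfs : ∀ S, f S ≠ 0 → PP p S ≤ S1) (hs : ∀ S : Finset ι, PP p S ≤ S1 → S.card ≤ s) {Φ : ℝ}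
    (hΦ : ∏ i, (1 + 1 / ((p i : ℝ) - 1)) ≤ Φ)
    (hm : ∀ T : Finset ι, T.card < r →
      ∑ S ∈ (univ : Finset (Finset ι)).filter (fun S => T ⊆ S), f S / PH p S = 0)
    (U : Finset ι) (hU : PP p U * S1 ≤ D) :
    ∑ T ∈ (univ : Finset (Finset ι)).filter (fun T => T.card < r), cT p f D T U ^ 2 / PP p T ≤
      4 ^ r * Φ ^ 2 * (1 + (s : ℝ)) ^ r * (∑ S, f S ^ 2 / PH p S) *
        ∑ i ∈ U, 1 / ((p i : ℝ) - 1) := by
  have hΦ0 : 0 ≤ Φ := le_trans (gb_prodPhi_nonneg hp) hΦ
  have hε0 : 0 ≤ ∑ i ∈ U, 1 / ((p i : ℝ) - 1) := by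
    apply sum_nonneg
    intro i _
    have h1 : (2 : ℝ) ≤ p i := by exact_mod_cast hp i
    apply div_nonneg zero_le_one
    linarith
  have hA0 : ∀ T' : Finset ι, 0 ≤
      ∑ S ∈ (univ : Finset (Finset ι)).filter (fun S => T' ⊆ S), f S ^ 2 / PH p S :=
    fun T' => sum_nonneg fun S _ => div_nonneg (sq_nonneg _) (gb_PH_pos hp S).le
  refine Gam_common (D := D) (r := r) hp f hfs hs hΦ U hε0 ?_
  intro T' hT'
  by_cases hTU : Disjoint T' U
  · -- main case
    have h1 : bT p f D T' U =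
        ∑ S ∈ ((univ : Finset (Finset ι)).filter (fun S => T' ⊆ S)).filter
          (fun S => Disjoint S U), f S / PH p S := by
      unfold bT
      apply sum_subset_zero_on_sdiff
      · intro S hS
        obtain ⟨hSU, hTS, _⟩ := mem_filter.1 hS
        refine mem_filter.2 ⟨mem_filter.2 ⟨mem_univ S, hTS⟩, ?_⟩
        have := mem_powerset.1 hSU
        rw [disjoint_left]
        intro i hi hiU
        exact (mem_sdiff.1 (this hi)).2 hiU
      · intro S hS
        obtain ⟨hS1, hS2⟩ := mem_sdiff.1 hS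
        obtain ⟨hS3, hS4⟩ := mem_filter.1 hS1
        have hTS : T' ⊆ S := (mem_filter.1 hS3).2
        by_contra hne
        have hf0 : f S ≠ 0 := by
          intro h0
          rw [h0, zero_div] at hne
          exact hne rfl
        apply hS2
        refine mem_filter.2 ⟨mem_powerset.2 ?_, hTS, ?_⟩
        · intro i hi
          exact mem_sdiff.2 ⟨mem_univ i, fun hiU => (disjoint_left.1 hS4) hi hiU⟩
        · calc PP p S * PP p U ≤ S1 * PP p U :=
                mul_le_mul_of_nonneg_right (hfs S hf0) (gb_PP_nonneg p U)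
            _ = PP p U * S1 := mul_comm _ _
            _ ≤ D := hU
      · intro S _
        rfl
    have h2 : bT p f D T' U = -
        ∑ S ∈ ((univ : Finset (Finset ι)).filter (fun S => T' ⊆ S)).filter
          (fun S => ¬ Disjoint S U), f S / PH p S := by
      have h3 := sum_filter_add_sum_filter_not
        ((univ : Finset (Finset ι)).filter (fun S => T' ⊆ S)) (fun S => Disjoint S U)
        (fun S => f S / PH p S)
      rw [hm T' hT', ← h1] at h3
      linarith
    rw [h2, neg_sq]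
    refine le_trans (gb_cs_le hp f T' _ (fun S hS => (mem_filter.1 (mem_filter.1 hS).1).2)) ?_
    apply mul_le_mul_of_nonneg_left _ (hA0 T')
    -- the sum over the sets meeting U
    have h4 : ∑ S ∈ ((univ : Finset (Finset ι)).filter (fun S => T' ⊆ S)).filter
          (fun S => ¬ Disjoint S U), 1 / PH p S ≤
        ∑ i ∈ U, ∑ S ∈ (univ : Finset (Finset ι)).filter (fun S => insert i T' ⊆ S),
          1 / PH p S := by
      have h40 : ∀ i ∈ U, ∑ S ∈ (univ : Finset (Finset ι)).filter (fun S => insert i T' ⊆ S),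
          1 / PH p S = ∑ S ∈ (univ : Finset (Finset ι)),
            if insert i T' ⊆ S then 1 / PH p S else 0 := fun i _ => sum_filter _ _
      rw [sum_congr rfl h40, sum_comm]
      have h41 : ∀ S : Finset ι, ∀ i : ι, 0 ≤ (if insert i T' ⊆ S then 1 / PH p S else 0) := by
        intro S i
        split_ifs
        · exact (div_pos one_pos (gb_PH_pos hp S)).le
        · exact le_rfl
      refine le_trans ?_ (sum_le_sum_of_subset_of_nonneg (subset_univ
        (((univ : Finset (Finset ι)).filter (fun S => T' ⊆ S)).filter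
          (fun S => ¬ Disjoint S U))) (fun S _ _ => sum_nonneg fun i _ => h41 S i))
      apply sum_le_sum
      intro S hS
      obtain ⟨hS1, hS2⟩ := mem_filter.1 hS
      have hTS : T' ⊆ S := (mem_filter.1 hS1).2
      obtain ⟨i, hiS, hiU⟩ := not_disjoint_iff.1 hS2
      have h42 : 1 / PH p S = (if insert i T' ⊆ S then 1 / PH p S else 0) := by
        rw [if_pos (insert_subset_iff.2 ⟨hiS, hTS⟩)]
      exact le_trans (le_of_eq h42)
        (single_le_sum (f := fun i => if insert i T' ⊆ S then 1 / PH p S else 0)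
          (fun i _ => h41 S i) hiU)
    refine le_trans h4 ?_
    rw [sum_mul, sum_div]
    apply sum_le_sum
    intro i hi
    refine le_trans (gb_sum_sup_le hp hΦ (insert i T')) (le_of_eq ?_)
    have hiT : i ∉ T' := fun h => (disjoint_left.1 hTU) h hi
    have h5 : PH p (insert i T') = ((p i : ℝ) - 1) * PH p T' := by
      unfold PH
      rw [prod_insert hiT]
    rw [h5]
    have h6 : ((p i : ℝ) - 1) ≠ 0 := by
      have h1 : (2 : ℝ) ≤ p i := by exact_mod_cast hp i
      intro h; linarith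
    have h7 : PH p T' ≠ 0 := (gb_PH_pos hp T').ne'
    field_simp
  · -- T' meets U: the sum is empty
    have h1 : bT p f D T' U = 0 := by
      unfold bT
      apply sum_eq_zero
      intro S hS
      exfalso
      obtain ⟨hSU, hTS, _⟩ := mem_filter.1 hS
      apply hTU
      rw [disjoint_left]
      intro i hi hiU
      exact (mem_sdiff.1 ((mem_powerset.1 hSU) (hTS hi))).2 hiU
    rw [h1]
    have : (0 : ℝ) ^ 2 = 0 := by norm_num
    rw [this]
    exact mul_nonneg (hA0 T') (div_nonneg (mul_nonneg hε0 hΦ0) (gb_PH_pos hp T').le)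

end Pool.Agent.RT
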