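import Pool.Agent.RT.NearT
import Pool.Agent.RT.Gam
import Pool.Agent.RT.ChernJ

/-! RT/AbsR.  The abstract sieve with requirements `r j`: comparison of the second moment of the
sieve function (near-orthogonality) with the sum over the divisibility patterns `T`, `|T| < r j`. -/

namespace Pool.Agent.RT

open Finset Pool.Agent.RS

variable {ι κ : Type} [Fintype ι] [DecidableEq ι] [DecidableEq κ] [Fintype κ]

omit [Fintype ι] [DecidableEq ι] in
private theorem one_le_PP' {p : ι → ℕ} (hp : ∀ i, 2 ≤ p i) (S : Finset ι) : 1 ≤ PP p S := by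
  unfold PP
  calc (1 : ℝ) = ∏ i ∈ S, (1 : ℝ) := by simp
    _ ≤ ∏ i ∈ S, (p i : ℝ) := Finset.prod_le_prod (fun _ _ => by norm_num) (fun i _ => by
        have : (2 : ℝ) ≤ p i := by exact_mod_cast hp i
        linarith)

omit [Fintype ι] [DecidableEq ι] in
private theorem one_le_PH' {p : ι → ℕ} (hp : ∀ i, 2 ≤ p i) (S : Finset ι) : 1 ≤ PH p S := by
  unfold PH
  calc (1 : ℝ) = ∏ i ∈ S, (1 : ℝ) := by simp
    _ ≤ ∏ i ∈ S, ((p i : ℝ) - 1) := Finset.prod_le_prod (fun _ _ => by norm_num) (fun i _ => by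
        have : (2 : ℝ) ≤ p i := by exact_mod_cast hp i
        linarith)

omit [Fintype ι] [DecidableEq ι] in
private theorem PP_le_pow {p : ι → ℕ} {D : ℝ} (hD : 1 ≤ D) (hpD : ∀ i, (p i : ℝ) ≤ D)
    {R : ℕ} (T : Finset ι) (hT : T.card ≤ R) : PP p T ≤ D ^ R := by
  unfold PP
  calc ∏ i ∈ T, (p i : ℝ) ≤ ∏ i ∈ T, D := Finset.prod_le_prod
        (fun i _ => Nat.cast_nonneg _) (fun i _ => hpD i)
    _ = D ^ T.card := by rw [Finset.prod_const]
    _ ≤ D ^ R := pow_le_pow_right₀ hD hT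

open Classical in
theorem sieve_r {p : ι → ℕ} {M : ℕ} (hp : ∀ i, 2 ≤ p i)
    (hc : ∀ i j, i ≠ j → Nat.Coprime (p i) (p j)) (hM : ∀ i, Nat.Coprime M (p i)) (n0 : ℤ)
    (a : κ → ℤ) (hd : ∀ i j j', j ≠ j' → ¬ (p i : ℤ) ∣ a j - a j')
    (hk : ∑ i, (Fintype.card κ : ℝ) / (p i : ℝ) ^ 2 ≤ 1 / 2)
    {D S1 : ℝ} (hS1 : 1 < S1) (hD : 1 ≤ D) (hpD : ∀ i, (p i : ℝ) ≤ D)
    (r : κ → ℕ) (R : ℕ) (hr : ∀ j, r j ≤ R)
    (hN : ∀ S : Finset ι, PP p S ≤ D ∨ S.card ≤ R →
      ∑ i ∈ S, (Fintype.card κ : ℝ) / ((p i : ℝ) - 1) ≤ 1 / 6)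
    {δ : ℝ} (hδ : ∀ S : Finset ι, PP p S ≤ D → ∑ i ∈ S, 1 / ((p i : ℝ) - 1) ≤ δ)
    (y : κ → Finset ι → ℝ) (hy0 : ∀ j, y j ∅ = 1) (hys : ∀ j S, y j S ≠ 0 → PP p S ≤ S1)
    (hym : ∀ j, ∀ T : Finset ι, T.card < r j →
      ∑ S ∈ (univ : Finset (Finset ι)).filter (fun S => T ⊆ S), y j S / PH p S = 0)
    (E : κ → ℝ) (hE : ∀ j, ∑ S ∈ (univ : Finset (Finset ι)).filter (fun S => S ≠ ∅),
      y j S ^ 2 / PH p S * Real.log (PP p S) ≤ E j)
    (hEsum : 2 * ∑ j, E j ≤ Real.log D / 4) (hS1D : Real.log S1 ≤ Real.log D / 4)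
    {s : ℕ} (hs : ∀ S : Finset ι, PP p S ≤ S1 → S.card ≤ s)
    {Φ E0 : ℝ} (hΦ : ∏ i, (1 + 1 / ((p i : ℝ) - 1)) ≤ Φ)
    (hE0 : ∀ j, ∑ S, y j S ^ 2 / PH p S ≤ E0)
    (hnum : (Fintype.card κ : ℝ) * (4 ^ R * Φ ^ 2 * (1 + (s : ℝ)) ^ R * E0) *
      (δ + Real.exp (-(Real.log D / (2 * Real.log S1)))) ≤ 1 / 16)
    {N : ℕ} (hNN : 40 * D ^ (R + 5) ≤ N) :
    ∃ t < N, ∀ j, r j ≤ (univ.filter (fun i => (p i : ℤ) ∣ n0 + M * t - a j)).card := by
  by_contra hcon
  push Not at hcon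
  have hPP1 : ∀ S : Finset ι, 1 ≤ PP p S := one_le_PP' hp
  have hPH1 : ∀ S : Finset ι, 1 ≤ PH p S := one_le_PH' hp
  have hPP0 : ∀ S : Finset ι, 0 < PP p S := fun S => by linarith [hPP1 S]
  have hPH0 : ∀ S : Finset ι, 0 < PH p S := fun S => by linarith [hPH1 S]
  have hD0 : (0 : ℝ) < D := by linarith
  have hS10 : (0 : ℝ) < S1 := by linarith
  have hlS : 0 < Real.log S1 := Real.log_pos hS1
  set G : ℝ := ∑ σ : ι → Option κ, Yd p y D σ ^ 2 / PH p (supp σ) with hG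
  have hk0 : (0 : ℝ) ≤ Fintype.card κ := Nat.cast_nonneg _
  have hD5 : 1 ≤ D ^ 5 := one_le_pow₀ hD
  have hDR : 1 ≤ D ^ R := one_le_pow₀ hD
  have hN5 : 40 * (D ^ R * D ^ 5) ≤ (N : ℝ) := by rw [← pow_add]; exact hNN
  have hN5' : 40 * D ^ 5 ≤ (N : ℝ) := by nlinarith [mul_le_mul hDR hD5 zero_le_one (by linarith)]
  have hN0 : (0 : ℝ) < N := by linarith
  have hN' : ∀ S : Finset ι, PP p S ≤ D →
      ∑ i ∈ S, (Fintype.card κ : ℝ) / ((p i : ℝ) - 1) ≤ 1 / 6 := fun S hS => hN S (Or.inl hS)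
  -- the trivial assignment
  have hs0 : supp (fun _ : ι => (none : Option κ)) = ∅ := by
    ext i
    simp [mem_supp]
  have hc0 : ∀ j : κ, cell (fun _ : ι => (none : Option κ)) j = ∅ := by
    intro j
    ext i
    simp [mem_cell]
  have hYd0 : Yd p y D (fun _ : ι => (none : Option κ)) = 1 := by
    unfold Yd
    rw [hs0, PP_empty, if_pos hD]
    unfold Yt
    simp only [hc0, hy0, Finset.prod_const_one]
  have hG1 : 1 ≤ G := by
    have h1 : Yd p y D (fun _ : ι => (none : Option κ)) ^ 2 /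
        PH p (supp (fun _ : ι => (none : Option κ))) ≤ G := by
      rw [hG]
      exact Finset.single_le_sum
        (f := fun σ : ι → Option κ => Yd p y D σ ^ 2 / PH p (supp σ))
        (fun σ _ => div_nonneg (sq_nonneg _) (hPH0 _).le) (Finset.mem_univ _)
    rw [hYd0, hs0, PH_empty] at h1
    linarith
  have hYds : ∀ σ : ι → Option κ, Yd p y D σ ≠ 0 →
      PP p (supp σ) ≤ D ∧ Disjoint (supp σ) (∅ : Finset ι) := by
    intro σ h
    refine ⟨?_, Finset.disjoint_empty_right _⟩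
    unfold Yd at h
    by_contra h2
    rw [if_neg h2] at h
    exact h rfl
  -- step 1
  have hA := near_R hp hc ∅ (fun i _ => hM i) n0 a hd hk hD0.le hN' (Yd p y D) hYds N
  rw [← hG] at hA
  have hA1 := (abs_le.mp hA).1
  -- step 2
  set F : κ → Finset ι → ℕ → ℝ := fun j T t => ∑ σ, ZT p y D j T σ * EE p a σ (n0 + M * t) with hF
  have hpt : ∀ t ∈ range N, (∑ σ, Yd p y D σ * EE p a σ (n0 + M * t)) ^ 2 ≤
      ∑ j : κ, ∑ T ∈ (univ : Finset (Finset ι)).filter (fun T => T.card < r j),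
        if (∀ i ∈ T, (p i : ℤ) ∣ n0 + M * t - a j) then (F j T t) ^ 2 else 0 := by
    intro t ht
    obtain ⟨j, hj⟩ := hcon t (Finset.mem_range.mp ht)
    have e1 := rough_T hp a y hy0 D j (n0 + M * t)
    set T0 : Finset ι := univ.filter (fun i => (p i : ℤ) ∣ n0 + M * t - a j) with hT0
    have e2 : (∑ σ, Yd p y D σ * EE p a σ (n0 + M * t)) ^ 2 = (F j T0 t) ^ 2 := by
      rw [e1]
    rw [e2]
    have e3 : (F j T0 t) ^ 2 ≤ ∑ T ∈ (univ : Finset (Finset ι)).filter (fun T => T.card < r j),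
        if (∀ i ∈ T, (p i : ℤ) ∣ n0 + M * t - a j) then (F j T t) ^ 2 else 0 := by
      have e4 := Finset.single_le_sum
        (f := fun T : Finset ι => if (∀ i ∈ T, (p i : ℤ) ∣ n0 + M * t - a j) then (F j T t) ^ 2 else 0)
        (s := (univ : Finset (Finset ι)).filter (fun T => T.card < r j))
        (fun T _ => by
          split_ifs
          · exact sq_nonneg _
          · exact le_rfl) (Finset.mem_filter.2 ⟨Finset.mem_univ T0, hj⟩)
      refine le_trans (le_of_eq ?_) e4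
      rw [if_pos]
      intro i hi
      rw [hT0] at hi
      exact (Finset.mem_filter.1 hi).2
    refine e3.trans ?_
    exact Finset.single_le_sum
      (f := fun j : κ => ∑ T ∈ (univ : Finset (Finset ι)).filter (fun T => T.card < r j),
        if (∀ i ∈ T, (p i : ℤ) ∣ n0 + M * t - a j) then (F j T t) ^ 2 else 0)
      (fun j _ => Finset.sum_nonneg fun T _ => by
        split_ifs
        · exact sq_nonneg _
        · exact le_rfl) (Finset.mem_univ j)
  have hsum : ∑ t ∈ range N, (∑ σ, Yd p y D σ * EE p a σ (n0 + M * t)) ^ 2 ≤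
      ∑ j : κ, ∑ T ∈ (univ : Finset (Finset ι)).filter (fun T => T.card < r j),
        ∑ t ∈ (range N).filter (fun t : ℕ => ∀ i ∈ T, (p i : ℤ) ∣ n0 + M * t - a j),
          (F j T t) ^ 2 := by
    refine (Finset.sum_le_sum hpt).trans (le_of_eq ?_)
    rw [Finset.sum_comm]
    refine Finset.sum_congr rfl fun j _ => ?_
    rw [Finset.sum_comm]
    refine Finset.sum_congr rfl fun T _ => ?_
    rw [Finset.sum_filter]
  have hT2 : ∀ (j : κ), ∀ T ∈ (univ : Finset (Finset ι)).filter (fun T => T.card < r j),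
      ∑ t ∈ (range N).filter (fun t : ℕ => ∀ i ∈ T, (p i : ℤ) ∣ n0 + M * t - a j),
          (F j T t) ^ 2 ≤
        2 * N * ∑ σ : ι → Option κ, Yd p y D σ ^ 2 / PH p (supp σ) *
          (cT p (y j) D T (supp σ) ^ 2 / PP p T) := by
    intro j T hT
    have hTc : T.card ≤ R := ((Finset.mem_filter.1 hT).2.le).trans (hr j)
    have h1 := near_T hp hc hM n0 a hd hk hD0.le hN' j T (hN T (Or.inr hTc))
      (ZT p y D j T) (fun σ h => ZT_supp hp y j T σ h) N
    refine h1.trans ?_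
    have hPT := PP_le_pow hD hpD T hTc
    have h2 : 3 / 2 * ((N : ℝ) / PP p T + 1) + 5 * D ^ 5 ≤ 2 * ((N : ℝ) / PP p T) := by
      have h3 : 40 * D ^ 5 ≤ (N : ℝ) / PP p T := by
        rw [le_div_iff₀ (hPP0 T)]
        refine le_trans ?_ hN5
        calc 40 * D ^ 5 * PP p T ≤ 40 * D ^ 5 * D ^ R := by gcongr
          _ = 40 * (D ^ R * D ^ 5) := by ring
      linarith
    have hZ : ∑ σ, ZT p y D j T σ ^ 2 / PH p (supp σ) ≤
        ∑ σ, Yd p y D σ ^ 2 / PH p (supp σ) * cT p (y j) D T (supp σ) ^ 2 := by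
      refine Finset.sum_le_sum fun σ _ => ?_
      by_cases hcell : cell σ j = ∅
      · rw [ZT_eq hp y D j T σ hcell, mul_pow]
        apply le_of_eq
        ring
      · have : ZT p y D j T σ = 0 := by
          unfold ZT
          rw [if_neg hcell]
        rw [this]
        simp only [ne_eq, OfNat.ofNat_ne_zero, not_false_eq_true, zero_pow, zero_div]
        exact mul_nonneg (div_nonneg (sq_nonneg _) (hPH0 _).le) (sq_nonneg _)
    have hZ0 : 0 ≤ ∑ σ, ZT p y D j T σ ^ 2 / PH p (supp σ) :=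
      Finset.sum_nonneg fun σ _ => div_nonneg (sq_nonneg _) (hPH0 _).le
    have hq0 : 0 ≤ (N : ℝ) / PP p T := div_nonneg hN0.le (hPP0 T).le
    calc (3 / 2 * ((N : ℝ) / PP p T + 1) + 5 * D ^ 5) *
          ∑ σ, ZT p y D j T σ ^ 2 / PH p (supp σ)
        ≤ (2 * ((N : ℝ) / PP p T)) * ∑ σ, ZT p y D j T σ ^ 2 / PH p (supp σ) :=
          mul_le_mul_of_nonneg_right h2 hZ0
      _ ≤ (2 * ((N : ℝ) / PP p T)) *
          ∑ σ, Yd p y D σ ^ 2 / PH p (supp σ) * cT p (y j) D T (supp σ) ^ 2 :=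
          mul_le_mul_of_nonneg_left hZ (by positivity)
      _ = _ := by
          rw [Finset.mul_sum, Finset.mul_sum]
          refine Finset.sum_congr rfl fun σ _ => ?_
          ring
  -- the sums `Γ_j`
  set Gm : κ → Finset ι → ℝ := fun j U =>
    ∑ T ∈ (univ : Finset (Finset ι)).filter (fun T => T.card < r j),
      cT p (y j) D T U ^ 2 / PP p T with hGm
  set B : ℝ := 4 ^ R * Φ ^ 2 * (1 + (s : ℝ)) ^ R * E0 with hB
  have hsumG : ∑ t ∈ range N, (∑ σ, Yd p y D σ * EE p a σ (n0 + M * t)) ^ 2 ≤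
      2 * N * ∑ j : κ, ∑ σ : ι → Option κ, Yd p y D σ ^ 2 / PH p (supp σ) * Gm j (supp σ) := by
    refine hsum.trans ?_
    rw [Finset.mul_sum]
    refine Finset.sum_le_sum fun j _ => ?_
    refine (Finset.sum_le_sum (hT2 j)).trans (le_of_eq ?_)
    rw [← Finset.mul_sum, Finset.sum_comm]
    congr 1
    refine Finset.sum_congr rfl fun σ _ => ?_
    rw [hGm, Finset.mul_sum]
  have hEsq0 : ∀ j, 0 ≤ ∑ S, y j S ^ 2 / PH p S := fun j =>
    Finset.sum_nonneg fun S _ => div_nonneg (sq_nonneg _) (hPH0 _).le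
  have hBj : ∀ j, 4 ^ (r j) * Φ ^ 2 * (1 + (s : ℝ)) ^ (r j) * ∑ S, y j S ^ 2 / PH p S ≤ B := by
    intro j
    have t1 : (4 : ℝ) ^ (r j) ≤ 4 ^ R := pow_le_pow_right₀ (by norm_num) (hr j)
    have t2 : (1 + (s : ℝ)) ^ (r j) ≤ (1 + (s : ℝ)) ^ R :=
      pow_le_pow_right₀ (by linarith [(Nat.cast_nonneg s : (0 : ℝ) ≤ s)]) (hr j)
    have t3 := hE0 j
    have t4 := hEsq0 j
    rw [hB]
    gcongr
  have hδ0 : 0 ≤ δ := by
    have := hδ ∅ (by rw [PP_empty]; exact hD)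
    simpa using this
  have hGle : ∀ j U, Gm j U ≤ B := fun j U =>
    (Gam_le hp (y j) (hys j) hs hΦ U).trans (hBj j)
  have hBj0 : ∀ j, 0 ≤ 4 ^ (r j) * Φ ^ 2 * (1 + (s : ℝ)) ^ (r j) * ∑ S, y j S ^ 2 / PH p S := by
    intro j
    have t4 := hEsq0 j
    have : (0 : ℝ) ≤ s := Nat.cast_nonneg s
    positivity
  have hGsm : ∀ j U, PP p U ≤ D / S1 → Gm j U ≤ B * δ := by
    intro j U hU
    have hU' : PP p U * S1 ≤ D := by
      rwa [le_div_iff₀ hS10] at hU
    have hUD : PP p U ≤ D := by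
      refine le_trans ?_ hU'
      exact le_mul_of_one_le_right (hPP0 U).le hS1.le
    refine (Gam_small hp (y j) (hys j) hs hΦ (hym j) U hU').trans ?_
    have t1 := hδ U hUD
    have t2 : 0 ≤ ∑ i ∈ U, 1 / ((p i : ℝ) - 1) := by
      refine Finset.sum_nonneg fun i _ => ?_
      have : (2 : ℝ) ≤ p i := by exact_mod_cast hp i
      exact div_nonneg zero_le_one (by linarith)
    exact mul_le_mul (hBj j) t1 t2 ((hBj0 j).trans (hBj j))
  -- the tail
  set lam : ℝ := 1 / Real.log S1 with hlam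
  set θ : κ → ℝ := fun j => 2 * E j / Real.log S1 with hθ
  have hE00 : ∀ j, 0 ≤ E j := by
    intro j
    refine le_trans ?_ (hE j)
    refine Finset.sum_nonneg fun S _ => ?_
    exact mul_nonneg (div_nonneg (sq_nonneg _) (hPH0 _).le) (Real.log_nonneg (hPP1 S))
  have hD2 : 0 < D / S1 := div_pos hD0 hS10
  have htail := tailJ (κ := κ) hp y hy0 (D := D) (D2 := D / S1) (lam := lam) hD2
    (by rw [hlam]; positivity) θ
    (fun j => div_nonneg (mul_nonneg (by norm_num) (hE00 j)) hlS.le)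
    (fun j => theta_le hp (y j) hS1 (hys j) (hE j))
  rw [← hG] at htail
  set τ : ℝ := Real.exp (-(Real.log D / (2 * Real.log S1))) with hτ
  have hτle : (D / S1) ^ (-lam) * Real.exp (∑ j, θ j) ≤ τ := by
    rw [Real.rpow_def_of_pos hD2, ← Real.exp_add, Real.log_div hD0.ne' hS10.ne', hτ]
    apply Real.exp_le_exp.2
    have e0 : ∑ j, θ j = (2 * ∑ j, E j) / Real.log S1 := by
      rw [hθ, Finset.mul_sum, Finset.sum_div]
    rw [e0, hlam]
    have e1 : (Real.log D - Real.log S1) * (-(1 / Real.log S1)) +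
        (2 * ∑ j, E j) / Real.log S1 =
        (2 * ∑ j, E j - Real.log D + Real.log S1) / Real.log S1 := by
      field_simp
      ring
    have e2 : -(Real.log D / (2 * Real.log S1)) = (-(Real.log D / 2)) / Real.log S1 := by
      field_simp
    rw [e1, e2]
    apply div_le_div_of_nonneg_right _ hlS.le
    linarith
  have htail2 : ∑ σ ∈ (univ : Finset (ι → Option κ)).filter (fun σ => D / S1 < PP p (supp σ)),
      Yd p y D σ ^ 2 / PH p (supp σ) ≤ τ * G := by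
    refine htail.trans ?_
    exact mul_le_mul_of_nonneg_right hτle (by linarith)
  have hjj : ∀ j ∈ (univ : Finset κ), ∑ σ : ι → Option κ, Yd p y D σ ^ 2 / PH p (supp σ) *
      Gm j (supp σ) ≤ B * (δ + τ) * G := by
    intro j _
    have hB0 : 0 ≤ B := (hBj0 j).trans (hBj j)
    have h1 : ∀ σ ∈ (univ : Finset (ι → Option κ)), Yd p y D σ ^ 2 / PH p (supp σ) *
        Gm j (supp σ) ≤ B * δ * (Yd p y D σ ^ 2 / PH p (supp σ)) +
          B * (if D / S1 < PP p (supp σ) then Yd p y D σ ^ 2 / PH p (supp σ) else 0) := by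
      intro σ _
      have hw : 0 ≤ Yd p y D σ ^ 2 / PH p (supp σ) := div_nonneg (sq_nonneg _) (hPH0 _).le
      by_cases hc : D / S1 < PP p (supp σ)
      · rw [if_pos hc]
        have t1 := mul_le_mul_of_nonneg_left (hGle j (supp σ)) hw
        have t2 : 0 ≤ B * δ * (Yd p y D σ ^ 2 / PH p (supp σ)) := by positivity
        linarith
      · rw [if_neg hc, mul_zero, add_zero]
        have t1 := mul_le_mul_of_nonneg_left (hGsm j (supp σ) (not_lt.1 hc)) hw
        linarith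
    refine (Finset.sum_le_sum h1).trans ?_
    rw [Finset.sum_add_distrib, ← Finset.mul_sum, ← Finset.mul_sum, ← hG, ← Finset.sum_filter]
    have t3 := mul_le_mul_of_nonneg_left htail2 hB0
    have t4 : B * (δ + τ) * G = B * δ * G + B * (τ * G) := by ring
    rw [t4]
    linarith
  have hfin := Finset.sum_le_sum hjj
  rw [Finset.sum_const, Finset.card_univ, nsmul_eq_mul] at hfin
  have hfin2 : (Fintype.card κ : ℝ) * (B * (δ + τ) * G) ≤ 1 / 16 * G := by
    have : (Fintype.card κ : ℝ) * (B * (δ + τ) * G) = ((Fintype.card κ : ℝ) * B * (δ + τ)) * G := by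
      ring
    rw [this]
    exact mul_le_mul_of_nonneg_right hnum (by linarith)
  have hfin3 : 2 * (N : ℝ) * ∑ j : κ, ∑ σ : ι → Option κ,
      Yd p y D σ ^ 2 / PH p (supp σ) * Gm j (supp σ) ≤ 2 * N * (1 / 16 * G) :=
    mul_le_mul_of_nonneg_left (hfin.trans hfin2) (by linarith)
  have hcontra : (4 / 5 * (N : ℝ) - 4 * D ^ 5) * G ≤ N / 8 * G := by
    have e1 : (4 / 5 * (N : ℝ) - 4 * D ^ 5) * G = N * G - (1 / 5 * N + 4 * D ^ 5) * G := by ring
    have e2 : N / 8 * G = 2 * N * (1 / 16 * G) := by ring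
    rw [e1, e2]
    linarith
  have hG0 : 0 < G := by linarith
  have := le_of_mul_le_mul_right hcontra hG0
  linarith

end Pool.Agent.RT
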