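import Pool.Agent.RT.CardEx
import Pool.Agent.Helper52.PrimeSums

/-! RT/AvgC.  The average cost of one element.

`lam = Nat.log 2 L`, `P = pW W (2^(lam/2))` = primes `≤ 2^(lam/2)` not dividing `W`.
`pW_prod`: `∏_{q∈P} (1 - 1/q) ≤ (W/φ(W)) * 1/((lam/2) log 2)` (`b = lam/2`): the primes `≤ 2^b` are the
disjoint union of `P` and the prime factors of `W` (`W ≤ 2^b`), `∏_{q ∣ W} (1-1/q) = φ(W)/W`
(`Nat.totient_eq_mul_prod_factors`), `Helper52.prod_upper` (compare `mc_ratio` in `RS/MainC.lean`).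
`∑_{q∈P} 1/(q-1) ≤ 2 ∑_{q ≤ 2^b} 1/q ≤ 2 (log b + 8) ≤ 18 + 2 log lam` (`Helper52.mertens2`).
`avg_cost`: `Ex_card_le` with `g = cst r L`, then `cost_num` with `l = lam`:
`≤ (W/φ(W)) (1/((lam/2) log 2)) C lam^(1-(1/2)^(r-1))`, and natural division `lam/2 ≥ lam/4`. -/

namespace Pool.Agent.RT

open Finset

/-- cost of an element with `j` small prime factors -/
noncomputable def cst (r L j : ℕ) : ℝ :=
  if j < r then (Nat.log 2 L : ℝ) ^ (1 - (1 / 2 : ℝ) ^ (r - j - 1)) else 0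

/-- primes up to `w` not dividing `W` -/
def pW (W w : ℕ) : Finset ℕ := (range (w + 1)).filter (fun q => q.Prime ∧ ¬ q ∣ W)

theorem pW_prod {W b : ℕ} (hW : 0 < W) (hb : 1 ≤ b) (hWb : W ≤ 2 ^ b) :
    ∏ q ∈ pW W (2 ^ b), (1 - 1 / (q : ℝ)) ≤ ((W : ℝ) / Nat.totient W) * (1 / (b * Real.log 2)) := by
  classical
  have hWr : (0 : ℝ) < W := by exact_mod_cast hW
  have hφW : (0 : ℝ) < Nat.totient W := by exact_mod_cast Nat.totient_pos.mpr hW
  have h1 := Nat.totient_eq_mul_prod_factors W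
  have h2 : (Nat.totient W : ℝ) = (W : ℝ) * ∏ q ∈ W.primeFactors, (1 - 1 / (q : ℝ)) := by
    have := congrArg (fun z : ℚ => (z : ℝ)) h1
    push_cast at this
    simp only [one_div]
    exact this
  have h3 : Pool.Agent.Helper52.pr 0 (2 ^ b) = pW W (2 ^ b) ∪ W.primeFactors := by
    ext q
    rw [Pool.Agent.Helper52.mem_pr, mem_union, pW, mem_filter, mem_range, Nat.mem_primeFactors]
    constructor
    · rintro ⟨_, hle, hq⟩
      by_cases h : q ∣ W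
      · exact Or.inr ⟨hq, h, hW.ne'⟩
      · exact Or.inl ⟨Nat.lt_succ_of_le hle, hq, h⟩
    · rintro (⟨hlt, hq, _⟩ | ⟨hq, hd, _⟩)
      · exact ⟨hq.pos, Nat.le_of_lt_succ hlt, hq⟩
      · exact ⟨hq.pos, (Nat.le_of_dvd hW hd).trans hWb, hq⟩
  have h4 : Disjoint (pW W (2 ^ b)) W.primeFactors := by
    rw [Finset.disjoint_left]
    intro q hq hq'
    rw [pW, mem_filter] at hq
    exact hq.2.2 (Nat.dvd_of_mem_primeFactors hq')
  have h5 := Pool.Agent.Helper52.prod_upper hb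
  rw [h3, prod_union h4] at h5
  have h6 : ∏ q ∈ pW W (2 ^ b), (1 - 1 / (q : ℝ)) =
      ((W : ℝ) / Nat.totient W) *
        ((∏ q ∈ pW W (2 ^ b), (1 - 1 / (q : ℝ))) * ∏ q ∈ W.primeFactors, (1 - 1 / (q : ℝ))) := by
    have h7 : ∏ q ∈ W.primeFactors, (1 - 1 / (q : ℝ)) = (Nat.totient W : ℝ) / W := by
      rw [h2]
      field_simp
    rw [h7]
    field_simp
  rw [h6]
  exact mul_le_mul_of_nonneg_left h5 (by positivity)

theorem avg_cost (r : ℕ) (hr : 1 ≤ r) : ∃ C : ℝ, 0 < C ∧ ∀ W L : ℕ, 0 < W → 4 ≤ Nat.log 2 L →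
    W ≤ 2 ^ (Nat.log 2 L / 2) →
    Ex (fun q : ℕ => 1 / (q : ℝ)) (pW W (2 ^ (Nat.log 2 L / 2))) (fun T => cst r L T.card) ≤
      C * ((W : ℝ) / Nat.totient W) * (Nat.log 2 L : ℝ) ^ (-(1 / 2 : ℝ) ^ (r - 1)) := by
  classical
  obtain ⟨C₀, hC₀, hC⟩ := cost_num r hr
  have hl2 : 0 < Real.log 2 := Real.log_pos (by norm_num)
  refine ⟨4 * C₀ / Real.log 2, by positivity, ?_⟩
  intro W L hW hL hWL
  set lam := Nat.log 2 L with hlam
  set b := lam / 2 with hb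
  have hb1 : 1 ≤ b := by omega
  have hblam : b ≤ lam := Nat.div_le_self _ _
  have hb4 : lam ≤ 4 * b := by omega
  have hlr : (1 : ℝ) ≤ lam := by exact_mod_cast (by omega : 1 ≤ lam)
  have hl0 : (0 : ℝ) < lam := by linarith
  have hbr : (0 : ℝ) < b := by exact_mod_cast hb1
  have hWr : (0 : ℝ) < W := by exact_mod_cast hW
  have hφW : (0 : ℝ) < Nat.totient W := by exact_mod_cast Nat.totient_pos.mpr hW
  have hP : ∀ q ∈ pW W (2 ^ b), q.Prime := by
    intro q hq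
    rw [pW, mem_filter] at hq
    exact hq.2.1
  have hg0 : ∀ j, 0 ≤ cst r L j := by
    intro j
    unfold cst
    split_ifs
    · positivity
    · exact le_rfl
  have hgr : ∀ j, r ≤ j → cst r L j = 0 := by
    intro j hj
    unfold cst
    rw [if_neg (by omega)]
  have h1 := Ex_card_le (pW W (2 ^ b)) hP r (cst r L) hg0 hgr
  have hs0 : 0 ≤ ∑ q ∈ pW W (2 ^ b), 1 / ((q : ℝ) - 1) := by
    refine sum_nonneg fun q hq => ?_
    have : (2 : ℝ) ≤ q := by exact_mod_cast (hP q hq).two_le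
    have : (0 : ℝ) < (q : ℝ) - 1 := by linarith
    positivity
  have hs : ∑ q ∈ pW W (2 ^ b), 1 / ((q : ℝ) - 1) ≤ 18 + 2 * Real.log lam := by
    have h2 : ∑ q ∈ pW W (2 ^ b), 1 / ((q : ℝ) - 1) ≤
        ∑ q ∈ pW W (2 ^ b), 2 * (1 / (q : ℝ)) := by
      refine sum_le_sum fun q hq => ?_
      have hq2 : (2 : ℝ) ≤ q := by exact_mod_cast (hP q hq).two_le
      have hq1 : (0 : ℝ) < (q : ℝ) - 1 := by linarith
      have hq0 : (0 : ℝ) < q := by linarith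
      rw [mul_one_div, div_le_div_iff₀ hq1 hq0]
      linarith
    have h3 : ∑ q ∈ pW W (2 ^ b), 2 * (1 / (q : ℝ)) ≤
        ∑ q ∈ Pool.Agent.Helper52.pr 0 (2 ^ b), 2 * (1 / (q : ℝ)) := by
      refine sum_le_sum_of_subset_of_nonneg ?_ fun q _ _ => by positivity
      intro q hq
      rw [pW, mem_filter, mem_range] at hq
      rw [Pool.Agent.Helper52.mem_pr]
      exact ⟨hq.2.1.pos, Nat.le_of_lt_succ hq.1, hq.2.1⟩
    have h4 := Pool.Agent.Helper52.mertens2 hb1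
    rw [← mul_sum] at h2
    rw [← mul_sum, ← mul_sum] at h3
    have h5 : Real.log b ≤ Real.log lam :=
      Real.log_le_log hbr (by exact_mod_cast hblam)
    linarith
  have hlog0 : 0 ≤ Real.log lam := Real.log_nonneg hlr
  have h2 : ∑ j ∈ range r, cst r L j * (∑ q ∈ pW W (2 ^ b), 1 / ((q : ℝ) - 1)) ^ j ≤
      C₀ * (lam : ℝ) ^ (1 - (1 / 2 : ℝ) ^ (r - 1)) := by
    refine le_trans (sum_le_sum fun j hj => ?_) (hC lam hlr)
    rw [mem_range] at hj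
    have hcst : cst r L j = (lam : ℝ) ^ (1 - (1 / 2 : ℝ) ^ (r - j - 1)) := by
      unfold cst
      rw [if_pos hj]
    rw [← hcst]
    exact mul_le_mul_of_nonneg_left (pow_le_pow_left₀ hs0 hs j) (hg0 j)
  have h3 : ∏ q ∈ pW W (2 ^ b), (1 - 1 / (q : ℝ)) ≤
      ((W : ℝ) / Nat.totient W) * (4 / (lam * Real.log 2)) := by
    refine (pW_prod hW hb1 hWL).trans (mul_le_mul_of_nonneg_left ?_ (by positivity))
    rw [div_le_div_iff₀ (by positivity) (by positivity)]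
    have h4 : (lam : ℝ) ≤ 4 * b := by exact_mod_cast hb4
    nlinarith
  have h5 : 0 ≤ C₀ * (lam : ℝ) ^ (1 - (1 / 2 : ℝ) ^ (r - 1)) := by positivity
  have h6 : 0 ≤ ∑ j ∈ range r, cst r L j * (∑ q ∈ pW W (2 ^ b), 1 / ((q : ℝ) - 1)) ^ j :=
    sum_nonneg fun j _ => mul_nonneg (hg0 j) (pow_nonneg hs0 j)
  refine h1.trans ((mul_le_mul h3 h2 h6 (by positivity)).trans (le_of_eq ?_))
  have h7 : (lam : ℝ) ^ (1 - (1 / 2 : ℝ) ^ (r - 1)) =
      lam * (lam : ℝ) ^ (-(1 / 2 : ℝ) ^ (r - 1)) := by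
    rw [sub_eq_add_neg, Real.rpow_add hl0, Real.rpow_one]
  rw [h7]
  field_simp

end Pool.Agent.RT
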