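import Pool.Agent.RT.NumOp
import Pool.Agent.RS.Tot
import Pool.Agent.Helper52.PrimeSums

/-! RT/Block.  One scale: `ι = {q // q ∈ prz z \ E}`, `p = coe`, `D8 = 8 (d + 1)`.

`P = univ.filter (log i ≤ X / D8)`, `Z = ∑_{S ⊆ P} 1/PH S = ∏_{P} (1 - 1/i)⁻¹`, and
`1/PH S = Z * mu (1/i) P S` for `S ⊆ P`.
(1) `∑_{S ≠ ∅, log PP S ≤ X} u^2/PH ≥ ∑_{S ⊆ P} (u^2/PH) (1 - log PP S / X) - 1` (the indicator is
`≥ 1 - log PP S/X`; the term `S = ∅` is `1`; the terms `S ⊄ P` are `≥ 0`)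
`= Z (Ex P u^2 - (1/X) Ex P (u^2 ∑_{i∈S} log i)) - 1`.
(2) `weight_le` with `l i = log i`, `v = X/D8`, `v' = X/D8 + log 4` (`Helper52.mertens1` with
`n = ⌊exp (X/D8)⌋`): `Ex P (u^2 ∑ log) ≤ ((2 + 2d) X/D8 + 2 log 4) Ex P u^2 ≤ (X/4 + 3) Ex P u^2
≤ (X/2) Ex P u^2` as `X ≥ 16`.
(3) `Z ≥ V log ⌊exp (X/D8)⌋ ≥ V (X/D8 - log 2) ≥ V X/(2 D8)` (`RS.tot2` with `z' = ⌊exp(X/D8)⌋`,
`y = z'`, `E' = E ∩ prz z'`, `∏_{E'} ≥ ∏_E ≥ V`; the sets of `tot2` are subsets of `P`;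
`X/D8 ≥ 2`). So the sum is `≥ (Z/2) Ex P u^2 - 1 ≥ V X/(4 D8) Ex P u^2 - 1`. -/

namespace Pool.Agent.RT

open Finset Pool.Agent.RS

private theorem blk_pos {ι : Type} {p : ι → ℕ} (hp : ∀ i, 2 ≤ p i) (i : ι) :
    0 < (p i : ℝ) ∧ 0 < (p i : ℝ) - 1 ∧ 0 < 1 - 1 / (p i : ℝ) := by
  have h2 : (2 : ℝ) ≤ p i := by exact_mod_cast hp i
  refine ⟨by linarith, by linarith, ?_⟩
  rw [sub_pos, div_lt_one (by linarith)]
  linarith

private theorem blk_ex {ι : Type} [DecidableEq ι] {p : ι → ℕ} (hp : ∀ i, 2 ≤ p i)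
    (P : Finset ι) (g : Finset ι → ℝ) :
    ∑ S ∈ P.powerset, g S / PH p S =
      (∏ i ∈ P, (1 - 1 / (p i : ℝ)))⁻¹ * Ex (fun i => 1 / (p i : ℝ)) P g := by
  unfold Ex
  rw [Finset.mul_sum]
  refine Finset.sum_congr rfl fun S hS => ?_
  have hS' := Finset.mem_powerset.1 hS
  have h1 : ∏ i ∈ S, (1 / (p i : ℝ)) = (∏ i ∈ S, (1 - 1 / (p i : ℝ))) * (PH p S)⁻¹ := by
    unfold PH
    rw [← Finset.prod_inv_distrib, ← Finset.prod_mul_distrib]
    refine Finset.prod_congr rfl fun i _ => ?_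
    obtain ⟨a1, a2, _⟩ := blk_pos hp i
    field_simp
  have h2 : (∏ i ∈ S, (1 - 1 / (p i : ℝ))) ≠ 0 :=
    Finset.prod_ne_zero_iff.2 fun i _ => (blk_pos hp i).2.2.ne'
  have h3 : (∏ i ∈ P \ S, (1 - 1 / (p i : ℝ))) ≠ 0 :=
    Finset.prod_ne_zero_iff.2 fun i _ => (blk_pos hp i).2.2.ne'
  unfold mu
  rw [h1, ← Finset.prod_sdiff hS']
  field_simp

open Classical in
private theorem blk_abs {ι : Type} [Fintype ι] [DecidableEq ι] {p : ι → ℕ} (hp : ∀ i, 2 ≤ p i)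
    (P : Finset ι) {X : ℝ} (hX : 0 < X) (u : Finset ι → ℝ) (hu0 : u ∅ = 1)
    (hw : Ex (fun i => 1 / (p i : ℝ)) P (fun S => u S ^ 2 * ∑ i ∈ S, Real.log (p i)) ≤
      X / 2 * Ex (fun i => 1 / (p i : ℝ)) P (fun S => u S ^ 2)) :
    (∏ i ∈ P, (1 - 1 / (p i : ℝ)))⁻¹ / 2 * Ex (fun i => 1 / (p i : ℝ)) P (fun S => u S ^ 2) - 1 ≤
      ∑ S ∈ (univ : Finset (Finset ι)).filter (fun S => S ≠ ∅ ∧ Real.log (PP p S) ≤ X),
        u S ^ 2 / PH p S := by
  have hPH : ∀ S : Finset ι, 0 < PH p S := fun S =>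
    Finset.prod_pos fun i _ => (blk_pos hp i).2.1
  have hlog : ∀ S : Finset ι, Real.log (PP p S) = ∑ i ∈ S, Real.log (p i) := fun S => by
    unfold PP
    exact Real.log_prod fun i _ => (blk_pos hp i).1.ne'
  have hlog0 : ∀ S : Finset ι, 0 ≤ Real.log (PP p S) := fun S => by
    rw [hlog]
    refine Finset.sum_nonneg fun i _ => Real.log_nonneg ?_
    have := (blk_pos hp i).2.1
    linarith
  have hnn : ∀ S : Finset ι, 0 ≤ u S ^ 2 / PH p S := fun S => by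
    have := hPH S
    positivity
  have hZ : 0 < (∏ i ∈ P, (1 - 1 / (p i : ℝ)))⁻¹ :=
    inv_pos.2 (Finset.prod_pos fun i _ => (blk_pos hp i).2.2)
  have e1 := blk_ex hp P (fun S => u S ^ 2)
  have e2 := blk_ex hp P (fun S => u S ^ 2 * ∑ i ∈ S, Real.log (p i))
  have s1 : ∑ S ∈ P.powerset, (u S ^ 2 / PH p S) * (1 - Real.log (PP p S) / X) ≤
      ∑ S ∈ P.powerset.filter (fun S => Real.log (PP p S) ≤ X), u S ^ 2 / PH p S := by
    rw [Finset.sum_filter]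
    refine Finset.sum_le_sum fun S _ => ?_
    by_cases h : Real.log (PP p S) ≤ X
    · rw [if_pos h]
      have h1 : 0 ≤ Real.log (PP p S) / X := div_nonneg (hlog0 S) hX.le
      have := hnn S
      nlinarith
    · rw [if_neg h]
      have h1 : 1 < Real.log (PP p S) / X := by
        rw [lt_div_iff₀ hX, one_mul]
        exact not_le.1 h
      exact mul_nonpos_of_nonneg_of_nonpos (hnn S) (by linarith)
  have s2 : ∑ S ∈ P.powerset.filter (fun S => Real.log (PP p S) ≤ X), u S ^ 2 / PH p S ≤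
      1 + ∑ S ∈ (univ : Finset (Finset ι)).filter (fun S => S ≠ ∅ ∧ Real.log (PP p S) ≤ X),
        u S ^ 2 / PH p S := by
    have h1 : P.powerset.filter (fun S => Real.log (PP p S) ≤ X) ⊆
        insert ∅ ((univ : Finset (Finset ι)).filter
          (fun S => S ≠ ∅ ∧ Real.log (PP p S) ≤ X)) := by
      intro S hS
      rw [Finset.mem_filter] at hS
      rw [Finset.mem_insert, Finset.mem_filter]
      by_cases h : S = ∅
      · exact Or.inl h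
      · exact Or.inr ⟨Finset.mem_univ _, h, hS.2⟩
    refine (Finset.sum_le_sum_of_subset_of_nonneg h1 fun S _ _ => hnn S).trans ?_
    rw [Finset.sum_insert (by simp)]
    rw [hu0, PH_empty]
    simp
  have s3 : ∑ S ∈ P.powerset, (u S ^ 2 / PH p S) * (1 - Real.log (PP p S) / X) =
      (∏ i ∈ P, (1 - 1 / (p i : ℝ)))⁻¹ * (Ex (fun i => 1 / (p i : ℝ)) P (fun S => u S ^ 2) -
        1 / X * Ex (fun i => 1 / (p i : ℝ)) P
          (fun S => u S ^ 2 * ∑ i ∈ S, Real.log (p i))) := by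
    have h1 : ∀ S ∈ P.powerset, (u S ^ 2 / PH p S) * (1 - Real.log (PP p S) / X) =
        u S ^ 2 / PH p S - 1 / X * ((u S ^ 2 * ∑ i ∈ S, Real.log (p i)) / PH p S) := by
      intro S _
      rw [← hlog]
      ring
    rw [Finset.sum_congr rfl h1, Finset.sum_sub_distrib, ← Finset.mul_sum, e1, e2]
    ring
  have s4 : 1 / X * Ex (fun i => 1 / (p i : ℝ)) P
      (fun S => u S ^ 2 * ∑ i ∈ S, Real.log (p i)) ≤
      1 / 2 * Ex (fun i => 1 / (p i : ℝ)) P (fun S => u S ^ 2) := by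
    have h1 : 1 / X * (X / 2 * Ex (fun i => 1 / (p i : ℝ)) P (fun S => u S ^ 2)) =
        1 / 2 * Ex (fun i => 1 / (p i : ℝ)) P (fun S => u S ^ 2) := by
      field_simp
    rw [← h1]
    exact mul_le_mul_of_nonneg_left hw (by positivity)
  have s5 : (∏ i ∈ P, (1 - 1 / (p i : ℝ)))⁻¹ / 2 *
      Ex (fun i => 1 / (p i : ℝ)) P (fun S => u S ^ 2) ≤
      (∏ i ∈ P, (1 - 1 / (p i : ℝ)))⁻¹ * (Ex (fun i => 1 / (p i : ℝ)) P (fun S => u S ^ 2) -
        1 / X * Ex (fun i => 1 / (p i : ℝ)) P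
          (fun S => u S ^ 2 * ∑ i ∈ S, Real.log (p i))) := by
    rw [div_mul_eq_mul_div, mul_div_assoc]
    refine mul_le_mul_of_nonneg_left ?_ hZ.le
    linarith
  rw [s3] at s1
  linarith

/-- the primes below `exp (X / D8)` outside `E` -/
private theorem blk_Z {z : ℕ} {E : Finset ℕ} (hE : E ⊆ prz z) {V : ℝ} (hV0 : 0 < V)
    (hV : V ≤ ∏ q ∈ E, (1 - 1 / (q : ℝ))) {t : ℝ} (ht : 2 ≤ t) (htz : t ≤ Real.log z)
    (P : Finset {q // q ∈ prz z \ E}) (hP : ∀ i, i ∈ P ↔ Real.log ((i : ℕ) : ℝ) ≤ t) :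
    V * t / 2 ≤ (∏ i ∈ P, (1 - 1 / (((i : {q // q ∈ prz z \ E}) : ℕ) : ℝ)))⁻¹ := by
  classical
  set n := ⌊Real.exp t⌋₊ with hn
  have hexp : 1 ≤ Real.exp t := Real.one_le_exp (by linarith)
  have hn1 : 1 ≤ n := Nat.le_floor (by simpa using hexp)
  have hn1r : (1 : ℝ) ≤ n := by exact_mod_cast hn1
  have hz0 : 0 < (z : ℝ) := by
    rcases Nat.eq_zero_or_pos z with h | h
    · subst h
      simp at htz
      linarith
    · exact_mod_cast h
  have hnz : (n : ℝ) ≤ z := by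
    refine (Nat.floor_le (Real.exp_pos t).le).trans ?_
    rw [← Real.exp_log hz0]
    exact Real.exp_le_exp.2 htz
  have hnz' : n ≤ z := by exact_mod_cast hnz
  have mem_prz : ∀ (m q : ℕ), q ∈ prz m ↔ q ≤ m ∧ q.Prime := by
    intro m q
    unfold prz
    rw [Finset.mem_filter, Finset.mem_Icc]
    constructor
    · rintro ⟨⟨_, h⟩, h'⟩
      exact ⟨h, h'⟩
    · rintro ⟨h, h'⟩
      exact ⟨⟨h'.pos, h⟩, h'⟩
  have h1 := tot2 (z := n) (y := n) hn1r le_rfl (E := E ∩ prz n) Finset.inter_subset_right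
  have hprime : ∀ q ∈ prz n \ (E ∩ prz n), (0 : ℝ) < (q : ℝ) - 1 := by
    intro q hq
    have hq' := ((mem_prz n q).1 (Finset.mem_sdiff.1 hq).1).2
    have : (2 : ℝ) ≤ q := by exact_mod_cast hq'.two_le
    linarith
  have h2 : ∑ S ∈ (prz n \ (E ∩ prz n)).powerset.filter
      (fun S : Finset ℕ => (∏ q ∈ S, (q : ℝ)) ≤ (n : ℝ)), 1 / ∏ q ∈ S, ((q : ℝ) - 1) ≤
      ∏ q ∈ prz n \ (E ∩ prz n), (1 + 1 / ((q : ℝ) - 1)) := by
    rw [Finset.prod_one_add]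
    have h3 : ∀ S ∈ (prz n \ (E ∩ prz n)).powerset, ∏ q ∈ S, 1 / ((q : ℝ) - 1) =
        1 / ∏ q ∈ S, ((q : ℝ) - 1) := fun S _ => by
      rw [Finset.prod_div_distrib, Finset.prod_const_one]
    rw [Finset.sum_congr rfl h3]
    refine Finset.sum_le_sum_of_subset_of_nonneg (Finset.filter_subset _ _) fun S hS _ => ?_
    have : 0 < ∏ q ∈ S, ((q : ℝ) - 1) :=
      Finset.prod_pos fun q hq => hprime q (Finset.mem_powerset.1 hS hq)
    positivity
  have hmap : P.map (Function.Embedding.subtype _) = prz n \ (E ∩ prz n) := by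
    ext q
    rw [Finset.mem_map, Finset.mem_sdiff, Finset.mem_inter, mem_prz]
    constructor
    · rintro ⟨i, hi, rfl⟩
      have hi' := (hP i).1 hi
      have hi2 := Finset.mem_sdiff.1 i.2
      have hi3 := (mem_prz z i).1 hi2.1
      have hpos : (0 : ℝ) < ((i : ℕ) : ℝ) := by exact_mod_cast hi3.2.pos
      refine ⟨⟨?_, hi3.2⟩, fun h => hi2.2 h.1⟩
      refine Nat.le_floor ?_
      show ((i : ℕ) : ℝ) ≤ Real.exp t
      rw [← Real.exp_log hpos]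
      exact Real.exp_le_exp.2 hi'
    · rintro ⟨⟨hq1, hq2⟩, hq3⟩
      have hqz : q ∈ prz z \ E := by
        rw [Finset.mem_sdiff, mem_prz]
        exact ⟨⟨hq1.trans hnz', hq2⟩, fun h => hq3 ⟨h, hq1, hq2⟩⟩
      refine ⟨⟨q, hqz⟩, (hP _).2 ?_, rfl⟩
      have hpos : (0 : ℝ) < (q : ℝ) := by exact_mod_cast hq2.pos
      show Real.log (q : ℝ) ≤ t
      rw [Real.log_le_iff_le_exp hpos]
      have : (q : ℝ) ≤ n := by exact_mod_cast hq1
      exact this.trans (Nat.floor_le (Real.exp_pos t).le)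
  have h4 : ∏ q ∈ prz n \ (E ∩ prz n), (1 + 1 / ((q : ℝ) - 1)) =
      (∏ i ∈ P, (1 - 1 / (((i : {q // q ∈ prz z \ E}) : ℕ) : ℝ)))⁻¹ := by
    rw [← hmap, Finset.prod_map, ← Finset.prod_inv_distrib]
    refine Finset.prod_congr rfl fun i hi => ?_
    have hi3 := (mem_prz z i).1 (Finset.mem_sdiff.1 i.2).1
    have h5 : (2 : ℝ) ≤ ((i : ℕ) : ℝ) := by exact_mod_cast hi3.2.two_le
    show 1 + 1 / (((i : ℕ) : ℝ) - 1) = (1 - 1 / ((i : ℕ) : ℝ))⁻¹
    have h6 : ((i : ℕ) : ℝ) - 1 ≠ 0 := by linarith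
    have h7 : ((i : ℕ) : ℝ) ≠ 0 := by linarith
    have h8 : (1 - 1 / ((i : ℕ) : ℝ)) ≠ 0 := by
      rw [one_sub_div h7]
      exact div_ne_zero h6 h7
    refine eq_inv_of_mul_eq_one_left ?_
    field_simp
    ring
  have h5 : V ≤ ∏ q ∈ E ∩ prz n, (1 - 1 / (q : ℝ)) := by
    refine hV.trans ?_
    have hfac : ∀ q ∈ E, 0 ≤ 1 - 1 / (q : ℝ) ∧ 1 - 1 / (q : ℝ) ≤ 1 := by
      intro q hq
      have hq' := ((mem_prz z q).1 (hE hq)).2
      have : (2 : ℝ) ≤ q := by exact_mod_cast hq'.two_le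
      constructor
      · rw [sub_nonneg, div_le_one (by linarith)]
        linarith
      · have : 0 ≤ 1 / (q : ℝ) := by positivity
        linarith
    rw [← Finset.prod_sdiff (Finset.inter_subset_left : E ∩ prz n ⊆ E)]
    have h6 : ∏ q ∈ E \ (E ∩ prz n), (1 - 1 / (q : ℝ)) ≤ 1 :=
      Finset.prod_le_one (fun q hq => (hfac q (Finset.mem_sdiff.1 hq).1).1)
        fun q hq => (hfac q (Finset.mem_sdiff.1 hq).1).2
    have h7 : 0 ≤ ∏ q ∈ E ∩ prz n, (1 - 1 / (q : ℝ)) :=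
      Finset.prod_nonneg fun q hq => (hfac q (Finset.mem_inter.1 hq).1).1
    exact mul_le_of_le_one_left h7 h6
  have h6 : t / 2 ≤ Real.log n := by
    have h7 : Real.exp t ≤ 2 * n := by
      have := Nat.lt_floor_add_one (Real.exp t)
      rw [← hn] at this
      linarith
    have h8 : t ≤ Real.log (2 * n) := (Real.le_log_iff_exp_le (by linarith)).2 h7
    rw [Real.log_mul (by norm_num) (by linarith)] at h8
    have := Real.log_two_lt_d9
    linarith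
  have h7 : V * (t / 2) ≤ (∏ q ∈ E ∩ prz n, (1 - 1 / (q : ℝ))) * Real.log n :=
    mul_le_mul h5 h6 (by linarith) (hV0.le.trans h5)
  rw [← h4]
  calc V * t / 2 = V * (t / 2) := by ring
    _ ≤ _ := h7.trans (h1.trans h2)

/-- Mertens for the primes below `exp t` -/
private theorem blk_mert {z : ℕ} {E : Finset ℕ} {t : ℝ} (ht : 2 ≤ t)
    (P : Finset {q // q ∈ prz z \ E}) (hP : ∀ i ∈ P, Real.log ((i : ℕ) : ℝ) ≤ t) :
    ∑ i ∈ P, 1 / (((i : {q // q ∈ prz z \ E}) : ℕ) : ℝ) * Real.log ((i : ℕ) : ℝ) ≤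
      t + Real.log 4 := by
  classical
  set n := ⌊Real.exp t⌋₊ with hn
  have hexp : 1 ≤ Real.exp t := Real.one_le_exp (by linarith)
  have hn1 : 1 ≤ n := Nat.le_floor (by simpa using hexp)
  have hn0 : (0 : ℝ) < n := by exact_mod_cast hn1
  have h1 := Pool.Agent.Helper52.mertens1 hn1
  have h2 : Real.log n ≤ t := by
    rw [Real.log_le_iff_le_exp hn0]
    exact Nat.floor_le (Real.exp_pos t).le
  refine le_trans ?_ (h1.trans (by linarith))
  have h3 : ∑ i ∈ P, 1 / (((i : {q // q ∈ prz z \ E}) : ℕ) : ℝ) * Real.log ((i : ℕ) : ℝ) =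
      ∑ q ∈ P.map (Function.Embedding.subtype _), Real.log (q : ℝ) / (q : ℝ) := by
    rw [Finset.sum_map]
    refine Finset.sum_congr rfl fun i _ => ?_
    show 1 / ((i : ℕ) : ℝ) * Real.log ((i : ℕ) : ℝ) = Real.log ((i : ℕ) : ℝ) / ((i : ℕ) : ℝ)
    ring
  rw [h3]
  refine Finset.sum_le_sum_of_subset_of_nonneg ?_ fun q _ _ => ?_
  · intro q hq
    rw [Finset.mem_map] at hq
    obtain ⟨i, hi, rfl⟩ := hq
    have hi2 := (Finset.mem_sdiff.1 i.2).1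
    unfold prz at hi2
    rw [Finset.mem_filter] at hi2
    have hpos : (0 : ℝ) < ((i : ℕ) : ℝ) := by exact_mod_cast hi2.2.pos
    rw [Pool.Agent.Helper52.mem_pr]
    refine ⟨hi2.2.pos, ?_, hi2.2⟩
    refine Nat.le_floor ?_
    show ((i : ℕ) : ℝ) ≤ Real.exp t
    rw [← Real.exp_log hpos]
    exact Real.exp_le_exp.2 (hP i hi)
  · exact div_nonneg (Real.log_natCast_nonneg q) (Nat.cast_nonneg q)

open Classical in
theorem block_lower {z : ℕ} {E : Finset ℕ} (hE : E ⊆ prz z) {V : ℝ} (hV0 : 0 < V)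
    (hV : V ≤ ∏ q ∈ E, (1 - 1 / (q : ℝ))) (d : ℕ) {X : ℝ} (hX : 16 * ((d : ℝ) + 1) ≤ X)
    (hXz : X ≤ Real.log z) (u : Finset {q // q ∈ prz z \ E} → ℝ) (hu : DegLe d u)
    (hu0 : u ∅ = 1) :
    V * X / (32 * ((d : ℝ) + 1)) *
      Ex (fun i : {q // q ∈ prz z \ E} => 1 / ((i : ℕ) : ℝ))
        (univ.filter (fun i : {q // q ∈ prz z \ E} => Real.log ((i : ℕ) : ℝ) ≤ X / (8 * ((d : ℝ) + 1))))
        (fun S => u S ^ 2) - 1 ≤
      ∑ S ∈ (univ : Finset (Finset {q // q ∈ prz z \ E})).filter (fun S => S ≠ ∅ ∧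
        Real.log (PP (fun q : {q // q ∈ prz z \ E} => (q : ℕ)) S) ≤ X),
        u S ^ 2 / PH (fun q : {q // q ∈ prz z \ E} => (q : ℕ)) S := by
  have hd0 : (0 : ℝ) ≤ d := Nat.cast_nonneg d
  have hX16 : 16 ≤ X := by nlinarith
  have hX0 : 0 < X := by linarith
  have ht2 : 2 ≤ X / (8 * ((d : ℝ) + 1)) := by
    rw [le_div_iff₀ (by positivity)]
    linarith
  have htX : X / (8 * ((d : ℝ) + 1)) ≤ X := by
    rw [div_le_iff₀ (by positivity)]
    nlinarith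
  set P : Finset {q // q ∈ prz z \ E} :=
    univ.filter (fun i : {q // q ∈ prz z \ E} => Real.log ((i : ℕ) : ℝ) ≤ X / (8 * ((d : ℝ) + 1)))
    with hPdef
  have hP : ∀ i, i ∈ P ↔ Real.log ((i : ℕ) : ℝ) ≤ X / (8 * ((d : ℝ) + 1)) := by
    intro i
    rw [hPdef, Finset.mem_filter]
    simp
  have hp2 : ∀ i : {q // q ∈ prz z \ E}, 2 ≤ (i : ℕ) := by
    intro i
    have hi2 := (Finset.mem_sdiff.1 i.2).1
    unfold prz at hi2
    rw [Finset.mem_filter] at hi2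
    exact hi2.2.two_le
  have hp2r : ∀ i : {q // q ∈ prz z \ E}, (2 : ℝ) ≤ ((i : ℕ) : ℝ) := fun i => by
    exact_mod_cast hp2 i
  have hq0 : ∀ i : {q // q ∈ prz z \ E}, 0 ≤ 1 / ((i : ℕ) : ℝ) := fun i => by positivity
  have hq1 : ∀ i : {q // q ∈ prz z \ E}, 1 / ((i : ℕ) : ℝ) ≤ 1 := fun i => by
    have := hp2r i
    rw [div_le_one (by linarith)]
    linarith
  have hEx0 : 0 ≤ Ex (fun i : {q // q ∈ prz z \ E} => 1 / ((i : ℕ) : ℝ)) P
      (fun S => u S ^ 2) := Ex_nonneg hq0 hq1 fun S _ => sq_nonneg _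
  have hw : Ex (fun i : {q // q ∈ prz z \ E} => 1 / ((i : ℕ) : ℝ)) P
      (fun S => u S ^ 2 * ∑ i ∈ S, Real.log ((i : ℕ) : ℝ)) ≤
      X / 2 * Ex (fun i : {q // q ∈ prz z \ E} => 1 / ((i : ℕ) : ℝ)) P
        (fun S => u S ^ 2) := by
    refine (weight_le hq0 hq1 P d u hu (fun i => Real.log ((i : ℕ) : ℝ))
      (v := X / (8 * ((d : ℝ) + 1))) (v' := X / (8 * ((d : ℝ) + 1)) + Real.log 4)
      (fun i _ => Real.log_natCast_nonneg _) (fun i hi => (hP i).1 hi)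
      (blk_mert ht2 P fun i hi => (hP i).1 hi) (by linarith)).trans ?_
    refine mul_le_mul_of_nonneg_right ?_ hEx0
    have h1 : X / (8 * ((d : ℝ) + 1)) * (8 * ((d : ℝ) + 1)) = X :=
      div_mul_cancel₀ _ (by positivity)
    have h2 : Real.log 4 = 2 * Real.log 2 := by
      rw [show (4 : ℝ) = 2 ^ 2 by norm_num, Real.log_pow]
      norm_num
    have h3 := Real.log_two_lt_d9
    rw [h2]
    nlinarith
  have hZ := blk_Z hE hV0 hV ht2 (htX.trans hXz) P hP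
  have key := blk_abs (p := fun q : {q // q ∈ prz z \ E} => (q : ℕ)) hp2 P hX0 u hu0 hw
  refine le_trans (sub_le_sub_right (mul_le_mul_of_nonneg_right ?_ hEx0) 1) key
  have h1 : V * (X / (8 * ((d : ℝ) + 1))) / 2 / 2 = V * X / (32 * ((d : ℝ) + 1)) := by
    field_simp
    ring
  rw [← h1]
  linarith

end Pool.Agent.RT
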