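import Pool.Agent.RT.Cube

/-! RT/CardEx.  Expectation of a function of the number of elements.

`mu (1/·) P T = ∏_{q∈P} (1 - 1/q) * ∏_{q∈T} 1/(q-1)` for `T ⊆ P` (`(1/q)/(1-1/q) = 1/(q-1)`, `q ≥ 2`).
So `Ex = ∏_P (1-1/q) ∑_{T⊆P} g |T| ∏_T 1/(q-1) = ∏ ∑_{j<r} g j e_j`, `e_j = ∑_{T ∈ P.powersetCard j} ∏_T x`
`≤ (∑_P x)^j` for `x ≥ 0` (induction on `P`: `Finset.powersetCard_succ_insert`,
`x_p s^(j) + s^(j+1) ≤ (x_p + s)^(j+1)`).

`cost_num`: for `j = 0` the term is `l^(1-(1/2)^(r-1))`.  For `1 ≤ j < r`: with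
`ε = (1/2)^(r-j-1) - (1/2)^(r-1) > 0` the quotient of the term by `l^(1-(1/2)^(r-1))` is
`l^(-ε) (18 + 2 log l)^j`, bounded on `[1, ∞)`: `log l ≤ l^η/η` (`Real.log_le_rpow_div`) with `η = ε/j`,
so `(18 + 2 log l)^j ≤ ((18 + 2/η) l^η)^j = (18+2/η)^j l^ε`.  Sum the finitely many constants. -/

namespace Pool.Agent.RT

open Finset

private theorem esymm_le (P : Finset ℕ) (x : ℕ → ℝ) (hx : ∀ q ∈ P, 0 ≤ x q) :
    ∀ j : ℕ, ∑ T ∈ P.powersetCard j, ∏ q ∈ T, x q ≤ (∑ q ∈ P, x q) ^ j := by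
  induction P using Finset.induction_on with
  | empty =>
    intro j
    rcases j with _ | j
    · simp
    · simp [Finset.powersetCard_eq_empty.2]
  | insert p P hp ih =>
    have hx' : ∀ q ∈ P, 0 ≤ x q := fun q hq => hx q (mem_insert_of_mem hq)
    have ih' := ih hx'
    have hxp : 0 ≤ x p := hx p (mem_insert_self _ _)
    have hs : 0 ≤ ∑ q ∈ P, x q := sum_nonneg hx'
    intro j
    rcases j with _ | j
    · simp
    · rw [Finset.powersetCard_succ_insert hp, sum_union, sum_image, sum_insert hp]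
      · have h1 : ∑ T ∈ P.powersetCard j, ∏ q ∈ insert p T, x q
            = x p * ∑ T ∈ P.powersetCard j, ∏ q ∈ T, x q := by
          rw [mul_sum]
          refine sum_congr rfl fun T hT => ?_
          rw [prod_insert]
          intro h
          exact hp ((mem_powersetCard.1 hT).1 h)
        rw [h1]
        have h2 := ih' (j + 1)
        have h3 := mul_le_mul_of_nonneg_left (ih' j) hxp
        have h4 : (∑ q ∈ P, x q) ^ j ≤ (x p + ∑ q ∈ P, x q) ^ j :=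
          pow_le_pow_left₀ hs (by linarith) j
        calc _ ≤ (∑ q ∈ P, x q) ^ (j + 1) + x p * (∑ q ∈ P, x q) ^ j := add_le_add h2 h3
          _ = (x p + ∑ q ∈ P, x q) * (∑ q ∈ P, x q) ^ j := by ring
          _ ≤ (x p + ∑ q ∈ P, x q) * (x p + ∑ q ∈ P, x q) ^ j :=
            mul_le_mul_of_nonneg_left h4 (by linarith)
          _ = _ := by ring
      · intro A hA B hB hAB
        have hA' : p ∉ A := fun h => hp ((mem_powersetCard.1 hA).1 h)
        have hB' : p ∉ B := fun h => hp ((mem_powersetCard.1 hB).1 h)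
        have := congrArg (fun S => S.erase p) hAB
        simpa [erase_insert hA', erase_insert hB'] using this
      · rw [disjoint_left]
        intro A hA hA'
        obtain ⟨B, -, rfl⟩ := mem_image.1 hA'
        exact hp ((mem_powersetCard.1 hA).1 (mem_insert_self _ _))

theorem Ex_card_le (P : Finset ℕ) (hP : ∀ q ∈ P, q.Prime) (r : ℕ) (g : ℕ → ℝ)
    (hg0 : ∀ j, 0 ≤ g j) (hgr : ∀ j, r ≤ j → g j = 0) :
    Ex (fun q : ℕ => 1 / (q : ℝ)) P (fun T => g T.card) ≤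
      (∏ q ∈ P, (1 - 1 / (q : ℝ))) *
        ∑ j ∈ range r, g j * (∑ q ∈ P, 1 / ((q : ℝ) - 1)) ^ j := by
  have hq2 : ∀ q ∈ P, (2 : ℝ) ≤ q := fun q hq => by exact_mod_cast (hP q hq).two_le
  have hmu : ∀ T ∈ P.powerset, mu (fun q : ℕ => 1 / (q : ℝ)) P T
      = (∏ q ∈ P, (1 - 1 / (q : ℝ))) * ∏ q ∈ T, 1 / ((q : ℝ) - 1) := by
    intro T hT
    have hTP := mem_powerset.1 hT
    have h1 : ∏ q ∈ P, (1 - 1 / (q : ℝ))
        = (∏ q ∈ P \ T, (1 - 1 / (q : ℝ))) * ∏ q ∈ T, (1 - 1 / (q : ℝ)) :=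
      (prod_sdiff hTP).symm
    have h2 : (∏ q ∈ T, (1 - 1 / (q : ℝ))) * ∏ q ∈ T, 1 / ((q : ℝ) - 1)
        = ∏ q ∈ T, 1 / (q : ℝ) := by
      rw [← prod_mul_distrib]
      refine prod_congr rfl fun q hq => ?_
      have h3 := hq2 q (hTP hq)
      have h4 : (q : ℝ) ≠ 0 := by linarith
      have h5 : (q : ℝ) - 1 ≠ 0 := by linarith
      field_simp
    unfold mu
    rw [h1, mul_assoc, h2, mul_comm]
  have hP0 : 0 ≤ ∏ q ∈ P, (1 - 1 / (q : ℝ)) := by
    refine prod_nonneg fun q hq => ?_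
    have h3 := hq2 q hq
    have : 1 / (q : ℝ) ≤ 1 := by
      rw [div_le_one (by linarith)]
      linarith
    linarith
  have hx : ∀ q ∈ P, 0 ≤ 1 / ((q : ℝ) - 1) := fun q hq => by
    have h3 := hq2 q hq
    exact div_nonneg zero_le_one (by linarith)
  have hx0 : ∀ T ∈ P.powerset, 0 ≤ ∏ q ∈ T, 1 / ((q : ℝ) - 1) := fun T hT =>
    prod_nonneg fun q hq => hx q (mem_powerset.1 hT hq)
  unfold Ex
  have h1 : ∑ T ∈ P.powerset, mu (fun q : ℕ => 1 / (q : ℝ)) P T * g T.card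
      = (∏ q ∈ P, (1 - 1 / (q : ℝ))) *
        ∑ T ∈ P.powerset, g T.card * ∏ q ∈ T, 1 / ((q : ℝ) - 1) := by
    rw [mul_sum]
    refine sum_congr rfl fun T hT => ?_
    rw [hmu T hT]
    ring
  rw [h1]
  refine mul_le_mul_of_nonneg_left ?_ hP0
  have h2 : ∑ T ∈ P.powerset, g T.card * ∏ q ∈ T, 1 / ((q : ℝ) - 1)
      = ∑ T ∈ P.powerset.filter (fun T => T.card < r),
          g T.card * ∏ q ∈ T, 1 / ((q : ℝ) - 1) := by
    rw [sum_filter]
    refine sum_congr rfl fun T _ => ?_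
    split_ifs with h
    · rfl
    · rw [hgr _ (not_lt.1 h), zero_mul]
  rw [h2, ← sum_fiberwise_of_maps_to (t := range r) (g := fun T : Finset ℕ => T.card)
    (fun T hT => mem_range.2 (mem_filter.1 hT).2)]
  refine sum_le_sum fun j hj => ?_
  calc ∑ T ∈ (P.powerset.filter (fun T => T.card < r)).filter (fun T => T.card = j),
        g T.card * ∏ q ∈ T, 1 / ((q : ℝ) - 1)
      = ∑ T ∈ P.powersetCard j, g j * ∏ q ∈ T, 1 / ((q : ℝ) - 1) := by
        refine sum_congr ?_ ?_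
        · ext T
          simp only [mem_filter, mem_powerset, mem_powersetCard]
          constructor
          · rintro ⟨⟨h, -⟩, h'⟩
            exact ⟨h, h'⟩
          · rintro ⟨h, h'⟩
            exact ⟨⟨h, by rw [h']; exact mem_range.1 hj⟩, h'⟩
        · intro T hT
          rw [(mem_powersetCard.1 hT).2]
    _ = g j * ∑ T ∈ P.powersetCard j, ∏ q ∈ T, 1 / ((q : ℝ) - 1) := by rw [mul_sum]
    _ ≤ g j * (∑ q ∈ P, 1 / ((q : ℝ) - 1)) ^ j :=
        mul_le_mul_of_nonneg_left (esymm_le P _ hx j) (hg0 j)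

private theorem cost_one (a b : ℝ) (hab : a < b) (j : ℕ) : ∃ C : ℝ, 0 ≤ C ∧ ∀ l : ℝ, 1 ≤ l →
    l ^ a * (18 + 2 * Real.log l) ^ j ≤ C * l ^ b := by
  rcases Nat.eq_zero_or_pos j with rfl | hj
  · refine ⟨1, zero_le_one, fun l hl => ?_⟩
    rw [pow_zero, mul_one, one_mul]
    exact Real.rpow_le_rpow_of_exponent_le hl hab.le
  · have hj' : (0 : ℝ) < j := by exact_mod_cast hj
    set η : ℝ := (b - a) / j with hη
    have hη0 : 0 < η := div_pos (by linarith) hj'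
    refine ⟨(18 + 2 / η) ^ j, by positivity, fun l hl => ?_⟩
    have hl0 : (0 : ℝ) < l := by linarith
    have hlog0 : 0 ≤ Real.log l := Real.log_nonneg hl
    have h1 : Real.log l ≤ l ^ η / η := Real.log_le_rpow_div hl0.le hη0
    have h2 : (1 : ℝ) ≤ l ^ η := Real.one_le_rpow hl hη0.le
    have h3 : 18 + 2 * Real.log l ≤ (18 + 2 / η) * l ^ η := by
      have : (18 + 2 / η) * l ^ η = 18 * l ^ η + 2 * (l ^ η / η) := by ring
      rw [this]
      linarith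
    have h4 : (18 + 2 * Real.log l) ^ j ≤ ((18 + 2 / η) * l ^ η) ^ j :=
      pow_le_pow_left₀ (by linarith) h3 j
    have h5 : (l ^ η) ^ j = l ^ (b - a) := by
      rw [← Real.rpow_natCast, ← Real.rpow_mul hl0.le]
      congr 1
      rw [hη]
      field_simp
    calc l ^ a * (18 + 2 * Real.log l) ^ j
        ≤ l ^ a * ((18 + 2 / η) * l ^ η) ^ j :=
          mul_le_mul_of_nonneg_left h4 (Real.rpow_nonneg hl0.le _)
      _ = (18 + 2 / η) ^ j * (l ^ a * l ^ (b - a)) := by rw [mul_pow, h5]; ring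
      _ = (18 + 2 / η) ^ j * l ^ b := by
          rw [← Real.rpow_add hl0]
          congr 2
          ring

theorem cost_num (r : ℕ) (hr : 1 ≤ r) : ∃ C : ℝ, 0 < C ∧ ∀ l : ℝ, 1 ≤ l →
    ∑ j ∈ range r, l ^ (1 - (1 / 2 : ℝ) ^ (r - j - 1)) * (18 + 2 * Real.log l) ^ j ≤
      C * l ^ (1 - (1 / 2 : ℝ) ^ (r - 1)) := by
  have key : ∀ j : ℕ, j ∈ range r → ∃ C : ℝ, 0 ≤ C ∧ ∀ l : ℝ, 1 ≤ l →
      l ^ (1 - (1 / 2 : ℝ) ^ (r - j - 1)) * (18 + 2 * Real.log l) ^ j ≤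
        C * l ^ (1 - (1 / 2 : ℝ) ^ (r - 1)) := by
    intro j hj
    rcases Nat.eq_zero_or_pos j with rfl | hj0
    · refine ⟨1, zero_le_one, fun l _ => ?_⟩
      simp
    · refine cost_one _ _ ?_ j
      have hjr := mem_range.1 hj
      have : (1 / 2 : ℝ) ^ (r - 1) < (1 / 2 : ℝ) ^ (r - j - 1) :=
        pow_lt_pow_right_of_lt_one₀ (by norm_num) (by norm_num) (by omega)
      linarith
  choose! C hC0 hC using key
  refine ⟨∑ j ∈ range r, C j + 1, ?_, fun l hl => ?_⟩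
  · have : 0 ≤ ∑ j ∈ range r, C j := sum_nonneg hC0
    linarith
  · have h0 : 0 ≤ l ^ (1 - (1 / 2 : ℝ) ^ (r - 1)) := Real.rpow_nonneg (by linarith) _
    calc _ ≤ ∑ j ∈ range r, C j * l ^ (1 - (1 / 2 : ℝ) ^ (r - 1)) :=
          sum_le_sum fun j hj => hC j hj l hl
      _ = (∑ j ∈ range r, C j) * l ^ (1 - (1 / 2 : ℝ) ^ (r - 1)) := by rw [sum_mul]
      _ ≤ _ := mul_le_mul_of_nonneg_right (by linarith) h0

end Pool.Agent.RT
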