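import Pool.Agent.RT.Cube

/-! RT/Cls.  A residue class with at most the average cost, chosen prime by prime.

Induction on `P` (for all `g`).  `P = ∅`: `b = 0`, `Ex_empty`.  `insert q P` (`q ∉ P`): for `ε ∈ {0,1}` put
`G a ε = Ex (1/·) P (fun T => g a (T.card + ε))`.  For each `a` exactly one `c < q` has `q ∣ c - a`, so
`∑_{c<q} ∑_a G a [q ∣ c - a] = ∑_a (G a 1 + (q-1) G a 0) = q ∑_a Ex (insert q P) (g a ∘ card)`
(`Ex_insert`, `card_insert_of_notMem`, `erase_eq_of_notMem` on `S ⊆ P`), so some `c < q` has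
`∑_a G a [q ∣ c - a] ≤ ∑_a Ex (insert q P) (g a ∘ card)`.  Apply the induction hypothesis to
`g' a k = g a (k + [q ∣ c - a])`, get `b'`; by the Chinese remainder theorem (`q` is coprime to `∏ P`)
choose `b ≡ c mod q`, `b ≡ b' mod ∏ P`.  Then for `q' ∈ P`: `q' ∣ b - a ↔ q' ∣ b' - a`, and
`q ∣ b - a ↔ q ∣ c - a`, so the number of divisors in `insert q P` is that in `P` for `b'` plus
`[q ∣ c - a]`. -/

namespace Pool.Agent.RT

open Finset

open Classical in
private theorem sum_res (q : ℕ) (hq : 0 < q) (a : ℕ) (u v : ℝ) :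
    ∑ c ∈ range q, (if (q : ℤ) ∣ (c : ℤ) - (a : ℤ) then u else v) = u + ((q : ℝ) - 1) * v := by
  have h1 : ∀ c ∈ range q, (if (q : ℤ) ∣ (c : ℤ) - (a : ℤ) then u else v)
      = v + (if c = a % q then u - v else 0) := by
    intro c hc
    have hcq : c < q := mem_range.1 hc
    have h2 : ((q : ℤ) ∣ (c : ℤ) - (a : ℤ)) ↔ c = a % q := by
      rw [← Nat.modEq_iff_dvd]
      constructor
      · intro h
        have := h.symm
        unfold Nat.ModEq at this
        rw [Nat.mod_eq_of_lt hcq] at this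
        exact this
      · intro h
        unfold Nat.ModEq
        rw [h, Nat.mod_mod]
    by_cases h3 : c = a % q
    · rw [if_pos (h2.2 h3), if_pos h3]; ring
    · rw [if_neg (fun h => h3 (h2.1 h)), if_neg h3]; ring
  rw [sum_congr rfl h1, sum_add_distrib, sum_const, card_range, nsmul_eq_mul,
    sum_ite_eq' (range q) (a % q) (fun _ => u - v), if_pos (mem_range.2 (Nat.mod_lt _ hq))]
  ring

private theorem Ex_ins (q : ℕ) (hq : 0 < q) (P : Finset ℕ) (hqP : q ∉ P) (h : ℕ → ℝ) :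
    (q : ℝ) * Ex (fun q : ℕ => 1 / (q : ℝ)) (insert q P) (fun T => h T.card) =
      Ex (fun q : ℕ => 1 / (q : ℝ)) P (fun T => h (T.card + 1)) +
        ((q : ℝ) - 1) * Ex (fun q : ℕ => 1 / (q : ℝ)) P (fun T => h (T.card + 0)) := by
  have hq0 : (q : ℝ) ≠ 0 := by positivity
  rw [Ex_insert hqP]
  have h1 : Ex (fun q : ℕ => 1 / (q : ℝ)) P (fun S => h S.card + 1 / (q : ℝ) *
      Dd q (fun T => h T.card) S)
      = Ex (fun q : ℕ => 1 / (q : ℝ)) P (fun S => (1 / (q : ℝ)) * h (S.card + 1)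
        + (1 - 1 / (q : ℝ)) * h (S.card + 0)) := by
    apply Ex_congr
    intro S hS
    have hqS : q ∉ S := fun hh => hqP (hS hh)
    unfold Dd
    beta_reduce
    rw [card_insert_of_notMem hqS, erase_eq_of_notMem hqS, add_zero]
    ring
  rw [h1, Ex_add, Ex_smul, Ex_smul]
  field_simp

open Classical in
theorem exists_class (P : Finset ℕ) (hP : ∀ q ∈ P, q.Prime) (A : Finset ℕ) (g : ℕ → ℕ → ℝ) :
    ∃ b : ℕ, ∑ a ∈ A, g a (P.filter (fun q : ℕ => (q : ℤ) ∣ (b : ℤ) - (a : ℤ))).card ≤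
      ∑ a ∈ A, Ex (fun q : ℕ => 1 / (q : ℝ)) P (fun T => g a T.card) := by
  induction P using Finset.induction_on generalizing g with
  | empty =>
    refine ⟨0, le_of_eq ?_⟩
    apply sum_congr rfl
    intro a _
    rw [Ex_empty, filter_empty]
  | insert q P hqP ih =>
    have hqp : q.Prime := hP q (mem_insert_self q P)
    have hq0 : 0 < q := hqp.pos
    have hqR : (0 : ℝ) < q := by exact_mod_cast hq0
    have hP' : ∀ q' ∈ P, q'.Prime := fun q' h => hP q' (mem_insert_of_mem h)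
    -- choice of the class modulo q
    obtain ⟨c, _, hc⟩ : ∃ c ∈ range q,
        ∑ a ∈ A, (if (q : ℤ) ∣ (c : ℤ) - (a : ℤ) then
          Ex (fun q : ℕ => 1 / (q : ℝ)) P (fun T => g a (T.card + 1)) else
          Ex (fun q : ℕ => 1 / (q : ℝ)) P (fun T => g a (T.card + 0))) ≤
        ∑ a ∈ A, Ex (fun q : ℕ => 1 / (q : ℝ)) (insert q P) (fun T => g a T.card) := by
      apply exists_le_of_sum_le (nonempty_range_iff.2 hq0.ne')
      rw [sum_comm, sum_const, card_range, nsmul_eq_mul, mul_sum]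
      apply le_of_eq
      apply sum_congr rfl
      intro a _
      rw [sum_res q hq0 a, Ex_ins q hq0 P hqP (g a)]
    obtain ⟨b', hb'⟩ := ih hP' (fun a k => g a (k + if (q : ℤ) ∣ (c : ℤ) - (a : ℤ) then 1 else 0))
    have hco : Nat.Coprime q (∏ q' ∈ P, q') := by
      apply Nat.Coprime.prod_right
      intro q' hq'
      exact (Nat.coprime_primes hqp (hP' q' hq')).2 (fun h => hqP (h ▸ hq'))
    obtain ⟨b, hbc, hbb⟩ := Nat.chineseRemainder hco c b'
    refine ⟨b, ?_⟩
    have hq1 : ∀ a : ℕ, ((q : ℤ) ∣ (b : ℤ) - (a : ℤ)) ↔ ((q : ℤ) ∣ (c : ℤ) - (a : ℤ)) := by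
      intro a
      have h1 : (q : ℤ) ∣ (c : ℤ) - (b : ℤ) := Nat.modEq_iff_dvd.1 hbc
      constructor
      · intro h
        have := dvd_add h1 h
        simpa using this
      · intro h
        have := dvd_sub h h1
        simpa using this
    have hq2 : ∀ q' ∈ P, ∀ a : ℕ, ((q' : ℤ) ∣ (b : ℤ) - (a : ℤ)) ↔
        ((q' : ℤ) ∣ (b' : ℤ) - (a : ℤ)) := by
      intro q' hq' a
      have h1 : ((∏ q' ∈ P, q' : ℕ) : ℤ) ∣ (b' : ℤ) - (b : ℤ) := Nat.modEq_iff_dvd.1 hbb
      have h2 : (q' : ℤ) ∣ (b' : ℤ) - (b : ℤ) :=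
        dvd_trans (by exact_mod_cast dvd_prod_of_mem (fun x => x) hq') h1
      constructor
      · intro h
        have := dvd_add h2 h
        simpa using this
      · intro h
        have := dvd_sub h h2
        simpa using this
    have hcard : ∀ a : ℕ, ((insert q P).filter
        (fun q : ℕ => (q : ℤ) ∣ (b : ℤ) - (a : ℤ))).card =
        (P.filter (fun q : ℕ => (q : ℤ) ∣ (b' : ℤ) - (a : ℤ))).card +
          if (q : ℤ) ∣ (c : ℤ) - (a : ℤ) then 1 else 0 := by
      intro a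
      have h1 : P.filter (fun q : ℕ => (q : ℤ) ∣ (b : ℤ) - (a : ℤ)) =
          P.filter (fun q : ℕ => (q : ℤ) ∣ (b' : ℤ) - (a : ℤ)) :=
        filter_congr fun q' hq' => hq2 q' hq' a
      rw [filter_insert, h1]
      by_cases h2 : (q : ℤ) ∣ (c : ℤ) - (a : ℤ)
      · rw [if_pos ((hq1 a).2 h2), if_pos h2, card_insert_of_notMem]
        intro h3
        exact hqP (mem_filter.1 h3).1
      · rw [if_neg (fun h => h2 ((hq1 a).1 h)), if_neg h2, add_zero]
    calc ∑ a ∈ A, g a ((insert q P).filter (fun q : ℕ => (q : ℤ) ∣ (b : ℤ) - (a : ℤ))).card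
        = ∑ a ∈ A, g a ((P.filter (fun q : ℕ => (q : ℤ) ∣ (b' : ℤ) - (a : ℤ))).card +
          if (q : ℤ) ∣ (c : ℤ) - (a : ℤ) then 1 else 0) :=
          sum_congr rfl fun a _ => by rw [hcard a]
      _ ≤ _ := hb'
      _ = ∑ a ∈ A, (if (q : ℤ) ∣ (c : ℤ) - (a : ℤ) then
          Ex (fun q : ℕ => 1 / (q : ℝ)) P (fun T => g a (T.card + 1)) else
          Ex (fun q : ℕ => 1 / (q : ℝ)) P (fun T => g a (T.card + 0))) := by
          apply sum_congr rfl
          intro a _
          by_cases h2 : (q : ℤ) ∣ (c : ℤ) - (a : ℤ)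
          · simp only [if_pos h2]
          · simp only [if_neg h2]
      _ ≤ _ := hc

end Pool.Agent.RT
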