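import Mathlib

/-! RT/ParR.  Arithmetic of the parameters for the core theorem (`lam = Nat.log 2 L`,
`s = d/(4 (r+6) lam)`; `K ≥ 0` is any constant, used for the energies).

* `exp(-(d/(2s))) ≤ exp(-2(r+6) lam) ≤ 2^(-2(r+6) lam) ≤ L^(-(r+6))` as `L < 2^(lam+1) ≤ 2^(2 lam)`
  (`s ≥ 1` is assumed; `s ≤ d/(4(r+6) lam)`).
* `L^3 ≤ d^4` gives `d → ∞`; `2^d ≥ 40`.
* the rest: powers of `L`. -/

namespace Pool.Agent.RT

theorem par_r (r : ℕ) (K : ℝ) (hK : 0 ≤ K) : ∃ L0 : ℕ, ∀ L d : ℕ, L0 ≤ L → L ^ 3 ≤ d ^ 4 → d ≤ L →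
    1 ≤ d / (4 * (r + 6) * Nat.log 2 L) →
    10 ≤ Nat.log 2 L ∧ 1024 ≤ L ∧
    (1 + K * L : ℝ) ≤ (L : ℝ) ^ 2 ∧
    (L : ℝ) * (4 ^ r * (Real.exp 9 * L) ^ 2 * (1 + (L : ℝ)) ^ r * (1 + K * L)) *
      ((L : ℝ) / ((L : ℝ) ^ (r + 1)) ^ 6 +
        Real.exp (-(((d : ℝ) * Real.log 2) /
          (2 * (((d / (4 * (r + 6) * Nat.log 2 L) : ℕ) : ℝ) * Real.log 2))))) ≤ 1 / 16 ∧
    40 * ((2 : ℝ) ^ d) ^ (r + 5) ≤ (2 : ℝ) ^ ((r + 6) * d) := by
  set C : ℝ := 8 ^ r * Real.exp 18 * (1 + K) with hC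
  have hC0 : 0 ≤ C := by positivity
  refine ⟨1024 + ⌈1 + K⌉₊ + ⌈32 * C⌉₊, ?_⟩
  intro L d hL _ hdL hs
  have hL1024 : 1024 ≤ L := by omega
  have hlam : 10 ≤ Nat.log 2 L := by
    have : Nat.log 2 1024 ≤ Nat.log 2 L := Nat.log_mono_right hL1024
    have h2 : Nat.log 2 1024 = 10 := by
      rw [show (1024 : ℕ) = 2 ^ 10 by norm_num, Nat.log_pow (by norm_num)]
    omega
  set lam := Nat.log 2 L with hlamdef
  have hx1 : (1024 : ℝ) ≤ (L : ℝ) := by exact_mod_cast hL1024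
  have hxK : (1 + K : ℝ) ≤ (L : ℝ) := by
    have h1 : (1 + K : ℝ) ≤ (⌈1 + K⌉₊ : ℝ) := Nat.le_ceil _
    have h2 : ((⌈1 + K⌉₊ : ℕ) : ℝ) ≤ (L : ℝ) := by
      have : ⌈1 + K⌉₊ ≤ L := by omega
      exact_mod_cast this
    linarith
  have hxC : (32 * C : ℝ) ≤ (L : ℝ) := by
    have h1 : (32 * C : ℝ) ≤ (⌈32 * C⌉₊ : ℝ) := Nat.le_ceil _
    have h2 : ((⌈32 * C⌉₊ : ℕ) : ℝ) ≤ (L : ℝ) := by
      have : ⌈32 * C⌉₊ ≤ L := by omega
      exact_mod_cast this
    linarith
  set x : ℝ := (L : ℝ) with hx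
  have hx0 : 0 < x := by linarith
  have hx1' : 1 ≤ x := by linarith
  set s : ℕ := d / (4 * (r + 6) * lam) with hsdef
  have hsmul : s * (4 * (r + 6) * lam) ≤ d := Nat.div_mul_le_self _ _
  have hKx : (1 + K * x : ℝ) ≤ (1 + K) * x := by nlinarith
  have h1 : (1 + K * x : ℝ) ≤ x ^ 2 := by nlinarith
  refine ⟨hlam, hL1024, h1, ?_, ?_⟩
  · -- the main inequality
    have hlog2 : 0 < Real.log 2 := Real.log_pos (by norm_num)
    have hs0 : (0 : ℝ) < (s : ℝ) := by exact_mod_cast hs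
    have hexp : Real.exp (-(((d : ℝ) * Real.log 2) / (2 * ((s : ℝ) * Real.log 2)))) ≤
        1 / x ^ (r + 6) := by
      have he : ((d : ℝ) * Real.log 2) / (2 * ((s : ℝ) * Real.log 2)) = (d : ℝ) / (2 * s) := by
        field_simp
      rw [he]
      have hge : (2 * (r + 6) * lam : ℝ) ≤ (d : ℝ) / (2 * s) := by
        rw [le_div_iff₀ (by positivity)]
        have : ((s * (4 * (r + 6) * lam) : ℕ) : ℝ) ≤ (d : ℝ) := by exact_mod_cast hsmul
        push_cast at this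
        nlinarith
      have hxle : x ^ (r + 6) ≤ Real.exp (2 * (r + 6) * lam) := by
        have hLlt : L < 2 ^ (lam + 1) := Nat.lt_pow_succ_log_self (by norm_num) L
        have hx2 : x ≤ 2 ^ (lam + 1) := by
          have : ((L : ℕ) : ℝ) ≤ ((2 ^ (lam + 1) : ℕ) : ℝ) := by exact_mod_cast hLlt.le
          push_cast at this
          exact this
        have h2e : (2 : ℝ) ≤ Real.exp 1 := by
          have := Real.add_one_le_exp (1 : ℝ)
          linarith
        have hx3 : x ≤ Real.exp (2 * lam) := by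
          calc x ≤ (2 : ℝ) ^ (lam + 1) := hx2
            _ ≤ (2 : ℝ) ^ (2 * lam) := pow_le_pow_right₀ (by norm_num) (by omega)
            _ ≤ (Real.exp 1) ^ (2 * lam) := pow_le_pow_left₀ (by norm_num) h2e _
            _ = Real.exp (2 * lam) := by
                rw [← Real.exp_nat_mul]
                push_cast
                ring_nf
        calc x ^ (r + 6) ≤ (Real.exp (2 * lam)) ^ (r + 6) := pow_le_pow_left₀ hx0.le hx3 _
          _ = Real.exp (2 * (r + 6) * lam) := by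
                rw [← Real.exp_nat_mul]
                push_cast
                ring_nf
      calc Real.exp (-((d : ℝ) / (2 * s))) ≤ Real.exp (-(2 * (r + 6) * lam : ℝ)) := by
            apply Real.exp_le_exp.mpr
            linarith
        _ = 1 / Real.exp (2 * (r + 6) * lam) := by
            rw [Real.exp_neg, one_div]
        _ ≤ 1 / x ^ (r + 6) := by
            apply one_div_le_one_div_of_le (by positivity) hxle
    have hP : x * (4 ^ r * (Real.exp 9 * x) ^ 2 * (1 + x) ^ r * (1 + K * x)) ≤ C * x ^ (r + 4) := by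
      have ha : (1 + x) ^ r ≤ (2 * x) ^ r := pow_le_pow_left₀ (by positivity) (by linarith) _
      have hb : (Real.exp 9) ^ 2 = Real.exp 18 := by
        rw [← Real.exp_nat_mul]
        norm_num
      calc x * (4 ^ r * (Real.exp 9 * x) ^ 2 * (1 + x) ^ r * (1 + K * x))
          ≤ x * (4 ^ r * (Real.exp 9 * x) ^ 2 * (2 * x) ^ r * ((1 + K) * x)) := by
            gcongr
        _ = C * x ^ (r + 4) := by
            rw [hC, mul_pow (Real.exp 9), hb, mul_pow (2 : ℝ)]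
            rw [show (8 : ℝ) ^ r = 4 ^ r * 2 ^ r by rw [← mul_pow]; norm_num]
            ring
    have hfirst : x / (x ^ (r + 1)) ^ 6 ≤ 1 / x ^ (r + 5) := by
      rw [div_le_div_iff₀ (by positivity) (by positivity), one_mul, ← pow_mul]
      calc x * x ^ (r + 5) = x ^ (r + 6) := by ring
        _ ≤ x ^ ((r + 1) * 6) := pow_le_pow_right₀ hx1' (by nlinarith)
    have hsecond : (1 : ℝ) / x ^ (r + 6) ≤ 1 / x ^ (r + 5) := by
      apply one_div_le_one_div_of_le (by positivity)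
      exact pow_le_pow_right₀ hx1' (by omega)
    have hPnn : 0 ≤ x * (4 ^ r * (Real.exp 9 * x) ^ 2 * (1 + x) ^ r * (1 + K * x)) := by positivity
    calc x * (4 ^ r * (Real.exp 9 * x) ^ 2 * (1 + x) ^ r * (1 + K * x)) *
          (x / (x ^ (r + 1)) ^ 6 +
            Real.exp (-(((d : ℝ) * Real.log 2) / (2 * ((s : ℝ) * Real.log 2)))))
        ≤ (C * x ^ (r + 4)) * (1 / x ^ (r + 5) + 1 / x ^ (r + 5)) := by
          apply mul_le_mul hP (add_le_add hfirst (hexp.trans hsecond)) (by positivity) (by positivity)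
      _ = 2 * C / x := by
          field_simp
          ring
      _ ≤ 1 / 16 := by
          rw [div_le_iff₀ hx0]
          linarith
  · have hd : 6 ≤ d := by
      have h2 : 1 * (4 * (r + 6) * lam) ≤ d := (Nat.mul_le_mul_right _ hs).trans hsmul
      nlinarith
    have h40 : (40 : ℝ) ≤ 2 ^ d := by
      calc (40 : ℝ) ≤ 2 ^ 6 := by norm_num
        _ ≤ 2 ^ d := pow_le_pow_right₀ (by norm_num) hd
    calc 40 * ((2 : ℝ) ^ d) ^ (r + 5) ≤ (2 : ℝ) ^ d * ((2 : ℝ) ^ d) ^ (r + 5) := by gcongr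
      _ = (2 : ℝ) ^ ((r + 6) * d) := by
          rw [← pow_succ', ← pow_mul]
          ring_nf

end Pool.Agent.RT
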