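import Pool.Agent.RT.Cube

/-! RT/Dev.  Deviation of the mean from the value at the empty set.

`mean_step`: adding independent elements one by one. `mean_dev`: adding the levels one by one. -/

namespace Pool.Agent.RT

open Finset

variable {ι : Type} [DecidableEq ι]

/-- elements of `P` of level in `(a, m]` -/
def Lv (P : Finset ι) (lv : ι → ℕ) (a m : ℕ) : Finset ι := P.filter (fun i => a < lv i ∧ lv i ≤ m)

private theorem Dev_prod_le {q : ι → ℝ} (h0 : ∀ i, 0 ≤ q i) (h1 : ∀ i, q i ≤ 1)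
    {B Q : Finset ι} (hQ : Q ⊆ B) : ∏ i ∈ B, (1 - q i) ≤ ∏ i ∈ B \ Q, (1 - q i) := by
  rw [← Finset.prod_sdiff hQ]
  refine mul_le_of_le_one_right (Finset.prod_nonneg fun i _ => sub_nonneg.2 (h1 i)) ?_
  exact Finset.prod_le_one (fun i _ => sub_nonneg.2 (h1 i)) fun i _ => by linarith [h0 i]

private theorem Dev_step {q : ι → ℝ} (h0 : ∀ i, 0 ≤ q i) (h1 : ∀ i, q i ≤ 1) (A B : Finset ι)
    (hAB : Disjoint A B) (f : Finset ι → ℝ) (Q : Finset ι) (hQ : Q ⊆ B) :
    (∏ i ∈ B, (1 - q i)) * |Ex q (A ∪ Q) f - Ex q A f| ≤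
      ∑ i ∈ Q, q i * Ex q (A ∪ B) (fun S => |Dd i f S|) := by
  have hπ : 0 ≤ ∏ i ∈ B, (1 - q i) := Finset.prod_nonneg fun i _ => sub_nonneg.2 (h1 i)
  induction Q using Finset.induction_on with
  | empty => simp
  | insert p Q hp ih =>
    have hQB : Q ⊆ B := (Finset.subset_insert p Q).trans hQ
    have hpB : p ∈ B := hQ (Finset.mem_insert_self p Q)
    have hpA : p ∉ A := fun h => Finset.disjoint_left.1 hAB h hpB
    have hpAQ : p ∉ A ∪ Q := by
      rw [Finset.mem_union]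
      exact fun h => h.elim hpA hp
    have e1 : Ex q (A ∪ insert p Q) f = Ex q (A ∪ Q) f + q p * Ex q (A ∪ Q) (Dd p f) := by
      rw [Finset.union_insert, Ex_insert hpAQ, Ex_add q (A ∪ Q) f (fun S => q p * Dd p f S),
        Ex_smul]
    have e2 : (A ∪ B) \ (A ∪ Q) = B \ Q := by
      ext x
      simp only [Finset.mem_sdiff, Finset.mem_union, not_or]
      constructor
      · rintro ⟨h | h, h2, h3⟩
        · exact absurd h h2
        · exact ⟨h, h3⟩
      · rintro ⟨h, h2⟩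
        exact ⟨Or.inr h, fun h3 => Finset.disjoint_left.1 hAB h3 h, h2⟩
    have e3 : (∏ i ∈ B, (1 - q i)) * |Ex q (A ∪ Q) (Dd p f)| ≤
        Ex q (A ∪ B) (fun S => |Dd p f S|) := by
      have e4 := Ex_subset h0 h1 (Finset.union_subset_union_right (s := A) hQB)
        (g := fun S => |Dd p f S|) fun S => abs_nonneg _
      rw [e2] at e4
      refine le_trans ?_ e4
      have e5 : 0 ≤ Ex q (A ∪ Q) (fun S => |Dd p f S|) :=
        Ex_nonneg h0 h1 fun S _ => abs_nonneg _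
      exact (mul_le_mul_of_nonneg_left (abs_Ex_le h0 h1 _ _) hπ).trans
        (mul_le_mul_of_nonneg_right (Dev_prod_le h0 h1 hQB) e5)
    rw [Finset.sum_insert hp, e1]
    have e6 : |Ex q (A ∪ Q) f + q p * Ex q (A ∪ Q) (Dd p f) - Ex q A f| ≤
        q p * |Ex q (A ∪ Q) (Dd p f)| + |Ex q (A ∪ Q) f - Ex q A f| := by
      have e7 : Ex q (A ∪ Q) f + q p * Ex q (A ∪ Q) (Dd p f) - Ex q A f =
          q p * Ex q (A ∪ Q) (Dd p f) + (Ex q (A ∪ Q) f - Ex q A f) := by ring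
      rw [e7]
      refine (abs_add_le _ _).trans (le_of_eq ?_)
      rw [abs_mul, abs_of_nonneg (h0 p)]
    calc (∏ i ∈ B, (1 - q i)) * |Ex q (A ∪ Q) f + q p * Ex q (A ∪ Q) (Dd p f) - Ex q A f|
        ≤ (∏ i ∈ B, (1 - q i)) *
          (q p * |Ex q (A ∪ Q) (Dd p f)| + |Ex q (A ∪ Q) f - Ex q A f|) :=
          mul_le_mul_of_nonneg_left e6 hπ
      _ = q p * ((∏ i ∈ B, (1 - q i)) * |Ex q (A ∪ Q) (Dd p f)|) +
          (∏ i ∈ B, (1 - q i)) * |Ex q (A ∪ Q) f - Ex q A f| := by ring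
      _ ≤ q p * Ex q (A ∪ B) (fun S => |Dd p f S|) +
          ∑ i ∈ Q, q i * Ex q (A ∪ B) (fun S => |Dd i f S|) :=
          add_le_add (mul_le_mul_of_nonneg_left e3 (h0 p)) (ih hQB)

theorem mean_step {q : ι → ℝ} (h0 : ∀ i, 0 ≤ q i) (h1 : ∀ i, q i ≤ 1) (A B : Finset ι)
    (hAB : Disjoint A B) (f : Finset ι → ℝ) :
    (∏ i ∈ B, (1 - q i)) * |Ex q (A ∪ B) f - Ex q A f| ≤
      ∑ i ∈ B, q i * Ex q (A ∪ B) (fun S => |Dd i f S|) :=
  Dev_step h0 h1 A B hAB f B (Finset.Subset.refl B)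

private theorem Dev_exp {t : ℝ} (ht0 : 0 ≤ t) (ht : t ≤ 1 / 2) : Real.exp (-2 * t) ≤ 1 - t := by
  have h1 : 1 + 2 * t ≤ Real.exp (2 * t) := by
    have := Real.add_one_le_exp (2 * t)
    linarith
  have h2 : Real.exp (-2 * t) * Real.exp (2 * t) = 1 := by
    rw [← Real.exp_add]
    simp
  have h3 : 0 < Real.exp (-2 * t) := Real.exp_pos _
  have h4 : Real.exp (-2 * t) * (1 + 2 * t) ≤ 1 :=
    (mul_le_mul_of_nonneg_left h1 h3.le).trans h2.le
  have h5 : (1 : ℝ) ≤ (1 - t) * (1 + 2 * t) := by nlinarith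
  have h6 : 0 < 1 + 2 * t := by linarith
  exact le_of_mul_le_mul_right (h4.trans h5) h6

theorem mean_dev {q : ι → ℝ} (h0 : ∀ i, 0 ≤ q i) (h1 : ∀ i, q i ≤ 1 / 2) (P : Finset ι)
    (lv : ι → ℕ) {C : ℝ} (hC : ∀ m, ∑ i ∈ P.filter (fun i => lv i = m), q i ≤ C) (a m : ℕ)
    (ham : a ≤ m) (f : Finset ι → ℝ) :
    |Ex q (Lv P lv a m) f - f ∅| ≤
      Real.exp (2 * C) * ∑ i ∈ Lv P lv a m, q i * Ex q (Lv P lv a (lv i)) (fun S => |Dd i f S|) := by
  have h1' : ∀ i, q i ≤ 1 := fun i => (h1 i).trans (by norm_num)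
  induction m, ham using Nat.le_induction with
  | base =>
    have e : Lv P lv a a = ∅ := by
      unfold Lv
      rw [Finset.filter_eq_empty_iff]
      intro i _ h
      omega
    rw [e, Ex_empty]
    simp
  | succ m ham ih =>
    obtain ⟨B, hB⟩ : ∃ B, B = P.filter (fun i => lv i = m + 1) := ⟨_, rfl⟩
    have hdis : Disjoint (Lv P lv a m) B := by
      rw [Finset.disjoint_left]
      intro i hi hi'
      rw [hB] at hi'
      unfold Lv at hi
      rw [Finset.mem_filter] at hi hi'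
      omega
    have hun : Lv P lv a (m + 1) = Lv P lv a m ∪ B := by
      ext i
      rw [hB]
      unfold Lv
      simp only [Finset.mem_union, Finset.mem_filter]
      constructor
      · rintro ⟨h, h2, h3⟩
        rcases Nat.lt_or_ge m (lv i) with h4 | h4
        · exact Or.inr ⟨h, by omega⟩
        · exact Or.inl ⟨h, h2, h4⟩
      · rintro (⟨h, h2, h3⟩ | ⟨h, h2⟩)
        · exact ⟨h, h2, by omega⟩
        · exact ⟨h, by omega, by omega⟩
    have hst := mean_step h0 h1' (Lv P lv a m) B hdis f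
    have hprod : Real.exp (-(2 * C)) ≤ ∏ i ∈ B, (1 - q i) := by
      have g1 : ∏ i ∈ B, Real.exp (-2 * q i) ≤ ∏ i ∈ B, (1 - q i) :=
        Finset.prod_le_prod (fun i _ => (Real.exp_pos _).le) fun i _ => Dev_exp (h0 i) (h1 i)
      refine le_trans ?_ g1
      rw [← Real.exp_sum, ← Finset.mul_sum]
      refine Real.exp_le_exp.2 ?_
      have g2 := hC (m + 1)
      rw [← hB] at g2
      linarith
    have hS0 : 0 ≤ ∑ i ∈ B, q i * Ex q (Lv P lv a m ∪ B) (fun S => |Dd i f S|) :=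
      Finset.sum_nonneg fun i _ => mul_nonneg (h0 i)
        (Ex_nonneg h0 h1' fun S _ => abs_nonneg _)
    have h2 : |Ex q (Lv P lv a m ∪ B) f - Ex q (Lv P lv a m) f| ≤
        Real.exp (2 * C) * ∑ i ∈ B, q i * Ex q (Lv P lv a m ∪ B) (fun S => |Dd i f S|) := by
      have g3 := (mul_le_mul_of_nonneg_right hprod (abs_nonneg
        (Ex q (Lv P lv a m ∪ B) f - Ex q (Lv P lv a m) f))).trans hst
      have g4 := mul_le_mul_of_nonneg_left g3 (Real.exp_pos (2 * C)).le
      rw [← mul_assoc, ← Real.exp_add] at g4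
      simpa using g4
    have h3 : ∑ i ∈ B, q i * Ex q (Lv P lv a (lv i)) (fun S => |Dd i f S|) =
        ∑ i ∈ B, q i * Ex q (Lv P lv a m ∪ B) (fun S => |Dd i f S|) := by
      refine Finset.sum_congr rfl fun i hi => ?_
      have h4 : lv i = m + 1 := by
        rw [hB] at hi
        exact (Finset.mem_filter.1 hi).2
      rw [h4, hun]
    have h5 : |Ex q (Lv P lv a (m + 1)) f - f ∅| ≤
        |Ex q (Lv P lv a m ∪ B) f - Ex q (Lv P lv a m) f| + |Ex q (Lv P lv a m) f - f ∅| := by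
      rw [hun]
      refine le_trans (le_of_eq ?_) (abs_add_le _ _)
      congr 1
      ring
    refine h5.trans ?_
    rw [hun, Finset.sum_union hdis, h3, mul_add, add_comm]
    exact add_le_add ih h2

end Pool.Agent.RT
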