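import Pool.Agent.RT.NumOp
import Pool.Agent.RT.Dev

/-! RT/CubeM.  MAIN ENERGY LEMMA: `∑_{m=a}^{J} Ex_{P_m} f^2 ≥ c (J - a + 1)^(1/2^d) f(∅)^2` for `f` of
degree `≤ d`, `P_m` = elements of level in `(a, m]`, each level has total probability `≤ C`.

Induction on `d` (for all `ι, q, P, lv, a, J, f`).

`shift`: the claim for degree `d` implies, for `a ≤ l ≤ J` and `g` of degree `≤ d`,
`c (J - l + 1)^β Ex_{P_l} g^2 ≤ ∑_{m=l}^{J} Ex_{P_m} g^2` (`β = 1/2^d`): `Lv a m = Lv a l ∪ Lv l m`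
(disjoint), `Ex_union`, for each `ω ⊆ Lv a l` apply the claim (base `l`) to `S' ↦ g (ω ∪ S')`
(`DegLe.union`), and integrate over `ω`.

`d = 0`: `f` is constant, the sum is `(J - a + 1) f(∅)^2`, `c = 1`.

`d → d + 1`.  If `f ∅ = 0` trivial; dividing by `f ∅` assume `f ∅ = 1`.  `N = J - a + 1`,
`τ = ∑_{m ∈ [a,J]} Ex_{P_m} f^2 ≥ 1` (term `m = a`).  `number_op` (`1 - q ≥ 1/2`):
`∑_{i∈P_m} q_i Ex_{P_m} (D_i f)^2 ≤ 2(d+1) Ex_{P_m} f^2`; sum over `m`, exchange: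
`∑_{i ∈ P_J} q_i ∑_{m ∈ [lv i, J]} Ex_{P_m} (D_i f)^2 ≤ 2(d+1) τ`, and by `shift` for `D_i f` with
`l = lv i`: for `lv i ≤ a + M`, `M = N / 2` (so `J - lv i + 1 ≥ N/2`):
`∑_{i: lv i ≤ a + M} q_i Ex_{P_{lv i}} (D_i f)^2 ≤ δ := 2 (d+1) τ / (c (N/2)^β)`.
`mean_dev` and Cauchy-Schwarz: for `a ≤ m ≤ a + M`:
`|Ex_{P_m} f - 1| ≤ K (∑_{i∈P_m} q_i)^(1/2) (∑_{i∈P_m} q_i Ex_{P_{lv i}} (D_i f)^2)^(1/2)
 ≤ K (C (m - a) δ)^(1/2)`, `K = exp(2C)`.  If `4 K^2 C (m - a) δ ≤ 1` this is `≤ 1/2`, so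
`Ex_{P_m} f^2 ≥ (Ex_{P_m} f)^2 ≥ 1/4`.  Hence with `R = min(M, ⌊1/(4 K^2 C δ)⌋)`: `τ ≥ (R + 1)/4`, so
`τ ≥ N/8` or `τ ≥ 1/(16 K^2 C δ) = c (N/2)^β / (32 (d+1) K^2 C τ)`, i.e.
`τ^2 ≥ c N^β / (64 (d+1) K^2 C)`.  So `c' = min(1/8, sqrt(c / (64 (d+1) K^2 C)))` works
(`N ≥ 1`, `β/2 ≤ 1`). -/

namespace Pool.Agent.RT

open Finset

private theorem lv_union {ι : Type} [DecidableEq ι] (P : Finset ι) (lv : ι → ℕ) {a l m : ℕ}
    (h1 : a ≤ l) (h2 : l ≤ m) : Lv P lv a m = Lv P lv a l ∪ Lv P lv l m := by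
  ext i
  simp only [Lv, mem_union, mem_filter]
  constructor
  · rintro ⟨hi, h3, h4⟩
    rcases le_or_gt (lv i) l with h | h
    · exact Or.inl ⟨hi, h3, h⟩
    · exact Or.inr ⟨hi, h, h4⟩
  · rintro (⟨hi, h3, h4⟩ | ⟨hi, h3, h4⟩)
    · exact ⟨hi, h3, h4.trans h2⟩
    · exact ⟨hi, lt_of_le_of_lt h1 h3, h4⟩

private theorem lv_disj {ι : Type} [DecidableEq ι] (P : Finset ι) (lv : ι → ℕ) (a l m : ℕ) :
    Disjoint (Lv P lv a l) (Lv P lv l m) := by
  rw [disjoint_left]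
  intro i hi hi'
  simp only [Lv, mem_filter] at hi hi'
  omega

theorem shift {C c β : ℝ} {d : ℕ}
    (H : ∀ (ι : Type) [DecidableEq ι] (q : ι → ℝ) (P : Finset ι) (lv : ι → ℕ)
      (a J : ℕ) (f : Finset ι → ℝ), (∀ i, 0 ≤ q i) → (∀ i, q i ≤ 1 / 2) →
      (∀ m, ∑ i ∈ P.filter (fun i => lv i = m), q i ≤ C) → a ≤ J → DegLe d f →
      c * (((J - a : ℕ) : ℝ) + 1) ^ β * f ∅ ^ 2 ≤
        ∑ m ∈ Icc a J, Ex q (Lv P lv a m) (fun S => f S ^ 2))
    {ι : Type} [DecidableEq ι] {q : ι → ℝ} (P : Finset ι) (lv : ι → ℕ) (a l J : ℕ)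
    (g : Finset ι → ℝ) (h0 : ∀ i, 0 ≤ q i) (h1 : ∀ i, q i ≤ 1 / 2)
    (hC : ∀ m, ∑ i ∈ P.filter (fun i => lv i = m), q i ≤ C) (hal : a ≤ l) (hlJ : l ≤ J)
    (hg : DegLe d g) :
    c * (((J - l : ℕ) : ℝ) + 1) ^ β * Ex q (Lv P lv a l) (fun S => g S ^ 2) ≤
      ∑ m ∈ Icc l J, Ex q (Lv P lv a m) (fun S => g S ^ 2) := by
  have hkey : ∀ m ∈ Icc l J, Ex q (Lv P lv a m) (fun S => g S ^ 2) =
      Ex q (Lv P lv a l) (fun S => Ex q (Lv P lv l m) (fun S' => g (S ∪ S') ^ 2)) := by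
    intro m hm
    rw [lv_union P lv hal (mem_Icc.1 hm).1, Ex_union q (lv_disj P lv a l m)]
  rw [sum_congr rfl hkey, ← Ex_sum, ← Ex_smul]
  refine Ex_mono h0 (fun i => (h1 i).trans (by norm_num)) fun S _ => ?_
  have h := H ι q P lv l J (fun S' => g (S ∪ S')) h0 h1 hC hlJ (hg.union S)
  simp only [union_empty] at h
  exact h

private theorem le_of_sq_le_sq_aux {x y : ℝ} (h : x ^ 2 ≤ y ^ 2) (hy : 0 ≤ y) : x ≤ y := by
  have := abs_le_of_sq_le_sq h hy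
  exact (le_abs_self x).trans this

private theorem sum_lv_le {ι : Type} [DecidableEq ι] {q : ι → ℝ} (P : Finset ι) (lv : ι → ℕ)
    {C : ℝ} (hC : ∀ m, ∑ i ∈ P.filter (fun i => lv i = m), q i ≤ C) (a m : ℕ) (ham : a ≤ m) :
    ∑ i ∈ Lv P lv a m, q i ≤ C * ((m - a : ℕ) : ℝ) := by
  induction m, ham using Nat.le_induction with
  | base =>
    have h : Lv P lv a a = ∅ := by
      apply filter_eq_empty_iff.2
      intro i _ h
      omega
    rw [h]
    simp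
  | succ m ham ih =>
    have h : Lv P lv a (m + 1) = Lv P lv a m ∪ P.filter (fun i => lv i = m + 1) := by
      ext i
      simp only [Lv, mem_union, mem_filter]
      constructor
      · rintro ⟨hi, h3, h4⟩
        rcases Nat.lt_or_ge (lv i) (m + 1) with h | h
        · exact Or.inl ⟨hi, h3, by omega⟩
        · exact Or.inr ⟨hi, by omega⟩
      · rintro (⟨hi, h3, h4⟩ | ⟨hi, h3⟩)
        · exact ⟨hi, h3, by omega⟩
        · exact ⟨hi, by omega, by omega⟩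
    have hd : Disjoint (Lv P lv a m) (P.filter (fun i => lv i = m + 1)) := by
      rw [disjoint_left]
      intro i hi hi'
      simp only [Lv, mem_filter] at hi hi'
      omega
    rw [h, sum_union hd]
    have h2 := hC (m + 1)
    have h3 : ((m + 1 - a : ℕ) : ℝ) = ((m - a : ℕ) : ℝ) + 1 := by
      rw [Nat.succ_sub ham]
      push_cast
      ring
    rw [h3]
    linarith

/-- steps (1)-(5) of the plan -/
private theorem energy {C c β : ℝ} {d : ℕ} (hc : 0 < c) (hβ : 0 ≤ β)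
    (H : ∀ (ι : Type) [DecidableEq ι] (q : ι → ℝ) (P : Finset ι) (lv : ι → ℕ)
      (a J : ℕ) (f : Finset ι → ℝ), (∀ i, 0 ≤ q i) → (∀ i, q i ≤ 1 / 2) →
      (∀ m, ∑ i ∈ P.filter (fun i => lv i = m), q i ≤ C) → a ≤ J → DegLe d f →
      c * (((J - a : ℕ) : ℝ) + 1) ^ β * f ∅ ^ 2 ≤
        ∑ m ∈ Icc a J, Ex q (Lv P lv a m) (fun S => f S ^ 2))
    {ι : Type} [DecidableEq ι] {q : ι → ℝ} (P : Finset ι) (lv : ι → ℕ) (a M J : ℕ)
    (f : Finset ι → ℝ) (h0 : ∀ i, 0 ≤ q i) (h1 : ∀ i, q i ≤ 1 / 2)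
    (hC : ∀ m, ∑ i ∈ P.filter (fun i => lv i = m), q i ≤ C) (hM : 2 * M ≤ J - a + 1)
    (hMJ : a + M ≤ J) (hf : DegLe (d + 1) f) :
    c * ((((J - a : ℕ) : ℝ) + 1) / 2) ^ β *
        ∑ i ∈ Lv P lv a (a + M), q i * Ex q (Lv P lv a (lv i)) (fun S => Dd i f S ^ 2) ≤
      2 * ((d : ℝ) + 1) * ∑ m ∈ Icc a J, Ex q (Lv P lv a m) (fun S => f S ^ 2) := by
  have h1' : ∀ i, q i ≤ 1 := fun i => (h1 i).trans (by norm_num)
  have hE0 : ∀ (Q : Finset ι) (i : ι), 0 ≤ Ex q Q (fun S => Dd i f S ^ 2) := fun Q i =>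
    Ex_nonneg h0 h1' fun S _ => sq_nonneg _
  have step1 : ∀ m, ∑ i ∈ Lv P lv a m, q i * Ex q (Lv P lv a m) (fun S => Dd i f S ^ 2) ≤
      2 * ((d : ℝ) + 1) * Ex q (Lv P lv a m) (fun S => f S ^ 2) := by
    intro m
    have h := number_op h0 h1' (Lv P lv a m) (d + 1) f hf
    have h2 : ∑ i ∈ Lv P lv a m, q i * Ex q (Lv P lv a m) (fun S => Dd i f S ^ 2) ≤
        2 * ∑ i ∈ Lv P lv a m, q i * (1 - q i) *
          Ex q (Lv P lv a m) (fun S => Dd i f S ^ 2) := by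
      rw [mul_sum]
      apply sum_le_sum
      intro i _
      have h3 : 0 ≤ q i * Ex q (Lv P lv a m) (fun S => Dd i f S ^ 2) :=
        mul_nonneg (h0 i) (hE0 _ i)
      have h4 : 1 ≤ 2 * (1 - q i) := by
        have := h1 i
        linarith
      calc q i * Ex q (Lv P lv a m) (fun S => Dd i f S ^ 2)
          = 1 * (q i * Ex q (Lv P lv a m) (fun S => Dd i f S ^ 2)) := by ring
        _ ≤ (2 * (1 - q i)) * (q i * Ex q (Lv P lv a m) (fun S => Dd i f S ^ 2)) :=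
            mul_le_mul_of_nonneg_right h4 h3
        _ = 2 * (q i * (1 - q i) * Ex q (Lv P lv a m) (fun S => Dd i f S ^ 2)) := by ring
    push_cast at h
    calc ∑ i ∈ Lv P lv a m, q i * Ex q (Lv P lv a m) (fun S => Dd i f S ^ 2)
        ≤ 2 * ∑ i ∈ Lv P lv a m, q i * (1 - q i) *
          Ex q (Lv P lv a m) (fun S => Dd i f S ^ 2) := h2
      _ ≤ 2 * (((d : ℝ) + 1) * Ex q (Lv P lv a m) (fun S => f S ^ 2)) := by linarith
      _ = _ := by ring
  have step2 : ∑ m ∈ Icc a J, ∑ i ∈ Lv P lv a m,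
      q i * Ex q (Lv P lv a m) (fun S => Dd i f S ^ 2) =
      ∑ i ∈ Lv P lv a J, ∑ m ∈ Icc (lv i) J,
        q i * Ex q (Lv P lv a m) (fun S => Dd i f S ^ 2) := by
    apply sum_comm'
    intro m i
    simp only [Lv, mem_filter, mem_Icc]
    constructor
    · rintro ⟨⟨h3, h4⟩, h5, h6, h7⟩
      exact ⟨⟨h7, h4⟩, h5, h6, h7.trans h4⟩
    · rintro ⟨⟨h3, h4⟩, h5, h6, h7⟩
      exact ⟨⟨(h6.trans_le h3).le, h4⟩, h5, h6, h3⟩
  have hN0 : (0 : ℝ) ≤ (((J - a : ℕ) : ℝ) + 1) / 2 := by positivity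
  have step3 : ∀ i ∈ Lv P lv a (a + M),
      c * ((((J - a : ℕ) : ℝ) + 1) / 2) ^ β *
        (q i * Ex q (Lv P lv a (lv i)) (fun S => Dd i f S ^ 2)) ≤
      ∑ m ∈ Icc (lv i) J, q i * Ex q (Lv P lv a m) (fun S => Dd i f S ^ 2) := by
    intro i hi
    simp only [Lv, mem_filter] at hi
    obtain ⟨hiP, h3, h4⟩ := hi
    have h5 := shift H P lv a (lv i) J (Dd i f) h0 h1 hC h3.le (h4.trans hMJ) (hf i)
    have h6 : ((((J - a : ℕ) : ℝ) + 1) / 2) ^ β ≤ (((J - lv i : ℕ) : ℝ) + 1) ^ β := by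
      apply Real.rpow_le_rpow hN0 _ hβ
      have h7 : J - a + 1 ≤ 2 * (J - lv i + 1) := by omega
      have h8 : (((J - a : ℕ) : ℝ) + 1) ≤ 2 * (((J - lv i : ℕ) : ℝ) + 1) := by exact_mod_cast h7
      linarith
    have h9 : c * ((((J - a : ℕ) : ℝ) + 1) / 2) ^ β *
        Ex q (Lv P lv a (lv i)) (fun S => Dd i f S ^ 2) ≤
        c * (((J - lv i : ℕ) : ℝ) + 1) ^ β *
        Ex q (Lv P lv a (lv i)) (fun S => Dd i f S ^ 2) :=
      mul_le_mul_of_nonneg_right (mul_le_mul_of_nonneg_left h6 hc.le) (hE0 _ i)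
    rw [← mul_sum]
    calc c * ((((J - a : ℕ) : ℝ) + 1) / 2) ^ β *
        (q i * Ex q (Lv P lv a (lv i)) (fun S => Dd i f S ^ 2))
        = q i * (c * ((((J - a : ℕ) : ℝ) + 1) / 2) ^ β *
          Ex q (Lv P lv a (lv i)) (fun S => Dd i f S ^ 2)) := by ring
      _ ≤ q i * ∑ m ∈ Icc (lv i) J, Ex q (Lv P lv a m) (fun S => Dd i f S ^ 2) :=
          mul_le_mul_of_nonneg_left (h9.trans h5) (h0 i)
  have hsub : Lv P lv a (a + M) ⊆ Lv P lv a J := by
    intro i hi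
    simp only [Lv, mem_filter] at hi ⊢
    exact ⟨hi.1, hi.2.1, hi.2.2.trans hMJ⟩
  calc c * ((((J - a : ℕ) : ℝ) + 1) / 2) ^ β *
        ∑ i ∈ Lv P lv a (a + M), q i * Ex q (Lv P lv a (lv i)) (fun S => Dd i f S ^ 2)
      = ∑ i ∈ Lv P lv a (a + M), c * ((((J - a : ℕ) : ℝ) + 1) / 2) ^ β *
        (q i * Ex q (Lv P lv a (lv i)) (fun S => Dd i f S ^ 2)) := by rw [mul_sum]
    _ ≤ ∑ i ∈ Lv P lv a (a + M), ∑ m ∈ Icc (lv i) J,
        q i * Ex q (Lv P lv a m) (fun S => Dd i f S ^ 2) := sum_le_sum step3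
    _ ≤ ∑ i ∈ Lv P lv a J, ∑ m ∈ Icc (lv i) J,
        q i * Ex q (Lv P lv a m) (fun S => Dd i f S ^ 2) := by
        apply sum_le_sum_of_subset_of_nonneg hsub
        intro i _ _
        exact sum_nonneg fun m _ => mul_nonneg (h0 i) (hE0 _ i)
    _ = ∑ m ∈ Icc a J, ∑ i ∈ Lv P lv a m,
        q i * Ex q (Lv P lv a m) (fun S => Dd i f S ^ 2) := step2.symm
    _ ≤ ∑ m ∈ Icc a J, 2 * ((d : ℝ) + 1) * Ex q (Lv P lv a m) (fun S => f S ^ 2) :=
        sum_le_sum fun m _ => step1 m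
    _ = _ := by rw [mul_sum]

/-- step (6)-(7) of the plan -/
private theorem claimA {C : ℝ} (hC1 : 1 ≤ C)
    {ι : Type} [DecidableEq ι] {q : ι → ℝ} (P : Finset ι) (lv : ι → ℕ) (a R M J : ℕ)
    (f : Finset ι → ℝ) (h0 : ∀ i, 0 ≤ q i) (h1 : ∀ i, q i ≤ 1 / 2)
    (hC : ∀ m, ∑ i ∈ P.filter (fun i => lv i = m), q i ≤ C) (hR : R ≤ M)
    (hMJ : a + M ≤ J) (hf1 : f ∅ = 1)
    (hS : 4 * Real.exp (2 * C) ^ 2 * C * R * (∑ i ∈ Lv P lv a (a + M),
      q i * Ex q (Lv P lv a (lv i)) (fun S => Dd i f S ^ 2)) ≤ 1) :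
    ((R : ℝ) + 1) / 4 ≤ ∑ m ∈ Icc a J, Ex q (Lv P lv a m) (fun S => f S ^ 2) := by
  have h1' : ∀ i, q i ≤ 1 := fun i => (h1 i).trans (by norm_num)
  have hE0 : ∀ (Q : Finset ι) (i : ι), 0 ≤ Ex q Q (fun S => Dd i f S ^ 2) := fun Q i =>
    Ex_nonneg h0 h1' fun S _ => sq_nonneg _
  set T := ∑ i ∈ Lv P lv a (a + M), q i * Ex q (Lv P lv a (lv i)) (fun S => Dd i f S ^ 2)
    with hT
  set K := Real.exp (2 * C) with hK
  have hK0 : 0 < K := Real.exp_pos _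
  have hT0 : 0 ≤ T := sum_nonneg fun i _ => mul_nonneg (h0 i) (hE0 _ i)
  have hC0 : (0 : ℝ) ≤ C := by linarith
  have main : ∀ m ∈ Icc a (a + R), 1 / 4 ≤ Ex q (Lv P lv a m) (fun S => f S ^ 2) := by
    intro m hm
    obtain ⟨ham, hmR⟩ := mem_Icc.1 hm
    have hdev := mean_dev h0 h1 P lv hC a m ham f
    rw [hf1] at hdev
    set Z := ∑ i ∈ Lv P lv a m, q i * Ex q (Lv P lv a (lv i)) (fun S => |Dd i f S|) with hZ
    have hZ0 : 0 ≤ Z := sum_nonneg fun i _ =>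
      mul_nonneg (h0 i) (Ex_nonneg h0 h1' fun S _ => abs_nonneg _)
    have hcs : Z ^ 2 ≤ (∑ i ∈ Lv P lv a m, q i) *
        ∑ i ∈ Lv P lv a m, q i * Ex q (Lv P lv a (lv i)) (fun S => |Dd i f S|) ^ 2 := by
      apply sum_sq_le_sum_mul_sum_of_sq_eq_mul
      · intro i _
        exact h0 i
      · intro i _
        exact mul_nonneg (h0 i) (sq_nonneg _)
      · intro i _
        ring
    have hle : ∑ i ∈ Lv P lv a m, q i * Ex q (Lv P lv a (lv i)) (fun S => |Dd i f S|) ^ 2 ≤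
        T := by
      calc ∑ i ∈ Lv P lv a m, q i * Ex q (Lv P lv a (lv i)) (fun S => |Dd i f S|) ^ 2
          ≤ ∑ i ∈ Lv P lv a m, q i * Ex q (Lv P lv a (lv i)) (fun S => Dd i f S ^ 2) := by
            apply sum_le_sum
            intro i _
            apply mul_le_mul_of_nonneg_left _ (h0 i)
            refine (Ex_sq_le h0 h1' _ _).trans (le_of_eq ?_)
            apply Ex_congr
            intro S _
            exact sq_abs _
        _ ≤ T := by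
            apply sum_le_sum_of_subset_of_nonneg
            · intro i hi
              simp only [Lv, mem_filter] at hi ⊢
              exact ⟨hi.1, hi.2.1, by omega⟩
            · intro i _ _
              exact mul_nonneg (h0 i) (hE0 _ i)
    have hq : ∑ i ∈ Lv P lv a m, q i ≤ C * R := by
      refine (sum_lv_le P lv hC a m ham).trans ?_
      apply mul_le_mul_of_nonneg_left _ hC0
      have : m - a ≤ R := by omega
      exact_mod_cast this
    have hZ2 : Z ^ 2 ≤ C * R * T :=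
      hcs.trans (mul_le_mul hq hle (sum_nonneg fun i _ => mul_nonneg (h0 i) (sq_nonneg _))
        (by positivity))
    have hKZ : (2 * (K * Z)) ^ 2 ≤ 1 ^ 2 := by
      calc (2 * (K * Z)) ^ 2 = 4 * K ^ 2 * Z ^ 2 := by ring
        _ ≤ 4 * K ^ 2 * (C * R * T) := mul_le_mul_of_nonneg_left hZ2 (by positivity)
        _ = 4 * K ^ 2 * C * R * T := by ring
        _ ≤ 1 := hS
        _ = 1 ^ 2 := by norm_num
    have hKZ' : 2 * (K * Z) ≤ 1 := by
      have h3 := le_of_sq_le_sq_aux hKZ (by norm_num)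
      exact h3
    have hE : 1 / 2 ≤ Ex q (Lv P lv a m) f := by
      have := (abs_le.1 (hdev.trans (by linarith : K * Z ≤ 1 / 2))).1
      linarith
    calc (1 : ℝ) / 4 = (1 / 2) ^ 2 := by norm_num
      _ ≤ Ex q (Lv P lv a m) f ^ 2 := pow_le_pow_left₀ (by norm_num) hE 2
      _ ≤ _ := Ex_sq_le h0 h1' _ _
  have hsub : Icc a (a + R) ⊆ Icc a J := Icc_subset_Icc le_rfl (by omega)
  calc ((R : ℝ) + 1) / 4 = ∑ m ∈ Icc a (a + R), (1 : ℝ) / 4 := by
        rw [sum_const, Nat.card_Icc, nsmul_eq_mul]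
        have : a + R + 1 - a = R + 1 := by omega
        rw [this]
        push_cast
        ring
    _ ≤ ∑ m ∈ Icc a (a + R), Ex q (Lv P lv a m) (fun S => f S ^ 2) := sum_le_sum main
    _ ≤ ∑ m ∈ Icc a J, Ex q (Lv P lv a m) (fun S => f S ^ 2) := by
        apply sum_le_sum_of_subset_of_nonneg hsub
        intro m _ _
        exact Ex_nonneg h0 h1' fun S _ => sq_nonneg _

theorem cube_main (C : ℝ) (hC : 1 ≤ C) (d : ℕ) : ∃ c : ℝ, 0 < c ∧
    ∀ (ι : Type) [DecidableEq ι] (q : ι → ℝ) (P : Finset ι) (lv : ι → ℕ)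
      (a J : ℕ) (f : Finset ι → ℝ), (∀ i, 0 ≤ q i) → (∀ i, q i ≤ 1 / 2) →
      (∀ m, ∑ i ∈ P.filter (fun i => lv i = m), q i ≤ C) → a ≤ J → DegLe d f →
      c * (((J - a : ℕ) : ℝ) + 1) ^ ((1 / 2 : ℝ) ^ d) * f ∅ ^ 2 ≤
        ∑ m ∈ Icc a J, Ex q (Lv P lv a m) (fun S => f S ^ 2) := by
  induction d with
  | zero =>
    refine ⟨1, one_pos, ?_⟩
    intro ι _ q P lv a J f h0 h1 _ haJ hf
    have h2 : ∀ m ∈ Icc a J, Ex q (Lv P lv a m) (fun S => f S ^ 2) = f ∅ ^ 2 := by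
      intro m _
      rw [← Ex_const q (Lv P lv a m) (f ∅ ^ 2)]
      apply Ex_congr
      intro S _
      rw [hf S]
    rw [sum_congr rfl h2, sum_const, Nat.card_Icc, nsmul_eq_mul, pow_zero, Real.rpow_one, one_mul]
    have h3 : J + 1 - a = J - a + 1 := by omega
    rw [h3]
    push_cast
    exact le_rfl
  | succ d ih =>
    obtain ⟨c, hc, H⟩ := ih
    set K := Real.exp (2 * C) with hK
    have hK0 : 0 < K := Real.exp_pos _
    have hC0 : (0 : ℝ) < C := by linarith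
    set X := c / (64 * ((d : ℝ) + 1) * K ^ 2 * C) with hX
    have hX0 : 0 < X := by positivity
    refine ⟨min (1 / 8) (Real.sqrt X), lt_min (by norm_num) (Real.sqrt_pos.2 hX0), ?_⟩
    -- normalised case
    have core : ∀ (ι : Type) [DecidableEq ι] (q : ι → ℝ) (P : Finset ι) (lv : ι → ℕ)
        (a J : ℕ) (f : Finset ι → ℝ), (∀ i, 0 ≤ q i) → (∀ i, q i ≤ 1 / 2) →
        (∀ m, ∑ i ∈ P.filter (fun i => lv i = m), q i ≤ C) → a ≤ J → DegLe (d + 1) f →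
        f ∅ = 1 →
        min (1 / 8) (Real.sqrt X) * (((J - a : ℕ) : ℝ) + 1) ^ ((1 / 2 : ℝ) ^ (d + 1)) ≤
          ∑ m ∈ Icc a J, Ex q (Lv P lv a m) (fun S => f S ^ 2) := by
      intro ι _ q P lv a J f h0 h1 hCq haJ hf hf1
      have h1' : ∀ i, q i ≤ 1 := fun i => (h1 i).trans (by norm_num)
      set β : ℝ := (1 / 2 : ℝ) ^ d with hβ
      have hβ0 : 0 ≤ β := by positivity
      have hβ1 : β ≤ 1 := pow_le_one₀ (by norm_num) (by norm_num)
      have hβ' : (1 / 2 : ℝ) ^ (d + 1) = β / 2 := by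
        rw [pow_succ]
        ring
      rw [hβ']
      set N : ℝ := ((J - a : ℕ) : ℝ) + 1 with hN
      have hN1 : 1 ≤ N := by
        rw [hN]
        have : (0 : ℝ) ≤ ((J - a : ℕ) : ℝ) := Nat.cast_nonneg _
        linarith
      have hN0 : 0 < N := by linarith
      obtain ⟨M, hM1, hM2, hM3⟩ : ∃ M : ℕ, 2 * M ≤ J - a + 1 ∧ a + M ≤ J ∧
          J - a + 1 ≤ 2 * (M + 1) := ⟨(J - a + 1) / 2, by omega, by omega, by omega⟩
      have hen := energy hc hβ0 H P lv a M J f h0 h1 hCq hM1 hM2 hf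
      have hA := fun (R : ℕ) (hR : R ≤ M) => claimA hC P lv a R M J f h0 h1 hCq hR hM2 hf1
      set T := ∑ i ∈ Lv P lv a (a + M), q i * Ex q (Lv P lv a (lv i)) (fun S => Dd i f S ^ 2)
        with hT
      set τ := ∑ m ∈ Icc a J, Ex q (Lv P lv a m) (fun S => f S ^ 2) with hτ
      have hT0 : 0 ≤ T := sum_nonneg fun i _ =>
        mul_nonneg (h0 i) (Ex_nonneg h0 h1' fun S _ => sq_nonneg _)
      have hτ0 : 0 ≤ τ := sum_nonneg fun m _ => Ex_nonneg h0 h1' fun S _ => sq_nonneg _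
      by_cases hcase : 4 * K ^ 2 * C * M * T ≤ 1
      · have h3 := hA M le_rfl hcase
        have h4 : N ≤ 2 * ((M : ℝ) + 1) := by
          rw [hN]
          exact_mod_cast hM3
        have h5 : N ^ (β / 2) ≤ N := by
          calc N ^ (β / 2) ≤ N ^ (1 : ℝ) :=
                Real.rpow_le_rpow_of_exponent_le hN1 (by linarith)
            _ = N := Real.rpow_one _
        calc min (1 / 8) (Real.sqrt X) * N ^ (β / 2) ≤ 1 / 8 * N ^ (β / 2) :=
              mul_le_mul_of_nonneg_right (min_le_left _ _) (Real.rpow_nonneg hN0.le _)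
          _ ≤ 1 / 8 * N := by linarith
          _ ≤ ((M : ℝ) + 1) / 4 := by linarith
          _ ≤ τ := h3
      · have hcase' := not_le.1 hcase
        have hTpos : 0 < T := by
          rcases hT0.lt_or_eq with h | h
          · exact h
          · rw [← h, mul_zero] at hcase'
            exact absurd hcase' (by norm_num)
        have hB : 0 < 4 * K ^ 2 * C * T := by positivity
        set R := ⌊1 / (4 * K ^ 2 * C * T)⌋₊ with hR
        have hR1 : (R : ℝ) ≤ 1 / (4 * K ^ 2 * C * T) := Nat.floor_le (by positivity)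
        have hR2 : 1 / (4 * K ^ 2 * C * T) < (R : ℝ) + 1 := Nat.lt_floor_add_one _
        have hRM : R ≤ M := by
          have h6 : (1 : ℝ) / (4 * K ^ 2 * C * T) < M := by
            rw [div_lt_iff₀ hB]
            calc (1 : ℝ) < 4 * K ^ 2 * C * M * T := hcase'
              _ = M * (4 * K ^ 2 * C * T) := by ring
          have h7 : (R : ℝ) < M := lt_of_le_of_lt hR1 h6
          exact_mod_cast h7.le
        have h3 := hA R hRM (by
          rw [le_div_iff₀ hB] at hR1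
          calc 4 * K ^ 2 * C * R * T = R * (4 * K ^ 2 * C * T) := by ring
            _ ≤ 1 := hR1)
        -- `1 ≤ 16 K² C T τ`
        have h4 : 1 ≤ 16 * K ^ 2 * C * T * τ := by
          rw [div_lt_iff₀ hB] at hR2
          have h8 : (R : ℝ) + 1 ≤ 4 * τ := by linarith
          calc (1 : ℝ) ≤ ((R : ℝ) + 1) * (4 * K ^ 2 * C * T) := hR2.le
            _ ≤ (4 * τ) * (4 * K ^ 2 * C * T) := mul_le_mul_of_nonneg_right h8 hB.le
            _ = 16 * K ^ 2 * C * T * τ := by ring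
        -- `c (N/2)^β T ≤ 2 (d+1) τ`
        have hNβ : N ^ β ≤ 2 * (N / 2) ^ β := by
          rw [Real.div_rpow hN0.le (by norm_num)]
          have h9 : (2 : ℝ) ^ β ≤ 2 := by
            calc (2 : ℝ) ^ β ≤ 2 ^ (1 : ℝ) :=
                  Real.rpow_le_rpow_of_exponent_le (by norm_num) hβ1
              _ = 2 := Real.rpow_one _
          have h10 : (0 : ℝ) < 2 ^ β := Real.rpow_pos_of_pos (by norm_num) _
          have h11 : 0 ≤ N ^ β := Real.rpow_nonneg hN0.le _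
          rw [← mul_div_assoc, le_div_iff₀ h10]
          nlinarith
        have hNβ0 : 0 ≤ N ^ β := Real.rpow_nonneg hN0.le _
        have h5 : c * N ^ β ≤ 64 * ((d : ℝ) + 1) * K ^ 2 * C * τ ^ 2 := by
          have hcT : c * N ^ β * T ≤ 4 * ((d : ℝ) + 1) * τ := by
            calc c * N ^ β * T ≤ c * (2 * (N / 2) ^ β) * T := by gcongr
              _ = 2 * (c * (N / 2) ^ β * T) := by ring
              _ ≤ 2 * (2 * ((d : ℝ) + 1) * τ) := by linarith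
              _ = _ := by ring
          calc c * N ^ β = c * N ^ β * 1 := by ring
            _ ≤ c * N ^ β * (16 * K ^ 2 * C * T * τ) :=
                mul_le_mul_of_nonneg_left h4 (by positivity)
            _ = (c * N ^ β * T) * (16 * K ^ 2 * C * τ) := by ring
            _ ≤ (4 * ((d : ℝ) + 1) * τ) * (16 * K ^ 2 * C * τ) :=
                mul_le_mul_of_nonneg_right hcT (by positivity)
            _ = 64 * ((d : ℝ) + 1) * K ^ 2 * C * τ ^ 2 := by ring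
        have h6 : X * N ^ β ≤ τ ^ 2 := by
          rw [hX, div_mul_eq_mul_div, div_le_iff₀ (by positivity)]
          linarith
        have h7 : (N ^ (β / 2)) ^ 2 = N ^ β := by
          rw [← Real.rpow_natCast, ← Real.rpow_mul hN0.le]
          congr 1
          push_cast
          ring
        have h8 : (Real.sqrt X * N ^ (β / 2)) ^ 2 ≤ τ ^ 2 := by
          rw [mul_pow, Real.sq_sqrt hX0.le, h7]
          exact h6
        calc min (1 / 8) (Real.sqrt X) * N ^ (β / 2) ≤ Real.sqrt X * N ^ (β / 2) :=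
              mul_le_mul_of_nonneg_right (min_le_right _ _) (Real.rpow_nonneg hN0.le _)
          _ ≤ τ := le_of_sq_le_sq_aux h8 hτ0
    intro ι _ q P lv a J f h0 h1 hCq haJ hf
    have h1' : ∀ i, q i ≤ 1 := fun i => (h1 i).trans (by norm_num)
    by_cases hz : f ∅ = 0
    · rw [hz]
      have : (0 : ℝ) ≤ ∑ m ∈ Icc a J, Ex q (Lv P lv a m) (fun S => f S ^ 2) :=
        sum_nonneg fun m _ => Ex_nonneg h0 h1' fun S _ => sq_nonneg _
      simpa using this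
    · have h2 := core ι q P lv a J (fun S => (f ∅)⁻¹ * f S) h0 h1 hCq haJ (hf.smul _)
        (inv_mul_cancel₀ hz)
      have h3 : ∑ m ∈ Icc a J, Ex q (Lv P lv a m) (fun S => ((f ∅)⁻¹ * f S) ^ 2) =
          ((f ∅)⁻¹) ^ 2 * ∑ m ∈ Icc a J, Ex q (Lv P lv a m) (fun S => f S ^ 2) := by
        rw [mul_sum]
        apply sum_congr rfl
        intro m _
        rw [← Ex_smul]
        apply Ex_congr
        intro S _
        rw [mul_pow]
      rw [h3] at h2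
      have h4 : 0 < f ∅ ^ 2 := by positivity
      calc min (1 / 8) (Real.sqrt X) * (((J - a : ℕ) : ℝ) + 1) ^ ((1 / 2 : ℝ) ^ (d + 1)) *
            f ∅ ^ 2 ≤ (((f ∅)⁻¹) ^ 2 *
              ∑ m ∈ Icc a J, Ex q (Lv P lv a m) (fun S => f S ^ 2)) * f ∅ ^ 2 :=
            mul_le_mul_of_nonneg_right h2 h4.le
        _ = ∑ m ∈ Icc a J, Ex q (Lv P lv a m) (fun S => f S ^ 2) := by
            field_simp

end Pool.Agent.RT
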