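import Pool.Agent.RT.Block
import Pool.Agent.RT.CubeM

/-! RT/Qlow.  Lower bound of the dual quadratic form.

`abel2`: multiply `∑_{j ∈ [1,J), l ≤ 2^j/V} V/2^(j+1) ≤ 1/l` (for `0 < l ≤ 2^J/V`; see `abel_pt` in
`RS/Abel.lean`, private there: copy it) by `u ω` and exchange.

`Qlow`: `X_j = 2^j / V ≥ 2^j` (`V ≤ 1`).  Fix `l ≥ 1` with `2^l ≥ 16 (d+1)`, `D8 = 8 (d+1)`.  Drop the
terms `j ≤ l` of `abel2`; for `l < j < J` use `block_lower` with `X = X_j` (`X_j ≤ log S1 ≤ log z`):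
`LHS ≥ ∑_{j=l+1}^{J-1} V/2^(j+1) (V X_j/(32(d+1)) Ex_{P_j} u^2 - 1)
 ≥ V/(64(d+1)) ∑_{j=l+1}^{J-1} Ex_{P_j} u^2 - V`, `P_j = {i : log i ≤ X_j / D8}`.
Levels: `lv i = max (l+1) (least m with log i ≤ X_m / D8)`; then for `m ≥ l + 1`:
`Lv univ lv l m = P_m`, and `Lv univ lv l l = ∅`.  Level sums (`q i = 1/i`): level `l+1`:
`∑_{log i ≤ X_{l+1}/D8} 1/i ≤ (V/c1) ∑ log i/i ≤ (V/c1)(X_{l+1}/D8 + log 4) ≤ (2^(l+1)/D8 + log 4)/c1`
(`mertens1`, `V ≤ 1`); level `m ≥ l + 2`: `log i > X_{m-1}/D8`, so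
`∑ 1/i ≤ (D8/X_{m-1}) (X_m/D8 + log 4) ≤ 2 + D8 log 4 / 2^(l+1) ≤ 3`.  Let `C` be the max of these and 1,
`c0` from `cube_main C d`: `c0 (J - l)^β ≤ 1 + ∑_{j=l+1}^{J-1} Ex_{P_j} u^2` (with `J - 1` for `J`).
For `J ≥ J0`: `J - l ≥ J/2`, `(J/2)^β ≥ J^β/2`, so
`LHS ≥ V ((c0 J^β/2 - 1)/(64(d+1)) - 1) ≥ V c0 J^β/(256 (d+1))`. -/

namespace Pool.Agent.RT

open Finset Pool.Agent.RS

private theorem abel_pt {l V : ℝ} (hl : 0 < l) (hV : 0 < V) (J : ℕ) :
    (∑ j ∈ Ico 1 J, if l ≤ 2 ^ j / V then V / 2 ^ (j + 1) else 0) ≤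
      if l ≤ 2 ^ J / V then 1 / l - V / 2 ^ J else 0 := by
  have hle : ∀ J : ℕ, l ≤ 2 ^ J / V → 0 ≤ 1 / l - V / 2 ^ J := by
    intro J hJ
    have h1 : (0 : ℝ) < 2 ^ J := by positivity
    rw [sub_nonneg, div_le_div_iff₀ h1 hl, one_mul]
    calc V * l ≤ V * (2 ^ J / V) := by gcongr
      _ = 2 ^ J := by field_simp
  induction J with
  | zero =>
    rw [Ico_eq_empty (by omega), sum_empty]
    split_ifs with h
    · exact hle 0 h
    · exact le_rfl
  | succ J ih =>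
    rcases Nat.eq_zero_or_pos J with rfl | hJ
    · rw [Ico_self, sum_empty]
      split_ifs with h
      · exact hle _ h
      · exact le_rfl
    · rw [sum_Ico_succ_top hJ]
      by_cases h1 : l ≤ 2 ^ J / V
      · have h2 : l ≤ 2 ^ (J + 1) / V := by
          refine h1.trans ?_
          gcongr
          · norm_num
          · omega
        rw [if_pos h1] at ih ⊢
        rw [if_pos h2]
        have h3 : V / 2 ^ J = V / 2 ^ (J + 1) + V / 2 ^ (J + 1) := by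
          rw [pow_succ]
          field_simp
          ring
        linarith
      · rw [if_neg h1] at ih ⊢
        rw [add_zero]
        refine ih.trans ?_
        split_ifs with h
        · exact hle _ h
        · exact le_rfl

open Classical in
theorem abel2 {Ω : Type} (s : Finset Ω) (u l : Ω → ℝ) (hu : ∀ ω ∈ s, 0 ≤ u ω)
    (hl : ∀ ω ∈ s, 0 < l ω) {V : ℝ} (hV : 0 < V) (J : ℕ) :
    ∑ j ∈ Ico 1 J, V / 2 ^ (j + 1) * ∑ ω ∈ s.filter (fun ω => l ω ≤ 2 ^ j / V), u ω ≤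
      ∑ ω ∈ s.filter (fun ω => l ω ≤ 2 ^ J / V), u ω / l ω := by
  calc ∑ j ∈ Ico 1 J, V / 2 ^ (j + 1) * ∑ ω ∈ s.filter (fun ω => l ω ≤ 2 ^ j / V), u ω
      = ∑ ω ∈ s, u ω * ∑ j ∈ Ico 1 J, if l ω ≤ 2 ^ j / V then V / 2 ^ (j + 1) else 0 := by
        simp only [sum_filter, mul_sum]
        rw [sum_comm]
        refine sum_congr rfl fun ω _ => sum_congr rfl fun j _ => ?_
        split_ifs
        · ring
        · ring
    _ ≤ ∑ ω ∈ s, if l ω ≤ 2 ^ J / V then u ω / l ω else 0 := by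
        refine sum_le_sum fun ω hω => ?_
        refine (mul_le_mul_of_nonneg_left (abel_pt (hl ω hω) hV J) (hu ω hω)).trans ?_
        split_ifs with h1
        · have h2 : 0 ≤ u ω * (V / 2 ^ J) := mul_nonneg (hu ω hω) (by positivity)
          have h3 : u ω / l ω = u ω * (1 / l ω) := by ring
          rw [h3, mul_sub]
          linarith
        · rw [mul_zero]
    _ = _ := by rw [sum_filter]

private theorem mem_prz' {z q : ℕ} : q ∈ prz z ↔ q ≤ z ∧ q.Prime := by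
  unfold prz
  rw [Finset.mem_filter, Finset.mem_Icc]
  constructor
  · rintro ⟨⟨_, h2⟩, h3⟩
    exact ⟨h2, h3⟩
  · rintro ⟨h2, h3⟩
    exact ⟨⟨by have := h3.two_le; omega, h2⟩, h3⟩

private theorem prime_of {z : ℕ} {E : Finset ℕ} (i : {q // q ∈ prz z \ E}) : ((i : ℕ)).Prime :=
  (mem_prz'.1 (mem_sdiff.1 i.2).1).2

/-- Mertens over a set of indices -/
private theorem mert {z : ℕ} {E : Finset ℕ} (P : Finset {q // q ∈ prz z \ E}) {Y : ℝ} (hY : 0 ≤ Y)
    (h : ∀ i ∈ P, Real.log ((i : ℕ) : ℝ) ≤ Y) :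
    ∑ i ∈ P, Real.log ((i : ℕ) : ℝ) / ((i : ℕ) : ℝ) ≤ Y + Real.log 4 := by
  have hn1 : 1 ≤ ⌊Real.exp Y⌋₊ := by
    rw [Nat.one_le_floor_iff]
    exact Real.one_le_exp hY
  have h1 := Helper52.mertens1 hn1
  have h2 : Real.log (⌊Real.exp Y⌋₊ : ℝ) ≤ Y := by
    have h3 : (⌊Real.exp Y⌋₊ : ℝ) ≤ Real.exp Y := Nat.floor_le (Real.exp_pos _).le
    have h4 : (0 : ℝ) < (⌊Real.exp Y⌋₊ : ℝ) := by exact_mod_cast hn1
    calc Real.log (⌊Real.exp Y⌋₊ : ℝ) ≤ Real.log (Real.exp Y) := Real.log_le_log h4 h3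
      _ = Y := Real.log_exp Y
  have h5 : ∑ i ∈ P, Real.log ((i : ℕ) : ℝ) / ((i : ℕ) : ℝ) =
      ∑ q ∈ P.map ⟨fun i : {q // q ∈ prz z \ E} => (i : ℕ), Subtype.val_injective⟩,
        Real.log (q : ℝ) / (q : ℝ) := by
    rw [sum_map]
    rfl
  rw [h5]
  refine le_trans (sum_le_sum_of_subset_of_nonneg ?_ ?_) (h1.trans (by linarith))
  · intro q hq
    rw [mem_map] at hq
    obtain ⟨i, hi, rfl⟩ := hq
    rw [Helper52.mem_pr]
    have hp := prime_of i
    refine ⟨hp.pos, ?_, hp⟩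
    change (i : ℕ) ≤ _
    rw [Nat.le_floor_iff (Real.exp_pos _).le]
    have h6 : (0 : ℝ) < ((i : ℕ) : ℝ) := by exact_mod_cast hp.pos
    rw [← Real.log_le_iff_le_exp h6]
    exact h i hi
  · intro q hq _
    rw [Helper52.mem_pr] at hq
    have h6 : (1 : ℝ) ≤ (q : ℝ) := by exact_mod_cast hq.2.2.one_le
    exact div_nonneg (Real.log_nonneg h6) (by linarith)

private theorem log4 : Real.log 4 ≤ 3 / 2 := by
  have h : Real.log 4 = 2 * Real.log 2 := by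
    rw [show (4 : ℝ) = 2 ^ 2 by norm_num, Real.log_pow]
    norm_num
  have := Real.log_two_lt_d9
  rw [h]
  linarith

private theorem geo (V : ℝ) (hV : 0 ≤ V) (l J : ℕ) :
    ∑ j ∈ Ico (l + 1) J, V / 2 ^ (j + 1) ≤ V := by
  have h : ∀ n : ℕ, ∑ j ∈ Ico (l + 1) (l + 1 + n), V / 2 ^ (j + 1) ≤ V - V / 2 ^ (l + 1 + n) := by
    intro n
    induction n with
    | zero =>
      rw [add_zero, Ico_self, sum_empty, sub_nonneg]
      exact div_le_self hV (one_le_pow₀ (by norm_num))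
    | succ n ih =>
      rw [← add_assoc, sum_Ico_succ_top (by omega)]
      have h3 : V / 2 ^ (l + 1 + n) = V / 2 ^ (l + 1 + n + 1) + V / 2 ^ (l + 1 + n + 1) := by
        rw [pow_succ]
        field_simp
        ring
      linarith
  rcases le_or_gt (l + 1) J with h1 | h1
  · obtain ⟨n, rfl⟩ := Nat.exists_eq_add_of_le h1
    refine (h n).trans ?_
    have : 0 ≤ V / 2 ^ (l + 1 + n) := by positivity
    linarith
  · rw [Ico_eq_empty (by omega), sum_empty]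
    exact hV

/-- the level sums and the identification of the level sets -/
private theorem levels (d : ℕ) (c1 : ℝ) (hc1 : 0 < c1) (l : ℕ) (hl : 16 * ((d : ℝ) + 1) ≤ 2 ^ l)
    {z : ℕ} {E : Finset ℕ} {V : ℝ} (hV0 : 0 < V) (hV1 : V ≤ 1)
    (hE : ∀ q ∈ prz z \ E, c1 ≤ V * Real.log q) :
    ∃ lv : {q // q ∈ prz z \ E} → ℕ,
      (∀ i, l < lv i) ∧
      (∀ m, l < m → ∀ i, (lv i ≤ m ↔
        Real.log ((i : ℕ) : ℝ) ≤ 2 ^ m / V / (8 * ((d : ℝ) + 1)))) ∧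
      ∀ m, ∑ i ∈ (univ : Finset {q // q ∈ prz z \ E}).filter (fun i => lv i = m),
        1 / ((i : ℕ) : ℝ) ≤
          max 3 ((2 ^ (l + 1) / (8 * ((d : ℝ) + 1)) + Real.log 4) / c1) := by
  classical
  have hd : (0 : ℝ) < 8 * ((d : ℝ) + 1) := by positivity
  have hmono : ∀ {m n : ℕ}, m ≤ n →
      (2 : ℝ) ^ m / V / (8 * ((d : ℝ) + 1)) ≤ 2 ^ n / V / (8 * ((d : ℝ) + 1)) := by
    intro m n hmn
    gcongr
    norm_num
  have hex : ∀ i : {q // q ∈ prz z \ E}, ∃ m : ℕ, l < m ∧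
      Real.log ((i : ℕ) : ℝ) ≤ 2 ^ m / V / (8 * ((d : ℝ) + 1)) := by
    intro i
    obtain ⟨m, hm⟩ := pow_unbounded_of_one_lt
      (Real.log ((i : ℕ) : ℝ) * (8 * ((d : ℝ) + 1)) * V) (by norm_num : (1 : ℝ) < 2)
    refine ⟨max m (l + 1), by omega, ?_⟩
    refine le_trans ?_ (hmono (le_max_left m (l + 1)))
    rw [le_div_iff₀ hd, le_div_iff₀ hV0]
    exact hm.le
  have hlv1 : ∀ i, l < Nat.find (hex i) := fun i => (Nat.find_spec (hex i)).1
  have hlv2 : ∀ i : {q // q ∈ prz z \ E}, Real.log ((i : ℕ) : ℝ) ≤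
      2 ^ (Nat.find (hex i)) / V / (8 * ((d : ℝ) + 1)) := fun i => (Nat.find_spec (hex i)).2
  have hiff : ∀ m, l < m → ∀ i, (Nat.find (hex i) ≤ m ↔
        Real.log ((i : ℕ) : ℝ) ≤ 2 ^ m / V / (8 * ((d : ℝ) + 1))) := by
    intro m hm i
    constructor
    · intro h
      exact (hlv2 i).trans (hmono h)
    · intro h
      exact Nat.find_min' (hex i) ⟨hm, h⟩
  refine ⟨fun i => Nat.find (hex i), hlv1, hiff, ?_⟩
  intro m
  change ∑ i ∈ (univ : Finset {q // q ∈ prz z \ E}).filter (fun i : {q // q ∈ prz z \ E} => Nat.find (hex i) = m),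
        1 / ((i : ℕ) : ℝ) ≤ _
  set P := (univ : Finset {q // q ∈ prz z \ E}).filter (fun i : {q // q ∈ prz z \ E} => Nat.find (hex i) = m) with hP
  rcases le_or_gt m l with hm | hm
  · have : P = ∅ := by
      rw [hP, filter_eq_empty_iff]
      intro i _ h
      have := hlv1 i
      omega
    rw [this, sum_empty]
    exact le_trans (by norm_num) (le_max_left _ _)
  have hlog4 : 0 ≤ Real.log 4 := Real.log_nonneg (by norm_num)
  have hY0 : (0 : ℝ) ≤ 2 ^ m / V / (8 * ((d : ℝ) + 1)) := by positivity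
  have hmer := mert P hY0 (by
    intro i hi
    have : Nat.find (hex i) = m := (mem_filter.1 hi).2
    exact (hiff m hm i).1 this.le)
  rcases (Nat.succ_le_iff.2 hm).eq_or_lt with hm1 | hm1
  · -- level l + 1
    refine le_trans ?_ (le_max_right _ _)
    have h1 : ∀ i ∈ P, 1 / ((i : ℕ) : ℝ) ≤
        V / c1 * (Real.log ((i : ℕ) : ℝ) / ((i : ℕ) : ℝ)) := by
      intro i _
      have h2 := hE i i.2
      have h3 : (0 : ℝ) < ((i : ℕ) : ℝ) := by exact_mod_cast (prime_of i).pos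
      have h4 : V / c1 * (Real.log ((i : ℕ) : ℝ) / ((i : ℕ) : ℝ)) =
          (V * Real.log ((i : ℕ) : ℝ) / c1) / ((i : ℕ) : ℝ) := by
        field_simp
      rw [h4]
      gcongr
      rw [one_le_div hc1]
      exact h2
    calc ∑ i ∈ P, 1 / ((i : ℕ) : ℝ)
        ≤ ∑ i ∈ P, V / c1 * (Real.log ((i : ℕ) : ℝ) / ((i : ℕ) : ℝ)) := sum_le_sum h1
      _ = V / c1 * ∑ i ∈ P, (Real.log ((i : ℕ) : ℝ) / ((i : ℕ) : ℝ)) := by rw [mul_sum]
      _ ≤ V / c1 * (2 ^ m / V / (8 * ((d : ℝ) + 1)) + Real.log 4) := by gcongr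
      _ = (2 ^ m / (8 * ((d : ℝ) + 1)) + V * Real.log 4) / c1 := by
          field_simp
      _ ≤ _ := by
          rw [← hm1]
          have h5 : V * Real.log 4 ≤ Real.log 4 := by nlinarith
          have h6 : l.succ = l + 1 := rfl
          rw [h6]
          gcongr
  · -- level ≥ l + 2
    refine le_trans ?_ (le_max_left _ _)
    obtain ⟨k, rfl⟩ : ∃ k, m = k + 1 := ⟨m - 1, by omega⟩
    have hk : l < k := by omega
    have hX : (0 : ℝ) < 2 ^ k / V := by positivity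
    have hXk : 32 * ((d : ℝ) + 1) ≤ 2 ^ k / V := by
      have h1 : (2 : ℝ) ^ (l + 1) ≤ 2 ^ k := pow_le_pow_right₀ (by norm_num) hk
      have h2 : (2 : ℝ) ^ k ≤ 2 ^ k / V := by
        rw [le_div_iff₀ hV0]
        nlinarith [pow_pos (by norm_num : (0 : ℝ) < 2) k]
      rw [pow_succ] at h1
      linarith
    have h1 : ∀ i ∈ P, 1 / ((i : ℕ) : ℝ) ≤
        (8 * ((d : ℝ) + 1)) / (2 ^ k / V) * (Real.log ((i : ℕ) : ℝ) / ((i : ℕ) : ℝ)) := by
      intro i hi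
      have h2 : Nat.find (hex i) = k + 1 := (mem_filter.1 hi).2
      have h3 : (0 : ℝ) < ((i : ℕ) : ℝ) := by exact_mod_cast (prime_of i).pos
      have h4 : ¬ (Real.log ((i : ℕ) : ℝ) ≤ 2 ^ k / V / (8 * ((d : ℝ) + 1))) := by
        rw [← hiff k hk i]
        omega
      push Not at h4
      have h5 : (8 * ((d : ℝ) + 1)) / (2 ^ k / V) * (Real.log ((i : ℕ) : ℝ) / ((i : ℕ) : ℝ)) =
          (8 * ((d : ℝ) + 1) * Real.log ((i : ℕ) : ℝ) / (2 ^ k / V)) / ((i : ℕ) : ℝ) := by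
        field_simp
      rw [h5]
      gcongr
      rw [one_le_div hX]
      rw [div_lt_iff₀ hd] at h4
      linarith
    calc ∑ i ∈ P, 1 / ((i : ℕ) : ℝ)
        ≤ ∑ i ∈ P, (8 * ((d : ℝ) + 1)) / (2 ^ k / V) *
            (Real.log ((i : ℕ) : ℝ) / ((i : ℕ) : ℝ)) := sum_le_sum h1
      _ = (8 * ((d : ℝ) + 1)) / (2 ^ k / V) *
            ∑ i ∈ P, (Real.log ((i : ℕ) : ℝ) / ((i : ℕ) : ℝ)) := by rw [mul_sum]
      _ ≤ (8 * ((d : ℝ) + 1)) / (2 ^ k / V) *
            (2 ^ (k + 1) / V / (8 * ((d : ℝ) + 1)) + Real.log 4) := by gcongr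
      _ = 2 + (8 * ((d : ℝ) + 1)) * Real.log 4 / (2 ^ k / V) := by
          rw [pow_succ]
          field_simp
      _ ≤ 3 := by
          have h6 : (8 * ((d : ℝ) + 1)) * Real.log 4 / (2 ^ k / V) ≤ 1 := by
            rw [div_le_one hX]
            have := log4
            have hd1 : (0 : ℝ) < (d : ℝ) + 1 := by positivity
            nlinarith
          linarith

open Classical in
theorem Qlow (d : ℕ) (c1 : ℝ) (hc1 : 0 < c1) : ∃ c : ℝ, 0 < c ∧ ∃ J0 : ℕ,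
    ∀ (z : ℕ) (E : Finset ℕ), E ⊆ prz z → ∀ V : ℝ, 0 < V → V ≤ ∏ q ∈ E, (1 - 1 / (q : ℝ)) →
    (∀ q ∈ prz z \ E, c1 ≤ V * Real.log q) → ∀ S1 : ℝ, 1 < S1 → S1 ≤ z →
    ∀ J : ℕ, J0 ≤ J → 2 ^ J / V ≤ Real.log S1 →
    ∀ u : Finset {q // q ∈ prz z \ E} → ℝ, DegLe d u → u ∅ = 1 →
    c * V * (J : ℝ) ^ ((1 / 2 : ℝ) ^ d) ≤
      ∑ S ∈ (univ : Finset (Finset {q // q ∈ prz z \ E})).filter (fun S => S ≠ ∅ ∧
        PP (fun q : {q // q ∈ prz z \ E} => (q : ℕ)) S ≤ S1),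
        u S ^ 2 / (PH (fun q : {q // q ∈ prz z \ E} => (q : ℕ)) S *
          Real.log (PP (fun q : {q // q ∈ prz z \ E} => (q : ℕ)) S)) := by
  obtain ⟨l, hl⟩ : ∃ l : ℕ, 16 * ((d : ℝ) + 1) ≤ 2 ^ l := by
    obtain ⟨l, hl⟩ := pow_unbounded_of_one_lt (16 * ((d : ℝ) + 1)) (by norm_num : (1 : ℝ) < 2)
    exact ⟨l, hl.le⟩
  have hd1 : (0 : ℝ) < (d : ℝ) + 1 := by positivity
  set C : ℝ := max 3 ((2 ^ (l + 1) / (8 * ((d : ℝ) + 1)) + Real.log 4) / c1) with hC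
  have hC1 : 1 ≤ C := le_trans (by norm_num) (le_max_left _ _)
  obtain ⟨c0, hc0, hcube⟩ := cube_main C hC1 d
  set β : ℝ := (1 / 2 : ℝ) ^ d with hβ
  have hβ0 : 0 < β := by positivity
  have hβ1 : β ≤ 1 := pow_le_one₀ (by norm_num) (by norm_num)
  -- the threshold
  obtain ⟨J1, hJ1⟩ : ∃ J1 : ℕ, ∀ J : ℕ, J1 ≤ J → 512 * ((d : ℝ) + 1) / c0 ≤ (J : ℝ) ^ β := by
    have h1 : Filter.Tendsto (fun n : ℕ => (n : ℝ) ^ β) Filter.atTop Filter.atTop :=
      (tendsto_rpow_atTop hβ0).comp tendsto_natCast_atTop_atTop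
    have h2 := h1.eventually_ge_atTop (512 * ((d : ℝ) + 1) / c0)
    rw [Filter.eventually_atTop] at h2
    exact h2
  refine ⟨c0 / (256 * ((d : ℝ) + 1)), by positivity, max J1 (2 * l + 2), ?_⟩
  intro z E hEz V hV0 hVE hE S1 hS1 hS1z J hJ hJS u hu hu0
  have hJ1' : J1 ≤ J := (le_max_left _ _).trans hJ
  have hJl : 2 * l + 2 ≤ J := (le_max_right _ _).trans hJ
  have hV1 : V ≤ 1 := by
    refine hVE.trans (prod_le_one ?_ ?_)
    · intro q hq
      have := (mem_prz'.1 (hEz hq)).2.one_le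
      have h1 : (1 : ℝ) ≤ (q : ℝ) := by exact_mod_cast this
      rw [sub_nonneg, div_le_one (by linarith)]
      exact h1
    · intro q hq
      have : (0 : ℝ) ≤ 1 / (q : ℝ) := by positivity
      linarith
  obtain ⟨lv, hlv1, hlv2, hlv3⟩ := levels d c1 hc1 l hl hV0 hV1 hE
  have hp2 : ∀ i : {q // q ∈ prz z \ E}, 2 ≤ (fun q : {q // q ∈ prz z \ E} => (q : ℕ)) i := fun i => (prime_of i).two_le
  -- the main lemma
  have hq0 : ∀ i : {q // q ∈ prz z \ E}, (0 : ℝ) ≤ 1 / ((i : ℕ) : ℝ) := fun i => by positivity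
  have hq1 : ∀ i : {q // q ∈ prz z \ E}, 1 / ((i : ℕ) : ℝ) ≤ 1 / 2 := by
    intro i
    have : (2 : ℝ) ≤ ((i : ℕ) : ℝ) := by exact_mod_cast hp2 i
    gcongr
  have hmain := hcube {q // q ∈ prz z \ E} (fun i => 1 / ((i : ℕ) : ℝ)) univ lv l (J - 1) u hq0 hq1 hlv3
    (by omega) hu
  rw [hu0, one_pow, mul_one] at hmain
  -- the first term
  have hsplit : ∑ m ∈ Icc l (J - 1),
      Ex (fun i : {q // q ∈ prz z \ E} => 1 / ((i : ℕ) : ℝ)) (Lv univ lv l m) (fun S => u S ^ 2) =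
      1 + ∑ m ∈ Ico (l + 1) J,
      Ex (fun i : {q // q ∈ prz z \ E} => 1 / ((i : ℕ) : ℝ)) (Lv univ lv l m) (fun S => u S ^ 2) := by
    have h1 : Icc l (J - 1) = Ico l J := by
      ext m
      simp only [mem_Icc, mem_Ico]
      omega
    rw [h1, sum_eq_sum_Ico_succ_bot (by omega)]
    congr 1
    have h2 : Lv (univ : Finset {q // q ∈ prz z \ E}) lv l l = ∅ := by
      unfold Lv
      rw [filter_eq_empty_iff]
      rintro i _ ⟨h3, h4⟩
      omega
    rw [h2, Ex_empty, hu0, one_pow]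
  have hLv : ∀ m ∈ Ico (l + 1) J, Lv (univ : Finset {q // q ∈ prz z \ E}) lv l m =
      univ.filter (fun i : {q // q ∈ prz z \ E} => Real.log ((i : ℕ) : ℝ) ≤ 2 ^ m / V / (8 * ((d : ℝ) + 1))) := by
    intro m hm
    rw [mem_Ico] at hm
    unfold Lv
    ext i
    simp only [mem_filter, mem_univ, true_and]
    rw [← hlv2 m (by omega) i]
    constructor
    · exact fun h => h.2
    · exact fun h => ⟨hlv1 i, h⟩
  -- abel
  have hPPpos : ∀ S : Finset {q // q ∈ prz z \ E}, S ≠ ∅ → 0 < Real.log (PP (fun q : {q // q ∈ prz z \ E} => (q : ℕ)) S) := by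
    intro S hS
    apply Real.log_pos
    obtain ⟨i, hi⟩ := nonempty_iff_ne_empty.2 hS
    have h1 : PP (fun q : {q // q ∈ prz z \ E} => (q : ℕ)) S = ((i : ℕ) : ℝ) * PP (fun q : {q // q ∈ prz z \ E} => (q : ℕ)) (S.erase i) := by
      unfold PP
      rw [mul_prod_erase S (fun i : {q // q ∈ prz z \ E} => ((i : ℕ) : ℝ)) hi]
    have h2 : (2 : ℝ) ≤ ((i : ℕ) : ℝ) := by exact_mod_cast hp2 i
    have h3 := one_le_PP hp2 (S.erase i)
    rw [h1]
    nlinarith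
  have hPH : ∀ S : Finset {q // q ∈ prz z \ E}, 0 < PH (fun q : {q // q ∈ prz z \ E} => (q : ℕ)) S := fun S => lt_of_lt_of_le one_pos (one_le_PH hp2 S)
  have habel := abel2 ((univ : Finset (Finset {q // q ∈ prz z \ E})).filter (fun S => S ≠ ∅))
    (fun S => u S ^ 2 / PH (fun q : {q // q ∈ prz z \ E} => (q : ℕ)) S) (fun S => Real.log (PP (fun q : {q // q ∈ prz z \ E} => (q : ℕ)) S))
    (fun S _ => div_nonneg (sq_nonneg _) (hPH S).le)
    (fun S hS => hPPpos S (mem_filter.1 hS).2) hV0 J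
  -- right side
  have hright : ∑ S ∈ ((univ : Finset (Finset {q // q ∈ prz z \ E})).filter (fun S => S ≠ ∅)).filter
      (fun S => Real.log (PP (fun q : {q // q ∈ prz z \ E} => (q : ℕ)) S) ≤ 2 ^ J / V), u S ^ 2 / PH (fun q : {q // q ∈ prz z \ E} => (q : ℕ)) S / Real.log (PP (fun q : {q // q ∈ prz z \ E} => (q : ℕ)) S) ≤
      ∑ S ∈ (univ : Finset (Finset {q // q ∈ prz z \ E})).filter (fun S => S ≠ ∅ ∧ PP (fun q : {q // q ∈ prz z \ E} => (q : ℕ)) S ≤ S1),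
        u S ^ 2 / (PH (fun q : {q // q ∈ prz z \ E} => (q : ℕ)) S * Real.log (PP (fun q : {q // q ∈ prz z \ E} => (q : ℕ)) S)) := by
    simp only [div_div]
    apply sum_le_sum_of_subset_of_nonneg
    · intro S hS
      rw [mem_filter, mem_filter] at hS
      rw [mem_filter]
      refine ⟨mem_univ _, hS.1.2, ?_⟩
      have h1 : 0 < PP (fun q : {q // q ∈ prz z \ E} => (q : ℕ)) S := lt_of_lt_of_le one_pos (one_le_PP hp2 S)
      have h2 : Real.log (PP (fun q : {q // q ∈ prz z \ E} => (q : ℕ)) S) ≤ Real.log S1 := hS.2.trans hJS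
      exact (Real.log_le_log_iff h1 (by linarith)).1 h2
    · intro S hS _
      rw [mem_filter] at hS
      exact div_nonneg (sq_nonneg _) (mul_pos (hPH S) (hPPpos S hS.2.1)).le
  -- left side
  have hleft : ∑ j ∈ Ico (l + 1) J, (V / (64 * ((d : ℝ) + 1)) *
      Ex (fun i : {q // q ∈ prz z \ E} => 1 / ((i : ℕ) : ℝ)) (Lv univ lv l j) (fun S => u S ^ 2) -
        V / 2 ^ (j + 1)) ≤
      ∑ j ∈ Ico 1 J, V / 2 ^ (j + 1) *
        ∑ S ∈ ((univ : Finset (Finset {q // q ∈ prz z \ E})).filter (fun S => S ≠ ∅)).filter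
          (fun S => Real.log (PP (fun q : {q // q ∈ prz z \ E} => (q : ℕ)) S) ≤ 2 ^ j / V), u S ^ 2 / PH (fun q : {q // q ∈ prz z \ E} => (q : ℕ)) S := by
    refine le_trans (sum_le_sum (g := fun j => V / 2 ^ (j + 1) *
        ∑ S ∈ ((univ : Finset (Finset {q // q ∈ prz z \ E})).filter (fun S => S ≠ ∅)).filter
          (fun S => Real.log (PP (fun q : {q // q ∈ prz z \ E} => (q : ℕ)) S) ≤ 2 ^ j / V), u S ^ 2 / PH (fun q : {q // q ∈ prz z \ E} => (q : ℕ)) S) ?_) ?_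
    · intro j hj
      rw [hLv j hj]
      rw [mem_Ico] at hj
      have h2j : (0 : ℝ) < 2 ^ j := by positivity
      have hX : 16 * ((d : ℝ) + 1) ≤ 2 ^ j / V := by
        have h1 : (2 : ℝ) ^ l ≤ 2 ^ j := pow_le_pow_right₀ (by norm_num) (by omega)
        have h2 : (2 : ℝ) ^ j ≤ 2 ^ j / V := by
          rw [le_div_iff₀ hV0]
          nlinarith
        linarith
      have hXz : 2 ^ j / V ≤ Real.log z := by
        have h1 : (2 : ℝ) ^ j / V ≤ 2 ^ J / V := by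
          gcongr
          · norm_num
          · omega
        have h2 : Real.log S1 ≤ Real.log z := Real.log_le_log (by linarith) hS1z
        linarith
      have hb := block_lower hEz hV0 hVE d hX hXz u hu hu0
      rw [filter_filter]
      have h3 : V / 2 ^ (j + 1) * (V * (2 ^ j / V) / (32 * ((d : ℝ) + 1)) *
          Ex (fun i : {q // q ∈ prz z \ E} => 1 / ((i : ℕ) : ℝ))
            (univ.filter (fun i : {q // q ∈ prz z \ E} => Real.log ((i : ℕ) : ℝ) ≤ 2 ^ j / V / (8 * ((d : ℝ) + 1))))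
            (fun S => u S ^ 2) - 1) = V / (64 * ((d : ℝ) + 1)) *
          Ex (fun i : {q // q ∈ prz z \ E} => 1 / ((i : ℕ) : ℝ))
            (univ.filter (fun i : {q // q ∈ prz z \ E} => Real.log ((i : ℕ) : ℝ) ≤ 2 ^ j / V / (8 * ((d : ℝ) + 1))))
            (fun S => u S ^ 2) - V / 2 ^ (j + 1) := by
        rw [pow_succ]
        field_simp
        ring
      rw [← h3]
      have h4 : (0 : ℝ) ≤ V / 2 ^ (j + 1) := by positivity
      exact mul_le_mul_of_nonneg_left hb h4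
    · apply sum_le_sum_of_subset_of_nonneg
      · intro j hj
        rw [mem_Ico] at hj ⊢
        omega
      · intro j _ _
        apply mul_nonneg (by positivity)
        apply sum_nonneg
        intro S _
        exact div_nonneg (sq_nonneg _) (hPH S).le
  refine le_trans ?_ ((hleft.trans habel).trans hright)
  rw [sum_sub_distrib, ← mul_sum]
  have hgeo := geo V hV0.le l J
  rw [hsplit] at hmain
  -- numerics
  have hcast : (((J - 1 - l : ℕ) : ℝ) + 1) = (J : ℝ) - l := by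
    have : J - 1 - l + 1 + l = J := by omega
    have h2 : (((J - 1 - l + 1 + l : ℕ)) : ℝ) = (J : ℝ) := by rw [this]
    push_cast at h2
    linarith
  rw [hcast] at hmain
  have hJr : (2 * (l : ℝ) + 2) ≤ (J : ℝ) := by exact_mod_cast hJl
  have hJpos : (0 : ℝ) < (J : ℝ) := by
    have : (0 : ℝ) ≤ (l : ℝ) := by positivity
    linarith
  have hhalf : (J : ℝ) ^ β / 2 ≤ ((J : ℝ) - l) ^ β := by
    have h1 : ((J : ℝ) / 2) ^ β ≤ ((J : ℝ) - l) ^ β :=
      Real.rpow_le_rpow (by positivity) (by linarith) hβ0.le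
    refine le_trans ?_ h1
    rw [Real.div_rpow hJpos.le (by norm_num)]
    have h2 : (2 : ℝ) ^ β ≤ 2 := by
      calc (2 : ℝ) ^ β ≤ 2 ^ (1 : ℝ) := Real.rpow_le_rpow_of_exponent_le (by norm_num) hβ1
        _ = 2 := Real.rpow_one 2
    have h3 : (0 : ℝ) < (2 : ℝ) ^ β := by positivity
    gcongr
  have hthr := hJ1 J hJ1'
  rw [div_le_iff₀ hc0] at hthr
  set A : ℝ := (J : ℝ) ^ β with hA
  set T : ℝ := ∑ m ∈ Ico (l + 1) J,
      Ex (fun i : {q // q ∈ prz z \ E} => 1 / ((i : ℕ) : ℝ)) (Lv univ lv l m) (fun S => u S ^ 2) with hT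
  have hT1 : c0 * (A / 2) - 1 ≤ T := by
    have := mul_le_mul_of_nonneg_left hhalf hc0.le
    linarith
  have h5 : V / (64 * ((d : ℝ) + 1)) * (c0 * (A / 2) - 1) ≤ V / (64 * ((d : ℝ) + 1)) * T :=
    mul_le_mul_of_nonneg_left hT1 (by positivity)
  refine le_trans ?_ (sub_le_sub h5 hgeo)
  have h6 : c0 / (256 * ((d : ℝ) + 1)) * V * A =
      V * (c0 * A / (256 * ((d : ℝ) + 1))) := by ring
  have h7 : V / (64 * ((d : ℝ) + 1)) * (c0 * (A / 2) - 1) - V =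
      V * (2 * (c0 * A / (256 * ((d : ℝ) + 1))) - 1 / (64 * ((d : ℝ) + 1)) - 1) := by
    field_simp
    ring
  rw [h6, h7]
  apply mul_le_mul_of_nonneg_left _ hV0.le
  have h8 : 2 ≤ c0 * A / (256 * ((d : ℝ) + 1)) := by
    rw [le_div_iff₀ (by positivity)]
    linarith
  have h9 : 1 / (64 * ((d : ℝ) + 1)) ≤ 1 := by
    rw [div_le_one (by positivity)]
    have : (0 : ℝ) ≤ (d : ℝ) := by positivity
    linarith
  linarith

end Pool.Agent.RT
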