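import Pool.Agent.RT.Wgt
import Pool.Agent.RT.Qlow
import Pool.Agent.RS.Prm

/-! RT/WtsR.  The concrete weights.

`lam = Nat.log 2 L`, `L' = L^(r+1)`, `Λ = Nat.log 2 L'`, `(r+1) lam ≤ Λ ≤ (r+1)(lam+1)`,
`E = excl L' B (2^d)`, `z = 2^d`, `V = exp(-9)/(12(Λ+1)) ≤ ∏_E (1-1/q)` (`RS.excl_prod` for `L'`:
`|b| ≤ 2^L ≤ 2^L'`, `B.card ≤ L ≤ L'`), `c1 = exp(-9)/6 ≤ V log q` for `q ∈ prz z \ E` (`q > L'^6`,
`log q ≥ 6 Λ log 2 ≥ 4 Λ ≥ 2(Λ+1)`), `s = d/(4 (r+6) lam)`, `S1 = 2^s`, `J = lam/2`.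
`2^J / V ≤ s log 2 = log S1` for `L ≥ L0` (see `paramsD` in `RS/CoreD.lean`: `d ≥ 2^(3 lam/4)`), in
particular `s ≥ 1`.  For `g < r`: `Qlow g c1` gives `c_g`, `J0_g`; `Q = c_g V J^β`, `β = (1/2)^g`;
`exists_wt` with `d := g`.  Energy `≤ 1/Q = 12 (Λ+1) exp 9/(c_g J^β) ≤ C lam^(1-β)`
(`Λ + 1 ≤ 3 (r+1) lam`, `J ≥ lam/4`, `J^β ≥ lam^β/4`); `C` the maximum (or sum) over `g < r`. -/

namespace Pool.Agent.RT

open Finset Pool.Agent.RS

private theorem grow (C : ℝ) : ∃ m0 : ℕ, ∀ m : ℕ, m0 ≤ m → C * ((m : ℝ) + 1) ^ 2 ≤ 2 ^ m := by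
  have h := tendsto_pow_const_div_const_pow_of_one_lt 2 (r := (2 : ℝ)) (by norm_num)
  have h2 : Filter.Tendsto (fun m : ℕ => |C| * 2 * (((m + 1 : ℕ) : ℝ) ^ 2 / 2 ^ (m + 1)))
      Filter.atTop (nhds (|C| * 2 * 0)) :=
    Filter.Tendsto.const_mul _ ((Filter.tendsto_add_atTop_iff_nat 1).2 h)
  rw [mul_zero] at h2
  obtain ⟨m0, hm0⟩ := Filter.eventually_atTop.1 (h2.eventually_le_const (show (0 : ℝ) < 1 by norm_num))
  refine ⟨m0, fun m hm => ?_⟩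
  have h3 := hm0 m hm
  have h4 : (0 : ℝ) < 2 ^ m := by positivity
  have h5 : |C| * ((m : ℝ) + 1) ^ 2 / 2 ^ m ≤ 1 := by
    refine le_trans (le_of_eq ?_) h3
    push_cast
    field_simp
    ring
  rw [div_le_one h4] at h5
  have h6 : C * ((m : ℝ) + 1) ^ 2 ≤ |C| * ((m : ℝ) + 1) ^ 2 :=
    mul_le_mul_of_nonneg_right (le_abs_self C) (by positivity)
  linarith

private theorem log_pow_le {L : ℕ} (hL : L ≠ 0) (r : ℕ) :
    Nat.log 2 (L ^ (r + 1)) + 1 ≤ (r + 2) * (Nat.log 2 L + 1) := by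
  have h1 : L < 2 ^ (Nat.log 2 L + 1) := Nat.lt_pow_succ_log_self (by norm_num) L
  have h2 : L ^ (r + 1) < 2 ^ ((Nat.log 2 L + 1) * (r + 1)) := by
    rw [pow_mul]
    exact Nat.pow_lt_pow_left h1 (by omega)
  have h3 : Nat.log 2 (L ^ (r + 1)) < (Nat.log 2 L + 1) * (r + 1) :=
    Nat.log_lt_of_lt_pow (by positivity) h2
  have h4 : (r + 2) * (Nat.log 2 L + 1) = (Nat.log 2 L + 1) * (r + 1) + (Nat.log 2 L + 1) := by
    ring
  omega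

/-- arithmetic of the parameters -/
private theorem paramsR (r J0 : ℕ) : ∃ L0 : ℕ, ∀ L d : ℕ, L0 ≤ L → L ^ 3 ≤ d ^ 4 → d ≤ L →
    10 ≤ Nat.log 2 L ∧ J0 ≤ Nat.log 2 L / 2 ∧
    (2 : ℝ) ^ (Nat.log 2 L / 2) /
        (Real.exp (-9) / (12 * ((Nat.log 2 (L ^ (r + 1)) : ℝ) + 1))) ≤
      ((d / (4 * (r + 6) * Nat.log 2 L) : ℕ) : ℝ) * Real.log 2 := by
  obtain ⟨m1, hm1⟩ := grow (16 * 97 * ((r : ℝ) + 2) * ((r : ℝ) + 6) * Real.exp 9)
  refine ⟨2 ^ (4 * m1 + 2 * J0 + 16), fun L d hL2 hLd hdL => ?_⟩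
  set lam := Nat.log 2 L with hlam
  have hpp : 0 < 2 ^ (4 * m1 + 2 * J0 + 16) := by positivity
  have hlam0 : 4 * m1 + 2 * J0 + 16 ≤ lam := Nat.le_log_of_pow_le (by norm_num) hL2
  have hLpos : L ≠ 0 := by omega
  have hpow : 2 ^ lam ≤ L := Nat.pow_log_le_self 2 hLpos
  refine ⟨by omega, by omega, ?_⟩
  have hLam := log_pow_le hLpos r
  rw [← hlam] at hLam
  set Lam := Nat.log 2 (L ^ (r + 1)) with hLamdef
  set J := lam / 2 with hJ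
  set I := J / 2 with hI
  have hI1 : m1 ≤ I := by omega
  have h1 := hm1 I hI1
  have hlamI : lam + 1 ≤ 4 * (I + 1) := by omega
  have hlamr : (lam : ℝ) + 1 ≤ 4 * ((I : ℝ) + 1) := by exact_mod_cast hlamI
  have hlam1 : (1 : ℝ) ≤ lam := by exact_mod_cast (by omega : 1 ≤ lam)
  have hIpos : (0 : ℝ) ≤ (I : ℝ) := Nat.cast_nonneg _
  have hr0 : (0 : ℝ) ≤ (r : ℝ) := Nat.cast_nonneg _
  have he9 : (1 : ℝ) ≤ Real.exp 9 := Real.one_le_exp (by norm_num)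
  have hLamr : (Lam : ℝ) + 1 ≤ ((r : ℝ) + 2) * ((lam : ℝ) + 1) := by exact_mod_cast hLam
  -- lower bound of d
  have hdlow : 2 ^ J * 2 ^ I ≤ d := by
    have h2 : (2 ^ J * 2 ^ I) ^ 4 ≤ d ^ 4 := by
      refine le_trans ?_ hLd
      refine le_trans ?_ (Nat.pow_le_pow_left hpow 3)
      rw [← pow_add, ← pow_mul, ← pow_mul]
      exact Nat.pow_le_pow_right (by norm_num) (by omega)
    exact (Nat.pow_le_pow_iff_left (by norm_num)).1 h2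
  -- lower bound of s
  have hs : (d : ℝ) ≤ 4 * ((r : ℝ) + 6) * lam * (((d / (4 * (r + 6) * lam) : ℕ) : ℝ) + 1) := by
    have hb : d < 4 * (r + 6) * lam * (d / (4 * (r + 6) * lam) + 1) :=
      Nat.lt_mul_div_succ d (Nat.mul_pos (by omega) (by omega))
    exact_mod_cast hb.le
  have hlog2 : (1 / 2 : ℝ) ≤ Real.log 2 := by
    have := Real.log_two_gt_d9
    linarith
  have hLam0 : (0 : ℝ) ≤ (Lam : ℝ) := Nat.cast_nonneg _
  have hdiv : (2 : ℝ) ^ J / (Real.exp (-9) / (12 * ((Lam : ℝ) + 1))) =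
      2 ^ J * (12 * (Lam + 1) * Real.exp 9) := by
    rw [Real.exp_neg]
    have : Real.exp 9 ≠ 0 := (Real.exp_pos 9).ne'
    field_simp
  rw [hdiv]
  set s : ℝ := ((d / (4 * (r + 6) * lam) : ℕ) : ℝ) with hsdef
  set E := Real.exp 9
  set P : ℝ := (2 : ℝ) ^ J with hP
  have hPpos : 0 < P := by positivity
  have hP1 : 1 ≤ P := one_le_pow₀ (by norm_num)
  have hdr : P * (2 : ℝ) ^ I ≤ (d : ℝ) := by
    have h2 : ((2 ^ J * 2 ^ I : ℕ) : ℝ) ≤ (d : ℝ) := Nat.cast_le.2 hdlow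
    push_cast at h2
    exact h2
  have hkey : (24 * ((Lam : ℝ) + 1) * E + 1) * (4 * ((r : ℝ) + 6) * (lam : ℝ)) ≤ (2 : ℝ) ^ I := by
    refine le_trans ?_ h1
    have hE0 : 0 ≤ E := by linarith
    have e0 : ((Lam : ℝ) + 1) ≤ 4 * (((r : ℝ) + 2) * ((I : ℝ) + 1)) := by
      refine hLamr.trans ?_
      have := mul_le_mul_of_nonneg_left hlamr (by linarith : (0 : ℝ) ≤ (r : ℝ) + 2)
      linarith
    have e1 : 24 * ((Lam : ℝ) + 1) * E + 1 ≤ 97 * ((((r : ℝ) + 2) * ((I : ℝ) + 1)) * E) := by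
      have e5 : 1 ≤ ((r : ℝ) + 2) * ((I : ℝ) + 1) :=
        one_le_mul_of_one_le_of_one_le (by linarith) (by linarith)
      have e3 : 1 ≤ (((r : ℝ) + 2) * ((I : ℝ) + 1)) * E :=
        one_le_mul_of_one_le_of_one_le e5 he9
      have e4 : ((Lam : ℝ) + 1) * E ≤ 4 * (((r : ℝ) + 2) * ((I : ℝ) + 1)) * E :=
        mul_le_mul_of_nonneg_right e0 hE0
      have e6 : 24 * ((Lam : ℝ) + 1) * E = 24 * (((Lam : ℝ) + 1) * E) := by ring
      have e7 : 4 * (((r : ℝ) + 2) * ((I : ℝ) + 1)) * E =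
        4 * ((((r : ℝ) + 2) * ((I : ℝ) + 1)) * E) := by ring
      rw [e6]
      rw [e7] at e4
      generalize ((r : ℝ) + 2) * ((I : ℝ) + 1) * E = X at *
      generalize ((Lam : ℝ) + 1) * E = Y at *
      linarith
    have e2 : 4 * ((r : ℝ) + 6) * (lam : ℝ) ≤ 16 * (((r : ℝ) + 6) * ((I : ℝ) + 1)) := by
      have h3 : (lam : ℝ) ≤ 4 * ((I : ℝ) + 1) := by linarith
      have := mul_le_mul_of_nonneg_left h3 (by linarith : (0 : ℝ) ≤ 4 * ((r : ℝ) + 6))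
      linarith
    calc (24 * ((Lam : ℝ) + 1) * E + 1) * (4 * ((r : ℝ) + 6) * (lam : ℝ))
        ≤ (97 * ((((r : ℝ) + 2) * ((I : ℝ) + 1)) * E)) * (16 * (((r : ℝ) + 6) * ((I : ℝ) + 1))) := by
          apply mul_le_mul e1 e2 (by positivity) (by positivity)
      _ = 16 * 97 * ((r : ℝ) + 2) * ((r : ℝ) + 6) * E * ((I : ℝ) + 1) ^ 2 := by ring
  have h7 : 4 * ((r : ℝ) + 6) * (lam : ℝ) * (P * (24 * ((Lam : ℝ) + 1) * E + 1)) ≤
      4 * ((r : ℝ) + 6) * (lam : ℝ) * (s + 1) := by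
    calc 4 * ((r : ℝ) + 6) * (lam : ℝ) * (P * (24 * ((Lam : ℝ) + 1) * E + 1))
        = P * ((24 * ((Lam : ℝ) + 1) * E + 1) * (4 * ((r : ℝ) + 6) * (lam : ℝ))) := by ring
      _ ≤ P * (2 : ℝ) ^ I := mul_le_mul_of_nonneg_left hkey hPpos.le
      _ ≤ (d : ℝ) := hdr
      _ ≤ _ := hs
  have h4l : (0 : ℝ) < 4 * ((r : ℝ) + 6) * (lam : ℝ) := by positivity
  have h8 : P * (24 * ((Lam : ℝ) + 1) * E + 1) ≤ s + 1 := le_of_mul_le_mul_left h7 h4l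
  have h8' : P * (24 * ((Lam : ℝ) + 1) * E + 1) =
      2 * (P * (12 * ((Lam : ℝ) + 1) * E)) + P := by ring
  have h9 : 2 * (P * (12 * ((Lam : ℝ) + 1) * E)) ≤ s := by linarith
  have hs0 : 0 ≤ s := Nat.cast_nonneg _
  have h10 : s * (1 / 2) ≤ s * Real.log 2 := mul_le_mul_of_nonneg_left hlog2 hs0
  linarith

/-- the bound of `1 / Q` -/
private theorem inv_Q_le {r lam Lam : ℕ} (hlam : 10 ≤ lam)
    (hLam : (Lam : ℝ) + 1 ≤ ((r : ℝ) + 2) * ((lam : ℝ) + 1)) {c β : ℝ} (hc : 0 < c)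
    (hβ0 : 0 < β) (hβ1 : β ≤ 1) :
    1 / (c * (Real.exp (-9) / (12 * ((Lam : ℝ) + 1))) * ((lam / 2 : ℕ) : ℝ) ^ β) ≤
      96 * ((r : ℝ) + 2) * Real.exp 9 / c * (lam : ℝ) ^ (1 - β) := by
  have hlamr : (10 : ℝ) ≤ (lam : ℝ) := by exact_mod_cast hlam
  have hlam0 : (0 : ℝ) < (lam : ℝ) := by linarith
  have hr0 : (0 : ℝ) ≤ (r : ℝ) := Nat.cast_nonneg _
  have hLam0 : (0 : ℝ) ≤ (Lam : ℝ) := Nat.cast_nonneg _
  have hE : (0 : ℝ) < Real.exp 9 := Real.exp_pos 9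
  have hJ : (lam : ℝ) / 4 ≤ ((lam / 2 : ℕ) : ℝ) := by
    have : lam ≤ 4 * (lam / 2) := by omega
    have h2 : (lam : ℝ) ≤ 4 * ((lam / 2 : ℕ) : ℝ) := by exact_mod_cast this
    linarith
  have hJβ : (lam : ℝ) ^ β / 4 ≤ ((lam / 2 : ℕ) : ℝ) ^ β := by
    have h1 : ((lam : ℝ) / 4) ^ β ≤ ((lam / 2 : ℕ) : ℝ) ^ β :=
      Real.rpow_le_rpow (by positivity) hJ hβ0.le
    refine le_trans ?_ h1
    rw [Real.div_rpow hlam0.le (by norm_num)]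
    have h2 : (4 : ℝ) ^ β ≤ 4 := by
      have := Real.rpow_le_rpow_of_exponent_le (by norm_num : (1 : ℝ) ≤ 4) hβ1
      rwa [Real.rpow_one] at this
    exact div_le_div_of_nonneg_left (Real.rpow_nonneg hlam0.le _)
      (Real.rpow_pos_of_pos (by norm_num) _) h2
  have hlβ : (0 : ℝ) < (lam : ℝ) ^ β := Real.rpow_pos_of_pos hlam0 _
  have hsub : (lam : ℝ) ^ (1 - β) = (lam : ℝ) / (lam : ℝ) ^ β := by
    rw [Real.rpow_sub hlam0, Real.rpow_one]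
  have hJpos : (0 : ℝ) < ((lam / 2 : ℕ) : ℝ) ^ β := lt_of_lt_of_le (by positivity) hJβ
  rw [hsub]
  have e1 : 1 / (c * (Real.exp (-9) / (12 * ((Lam : ℝ) + 1))) * ((lam / 2 : ℕ) : ℝ) ^ β) =
      (12 * ((Lam : ℝ) + 1) * Real.exp 9 / c) / ((lam / 2 : ℕ) : ℝ) ^ β := by
    rw [Real.exp_neg]
    field_simp
  rw [e1]
  have e2 : (12 * ((Lam : ℝ) + 1) * Real.exp 9 / c) / ((lam / 2 : ℕ) : ℝ) ^ β ≤
      (12 * ((Lam : ℝ) + 1) * Real.exp 9 / c) / ((lam : ℝ) ^ β / 4) :=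
    div_le_div_of_nonneg_left (by positivity) (by positivity) hJβ
  refine e2.trans ?_
  have e3 : 12 * ((Lam : ℝ) + 1) ≤ 24 * ((r : ℝ) + 2) * (lam : ℝ) := by
    have h1 : ((r : ℝ) + 2) * ((lam : ℝ) + 1) ≤ ((r : ℝ) + 2) * (2 * (lam : ℝ)) :=
      mul_le_mul_of_nonneg_left (by linarith) (by linarith)
    linarith
  have e4 : (12 * ((Lam : ℝ) + 1) * Real.exp 9 / c) / ((lam : ℝ) ^ β / 4) =
      (12 * ((Lam : ℝ) + 1)) * (4 * Real.exp 9 / (c * (lam : ℝ) ^ β)) := by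
    field_simp
  rw [e4]
  refine (mul_le_mul_of_nonneg_right e3 (by positivity)).trans (le_of_eq ?_)
  field_simp
  ring

open Classical in
theorem wts_r (r : ℕ) : ∃ C : ℝ, 0 < C ∧ ∃ L0 : ℕ, ∀ L d : ℕ, L0 ≤ L →
    L ^ 3 ≤ d ^ 4 → d ≤ L → ∀ B : Finset ℤ, (∀ b ∈ B, |b| ≤ 2 ^ L) → B.card ≤ L →
    ∀ g : ℕ, g < r →
    ∃ y : Finset {q // q ∈ prz (2 ^ d) \ excl (L ^ (r + 1)) B (2 ^ d)} → ℝ, y ∅ = 1 ∧
      (∀ S, y S ≠ 0 → PP (fun q : {q // q ∈ prz (2 ^ d) \ excl (L ^ (r + 1)) B (2 ^ d)} => (q : ℕ)) S ≤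
        (2 : ℝ) ^ (d / (4 * (r + 6) * Nat.log 2 L))) ∧
      (∀ T : Finset {q // q ∈ prz (2 ^ d) \ excl (L ^ (r + 1)) B (2 ^ d)}, T.card ≤ g →
        ∑ S ∈ (univ : Finset (Finset {q // q ∈ prz (2 ^ d) \ excl (L ^ (r + 1)) B (2 ^ d)})).filter
          (fun S => T ⊆ S), y S /
          PH (fun q : {q // q ∈ prz (2 ^ d) \ excl (L ^ (r + 1)) B (2 ^ d)} => (q : ℕ)) S = 0) ∧
      ∑ S ∈ (univ : Finset (Finset {q // q ∈ prz (2 ^ d) \ excl (L ^ (r + 1)) B (2 ^ d)})).filter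
          (fun S => S ≠ ∅), y S ^ 2 /
          PH (fun q : {q // q ∈ prz (2 ^ d) \ excl (L ^ (r + 1)) B (2 ^ d)} => (q : ℕ)) S *
          Real.log (PP (fun q : {q // q ∈ prz (2 ^ d) \ excl (L ^ (r + 1)) B (2 ^ d)} => (q : ℕ)) S) ≤
        C * (Nat.log 2 L : ℝ) ^ (1 - (1 / 2 : ℝ) ^ g) := by
  have hc1 : (0 : ℝ) < Real.exp (-9) / 6 := by positivity
  choose c hc J0 hQ using fun g : ℕ => Qlow g (Real.exp (-9) / 6) hc1
  obtain ⟨L0, hL0⟩ := paramsR r (∑ g ∈ range r, J0 g)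
  have hE9 : (0 : ℝ) < Real.exp 9 := Real.exp_pos 9
  have hr0 : (0 : ℝ) ≤ (r : ℝ) := Nat.cast_nonneg _
  have hterm : ∀ g : ℕ, 0 ≤ 96 * ((r : ℝ) + 2) * Real.exp 9 / c g := by
    intro g
    have := hc g
    positivity
  refine ⟨∑ g ∈ range r, 96 * ((r : ℝ) + 2) * Real.exp 9 / c g + 1, ?_, L0, ?_⟩
  · have := Finset.sum_nonneg (fun g (_ : g ∈ range r) => hterm g)
    linarith
  intro L d hL hLd hdL B hB hcard g hg
  obtain ⟨hlam10, hJ0, hnum⟩ := hL0 L d hL hLd hdL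
  have hgr : g ∈ range r := Finset.mem_range.2 hg
  have hJg : J0 g ≤ Nat.log 2 L / 2 :=
    le_trans (Finset.single_le_sum (fun _ _ => Nat.zero_le _) hgr) hJ0
  have hLne : L ≠ 0 := by
    rintro rfl
    simp at hlam10
  have hLam := log_pow_le hLne r
  have hpowL : 2 ^ Nat.log 2 L ≤ L := Nat.pow_log_le_self 2 hLne
  have hL4 : 2 ^ 10 ≤ L := (Nat.pow_le_pow_right (by norm_num) hlam10).trans hpowL
  have hLL' : L ≤ L ^ (r + 1) := Nat.le_self_pow (by omega) L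
  have hLampos : 10 ≤ Nat.log 2 (L ^ (r + 1)) := hlam10.trans (Nat.log_mono_right hLL')
  have hLampow : 2 ^ Nat.log 2 (L ^ (r + 1)) ≤ L ^ (r + 1) :=
    Nat.pow_log_le_self 2 (by positivity)
  generalize hlamdef : Nat.log 2 L = lam at *
  generalize hL' : L ^ (r + 1) = L' at *
  generalize hLamdef : Nat.log 2 L' = Lam at *
  have hLamr : (Lam : ℝ) + 1 ≤ ((r : ℝ) + 2) * ((lam : ℝ) + 1) := by exact_mod_cast hLam
  have hLam10r : (10 : ℝ) ≤ (Lam : ℝ) := by exact_mod_cast hLampos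
  have hdpos : 0 < d := by
    rcases Nat.eq_zero_or_pos d with h | h
    · subst h
      have h0 : L ^ 3 = 0 := by simpa using hLd
      have h1 : 0 < L ^ 3 := by positivity
      omega
    · exact h
  have hV : 0 < Real.exp (-9) / (12 * ((Lam : ℝ) + 1)) := by positivity
  -- s ≥ 1
  have hspos : 1 ≤ d / (4 * (r + 6) * lam) := by
    by_contra h
    have hs0 : d / (4 * (r + 6) * lam) = 0 := Nat.lt_one_iff.1 (not_le.1 h)
    rw [hs0] at hnum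
    have : (0 : ℝ) < (2 : ℝ) ^ (lam / 2) / (Real.exp (-9) / (12 * ((Lam : ℝ) + 1))) := by
      positivity
    rw [Nat.cast_zero, zero_mul] at hnum
    linarith
  have hsdle : d / (4 * (r + 6) * lam) ≤ d := Nat.div_le_self _ _
  have hQprime : ∀ i : {q // q ∈ prz (2 ^ d) \ excl L' B (2 ^ d)}, (i : ℕ).Prime := by
    intro i
    have := (Finset.mem_sdiff.1 i.2).1
    exact (Finset.mem_filter.1 this).2
  have hS1 : (1 : ℝ) < (2 : ℝ) ^ (d / (4 * (r + 6) * lam)) :=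
    one_lt_pow₀ (by norm_num) (by omega)
  have hlog2 : (2 / 3 : ℝ) ≤ Real.log 2 := by
    have := Real.log_two_gt_d9
    linarith
  have hB' : ∀ b ∈ B, |b| ≤ 2 ^ L' := by
    intro b hb
    exact (hB b hb).trans (pow_le_pow_right₀ (by norm_num) hLL')
  have hprod := excl_prod (L := L') (by omega) hB' (hcard.trans hLL') (2 ^ d)
  rw [hLamdef] at hprod
  have hclog : ∀ q ∈ prz (2 ^ d) \ excl L' B (2 ^ d),
      Real.exp (-9) / 6 ≤ Real.exp (-9) / (12 * ((Lam : ℝ) + 1)) * Real.log q := by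
    intro q hq
    have h1 := Finset.mem_sdiff.1 hq
    have hgt : L' ^ 6 < q := by
      by_contra h
      exact h1.2 (Finset.mem_filter.2 ⟨h1.1, Or.inl (not_lt.1 h)⟩)
    have h2 : (2 : ℕ) ^ (Lam * 6) ≤ q := by
      rw [pow_mul]
      exact (Nat.pow_le_pow_left hLampow 6).trans hgt.le
    have h3 : (2 : ℝ) ^ (Lam * 6) ≤ q := by exact_mod_cast h2
    have h4 := Real.log_le_log (by positivity) h3
    rw [Real.log_pow] at h4
    push_cast at h4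
    have h5 : 2 * ((Lam : ℝ) + 1) ≤ Real.log q := by
      refine le_trans ?_ h4
      have : (Lam : ℝ) * 6 * (2 / 3) ≤ (Lam : ℝ) * 6 * Real.log 2 :=
        mul_le_mul_of_nonneg_left hlog2 (by positivity)
      linarith
    calc Real.exp (-9) / 6 = Real.exp (-9) / (12 * ((Lam : ℝ) + 1)) * (2 * ((Lam : ℝ) + 1)) := by
          field_simp
          norm_num
      _ ≤ _ := mul_le_mul_of_nonneg_left h5 hV.le
  have hβ0 : (0 : ℝ) < (1 / 2 : ℝ) ^ g := by positivity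
  have hβ1 : (1 / 2 : ℝ) ^ g ≤ 1 := pow_le_one₀ (by norm_num) (by norm_num)
  have hJpos : (0 : ℝ) < ((lam / 2 : ℕ) : ℝ) := by exact_mod_cast (by omega : 0 < lam / 2)
  have hQpos : 0 < c g * (Real.exp (-9) / (12 * ((Lam : ℝ) + 1))) *
      ((lam / 2 : ℕ) : ℝ) ^ ((1 / 2 : ℝ) ^ g) :=
    mul_pos (mul_pos (hc g) hV) (Real.rpow_pos_of_pos hJpos _)
  have hlow := hQ g (2 ^ d) (excl L' B (2 ^ d)) (Finset.filter_subset _ _)
    (Real.exp (-9) / (12 * ((Lam : ℝ) + 1))) hV hprod hclog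
    ((2 : ℝ) ^ (d / (4 * (r + 6) * lam))) hS1
    (by exact_mod_cast Nat.pow_le_pow_right (by norm_num) hsdle) (lam / 2) hJg
    (by rw [Real.log_pow]; exact hnum)
  obtain ⟨y, hy0, hy1, hy2, hy3⟩ := exists_wt
    (p := fun q : {q // q ∈ prz (2 ^ d) \ excl L' B (2 ^ d)} => (q : ℕ))
    (fun i => (hQprime i).two_le) hS1.le g hQpos hlow
  refine ⟨y, hy0, hy1, hy2, hy3.trans ?_⟩
  refine (inv_Q_le hlam10 hLamr (hc g) hβ0 hβ1).trans ?_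
  apply mul_le_mul_of_nonneg_right _ (Real.rpow_nonneg (Nat.cast_nonneg _) _)
  have := Finset.single_le_sum (fun g (_ : g ∈ range r) => hterm g) hgr
  linarith

end Pool.Agent.RT
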