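import Pool.Agent.RT.AbsR
import Pool.Agent.RT.WtsR
import Pool.Agent.RT.ParR

/-! RT/CoreR.  The core theorem with requirements `ρ b ∈ [1, r]`.  The parameters of the sieve `sieve_r` are
chosen with `wts_r` (weights) and `par_r` (arithmetic of the parameters). -/

namespace Pool.Agent.RT

open Finset Pool.Agent.RS

private theorem prod_phi {d L : ℕ} (hd : 1 ≤ d) (hdL : d ≤ L) (E : Finset ℕ) :
    ∏ i : {q // q ∈ prz (2 ^ d) \ E}, (1 + 1 / (((i : ℕ) : ℝ) - 1)) ≤ Real.exp 9 * L := by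
  have h0 : ∏ i : {q // q ∈ prz (2 ^ d) \ E}, (1 + 1 / (((i : ℕ) : ℝ) - 1)) =
      ∏ q ∈ prz (2 ^ d) \ E, (1 + 1 / ((q : ℝ) - 1)) :=
    Finset.prod_coe_sort (prz (2 ^ d) \ E) (fun q : ℕ => 1 + 1 / ((q : ℝ) - 1))
  have hpr : prz (2 ^ d) = Helper52.pr 0 (2 ^ d) := by
    ext q
    rw [Helper52.mem_pr]
    unfold prz
    rw [Finset.mem_filter, Finset.mem_Icc]
    constructor
    · rintro ⟨⟨h1, h2⟩, h3⟩
      exact ⟨h1, h2, h3⟩
    · rintro ⟨h1, h2, h3⟩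
      exact ⟨⟨h1, h2⟩, h3⟩
  have htwo : ∀ q ∈ prz (2 ^ d), (2 : ℝ) ≤ q := by
    intro q hq
    unfold prz at hq
    exact_mod_cast (Finset.mem_filter.1 hq).2.two_le
  have h1 : ∏ q ∈ prz (2 ^ d) \ E, (1 + 1 / ((q : ℝ) - 1)) ≤
      ∏ q ∈ prz (2 ^ d), (1 + 1 / ((q : ℝ) - 1)) := by
    rw [← Finset.prod_sdiff (Finset.sdiff_subset : prz (2 ^ d) \ E ⊆ prz (2 ^ d))]
    have hA : 1 ≤ ∏ q ∈ prz (2 ^ d) \ (prz (2 ^ d) \ E), (1 + 1 / ((q : ℝ) - 1)) := by
      have h7 : ∏ _q ∈ prz (2 ^ d) \ (prz (2 ^ d) \ E), (1 : ℝ) ≤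
            ∏ q ∈ prz (2 ^ d) \ (prz (2 ^ d) \ E), (1 + 1 / ((q : ℝ) - 1)) := by
        apply Finset.prod_le_prod
        · intro q _; norm_num
        · intro q hq
          have h2 := htwo q (Finset.mem_sdiff.1 hq).1
          have : 0 ≤ 1 / ((q : ℝ) - 1) := by
            apply div_nonneg (by norm_num); linarith
          linarith
      simpa using h7
    have hB : 0 ≤ ∏ q ∈ prz (2 ^ d) \ E, (1 + 1 / ((q : ℝ) - 1)) := by
      apply Finset.prod_nonneg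
      intro q hq
      have h2 := htwo q (Finset.mem_sdiff.1 hq).1
      have : 0 ≤ 1 / ((q : ℝ) - 1) := by
        apply div_nonneg (by norm_num); linarith
      linarith
    nlinarith
  have h2 : (∏ q ∈ prz (2 ^ d), (1 + 1 / ((q : ℝ) - 1))) * ∏ q ∈ prz (2 ^ d), (1 - 1 / (q : ℝ)) = 1 := by
    rw [← Finset.prod_mul_distrib]
    apply Finset.prod_eq_one
    intro q hq
    have h2 := htwo q hq
    have e1 : (q : ℝ) - 1 ≠ 0 := by
      have : (0 : ℝ) < q - 1 := by linarith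
      exact this.ne'
    have e2 : (q : ℝ) ≠ 0 := by
      have : (0 : ℝ) < q := by linarith
      exact this.ne'
    field_simp
    ring
  have h3 := Helper52.prod_lower hd
  rw [← hpr] at h3
  have h4 : 0 ≤ ∏ q ∈ prz (2 ^ d), (1 + 1 / ((q : ℝ) - 1)) := by
    apply Finset.prod_nonneg
    intro q hq
    have h2 := htwo q hq
    have : 0 ≤ 1 / ((q : ℝ) - 1) := by
      apply div_nonneg (by norm_num); linarith
    linarith
  have h5 : (∏ q ∈ prz (2 ^ d), (1 + 1 / ((q : ℝ) - 1))) * (Real.exp (-9) / d) ≤ 1 := by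
    calc _ ≤ (∏ q ∈ prz (2 ^ d), (1 + 1 / ((q : ℝ) - 1))) * ∏ q ∈ prz (2 ^ d), (1 - 1 / (q : ℝ)) :=
          mul_le_mul_of_nonneg_left h3 h4
      _ = 1 := h2
  have hdr : (0 : ℝ) < d := by exact_mod_cast hd
  have h6 : ∏ q ∈ prz (2 ^ d), (1 + 1 / ((q : ℝ) - 1)) ≤ Real.exp 9 * d := by
    have e1 : (∏ q ∈ prz (2 ^ d), (1 + 1 / ((q : ℝ) - 1))) =
        (∏ q ∈ prz (2 ^ d), (1 + 1 / ((q : ℝ) - 1))) * (Real.exp (-9) / d) * (Real.exp 9 * d) := by
      have e2 : Real.exp (-9) * Real.exp 9 = 1 := by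
        rw [← Real.exp_add]; norm_num
      have e3 : Real.exp (-9) / d * (Real.exp 9 * d) = 1 := by
        rw [div_mul_eq_mul_div, div_eq_one_iff_eq hdr.ne', ← mul_assoc, e2, one_mul]
      rw [mul_assoc, e3, mul_one]
    rw [e1]
    calc _ ≤ 1 * (Real.exp 9 * d) := mul_le_mul_of_nonneg_right h5 (by positivity)
      _ = _ := one_mul _
  have hdLr : (d : ℝ) ≤ L := by exact_mod_cast hdL
  rw [h0]
  calc _ ≤ _ := h1
    _ ≤ _ := h6
    _ ≤ _ := mul_le_mul_of_nonneg_left hdLr (Real.exp_pos 9).le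

private theorem two_pow_card_le {ι : Type} [Fintype ι] {p : ι → ℕ} (hp : ∀ i, 2 ≤ p i) (S : Finset ι) :
    (2 : ℝ) ^ S.card ≤ PP p S := by
  unfold PP
  rw [← Finset.prod_const]
  exact Finset.prod_le_prod (fun _ _ => by norm_num) (fun i _ => by exact_mod_cast hp i)

private theorem sum_gap {ι : Type} {p : ι → ℕ} {X L k : ℝ} (hL : 1024 ≤ L) (hLX : L ≤ X) (hk0 : 0 ≤ k)
    (hgap : ∀ i, X ^ 6 ≤ (p i : ℝ) - 1) {S : Finset ι} (hS : (S.card : ℝ) ≤ L) :
    ∑ i ∈ S, k / ((p i : ℝ) - 1) ≤ L * (k / X ^ 6) := by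
  have hX : 0 < X ^ 6 := by
    have : 0 < X := by linarith
    positivity
  have h1 : ∑ i ∈ S, k / ((p i : ℝ) - 1) ≤ ∑ i ∈ S, k / X ^ 6 :=
    Finset.sum_le_sum (fun i _ => div_le_div_of_nonneg_left hk0 hX (hgap i))
  refine h1.trans ?_
  rw [Finset.sum_const, nsmul_eq_mul]
  exact mul_le_mul_of_nonneg_right hS (by positivity)

open Classical in
theorem coreR (r : ℕ) (hr : 1 ≤ r) : ∃ c : ℝ, 0 < c ∧ ∃ L0 : ℕ, ∀ L d : ℕ, L0 ≤ L →
    L ^ 3 ≤ d ^ 4 → d ≤ L →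
    ∀ (M : ℕ) (n0 : ℤ) (B : Finset ℤ) (ρ : ℤ → ℕ) (T : ℕ),
    (∀ q : ℕ, q.Prime → (L ^ (r + 1)) ^ 6 < q → Nat.Coprime M q) → (∀ b ∈ B, |b| ≤ 2 ^ L) →
    (∀ b ∈ B, 1 ≤ ρ b ∧ ρ b ≤ r) →
    ∑ b ∈ B, (Nat.log 2 L : ℝ) ^ (1 - (1 / 2 : ℝ) ^ (ρ b - 1)) ≤ c * d → 2 ^ ((r + 6) * d) ≤ T →
    ∃ t < T, ∀ b ∈ B, ρ b ≤ ((Finset.Icc 1 (2 ^ d)).filter (fun q : ℕ => q.Prime ∧
      (L ^ (r + 1)) ^ 6 < q ∧ (q : ℤ) ∣ n0 + M * (t : ℕ) - b)).card := by
  obtain ⟨C, hC, L1, hL1⟩ := wts_r r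
  obtain ⟨L2, hL2⟩ := par_r r C hC.le
  refine ⟨min (1 / (32 * C)) 1, by positivity, max (max L1 L2) 4, ?_⟩
  intro L d hL hLd hdL M n0 B ρ T hM hB hρ hcost hT
  have hLL1 : L1 ≤ L := le_trans (le_trans (le_max_left _ _) (le_max_left _ _)) hL
  have hLL2 : L2 ≤ L := le_trans (le_trans (le_max_right _ _) (le_max_left _ _)) hL
  have hL4 : 4 ≤ L := le_trans (le_max_right _ _) hL
  have hlam1 : 1 ≤ Nat.log 2 L := Nat.le_log_of_pow_le (by norm_num) (by omega)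
  have hlam1r : (1 : ℝ) ≤ (Nat.log 2 L : ℝ) := by exact_mod_cast hlam1
  have hlamL : (Nat.log 2 L : ℝ) ≤ L := by exact_mod_cast Nat.log_le_self 2 L
  have hexp : ∀ g : ℕ, 0 ≤ 1 - (1 / 2 : ℝ) ^ g ∧ 1 - (1 / 2 : ℝ) ^ g ≤ 1 := by
    intro g
    have h1 : (1 / 2 : ℝ) ^ g ≤ 1 := pow_le_one₀ (by norm_num) (by norm_num)
    have h2 : 0 < (1 / 2 : ℝ) ^ g := by positivity
    exact ⟨by linarith, by linarith⟩
  have hterm : ∀ b ∈ B, (1 : ℝ) ≤ (Nat.log 2 L : ℝ) ^ (1 - (1 / 2 : ℝ) ^ (ρ b - 1)) := fun b _ =>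
    Real.one_le_rpow hlam1r (hexp _).1
  have hcard1 : (B.card : ℝ) ≤ ∑ b ∈ B, (Nat.log 2 L : ℝ) ^ (1 - (1 / 2 : ℝ) ^ (ρ b - 1)) := by
    have h := Finset.sum_le_sum hterm
    rw [Finset.sum_const, nsmul_eq_mul, mul_one] at h
    exact h
  have hd0 : (0 : ℝ) ≤ d := Nat.cast_nonneg _
  have hcardd : (B.card : ℝ) ≤ d := by
    refine hcard1.trans (hcost.trans ?_)
    calc min (1 / (32 * C)) 1 * (d : ℝ) ≤ 1 * d := mul_le_mul_of_nonneg_right (min_le_right _ _) hd0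
      _ = d := one_mul _
  have hdLr : (d : ℝ) ≤ L := by exact_mod_cast hdL
  have hcardL : (B.card : ℝ) ≤ L := hcardd.trans hdLr
  have hcardN : B.card ≤ L := by exact_mod_cast hcardL
  have hTpos : 0 < T := lt_of_lt_of_le (by positivity) hT
  rcases B.eq_empty_or_nonempty with hBe | hBne
  · exact ⟨0, hTpos, fun b hb => by rw [hBe] at hb; simp at hb⟩
  have hQprime : ∀ i : {q // q ∈ prz (2 ^ d) \ excl (L ^ (r + 1)) B (2 ^ d)}, (i : ℕ).Prime := by
    intro i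
    have := (Finset.mem_sdiff.1 i.2).1
    exact (Finset.mem_filter.1 this).2
  have hQle : ∀ i : {q // q ∈ prz (2 ^ d) \ excl (L ^ (r + 1)) B (2 ^ d)}, (i : ℕ) ≤ 2 ^ d := by
    intro i
    have := (Finset.mem_sdiff.1 i.2).1
    exact (Finset.mem_Icc.1 (Finset.mem_filter.1 this).1).2
  have hQnot : ∀ i : {q // q ∈ prz (2 ^ d) \ excl (L ^ (r + 1)) B (2 ^ d)},
      ¬ ((i : ℕ) ≤ (L ^ (r + 1)) ^ 6 ∨
      ∃ b ∈ B, ∃ b' ∈ B, b ≠ b' ∧ ((i : ℕ) : ℤ) ∣ b - b') := by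
    intro i h
    have h1 := (Finset.mem_sdiff.1 i.2)
    exact h1.2 (Finset.mem_filter.2 ⟨h1.1, h⟩)
  have hQgt : ∀ i : {q // q ∈ prz (2 ^ d) \ excl (L ^ (r + 1)) B (2 ^ d)},
      (L ^ (r + 1)) ^ 6 < (i : ℕ) := by
    intro i
    by_contra h
    exact hQnot i (Or.inl (not_lt.1 h))
  have hw := fun b : {b // b ∈ B} => hL1 L d hLL1 hLd hdL B hB hcardN (ρ b - 1)
    (by have := hρ b b.2; omega)
  choose y hy0 hys hym hyE using hw
  have hspos : 1 ≤ d / (4 * (r + 6) * Nat.log 2 L) := by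
    by_contra h
    have hs0 : d / (4 * (r + 6) * Nat.log 2 L) = 0 := Nat.lt_one_iff.1 (not_le.1 h)
    obtain ⟨b, hb⟩ := hBne
    have h1 := hym ⟨b, hb⟩ ∅ (by simp)
    have h2 : ∀ S : Finset {q // q ∈ prz (2 ^ d) \ excl (L ^ (r + 1)) B (2 ^ d)}, S ≠ ∅ →
        y ⟨b, hb⟩ S = 0 := by
      intro S hS
      by_contra hne
      have h3 := hys ⟨b, hb⟩ S hne
      rw [hs0, pow_zero] at h3
      have h4 := two_pow_card_le (p := fun q : {q // q ∈ prz (2 ^ d) \ excl (L ^ (r + 1)) B (2 ^ d)} =>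
        (q : ℕ)) (fun i => (hQprime i).two_le) S
      have h5 : 1 ≤ S.card := Finset.card_pos.2 (Finset.nonempty_of_ne_empty hS)
      have h6 : (2 : ℝ) ^ 1 ≤ 2 ^ S.card := pow_le_pow_right₀ (by norm_num) h5
      linarith
    rw [Finset.sum_eq_single ∅] at h1
    · rw [hy0] at h1
      simp [PH] at h1
    · intro S _ hS
      rw [h2 S hS, zero_div]
    · intro h3
      exact absurd (by simp) h3
  obtain ⟨hlam10, hL1024, hKL, hnum, hNN⟩ := hL2 L d hLL2 hLd hdL hspos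
  have hLr : (1024 : ℝ) ≤ L := by exact_mod_cast hL1024
  have hsd : 4 * (r + 6) * Nat.log 2 L * (d / (4 * (r + 6) * Nat.log 2 L)) ≤ d := Nat.mul_div_le _ _
  have hdpos : 1 ≤ d := by
    rcases Nat.eq_zero_or_pos d with h | h
    · rw [h] at hspos
      simp at hspos
    · exact h
  have hrL : r ≤ L := by
    have h1 : 4 * (r + 6) * Nat.log 2 L ≤ d := by
      calc 4 * (r + 6) * Nat.log 2 L = 4 * (r + 6) * Nat.log 2 L * 1 := (mul_one _).symm
        _ ≤ 4 * (r + 6) * Nat.log 2 L * (d / (4 * (r + 6) * Nat.log 2 L)) :=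
            Nat.mul_le_mul_left _ hspos
        _ ≤ d := hsd
    have h2 : 4 * (r + 6) ≤ 4 * (r + 6) * Nat.log 2 L := Nat.le_mul_of_pos_right _ (by omega)
    omega
  have h4s : 4 * (d / (4 * (r + 6) * Nat.log 2 L)) ≤ d := by
    refine le_trans (Nat.mul_le_mul_right _ ?_) hsd
    calc 4 = 4 * 1 * 1 := by norm_num
      _ ≤ 4 * (r + 6) * Nat.log 2 L := Nat.mul_le_mul (Nat.mul_le_mul_left _ (by omega)) (by omega)
  have hcardk : (Fintype.card {b // b ∈ B} : ℝ) = B.card := by simp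
  have hX : (((L ^ (r + 1) : ℕ)) : ℝ) = (L : ℝ) ^ (r + 1) := by push_cast; ring
  have hLX : (L : ℝ) ≤ (L : ℝ) ^ (r + 1) := by
    have : (L : ℝ) ^ 1 ≤ (L : ℝ) ^ (r + 1) := pow_le_pow_right₀ (by linarith) (by omega)
    simpa using this
  have hX4 : 4 ≤ L ^ (r + 1) := by
    have : L ^ 1 ≤ L ^ (r + 1) := Nat.pow_le_pow_right (by omega) (by omega)
    rw [pow_one] at this
    omega
  have hgap : ∀ i : {q // q ∈ prz (2 ^ d) \ excl (L ^ (r + 1)) B (2 ^ d)},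
      ((L : ℝ) ^ (r + 1)) ^ 6 ≤ ((i : ℕ) : ℝ) - 1 := by
    intro i
    have h1 : (L ^ (r + 1)) ^ 6 + 1 ≤ (i : ℕ) := hQgt i
    have h2 : (((L ^ (r + 1)) ^ 6 + 1 : ℕ) : ℝ) ≤ ((i : ℕ) : ℝ) := by exact_mod_cast h1
    push_cast at h2
    linarith
  have hXpos : (0 : ℝ) < ((L : ℝ) ^ (r + 1)) ^ 6 := by positivity
  have hX6 : (L : ℝ) ^ 6 ≤ ((L : ℝ) ^ (r + 1)) ^ 6 := pow_le_pow_left₀ (by linarith) hLX 6
  have hL26 : 1024 * (L : ℝ) ^ 2 ≤ (L : ℝ) ^ 6 := by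
    have h1 : (L : ℝ) ^ 3 ≤ (L : ℝ) ^ 6 := pow_le_pow_right₀ (by linarith) (by norm_num)
    have h2 : 1024 * (L : ℝ) ^ 2 ≤ (L : ℝ) ^ 3 := by
      have : (0 : ℝ) ≤ (L : ℝ) ^ 2 := by positivity
      nlinarith
    linarith
  have hlog2' : (0.69 : ℝ) ≤ Real.log 2 := by
    have := Real.log_two_gt_d9
    linarith
  have hB0 : (0 : ℝ) ≤ (B.card : ℝ) := Nat.cast_nonneg _
  have hPPcard : ∀ S : Finset {q // q ∈ prz (2 ^ d) \ excl (L ^ (r + 1)) B (2 ^ d)}, ∀ m : ℕ,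
      PP (fun q : {q // q ∈ prz (2 ^ d) \ excl (L ^ (r + 1)) B (2 ^ d)} => (q : ℕ)) S ≤ (2 : ℝ) ^ m →
      S.card ≤ m := by
    intro S m hS
    have h4 := two_pow_card_le (p := fun q : {q // q ∈ prz (2 ^ d) \ excl (L ^ (r + 1)) B (2 ^ d)} =>
        (q : ℕ)) (fun i => (hQprime i).two_le) S
    exact (pow_le_pow_iff_right₀ (by norm_num : (1 : ℝ) < 2)).1 (h4.trans hS)
  have hres := sieve_r (ι := {q // q ∈ prz (2 ^ d) \ excl (L ^ (r + 1)) B (2 ^ d)})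
    (κ := {b // b ∈ B}) (p := fun q => (q : ℕ)) (M := M) (fun i => (hQprime i).two_le)
    (fun i j hij => (Nat.coprime_primes (hQprime i) (hQprime j)).2 (fun h => hij (Subtype.ext h)))
    (fun i => hM i (hQprime i) (hQgt i)) n0 (fun b => (b : ℤ))
    (fun i j j' hjj h => hQnot i (Or.inr ⟨j, j.2, j', j'.2, fun h' => hjj (Subtype.ext h'), h⟩))
    (by
      rw [hcardk]
      have h1 := sum_inv_sq (L := L ^ (r + 1)) hX4 B (2 ^ d)
      rw [hX] at h1
      have h2 : ∑ i : {q // q ∈ prz (2 ^ d) \ excl (L ^ (r + 1)) B (2 ^ d)},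
          (B.card : ℝ) / ((i : ℕ) : ℝ) ^ 2 =
          (B.card : ℝ) * ∑ q ∈ prz (2 ^ d) \ excl (L ^ (r + 1)) B (2 ^ d), 1 / (q : ℝ) ^ 2 := by
        rw [Finset.mul_sum, ← Finset.sum_coe_sort (prz (2 ^ d) \ excl (L ^ (r + 1)) B (2 ^ d))
          (fun q => (B.card : ℝ) * (1 / (q : ℝ) ^ 2))]
        exact Finset.sum_congr rfl (fun i _ => by ring)
      rw [h2]
      have h3 : (B.card : ℝ) * ∑ q ∈ prz (2 ^ d) \ excl (L ^ (r + 1)) B (2 ^ d), 1 / (q : ℝ) ^ 2 ≤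
          L * (1 / ((L : ℝ) ^ (r + 1)) ^ 6) :=
        mul_le_mul hcardL h1 (Finset.sum_nonneg (fun q _ => by positivity)) (by positivity)
      refine h3.trans ?_
      rw [mul_one_div, div_le_div_iff₀ hXpos (by norm_num)]
      nlinarith)
    (D := (2 : ℝ) ^ d) (S1 := (2 : ℝ) ^ (d / (4 * (r + 6) * Nat.log 2 L)))
    (one_lt_pow₀ (by norm_num) (by omega)) (one_le_pow₀ (by norm_num))
    (fun i => by exact_mod_cast hQle i)
    (fun j => ρ j) r (fun j => (hρ j j.2).2)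
    (by
      intro S hS
      rw [hcardk]
      have hScard : (S.card : ℝ) ≤ L := by
        have : S.card ≤ L := by
          rcases hS with h | h
          · exact (hPPcard S d h).trans hdL
          · exact h.trans hrL
        exact_mod_cast this
      refine (sum_gap hLr hLX hB0 hgap hScard).trans ?_
      rw [mul_div_assoc', div_le_div_iff₀ hXpos (by norm_num)]
      nlinarith)
    (δ := (L : ℝ) / ((L : ℝ) ^ (r + 1)) ^ 6)
    (by
      intro S hS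
      have hScard : (S.card : ℝ) ≤ L := by
        have : S.card ≤ L := (hPPcard S d hS).trans hdL
        exact_mod_cast this
      refine (sum_gap hLr hLX (by norm_num) hgap hScard).trans (le_of_eq ?_)
      rw [mul_one_div])
    y hy0 hys
    (by
      intro j S hS
      exact hym j S (by omega))
    (fun j => C * (Nat.log 2 L : ℝ) ^ (1 - (1 / 2 : ℝ) ^ (ρ j - 1)))
    hyE
    (by
      rw [Real.log_pow, ← Finset.mul_sum, Finset.sum_coe_sort B
        (fun b => (Nat.log 2 L : ℝ) ^ (1 - (1 / 2 : ℝ) ^ (ρ b - 1)))]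
      have h1 : C * ∑ b ∈ B, (Nat.log 2 L : ℝ) ^ (1 - (1 / 2 : ℝ) ^ (ρ b - 1)) ≤
          C * (1 / (32 * C) * d) := by
        apply mul_le_mul_of_nonneg_left _ hC.le
        exact hcost.trans (mul_le_mul_of_nonneg_right (min_le_left _ _) hd0)
      have h2 : C * (1 / (32 * C) * d) = (d : ℝ) / 32 := by
        have := hC.ne'
        field_simp
      rw [h2] at h1
      nlinarith)
    (by
      rw [Real.log_pow, Real.log_pow]
      have h2 : 4 * ((d / (4 * (r + 6) * Nat.log 2 L) : ℕ) : ℝ) ≤ d := by exact_mod_cast h4s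
      nlinarith)
    (s := L)
    (by
      intro S hS
      refine (hPPcard S _ hS).trans ?_
      omega)
    (Φ := Real.exp 9 * L) (E0 := 1 + C * L)
    (prod_phi hdpos hdL _)
    (by
      intro j
      rw [← Finset.sum_filter_add_sum_filter_not (univ : Finset (Finset _)) (fun S => S = ∅)]
      have h1 : ∑ S ∈ (univ : Finset (Finset {q // q ∈ prz (2 ^ d) \
          excl (L ^ (r + 1)) B (2 ^ d)})).filter (fun S => S = ∅), y j S ^ 2 /
          PH (fun q : {q // q ∈ prz (2 ^ d) \ excl (L ^ (r + 1)) B (2 ^ d)} => (q : ℕ)) S = 1 := by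
        rw [Finset.filter_eq', if_pos (Finset.mem_univ _), Finset.sum_singleton, hy0]
        simp [PH]
      rw [h1]
      have h2 : ∑ S ∈ (univ : Finset (Finset {q // q ∈ prz (2 ^ d) \
          excl (L ^ (r + 1)) B (2 ^ d)})).filter (fun S => ¬ S = ∅), y j S ^ 2 /
          PH (fun q : {q // q ∈ prz (2 ^ d) \ excl (L ^ (r + 1)) B (2 ^ d)} => (q : ℕ)) S ≤
          C * (Nat.log 2 L : ℝ) ^ (1 - (1 / 2 : ℝ) ^ (ρ j - 1)) := by
        refine le_trans (Finset.sum_le_sum ?_) (hyE j)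
        intro S hS
        have hSne : S ≠ ∅ := (Finset.mem_filter.1 hS).2
        have hPH : 0 ≤ PH (fun q : {q // q ∈ prz (2 ^ d) \ excl (L ^ (r + 1)) B (2 ^ d)} =>
            (q : ℕ)) S := by
          unfold PH
          apply Finset.prod_nonneg
          intro i _
          have := hgap i
          linarith
        have hlog : 1 ≤ Real.log (PP (fun q : {q // q ∈ prz (2 ^ d) \
            excl (L ^ (r + 1)) B (2 ^ d)} => (q : ℕ)) S) := by
          obtain ⟨i, hi⟩ := Finset.nonempty_of_ne_empty hSne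
          have h3 : (3 : ℝ) ≤ ((i : ℕ) : ℝ) := by
            have h4 := hgap i
            have h5 : (1024 : ℝ) ≤ (L : ℝ) ^ 6 := by nlinarith
            linarith
          have h6 : ((i : ℕ) : ℝ) ≤ PP (fun q : {q // q ∈ prz (2 ^ d) \
              excl (L ^ (r + 1)) B (2 ^ d)} => (q : ℕ)) S := by
            unfold PP
            rw [← Finset.mul_prod_erase S _ hi]
            have h7 : (1 : ℝ) ≤ ∏ x ∈ S.erase i, (((x : ℕ)) : ℝ) := by
              have h8 := two_pow_card_le (p := fun q : {q // q ∈ prz (2 ^ d) \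
                excl (L ^ (r + 1)) B (2 ^ d)} => (q : ℕ)) (fun i => (hQprime i).two_le) (S.erase i)
              have h9 : (1 : ℝ) ≤ 2 ^ (S.erase i).card := one_le_pow₀ (by norm_num)
              exact h9.trans h8
            nlinarith
          rw [Real.le_log_iff_exp_le (by linarith)]
          have := Real.exp_one_lt_d9
          linarith
        have h10 : 0 ≤ y j S ^ 2 / PH (fun q : {q // q ∈ prz (2 ^ d) \
            excl (L ^ (r + 1)) B (2 ^ d)} => (q : ℕ)) S := div_nonneg (sq_nonneg _) hPH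
        nlinarith
      have h3 : (Nat.log 2 L : ℝ) ^ (1 - (1 / 2 : ℝ) ^ (ρ j - 1)) ≤ L := by
        calc (Nat.log 2 L : ℝ) ^ (1 - (1 / 2 : ℝ) ^ (ρ j - 1)) ≤ (Nat.log 2 L : ℝ) ^ (1 : ℝ) :=
              Real.rpow_le_rpow_of_exponent_le hlam1r (hexp _).2
          _ = (Nat.log 2 L : ℝ) := Real.rpow_one _
          _ ≤ L := hlamL
      have h4 := mul_le_mul_of_nonneg_left h3 hC.le
      linarith)
    (by
      rw [hcardk, Real.log_pow, Real.log_pow]
      refine le_trans ?_ hnum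
      apply mul_le_mul_of_nonneg_right
      · apply mul_le_mul_of_nonneg_right hcardL
        positivity
      · positivity)
    (N := T)
    (by
      have hTr : (2 : ℝ) ^ ((r + 6) * d) ≤ T := by exact_mod_cast hT
      exact hNN.trans hTr)
  obtain ⟨t, htT, ht⟩ := hres
  refine ⟨t, htT, fun b hb => ?_⟩
  refine (ht ⟨b, hb⟩).trans ?_
  rw [← Finset.card_map (Function.Embedding.subtype _)]
  apply Finset.card_le_card
  intro q hq
  rw [Finset.mem_map] at hq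
  obtain ⟨i, hi, rfl⟩ := hq
  rw [Finset.mem_filter] at hi
  rw [Finset.mem_filter, Finset.mem_Icc]
  exact ⟨⟨(hQprime i).pos, hQle i⟩, hQprime i, hQgt i, hi.2⟩

end Pool.Agent.RT
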