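import Mathlib

/-! RT/Cube.  Functions on finite sets, product measures, degree.

`mu q P S` = probability of `S ⊆ P` when each `i ∈ P` is chosen independently with probability `q i`;
`Ex q P f` = expectation of `f`; `Dd i f S = f (S ∪ {i}) - f (S \ {i})`; `DegLe d f`: `f` has degree `≤ d`
(every `d + 1`-fold difference vanishes). -/

namespace Pool.Agent.RT

open Finset

variable {ι : Type} [DecidableEq ι]

/-- probability of `S` under the product measure on subsets of `P` -/
noncomputable def mu (q : ι → ℝ) (P S : Finset ι) : ℝ := (∏ i ∈ S, q i) * ∏ i ∈ P \ S, (1 - q i)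

/-- expectation over subsets of `P` -/
noncomputable def Ex (q : ι → ℝ) (P : Finset ι) (f : Finset ι → ℝ) : ℝ :=
  ∑ S ∈ P.powerset, mu q P S * f S

/-- difference operator -/
def Dd (i : ι) (f : Finset ι → ℝ) : Finset ι → ℝ := fun S => f (insert i S) - f (S.erase i)

/-- degree at most `d` -/
def DegLe : ℕ → (Finset ι → ℝ) → Prop
  | 0, f => ∀ S, f S = f ∅
  | d + 1, f => ∀ i, DegLe d (Dd i f)

/-! ### expectation -/

theorem Ex_empty (q : ι → ℝ) (f : Finset ι → ℝ) : Ex q ∅ f = f ∅ := by
  simp [Ex, mu]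

theorem Ex_congr {q : ι → ℝ} {P : Finset ι} {f g : Finset ι → ℝ} (h : ∀ S, S ⊆ P → f S = g S) :
    Ex q P f = Ex q P g := by
  unfold Ex
  exact sum_congr rfl fun S hS => by rw [h S (mem_powerset.1 hS)]

theorem Ex_insert {q : ι → ℝ} {P : Finset ι} {i : ι} (hi : i ∉ P) (f : Finset ι → ℝ) :
    Ex q (insert i P) f = Ex q P (fun S => f S + q i * Dd i f S) := by
  unfold Ex
  rw [Finset.sum_powerset_insert hi, ← Finset.sum_add_distrib]
  refine sum_congr rfl fun S hS => ?_
  have hSP : S ⊆ P := mem_powerset.1 hS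
  have hiS : i ∉ S := fun h => hi (hSP h)
  have h1 : mu q (insert i P) S = (1 - q i) * mu q P S := by
    unfold mu
    rw [Finset.insert_sdiff_of_notMem _ hiS, Finset.prod_insert (by
      intro h
      exact hi (mem_sdiff.1 h).1)]
    ring
  have h2 : mu q (insert i P) (insert i S) = q i * mu q P S := by
    unfold mu
    rw [Finset.insert_sdiff_insert, Finset.sdiff_insert_of_notMem hi, Finset.prod_insert hiS]
    ring
  simp only [Dd]
  rw [h1, h2, Finset.erase_eq_of_notMem hiS]
  ring

theorem Ex_add (q : ι → ℝ) (P : Finset ι) (f g : Finset ι → ℝ) :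
    Ex q P (fun S => f S + g S) = Ex q P f + Ex q P g := by
  unfold Ex
  rw [← Finset.sum_add_distrib]
  exact sum_congr rfl fun S _ => by ring

theorem Ex_smul (q : ι → ℝ) (P : Finset ι) (c : ℝ) (f : Finset ι → ℝ) :
    Ex q P (fun S => c * f S) = c * Ex q P f := by
  unfold Ex
  rw [Finset.mul_sum]
  exact sum_congr rfl fun S _ => by ring

theorem Ex_sum {α : Type} (q : ι → ℝ) (P : Finset ι) (s : Finset α) (f : α → Finset ι → ℝ) :
    Ex q P (fun S => ∑ k ∈ s, f k S) = ∑ k ∈ s, Ex q P (f k) := by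
  unfold Ex
  rw [Finset.sum_comm]
  exact sum_congr rfl fun S _ => by rw [Finset.mul_sum]

theorem Ex_const (q : ι → ℝ) (P : Finset ι) (c : ℝ) : Ex q P (fun _ => c) = c := by
  induction P using Finset.induction_on with
  | empty => rw [Ex_empty]
  | insert i P hi ih =>
    rw [Ex_insert hi]
    have h : (fun S : Finset ι => (fun _ : Finset ι => c) S + q i * Dd i (fun _ => c) S)
        = fun _ => c := by
      funext S
      simp [Dd]
    rw [h, ih]

theorem mu_nonneg {q : ι → ℝ} (h0 : ∀ i, 0 ≤ q i) (h1 : ∀ i, q i ≤ 1) (P S : Finset ι) :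
    0 ≤ mu q P S := by
  unfold mu
  exact mul_nonneg (Finset.prod_nonneg fun i _ => h0 i)
    (Finset.prod_nonneg fun i _ => sub_nonneg.2 (h1 i))

theorem Ex_mono {q : ι → ℝ} (h0 : ∀ i, 0 ≤ q i) (h1 : ∀ i, q i ≤ 1) {P : Finset ι}
    {f g : Finset ι → ℝ} (h : ∀ S, S ⊆ P → f S ≤ g S) : Ex q P f ≤ Ex q P g := by
  unfold Ex
  exact Finset.sum_le_sum fun S hS =>
    mul_le_mul_of_nonneg_left (h S (mem_powerset.1 hS)) (mu_nonneg h0 h1 P S)

theorem Ex_nonneg {q : ι → ℝ} (h0 : ∀ i, 0 ≤ q i) (h1 : ∀ i, q i ≤ 1) {P : Finset ι}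
    {f : Finset ι → ℝ} (h : ∀ S, S ⊆ P → 0 ≤ f S) : 0 ≤ Ex q P f := by
  unfold Ex
  exact Finset.sum_nonneg fun S hS =>
    mul_nonneg (mu_nonneg h0 h1 P S) (h S (mem_powerset.1 hS))

theorem abs_Ex_le {q : ι → ℝ} (h0 : ∀ i, 0 ≤ q i) (h1 : ∀ i, q i ≤ 1) (P : Finset ι)
    (f : Finset ι → ℝ) : |Ex q P f| ≤ Ex q P (fun S => |f S|) := by
  unfold Ex
  refine (Finset.abs_sum_le_sum_abs _ _).trans (Finset.sum_le_sum fun S _ => ?_)
  rw [abs_mul, abs_of_nonneg (mu_nonneg h0 h1 P S)]

/-- Cauchy-Schwarz -/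
theorem Ex_sq_le {q : ι → ℝ} (h0 : ∀ i, 0 ≤ q i) (h1 : ∀ i, q i ≤ 1) (P : Finset ι)
    (f : Finset ι → ℝ) : Ex q P f ^ 2 ≤ Ex q P (fun S => f S ^ 2) := by
  have h := Ex_nonneg h0 h1 (P := P) (f := fun S => (f S - Ex q P f) ^ 2)
    (fun S _ => sq_nonneg _)
  have h2 : Ex q P (fun S => (f S - Ex q P f) ^ 2) =
      Ex q P (fun S => f S ^ 2) - Ex q P f ^ 2 := by
    have h3 : Ex q P (fun S => (f S - Ex q P f) ^ 2) =
        Ex q P (fun S => f S ^ 2 + ((-2 * Ex q P f) * f S + Ex q P f ^ 2)) :=
      Ex_congr fun S _ => by ring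
    rw [h3, Ex_add q P (fun S => f S ^ 2) (fun S => (-2 * Ex q P f) * f S + Ex q P f ^ 2),
      Ex_add q P (fun S => (-2 * Ex q P f) * f S) (fun _ => Ex q P f ^ 2), Ex_smul, Ex_const]
    ring
  rw [h2] at h
  linarith

theorem Ex_union (q : ι → ℝ) {P Q : Finset ι} (h : Disjoint P Q) (f : Finset ι → ℝ) :
    Ex q (P ∪ Q) f = Ex q P (fun S => Ex q Q (fun S' => f (S ∪ S'))) := by
  induction P using Finset.induction_on generalizing f with
  | empty =>
    rw [Finset.empty_union, Ex_empty]
    exact Ex_congr fun S _ => by rw [Finset.empty_union]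
  | insert i P hi ih =>
    have hd : Disjoint P Q := Finset.disjoint_of_subset_left (Finset.subset_insert i P) h
    have hiQ : i ∉ Q := Finset.disjoint_left.1 h (Finset.mem_insert_self i P)
    have hiPQ : i ∉ P ∪ Q := by
      rw [Finset.mem_union]
      exact fun h => h.elim hi hiQ
    rw [Finset.insert_union, Ex_insert hiPQ, ih hd, Ex_insert hi]
    refine Ex_congr fun S hS => ?_
    have hiS : i ∉ S := fun h => hi (hS h)
    rw [Ex_add q Q (fun S' => f (S ∪ S')) (fun S' => q i * Dd i f (S ∪ S')), Ex_smul]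
    have h4 : Ex q Q (fun S' => Dd i f (S ∪ S')) = Dd i (fun S => Ex q Q fun S' => f (S ∪ S')) S := by
      have h5 : Ex q Q (fun S' => Dd i f (S ∪ S')) =
          Ex q Q (fun S' => f (insert i S ∪ S') + (-1) * f (S.erase i ∪ S')) := by
        refine Ex_congr fun S' hS' => ?_
        have hiS' : i ∉ S' := fun h => hiQ (hS' h)
        have hu : i ∉ S ∪ S' := by
          rw [Finset.mem_union]
          exact fun h => h.elim hiS hiS'
        rw [Dd, Finset.erase_eq_of_notMem hu, Finset.erase_eq_of_notMem hiS,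
          Finset.insert_union]
        ring
      rw [h5, Ex_add q Q (fun S' => f (insert i S ∪ S')) (fun S' => (-1) * f (S.erase i ∪ S')),
        Ex_smul, Dd]
      ring
    rw [h4]

theorem Ex_subset {q : ι → ℝ} (h0 : ∀ i, 0 ≤ q i) (h1 : ∀ i, q i ≤ 1) {P Q : Finset ι}
    (hQ : Q ⊆ P) {g : Finset ι → ℝ} (hg : ∀ S, 0 ≤ g S) :
    (∏ i ∈ P \ Q, (1 - q i)) * Ex q Q g ≤ Ex q P g := by
  have hdis : Disjoint (P \ Q) Q := Finset.sdiff_disjoint
  have hPQ : (P \ Q) ∪ Q = P := Finset.sdiff_union_of_subset hQ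
  have h2 : Ex q P g = Ex q (P \ Q) (fun S => Ex q Q (fun S' => g (S ∪ S'))) := by
    rw [← Ex_union q hdis g, hPQ]
  rw [h2]
  have h3 : mu q (P \ Q) ∅ * Ex q Q (fun S' => g (∅ ∪ S')) ≤
      Ex q (P \ Q) (fun S => Ex q Q (fun S' => g (S ∪ S'))) := by
    unfold Ex
    exact Finset.single_le_sum
      (f := fun S => mu q (P \ Q) S * ∑ S' ∈ Q.powerset, mu q Q S' * g (S ∪ S'))
      (fun S _ => mul_nonneg (mu_nonneg h0 h1 _ _)
        (Finset.sum_nonneg fun S' _ => mul_nonneg (mu_nonneg h0 h1 _ _) (hg _)))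
      (Finset.empty_mem_powerset _)
  have h4 : mu q (P \ Q) ∅ = ∏ i ∈ P \ Q, (1 - q i) := by
    simp [mu]
  have h5 : Ex q Q (fun S' => g (∅ ∪ S')) = Ex q Q g :=
    Ex_congr fun S _ => by rw [Finset.empty_union]
  rw [h4, h5] at h3
  exact h3

/-! ### the difference operator -/

theorem Dd_comm (i j : ι) (f : Finset ι → ℝ) : Dd i (Dd j f) = Dd j (Dd i f) := by
  rcases eq_or_ne i j with rfl | hij
  · rfl
  · funext S
    simp only [Dd]
    rw [Finset.insert_comm, Finset.erase_right_comm,
      Finset.erase_insert_of_ne hij, Finset.erase_insert_of_ne hij.symm]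
    ring

theorem Dd_insert (i : ι) (f : Finset ι → ℝ) (S : Finset ι) : Dd i f (insert i S) = Dd i f S := by
  simp only [Dd]
  rw [Finset.insert_idem, Finset.erase_insert_eq_erase]

theorem Dd_add (i : ι) (f g : Finset ι → ℝ) :
    Dd i (fun S => f S + g S) = fun S => Dd i f S + Dd i g S := by
  funext S
  simp only [Dd]
  ring

theorem Dd_smul (i : ι) (c : ℝ) (f : Finset ι → ℝ) :
    Dd i (fun S => c * f S) = fun S => c * Dd i f S := by
  funext S
  simp only [Dd]
  ring

/-! ### degree -/

theorem DegLe_const (d : ℕ) (c : ℝ) : DegLe d (fun _ : Finset ι => c) := by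
  induction d generalizing c with
  | zero => exact fun _ => rfl
  | succ d ih =>
    intro i
    have h : Dd i (fun _ : Finset ι => c) = fun _ => 0 := by
      funext S
      simp [Dd]
    rw [h]
    exact ih 0

theorem DegLe.succ {d : ℕ} {f : Finset ι → ℝ} (h : DegLe d f) : DegLe (d + 1) f := by
  induction d generalizing f with
  | zero =>
    intro i S
    have h' : ∀ S, f S = f ∅ := h
    simp only [Dd]
    rw [h' (insert i S), h' (S.erase i), h' (insert i ∅), h' ((∅ : Finset ι).erase i)]
  | succ d ih =>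
    intro i
    exact ih (h i)

theorem DegLe.mono {d e : ℕ} (hde : d ≤ e) {f : Finset ι → ℝ} (h : DegLe d f) : DegLe e f := by
  induction e, hde using Nat.le_induction with
  | base => exact h
  | succ e _ ih => exact ih.succ

theorem DegLe.add {d : ℕ} {f g : Finset ι → ℝ} (hf : DegLe d f) (hg : DegLe d g) :
    DegLe d (fun S => f S + g S) := by
  induction d generalizing f g with
  | zero =>
    intro S
    have h1 : ∀ S, f S = f ∅ := hf
    have h2 : ∀ S, g S = g ∅ := hg
    show f S + g S = f ∅ + g ∅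
    rw [h1 S, h2 S]
  | succ d ih =>
    intro i
    rw [Dd_add]
    exact ih (hf i) (hg i)

theorem DegLe.smul {d : ℕ} (c : ℝ) {f : Finset ι → ℝ} (hf : DegLe d f) :
    DegLe d (fun S => c * f S) := by
  induction d generalizing f with
  | zero =>
    intro S
    have h1 : ∀ S, f S = f ∅ := hf
    show c * f S = c * f ∅
    rw [h1 S]
  | succ d ih =>
    intro i
    rw [Dd_smul]
    exact ih (hf i)

theorem DegLe.sum {α : Type} {d : ℕ} (s : Finset α) {f : α → Finset ι → ℝ}
    (hf : ∀ k ∈ s, DegLe d (f k)) : DegLe d (fun S => ∑ k ∈ s, f k S) := by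
  classical
  induction s using Finset.induction_on with
  | empty =>
    have h : (fun S : Finset ι => ∑ k ∈ (∅ : Finset α), f k S) = fun _ => 0 := by
      funext S
      simp
    rw [h]
    exact DegLe_const d 0
  | insert k s hk ih =>
    have h : (fun S : Finset ι => ∑ k ∈ insert k s, f k S) =
        fun S => f k S + ∑ k ∈ s, f k S := by
      funext S
      rw [Finset.sum_insert hk]
    rw [h]
    exact DegLe.add (hf k (Finset.mem_insert_self k s))
      (ih fun k' hk' => hf k' (Finset.mem_insert_of_mem hk'))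

theorem DegLe.union {d : ℕ} {g : Finset ι → ℝ} (hg : DegLe d g) (ω : Finset ι) :
    DegLe d (fun S => g (ω ∪ S)) := by
  induction d generalizing g with
  | zero =>
    intro S
    have h1 : ∀ S, g S = g ∅ := hg
    show g (ω ∪ S) = g (ω ∪ ∅)
    rw [h1 (ω ∪ S), h1 (ω ∪ ∅)]
  | succ d ih =>
    intro j
    by_cases hj : j ∈ ω
    · have h : Dd j (fun S => g (ω ∪ S)) = fun _ => 0 := by
        funext S
        have e1 : ω ∪ insert j S = ω ∪ S.erase j := by
          ext a
          simp only [Finset.mem_union, Finset.mem_insert, Finset.mem_erase]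
          constructor
          · rintro (h | h | h)
            · exact Or.inl h
            · exact Or.inl (h ▸ hj)
            · by_cases ha : a = j
              · exact Or.inl (ha ▸ hj)
              · exact Or.inr ⟨ha, h⟩
          · rintro (h | h)
            · exact Or.inl h
            · exact Or.inr (Or.inr h.2)
        simp only [Dd]
        rw [e1, sub_self]
      rw [h]
      exact DegLe_const d 0
    · have h : Dd j (fun S => g (ω ∪ S)) = fun S => Dd j g (ω ∪ S) := by
        funext S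
        have e1 : ω ∪ insert j S = insert j (ω ∪ S) := by
          rw [Finset.union_insert]
        have e2 : ω ∪ S.erase j = (ω ∪ S).erase j := by
          ext a
          simp only [Finset.mem_union, Finset.mem_erase]
          constructor
          · rintro (h | h)
            · exact ⟨fun ha => hj (ha ▸ h), Or.inl h⟩
            · exact ⟨h.1, Or.inr h.2⟩
          · rintro ⟨h1, h | h⟩
            · exact Or.inl h
            · exact Or.inr ⟨h1, h⟩
        simp only [Dd]
        rw [e1, e2]
      rw [h]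
      exact ih (hg j)

theorem DegLe_ind (T : Finset ι) {d : ℕ} (hT : T.card ≤ d) :
    DegLe d (fun S => if T ⊆ S then (1 : ℝ) else 0) := by
  induction d generalizing T with
  | zero =>
    have hT0 : T = ∅ := Finset.card_eq_zero.1 (Nat.le_zero.1 hT)
    subst hT0
    intro S
    simp
  | succ d ih =>
    intro i
    by_cases hi : i ∈ T
    · have h : Dd i (fun S => if T ⊆ S then (1 : ℝ) else 0) =
          fun S => if T.erase i ⊆ S then (1 : ℝ) else 0 := by
        funext S
        simp only [Dd]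
        rw [if_neg (show ¬ T ⊆ S.erase i from fun h => Finset.notMem_erase i S (h hi)), sub_zero]
        simp only [Finset.subset_insert_iff]
      rw [h]
      apply ih
      rw [Finset.card_erase_of_mem hi]
      omega
    · have h : Dd i (fun S => if T ⊆ S then (1 : ℝ) else 0) = fun _ => 0 := by
        funext S
        simp only [Dd]
        have e1 : T ⊆ insert i S ↔ T ⊆ S := by
          rw [Finset.subset_insert_iff, Finset.erase_eq_of_notMem hi]
        have e2 : T ⊆ S.erase i ↔ T ⊆ S := by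
          rw [Finset.subset_erase]
          exact ⟨fun h => h.1, fun h => ⟨h, hi⟩⟩
        simp only [e1, e2, sub_self]
      rw [h]
      exact DegLe_const d 0

end Pool.Agent.RT
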