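import Mathlib

/-! RT/Dual.  Duality (orthogonal projection in a finite dimensional space).

In `EuclideanSpace ℝ Ω` put `x ω = √(w ω) e ω`, `x_k ω = √(w ω) v k ω`, `K = span {x_k}`,
`z = x - proj_K x ∈ Kᗮ`.  `proj_K x = -∑ c_k x_k` for some `c` (`Submodule.mem_span_range_iff_exists_fun`),
so `‖z‖^2 = ∑ w (e + ∑ c_k v_k)^2 ≥ Q`.  `g ω = z ω / (√(w ω) ‖z‖^2)`.  Then
`∑ w g v_k = ⟨z, x_k⟩/‖z‖^2 = 0`, `∑ w g e = ⟨z, x⟩/‖z‖^2 = ⟨z, z⟩/‖z‖^2 = 1`,
`∑ w g^2 = ‖z‖^2/‖z‖^4 ≤ 1/Q`. -/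

namespace Pool.Agent.RT

open Finset

private theorem rtd_exists {Ω K : Type} [Fintype Ω] [Fintype K] (x : Ω → ℝ) (y : K → Ω → ℝ) :
    ∃ c : K → ℝ, ∀ k, ∑ ω, (x ω + ∑ j, c j * y j ω) * y k ω = 0 := by
  classical
  let X : EuclideanSpace ℝ Ω := WithLp.toLp 2 x
  let Y : K → EuclideanSpace ℝ Ω := fun k => WithLp.toLp 2 (y k)
  let S : Submodule ℝ (EuclideanSpace ℝ Ω) := Submodule.span ℝ (Set.range Y)
  have hmem : (S.starProjection X) ∈ S := Submodule.starProjection_apply_mem S X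
  obtain ⟨c, hc⟩ := (Submodule.mem_span_range_iff_exists_fun ℝ).1 hmem
  refine ⟨fun k => - c k, fun k => ?_⟩
  have hYk : Y k ∈ S := Submodule.subset_span ⟨k, rfl⟩
  have horth : inner ℝ (X - S.starProjection X) (Y k) = 0 :=
    Submodule.starProjection_inner_eq_zero X (Y k) hYk
  rw [← hc] at horth
  have h2 : inner ℝ (X - ∑ i, c i • Y i) (Y k) = ∑ ω, (x ω + ∑ j, - c j * y j ω) * y k ω := by
    rw [PiLp.inner_apply]
    apply Finset.sum_congr rfl
    intro ω _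
    have h3 : (X - ∑ i, c i • Y i).ofLp ω = x ω + ∑ j, - c j * y j ω := by
      simp [X, Y, sub_eq_add_neg]
    rw [h3]
    simp [Y, mul_comm]
  rw [← h2]
  exact horth

theorem dual {Ω K : Type} [Fintype Ω] [Fintype K] (w e : Ω → ℝ) (hw : ∀ ω, 0 < w ω)
    (v : K → Ω → ℝ) {Q : ℝ} (hQ : 0 < Q)
    (h : ∀ c : K → ℝ, Q ≤ ∑ ω, w ω * (e ω + ∑ k, c k * v k ω) ^ 2) :
    ∃ g : Ω → ℝ, (∀ k, ∑ ω, w ω * g ω * v k ω = 0) ∧ ∑ ω, w ω * g ω * e ω = 1 ∧
      ∑ ω, w ω * g ω ^ 2 ≤ 1 / Q := by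
  obtain ⟨c, hc⟩ := rtd_exists (fun ω => √(w ω) * e ω) (fun k ω => √(w ω) * v k ω)
  have hsq : ∀ ω, √(w ω) * √(w ω) = w ω := fun ω => Real.mul_self_sqrt (hw ω).le
  -- residual
  have hres : ∀ k, ∑ ω, w ω * (e ω + ∑ j, c j * v j ω) * v k ω = 0 := by
    intro k
    rw [← hc k]
    apply Finset.sum_congr rfl
    intro ω _
    have : ∑ j, c j * (√(w ω) * v j ω) = √(w ω) * ∑ j, c j * v j ω := by
      rw [Finset.mul_sum]
      apply Finset.sum_congr rfl
      intro j _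
      ring
    rw [this]
    calc w ω * (e ω + ∑ j, c j * v j ω) * v k ω
        = (√(w ω) * √(w ω)) * (e ω + ∑ j, c j * v j ω) * v k ω := by rw [hsq]
      _ = _ := by ring
  set N : ℝ := ∑ ω, w ω * (e ω + ∑ k, c k * v k ω) ^ 2 with hN
  have hNQ : Q ≤ N := h c
  have hNpos : 0 < N := lt_of_lt_of_le hQ hNQ
  refine ⟨fun ω => (e ω + ∑ k, c k * v k ω) / N, ?_, ?_, ?_⟩
  · intro k
    have h1 : ∑ ω, w ω * ((e ω + ∑ k, c k * v k ω) / N) * v k ω
        = (∑ ω, w ω * (e ω + ∑ j, c j * v j ω) * v k ω) / N := by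
      rw [Finset.sum_div]
      apply Finset.sum_congr rfl
      intro ω _
      ring
    rw [h1, hres k, zero_div]
  · have h1 : N = ∑ ω, w ω * (e ω + ∑ k, c k * v k ω) * e ω := by
      have h2 : N = ∑ ω, w ω * (e ω + ∑ k, c k * v k ω) * e ω
          + ∑ j, c j * ∑ ω, w ω * (e ω + ∑ k, c k * v k ω) * v j ω := by
        rw [hN]
        simp_rw [Finset.mul_sum]
        rw [Finset.sum_comm (s := (Finset.univ : Finset K)), ← Finset.sum_add_distrib]
        apply Finset.sum_congr rfl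
        intro ω _
        have h3 : ∑ j, c j * (w ω * (e ω + ∑ k, c k * v k ω) * v j ω)
            = w ω * (e ω + ∑ k, c k * v k ω) * ∑ j, c j * v j ω := by
          rw [Finset.mul_sum]
          apply Finset.sum_congr rfl
          intro j _
          ring
        rw [h3]
        ring
      rw [h2]
      simp [hres]
    have h4 : ∑ ω, w ω * ((e ω + ∑ k, c k * v k ω) / N) * e ω
        = (∑ ω, w ω * (e ω + ∑ k, c k * v k ω) * e ω) / N := by
      rw [Finset.sum_div]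
      apply Finset.sum_congr rfl
      intro ω _
      ring
    rw [h4, ← h1, div_self hNpos.ne']
  · have h5 : ∑ ω, w ω * ((e ω + ∑ k, c k * v k ω) / N) ^ 2 = N / N ^ 2 := by
      conv_rhs => rw [hN]
      rw [Finset.sum_div]
      apply Finset.sum_congr rfl
      intro ω _
      rw [div_pow, mul_div_assoc]
    rw [h5]
    have h6 : N / N ^ 2 = 1 / N := by
      field_simp
    rw [h6]
    exact one_div_le_one_div_of_le hQ hNQ

end Pool.Agent.RT
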