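import Pool.Agent.RT.CoreR
import Pool.Agent.RT.AvgC

/-! RT/KillR.  From the core theorem to blocks; model `RS/Kill.lean`.

`omega_gt`: an integer larger than the product of `r` distinct prime divisors has more than `r` prime
factors.  `killR`: elements `a` with at least `r` prime factors in `P` are killed by these, the others by
these together with the primes given by `coreR`. -/

namespace Pool.Agent.RT

open Finset Pool.Agent.RS

theorem omega_gt {F : Finset ℕ} {N r : ℕ} (hF : ∀ q ∈ F, q.Prime ∧ q ∣ N) (hr : r ≤ F.card)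
    (hN : ∏ q ∈ F, q < N) : r < N.primeFactorsList.length := by
  have hdvd : ∏ q ∈ F, q ∣ N :=
    Finset.prod_primes_dvd N (fun q hq => (hF q hq).1.prime) (fun q hq => (hF q hq).2)
  obtain ⟨K, rfl⟩ := hdvd
  have hpos : 0 < ∏ q ∈ F, q := Finset.prod_pos fun q hq => (hF q hq).1.pos
  have hK : 1 < K := by
    by_contra hcon
    have h1 : K ≤ 1 := by omega
    have h2 : (∏ q ∈ F, q) * K ≤ (∏ q ∈ F, q) * 1 := Nat.mul_le_mul_left _ h1
    omega
  have h3 := (Nat.perm_primeFactorsList_mul hpos.ne' (by omega : K ≠ 0)).length_eq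
  rw [List.length_append] at h3
  have h4 : F.toList.Perm (Nat.primeFactorsList (∏ q ∈ F, q)) := by
    refine Nat.primeFactorsList_unique ?_ ?_
    · exact Finset.prod_toList F
    · intro p hp
      exact (hF p (Finset.mem_toList.1 hp)).1
  have h5 := h4.length_eq
  rw [Finset.length_toList] at h5
  have h6 : 0 < K.primeFactorsList.length := by
    rw [List.length_pos_iff]
    intro h7
    rw [Nat.primeFactorsList_eq_nil] at h7
    omega
  omega

open Classical in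
theorem killR (r : ℕ) (hr : 1 ≤ r) : ∃ c : ℝ, 0 < c ∧ ∃ L0 : ℕ, ∀ L d : ℕ, L0 ≤ L →
    L ^ 3 ≤ d ^ 4 → d ≤ L →
    ∀ (M : ℕ), 0 < M → (∀ q : ℕ, q.Prime → q ∣ M → q ≤ L ^ 6) →
    ∀ (P : Finset ℕ), (∀ q ∈ P, q.Prime) → (∏ q ∈ P, q) ∣ M →
    ∀ (b : ℕ) (A : Finset ℕ) (s H : ℕ), s + 2 * H < 2 ^ L → M * (2 ^ ((r + 6) * d) + 1) ≤ H →
    (∀ a ∈ A, ¬ (s < a ∧ a ≤ s + 2 * H)) →
    ∑ a ∈ A, cst r L (P.filter (fun q : ℕ => (q : ℤ) ∣ (b : ℤ) - (a : ℤ))).card ≤ c * d →
    ∃ n, s < n ∧ n ≤ s + 2 * H ∧ n ≡ b [MOD M] ∧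
      ∀ a ∈ A, a ≤ n → r < (n - a).primeFactorsList.length := by
  obtain ⟨c, hc, L0, hcore⟩ := coreR r hr
  refine ⟨c, hc, max L0 1, ?_⟩
  intro L d hL hLd hdL M hM hq P hP hPM b A s H h1 h2 h3 h4
  have hL0 : L0 ≤ L := le_trans (le_max_left _ _) hL
  have hL1 : 1 ≤ L := le_trans (le_max_right _ _) hL
  set w := s + H + 1 with hw
  set e := (b + w * (M - 1)) % M with he
  have heM : e < M := Nat.mod_lt _ hM
  have hn0 : w + e ≡ b [MOD M] := by
    have e1 : w + e ≡ w + (b + w * (M - 1)) [MOD M] :=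
      Nat.ModEq.add_left _ (Nat.mod_modEq _ _)
    have e2 : w + (b + w * (M - 1)) = b + M * w := by
      obtain ⟨M', rfl⟩ : ∃ M', M = M' + 1 := ⟨M - 1, by omega⟩
      simp only [Nat.add_sub_cancel]
      ring
    rw [e2] at e1
    exact e1.trans (by
      unfold Nat.ModEq
      simp)
  -- the requirement
  let om : ℤ → ℕ := fun z => (P.filter (fun q : ℕ => (q : ℤ) ∣ (b : ℤ) - z)).card
  let ρ : ℤ → ℕ := fun z => r - om z
  set A' : Finset ℕ := A.filter (fun a => a ≤ s ∧ om (a : ℤ) < r) with hA'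
  set B : Finset ℤ := A'.image (fun a : ℕ => (a : ℤ)) with hB
  have hLr : L ^ 6 ≤ (L ^ (r + 1)) ^ 6 := by
    refine Nat.pow_le_pow_left ?_ 6
    calc L = L ^ 1 := (pow_one L).symm
      _ ≤ L ^ (r + 1) := Nat.pow_le_pow_right hL1 (by omega)
  have hcop : ∀ q : ℕ, q.Prime → (L ^ (r + 1)) ^ 6 < q → Nat.Coprime M q := by
    intro q hqp hqL
    rw [Nat.coprime_comm, Nat.Prime.coprime_iff_not_dvd hqp]
    intro hdvd
    have := hq q hqp hdvd
    omega
  have hBabs : ∀ x ∈ B, |x| ≤ 2 ^ L := by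
    intro x hx
    rw [hB, mem_image] at hx
    obtain ⟨a, ha, rfl⟩ := hx
    rw [hA', mem_filter] at ha
    have h5 : a ≤ s := ha.2.1
    have h6 : a ≤ 2 ^ L := by omega
    rw [abs_of_nonneg (by positivity)]
    exact_mod_cast h6
  have hρ : ∀ x ∈ B, 1 ≤ ρ x ∧ ρ x ≤ r := by
    intro x hx
    rw [hB, mem_image] at hx
    obtain ⟨a, ha, rfl⟩ := hx
    rw [hA', mem_filter] at ha
    have h5 : om (a : ℤ) < r := ha.2.2
    change 1 ≤ r - om (a : ℤ) ∧ r - om (a : ℤ) ≤ r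
    omega
  have hcst : ∀ j, 0 ≤ cst r L j := by
    intro j
    unfold cst
    split_ifs
    · positivity
    · exact le_rfl
  have hcost : ∑ x ∈ B, (Nat.log 2 L : ℝ) ^ (1 - (1 / 2 : ℝ) ^ (ρ x - 1)) ≤ c * d := by
    refine le_trans ?_ h4
    rw [hB, Finset.sum_image (fun a _ a' _ haa => by exact_mod_cast haa)]
    refine le_trans (le_of_eq ?_) (Finset.sum_le_sum_of_subset_of_nonneg
      (Finset.filter_subset (fun a => a ≤ s ∧ om (a : ℤ) < r) A) (fun a _ _ => hcst _))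
    refine Finset.sum_congr rfl fun a ha => ?_
    rw [mem_filter] at ha
    have h5 : om (a : ℤ) < r := ha.2.2
    have h6 : (P.filter (fun q : ℕ => (q : ℤ) ∣ (b : ℤ) - (a : ℤ))).card = om (a : ℤ) := rfl
    rw [h6]
    unfold cst
    rw [if_pos h5]
  obtain ⟨t, ht, hkill⟩ := hcore L d hL0 hLd hdL M ((w + e : ℕ) : ℤ) B ρ (2 ^ ((r + 6) * d))
    hcop hBabs hρ hcost le_rfl
  have hMt : M * t + M ≤ M * 2 ^ ((r + 6) * d) := by
    have : M * (t + 1) ≤ M * 2 ^ ((r + 6) * d) := Nat.mul_le_mul_left _ ht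
    calc M * t + M = M * (t + 1) := by ring
      _ ≤ _ := this
  have hMH : M * 2 ^ ((r + 6) * d) + M ≤ H := by
    calc M * 2 ^ ((r + 6) * d) + M = M * (2 ^ ((r + 6) * d) + 1) := by ring
      _ ≤ H := h2
  have hnle : w + e + M * t ≤ s + 2 * H := by omega
  have hmod : w + e + M * t ≡ b [MOD M] := by
    have : w + e + M * t ≡ w + e [MOD M] := by
      unfold Nat.ModEq
      simp
    exact this.trans hn0
  refine ⟨w + e + M * t, by omega, hnle, hmod, ?_⟩
  intro a ha han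
  have has : a ≤ s := by
    by_contra hcon
    exact h3 a ha ⟨by omega, by omega⟩
  have hbig : H < w + e + M * t - a := by omega
  have hPd : ∀ q ∈ P, q ∣ M := fun q hqP => (Finset.dvd_prod_of_mem _ hqP).trans hPM
  set F1 : Finset ℕ := P.filter (fun q : ℕ => (q : ℤ) ∣ (b : ℤ) - (a : ℤ)) with hF1
  have hF1card : F1.card = om (a : ℤ) := rfl
  have hF1d : ∀ q ∈ F1, q.Prime ∧ q ∣ w + e + M * t - a := by
    intro q hqF
    rw [hF1, mem_filter] at hqF
    refine ⟨hP q hqF.1, ?_⟩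
    have e2 : (q : ℤ) ∣ (M : ℤ) := Int.natCast_dvd_natCast.mpr (hPd q hqF.1)
    have e3 : (M : ℤ) ∣ (b : ℤ) - ((w + e + M * t : ℕ) : ℤ) := (Nat.modEq_iff_dvd.mp hmod)
    have e4 : (q : ℤ) ∣ ((w + e + M * t - a : ℕ) : ℤ) := by
      rw [Nat.cast_sub han]
      have e5 := dvd_sub hqF.2 (e2.trans e3)
      have e6 : (b : ℤ) - (a : ℤ) - ((b : ℤ) - ((w + e + M * t : ℕ) : ℤ)) =
          ((w + e + M * t : ℕ) : ℤ) - (a : ℤ) := by ring
      rwa [e6] at e5
    exact_mod_cast e4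
  have hF1prod : ∏ q ∈ F1, q ≤ M := by
    refine Nat.le_of_dvd hM ((Finset.prod_dvd_prod_of_subset _ _ _ ?_).trans hPM)
    rw [hF1]
    exact Finset.filter_subset _ _
  by_cases hom : om (a : ℤ) < r
  · have haB : (a : ℤ) ∈ B := by
      rw [hB, mem_image]
      exact ⟨a, by rw [hA', mem_filter]; exact ⟨ha, has, hom⟩, rfl⟩
    have hk := hkill _ haB
    obtain ⟨F2, hF2s, hF2c⟩ := Finset.exists_subset_card_eq hk
    have hF2d : ∀ q ∈ F2, q.Prime ∧ q ∣ w + e + M * t - a ∧ (L ^ (r + 1)) ^ 6 < q ∧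
        q ≤ 2 ^ d := by
      intro q hqF
      have h7 := hF2s hqF
      rw [mem_filter, mem_Icc] at h7
      obtain ⟨⟨_, h8⟩, h9, h10, h11⟩ := h7
      refine ⟨h9, ?_, h10, h8⟩
      have e1 : (q : ℤ) ∣ ((w + e + M * t - a : ℕ) : ℤ) := by
        rw [Nat.cast_sub han]
        push_cast at h11 ⊢
        exact h11
      exact_mod_cast e1
    have hdisj : Disjoint F1 F2 := by
      rw [Finset.disjoint_left]
      intro q hq1 hq2
      rw [hF1, mem_filter] at hq1
      have h7 := hq q (hP q hq1.1) (hPd q hq1.1)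
      have h8 := (hF2d q hq2).2.2.1
      omega
    refine omega_gt (F := F1 ∪ F2) (fun q hqF => ?_) ?_ ?_
    · rcases Finset.mem_union.1 hqF with h7 | h7
      · exact hF1d q h7
      · exact ⟨(hF2d q h7).1, (hF2d q h7).2.1⟩
    · rw [Finset.card_union_of_disjoint hdisj, hF1card, hF2c]
      change r ≤ om (a : ℤ) + (r - om (a : ℤ))
      omega
    · rw [Finset.prod_union hdisj]
      have h7 : ∏ q ∈ F2, q ≤ (2 ^ d) ^ F2.card :=
        Finset.prod_le_pow_card _ _ _ fun q hqF => (hF2d q hqF).2.2.2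
      have h8 : F2.card ≤ r := by
        rw [hF2c]
        change r - om (a : ℤ) ≤ r
        omega
      have h9 : (2 ^ d) ^ F2.card ≤ 2 ^ ((r + 6) * d) := by
        rw [← pow_mul]
        refine Nat.pow_le_pow_right (by norm_num) ?_
        calc d * F2.card ≤ d * (r + 6) := Nat.mul_le_mul_left _ (by omega)
          _ = (r + 6) * d := by ring
      have h10 : (∏ q ∈ F1, q) * ∏ q ∈ F2, q ≤ M * 2 ^ ((r + 6) * d) :=
        Nat.mul_le_mul hF1prod (h7.trans h9)
      omega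
  · refine omega_gt (F := F1) hF1d ?_ ?_
    · rw [hF1card]
      omega
    · have h5 : M ≤ M * 2 ^ ((r + 6) * d) := Nat.le_mul_of_pos_right _ (by positivity)
      omega

end Pool.Agent.RT
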