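import Pool.Agent.RT.KillR
import Pool.Agent.RT.Cls
import Pool.Agent.RS.Sel2

/-! RT/MainR.  THEOREM R_r with counting and with a residue class mod `W`; model `RS/MainC.lean` (copy its
structure and its private lemmas).

`τ = (∑_{a∈A} wcost r (loglog x) (nu W s a)) * (W/φ(W))`, `L = Nat.log 2 x + 1`, `lam = Nat.log 2 L`,
`w = 2^(lam/2)`, `P1 = pW W w`, `M1 = ∏_{q∈P1} q` (`≤ 4^w`), `M = W * M1`,
`P = W.primeFactors ∪ P1` (disjoint; `∏ P ∣ M`).  `killR r` gives `c0`, `L0`; `avg_cost k` for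
`1 ≤ k ≤ r` gives constants, `C1` their sum.  `exists_class P1 A g` with
`g a j = cst r L (nu W s a + j)` gives `b1` with
`∑_a g a (P1.filter (q ∣ b1 - a)).card ≤ ∑_a Ex P1 (fun T => cst r L (nu a + T.card))
 = ∑_a Ex P1 (fun T => cst (r - nu a) L T.card) ≤ ∑_a C1 (W/φ(W)) lam^(-(1/2)^(r - nu a - 1))`
(`cst r L (k + j) = cst (r - k) L j`, `nu a < r`).  As `loglog x ≤ (lam+1) log 2 ≤ 2 lam` and the exponent is
`≤ 1`, `lam^(-e) ≤ 2 (loglog x)^(-e)`, so this is `K ≤ 2 C1 τ`.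
Choose `b ≡ s mod W`, `b ≡ b1 mod M1` (`Nat.chineseRemainder`).  For `q ∈ P1`: `q ∣ b - a ↔ q ∣ b1 - a`; for
`q ∣ W`: `q ∣ b - a ↔ q ∣ s - a`; so `(P.filter (q ∣ b - a)).card = nu W s a + (P1.filter ..).card` and the
cost in `killR` is `≤ 2 C1 τ`.  `d = ⌈2 C1 τ/c0⌉ + ⌈L^(3/4)⌉`, `H = M (2^((r+6) d) + 1)`,
`m = (x - x/2)/(2H)` blocks, `RS.count_blocks`.
`log x ≤ L ≤ 2 log x`; `τ ≤ c log x` with `c` small gives `(r+6) d ≤ L/8`.
`A.card ≤ L^2`: every `wcost` is `≥ 1/loglog x ≥ 1/(lam+1)` (`loglog x ≥ 1`), `W/φ(W) ≥ 1`, so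
`A.card ≤ (lam+1) τ ≤ (lam+1) L`.  The count is `≥ x/(8H)` and
`log (8H) ≤ log W + 2w + (r+6) d + 4 ≤ C (τ + (log x)^(4/5))`. -/

namespace Pool.Agent.RT

open Finset Pool.Agent.RS

/-- number of primes dividing both `W` and `s - a` -/
def nu (W s a : ℕ) : ℕ := (W.primeFactors.filter (fun q : ℕ => (q : ℤ) ∣ (s : ℤ) - (a : ℤ))).card

/-- cost of an element with `k` prime factors given for free, `y = loglog x` -/
noncomputable def wcost (r : ℕ) (y : ℝ) (k : ℕ) : ℝ :=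
  if k < r then y ^ (-(1 / 2 : ℝ) ^ (r - k - 1)) else 0

private theorem mr_pos (W w : ℕ) : 0 < ∏ q ∈ pW W w, q :=
  prod_pos fun _ hq => ((mem_filter.mp hq).2.1).pos

private theorem mr_coprime (W w : ℕ) : Nat.Coprime W (∏ q ∈ pW W w, q) := by
  apply Nat.Coprime.prod_right
  intro q hq
  unfold pW at hq
  rw [mem_filter] at hq
  exact ((hq.2.1.coprime_iff_not_dvd).mpr hq.2.2).symm

private theorem mr_dvd (W w : ℕ) : (∏ q ∈ pW W w, q) ∣ primorial w := by
  unfold pW primorial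
  apply prod_dvd_prod_of_subset
  intro q hq
  rw [mem_filter] at hq ⊢
  exact ⟨hq.1, hq.2.1⟩

private theorem mr_le (W w : ℕ) : (∏ q ∈ pW W w, q) ≤ 4 ^ w :=
  (Nat.le_of_dvd (primorial_pos w) (mr_dvd W w)).trans (primorial_le_four_pow w)

private theorem mr_prime {W w q : ℕ} (hq : q.Prime) (h : q ∣ ∏ q ∈ pW W w, q) : q ≤ w :=
  (hq.dvd_primorial_iff).mp (h.trans (mr_dvd W w))

private theorem mr_growth (k : ℕ) (hk : 20 ≤ k) : (2 * k + 12) ^ 2 + 1 ≤ 2 ^ k := by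
  induction k, hk using Nat.le_induction with
  | base => norm_num
  | succ k hk ih =>
    have h1 : 2 ^ (k + 1) = 2 * 2 ^ k := pow_succ' 2 k
    rw [h1]
    nlinarith

/-- the numerical facts about the logarithms -/
private theorem mr_logs {x L lam : ℕ} (hxL : x < 2 ^ L) (hLx : 2 ^ (L - 1) ≤ x)
    (hL : L < 2 ^ (lam + 1)) (hL4 : 5 ≤ L) :
    (L : ℝ) ≤ 2 * Real.log x ∧ Real.log x ≤ L ∧ 0 < Real.log (Real.log x) ∧
      Real.log (Real.log x) ≤ (lam : ℝ) + 1 := by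
  have hl2 : 0 < Real.log 2 := Real.log_pos (by norm_num)
  have hl2a : 0.69 ≤ Real.log 2 := by have := Real.log_two_gt_d9; linarith
  have hl2' : Real.log 2 ≤ 1 := by have := Real.log_two_lt_d9; linarith
  have hL4r : (5 : ℝ) ≤ L := by exact_mod_cast hL4
  have hx0 : 0 < x := lt_of_lt_of_le (by positivity) hLx
  have hx0r : (0 : ℝ) < x := by exact_mod_cast hx0
  have h1 : Real.log x ≤ L * Real.log 2 := by
    rw [← Real.log_pow]
    apply Real.log_le_log hx0r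
    exact_mod_cast hxL.le
  have h2 : ((L : ℝ) - 1) * Real.log 2 ≤ Real.log x := by
    have h3 : ((L : ℝ) - 1) * Real.log 2 = Real.log (2 ^ (L - 1)) := by
      rw [Real.log_pow, Nat.cast_sub (by omega)]
      norm_num
    rw [h3]
    apply Real.log_le_log (by positivity)
    exact_mod_cast hLx
  have h3 : (L : ℝ) ≤ 2 * Real.log x := by nlinarith
  have h4 : 1 < Real.log x := by linarith
  have h6 : Real.log x ≤ L := h1.trans (by nlinarith)
  refine ⟨h3, h6, Real.log_pos h4, ?_⟩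
  have h5 : ((lam : ℝ) + 1) * Real.log 2 = Real.log (2 ^ (lam + 1)) := by
    rw [Real.log_pow]; push_cast; ring
  have h7 : Real.log (Real.log x) ≤ ((lam : ℝ) + 1) * Real.log 2 := by
    rw [h5]
    apply Real.log_le_log (by linarith)
    refine h6.trans ?_
    exact_mod_cast hL.le
  refine h7.trans ?_
  exact mul_le_of_le_one_right (by positivity) hl2'

private theorem mr_R {R : ℕ} (h : 1 ≤ R) : 32 * R ≤ (16 * R) ^ 4 := by
  have h1 : (16 * R) ^ 2 ≤ (16 * R) ^ 4 := Nat.pow_le_pow_right (by omega) (by norm_num)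
  have h2 : 32 * R ≤ (16 * R) ^ 2 := by
    rw [pow_two]
    calc 32 * R = 2 * (16 * R) := by ring
      _ ≤ (16 * R) * (16 * R) := Nat.mul_le_mul_right _ (by omega)
  exact h2.trans h1

/-- comparison of the powers of `lam` and of `log log x` -/
private theorem mr_pow {l lam β : ℝ} (hl : 0 < l) (hlam : 1 ≤ lam) (h : l ≤ lam + 1)
    (hβ0 : 0 < β) (hβ1 : β ≤ 1) : l ^ β ≤ 2 * lam ^ β := by
  have h1 : l ^ β ≤ (2 * lam) ^ β := Real.rpow_le_rpow hl.le (by linarith) hβ0.le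
  rw [Real.mul_rpow (by norm_num) (by linarith)] at h1
  have h2 : (2 : ℝ) ^ β ≤ 2 ^ (1 : ℝ) := Real.rpow_le_rpow_of_exponent_le (by norm_num) hβ1
  rw [Real.rpow_one] at h2
  exact h1.trans (mul_le_mul_of_nonneg_right h2 (Real.rpow_nonneg (by linarith) _))

private theorem mr_pow1 {l lam β : ℝ} (hl : 0 < l) (hlam : 1 ≤ lam) (h : l ≤ lam + 1)
    (hβ0 : 0 < β) (hβ1 : β ≤ 1) : l ^ β ≤ lam + 1 := by
  have h1 : l ^ β ≤ (lam + 1) ^ β := Real.rpow_le_rpow hl.le h hβ0.le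
  have h2 : (lam + 1) ^ β ≤ (lam + 1) ^ (1 : ℝ) :=
    Real.rpow_le_rpow_of_exponent_le (by linarith) hβ1
  rw [Real.rpow_one] at h2
  exact h1.trans h2

private theorem mr_neg {l lam e : ℝ} (hl : 0 < l) (hlam : 1 ≤ lam) (h : l ≤ lam + 1)
    (he0 : 0 < e) (he1 : e ≤ 1) : lam ^ (-e) ≤ 2 * l ^ (-e) := by
  have h1 := mr_pow hl hlam h he0 he1
  have h2 : 0 < lam ^ e := Real.rpow_pos_of_pos (by linarith) e
  have h3 : 0 < l ^ e := Real.rpow_pos_of_pos hl e
  rw [Real.rpow_neg (by linarith), Real.rpow_neg hl.le, ← div_eq_mul_inv, inv_eq_one_div,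
    div_le_div_iff₀ h2 h3]
  linarith

private theorem mr_low {l lam e : ℝ} (hl : 0 < l) (hlam : 1 ≤ lam) (h : l ≤ lam + 1)
    (he0 : 0 < e) (he1 : e ≤ 1) : 1 / (lam + 1) ≤ l ^ (-e) := by
  have h1 := mr_pow1 hl hlam h he0 he1
  have h3 : 0 < l ^ e := Real.rpow_pos_of_pos hl e
  rw [Real.rpow_neg hl.le, inv_eq_one_div]
  exact one_div_le_one_div_of_le h3 h1

private theorem mr_half (n : ℕ) : 0 < (1 / 2 : ℝ) ^ n ∧ (1 / 2 : ℝ) ^ n ≤ 1 :=
  ⟨by positivity, pow_le_one₀ (by norm_num) (by norm_num)⟩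

private theorem mr_cst (r L k j : ℕ) : cst r L (k + j) = cst (r - k) L j := by
  unfold cst
  by_cases h : k + j < r
  · rw [if_pos h, if_pos (by omega), show r - (k + j) - 1 = r - k - j - 1 by omega]
  · rw [if_neg h, if_neg (by omega)]

/-- one constant for all `k ≤ r` -/
private theorem mr_avg (r : ℕ) : ∃ C : ℝ, 0 < C ∧ ∀ k : ℕ, 1 ≤ k → k ≤ r → ∀ W L : ℕ, 0 < W →
    4 ≤ Nat.log 2 L → W ≤ 2 ^ (Nat.log 2 L / 2) →
    Ex (fun q : ℕ => 1 / (q : ℝ)) (pW W (2 ^ (Nat.log 2 L / 2))) (fun T => cst k L T.card) ≤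
      C * ((W : ℝ) / Nat.totient W) * (Nat.log 2 L : ℝ) ^ (-(1 / 2 : ℝ) ^ (k - 1)) := by
  induction r with
  | zero => exact ⟨1, one_pos, fun k h1 h2 => by omega⟩
  | succ r ih =>
    obtain ⟨C, hC, h⟩ := ih
    obtain ⟨C', hC', h'⟩ := avg_cost (r + 1) (by omega)
    have mono : ∀ (D : ℝ), D ≤ C + C' → ∀ (k W L : ℕ), D * ((W : ℝ) / Nat.totient W) *
        (Nat.log 2 L : ℝ) ^ (-(1 / 2 : ℝ) ^ (k - 1)) ≤ (C + C') * ((W : ℝ) / Nat.totient W) *
        (Nat.log 2 L : ℝ) ^ (-(1 / 2 : ℝ) ^ (k - 1)) := by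
      intro D hD k W L
      have h1 : (0 : ℝ) ≤ (Nat.log 2 L : ℝ) ^ (-(1 / 2 : ℝ) ^ (k - 1)) :=
        Real.rpow_nonneg (Nat.cast_nonneg _) _
      exact mul_le_mul_of_nonneg_right (mul_le_mul_of_nonneg_right hD (by positivity)) h1
    refine ⟨C + C', by positivity, ?_⟩
    intro k h1 h2 W L hW hL hWL
    by_cases hk : k ≤ r
    · exact (h k h1 hk W L hW hL hWL).trans (mono C (by linarith) k W L)
    · obtain rfl : k = r + 1 := by omega
      exact (h' W L hW hL hWL).trans (mono C' (by linarith) (r + 1) W L)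

open Classical in
private theorem mr_filter {M1 b b1 a : ℕ} (P : Finset ℕ) (hP : ∀ q ∈ P, q ∣ M1)
    (hb : b ≡ b1 [MOD M1]) : P.filter (fun q : ℕ => (q : ℤ) ∣ (b : ℤ) - (a : ℤ)) =
      P.filter (fun q : ℕ => (q : ℤ) ∣ (b1 : ℤ) - (a : ℤ)) := by
  apply filter_congr
  intro q hq
  have h1 : (q : ℤ) ∣ (b1 : ℤ) - (b : ℤ) :=
    (Int.natCast_dvd_natCast.mpr (hP q hq)).trans (Nat.modEq_iff_dvd.mp hb)
  have h2 : (b1 : ℤ) - (a : ℤ) = ((b1 : ℤ) - (b : ℤ)) + ((b : ℤ) - (a : ℤ)) := by ring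
  rw [h2]
  exact (dvd_add_right h1).symm

open Classical in
private theorem mr_card {W w s b b1 a : ℕ} (hbs : b ≡ s [MOD W])
    (hb : b ≡ b1 [MOD ∏ q ∈ pW W w, q]) :
    ((W.primeFactors ∪ pW W w).filter (fun q : ℕ => (q : ℤ) ∣ (b : ℤ) - (a : ℤ))).card =
      nu W s a + ((pW W w).filter (fun q : ℕ => (q : ℤ) ∣ (b1 : ℤ) - (a : ℤ))).card := by
  have hd : Disjoint W.primeFactors (pW W w) := by
    rw [disjoint_left]
    intro q h1 h2
    unfold pW at h2
    rw [mem_filter] at h2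
    exact h2.2.2 (Nat.dvd_of_mem_primeFactors h1)
  rw [filter_union, card_union_of_disjoint
    (disjoint_of_subset_left (filter_subset _ _) (disjoint_of_subset_right (filter_subset _ _) hd)),
    mr_filter W.primeFactors (fun q hq => Nat.dvd_of_mem_primeFactors hq) hbs,
    mr_filter (pW W w) (fun q hq => dvd_prod_of_mem (fun q => q) hq) hb]
  rfl

private theorem mr_dvdM (W w : ℕ) :
    (∏ q ∈ W.primeFactors ∪ pW W w, q) ∣ W * ∏ q ∈ pW W w, q := by
  have hd : Disjoint W.primeFactors (pW W w) := by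
    rw [disjoint_left]
    intro q h1 h2
    unfold pW at h2
    rw [mem_filter] at h2
    exact h2.2.2 (Nat.dvd_of_mem_primeFactors h1)
  rw [prod_union hd]
  exact mul_dvd_mul (Nat.prod_primeFactors_dvd W) (dvd_refl _)

open Classical in
theorem mainR (r : ℕ) (hr : 1 ≤ r) : ∃ c C : ℝ, 0 < c ∧ 0 < C ∧ ∀ W : ℕ, 0 < W →
    ∃ x0 : ℕ, ∀ x : ℕ, x0 ≤ x → ∀ (s : ℕ) (A : Finset ℕ), (∀ a ∈ A, nu W s a < r) →
    (∑ a ∈ A, wcost r (Real.log (Real.log x)) (nu W s a)) * ((W : ℝ) / Nat.totient W) ≤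
      c * Real.log x →
    (x : ℝ) * Real.exp (-(C * ((∑ a ∈ A, wcost r (Real.log (Real.log x)) (nu W s a)) *
      ((W : ℝ) / Nat.totient W) + Real.log x ^ (4 / 5 : ℝ)))) ≤
      (((Finset.Ioc (x / 2) x).filter (fun n => n ≡ s [MOD W] ∧
        ∀ a ∈ A, a ≤ n → r < (n - a).primeFactorsList.length)).card : ℝ) := by
  obtain ⟨c0, hc0, L0, hkill⟩ := killR r hr
  obtain ⟨C1, hC1, havg⟩ := mr_avg r
  obtain ⟨R, hR⟩ : ∃ R, R = r + 6 := ⟨_, rfl⟩
  rw [← hR] at hkill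
  have hR7 : 7 ≤ R := by omega
  obtain ⟨E, hE⟩ : ∃ E, E = (16 * R) ^ 4 := ⟨_, rfl⟩
  have hER : 32 * R ≤ E := by
    rw [hE]
    exact mr_R (by omega)
  have hEr : ((16 * R : ℝ)) ^ 4 = (E : ℝ) := by
    rw [hE]
    push_cast
    ring
  have hRr : (0 : ℝ) < R := by
    have : 0 < R := by omega
    exact_mod_cast this
  refine ⟨min (c0 / (16 * C1 * R)) 1, 2 * R * C1 / c0 + 6 * R + 14,
    lt_min (by positivity) one_pos, by positivity, ?_⟩
  intro W hW
  refine ⟨2 ^ (L0 + 268435456 + 4 * W ^ 2 + E), ?_⟩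
  intro x hx s A hAnu hA
  set l : ℝ := Real.log (Real.log x) with hl
  obtain ⟨S1, hS⟩ : ∃ t : ℝ, t = ∑ a ∈ A, wcost r l (nu W s a) := ⟨_, rfl⟩
  rw [← hS] at hA ⊢
  set τ : ℝ := S1 * ((W : ℝ) / Nat.totient W) with hτ
  have hWr : (0 : ℝ) < W := by exact_mod_cast hW
  have hφW : (0 : ℝ) < Nat.totient W := by exact_mod_cast Nat.totient_pos.mpr hW
  have hratio1 : 1 ≤ (W : ℝ) / Nat.totient W := by
    rw [one_le_div hφW]
    exact_mod_cast Nat.totient_le W
  -- parameters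
  set L : ℕ := Nat.log 2 x + 1 with hLdef
  have hx0 : x ≠ 0 := by
    have : 0 < 2 ^ (L0 + 268435456 + 4 * W ^ 2 + E) := by positivity
    omega
  have hxL : x < 2 ^ L := Nat.lt_pow_succ_log_self (by norm_num) x
  have hLx : 2 ^ (L - 1) ≤ x := by
    rw [hLdef, Nat.add_sub_cancel]
    exact Nat.pow_log_le_self 2 hx0
  have hLbig : L0 + 268435456 + 4 * W ^ 2 + E ≤ L := by
    have h1 : Nat.log 2 (2 ^ (L0 + 268435456 + 4 * W ^ 2 + E)) ≤ Nat.log 2 x :=
      Nat.log_mono_right hx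
    rw [Nat.log_pow (by norm_num)] at h1
    omega
  have hLL0 : L0 ≤ L := by omega
  have hLc : 268435456 ≤ L := by omega
  have hLW : 4 * W ^ 2 ≤ L := by omega
  have hLW' : 4 * W ^ 2 + 268435456 ≤ L := by omega
  have hLR : E ≤ L := by omega
  set lam : ℕ := Nat.log 2 L with hlam
  have hL0' : L ≠ 0 := by omega
  have hlamL : 2 ^ lam ≤ L := Nat.pow_log_le_self 2 hL0'
  have hLlam : L < 2 ^ (lam + 1) := Nat.lt_pow_succ_log_self (by norm_num) L
  have hlam28 : 28 ≤ lam := by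
    have h1 : Nat.log 2 (2 ^ 28) ≤ Nat.log 2 L := Nat.log_mono_right (by norm_num; omega)
    rw [Nat.log_pow (by norm_num)] at h1
    exact h1
  set w : ℕ := 2 ^ (lam / 2) with hw
  have hww : w * w ≤ L := by
    refine le_trans ?_ hlamL
    rw [hw, ← pow_add]
    exact Nat.pow_le_pow_right (by norm_num) (by omega)
  have hWw : W ≤ w := by
    have h2 : 2 ^ (lam + 1) ≤ 4 * (w * w) := by
      have h3 : 4 * (w * w) = 2 ^ (2 + lam / 2 + lam / 2) := by
        rw [hw, pow_add, pow_add]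
        ring
      rw [h3]
      exact Nat.pow_le_pow_right (by norm_num) (by omega)
    have h4 : 4 * W ^ 2 < 4 * (w * w) := by omega
    rw [pow_two] at h4
    by_contra hcon
    push Not at hcon
    have h5 := Nat.mul_lt_mul'' hcon hcon
    omega
  have hw16 : 2 ^ 14 ≤ w := Nat.pow_le_pow_right (by norm_num) (by omega)
  have hw12 : 12 * w ≤ L := by
    refine le_trans ?_ hww
    exact Nat.mul_le_mul_right _ (le_trans (by norm_num) hw16)
  obtain ⟨hLlog, hlogL, hll0, hlllam⟩ := mr_logs hxL hLx hLlam (by omega)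
  have hl2 : 0 < Real.log 2 := Real.log_pos (by norm_num)
  have hl2' : Real.log 2 ≤ 1 := by have := Real.log_two_lt_d9; linarith
  have hLr : (268435456 : ℝ) ≤ L := by exact_mod_cast hLc
  have hlogx0 : 0 < Real.log x := by linarith
  have hlamr : (28 : ℝ) ≤ lam := by exact_mod_cast hlam28
  have hlam1 : (1 : ℝ) ≤ lam := by linarith
  have hlam0 : (0 : ℝ) < lam := by linarith
  -- the cost
  have hwc : ∀ a ∈ A, wcost r l (nu W s a) = l ^ (-(1 / 2 : ℝ) ^ (r - nu W s a - 1)) := by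
    intro a ha
    unfold wcost
    rw [if_pos (hAnu a ha)]
  have hwc1 : ∀ a ∈ A, 1 / ((lam : ℝ) + 1) ≤ wcost r l (nu W s a) := by
    intro a ha
    rw [hwc a ha]
    exact mr_low hll0 hlam1 hlllam (mr_half _).1 (mr_half _).2
  have hlamp : (0 : ℝ) < (lam : ℝ) + 1 := by linarith
  have hSA : (A.card : ℝ) ≤ ((lam : ℝ) + 1) * S1 := by
    have h1 : ∑ _a ∈ A, 1 / ((lam : ℝ) + 1) ≤ S1 := by
      rw [hS]
      exact sum_le_sum hwc1
    rw [sum_const, nsmul_eq_mul] at h1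
    have h2 := mul_le_mul_of_nonneg_left h1 hlamp.le
    refine le_trans (le_of_eq ?_) h2
    field_simp
  have hS0 : 0 ≤ S1 := by
    rw [hS]
    refine sum_nonneg fun a ha => le_trans (by positivity) (hwc1 a ha)
  have hτ0 : 0 ≤ τ := by positivity
  have hSτ : S1 ≤ τ := le_mul_of_one_le_right hS0 hratio1
  have hAτ : (A.card : ℝ) ≤ ((lam : ℝ) + 1) * τ :=
    hSA.trans (mul_le_mul_of_nonneg_left hSτ hlamp.le)
  set K : ℝ := 2 * C1 * τ with hK
  have hK0 : 0 ≤ K := by positivity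
  have hτl : τ ≤ min (c0 / (16 * C1 * R)) 1 * L := by
    refine hA.trans (mul_le_mul_of_nonneg_left hlogL (le_min (by positivity) zero_le_one))
  have hKL : R * (K / c0) ≤ L / 8 := by
    have h1 : K ≤ 2 * C1 * (c0 / (16 * C1 * R) * L) := by
      refine mul_le_mul_of_nonneg_left (hτl.trans ?_) (by positivity)
      exact mul_le_mul_of_nonneg_right (min_le_left _ _) (Nat.cast_nonneg _)
    have h2 : 2 * C1 * (c0 / (16 * C1 * R) * L) = c0 * L / (8 * R) := by
      field_simp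
      ring
    rw [h2] at h1
    have h3 : K / c0 ≤ L / (8 * R) := by
      rw [div_le_iff₀ hc0]
      refine h1.trans (le_of_eq ?_)
      ring
    calc (R : ℝ) * (K / c0) ≤ R * (L / (8 * R)) := mul_le_mul_of_nonneg_left h3 hRr.le
      _ = L / 8 := by field_simp
  -- the level
  set y : ℝ := (L : ℝ) ^ (3 / 4 : ℝ) with hy
  have hL0r : (0 : ℝ) < L := by linarith
  have hy4 : y ^ 4 = (L : ℝ) ^ 3 := by
    rw [hy, ← Real.rpow_natCast, ← Real.rpow_mul hL0r.le]
    norm_num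
  have hy0 : 0 ≤ y := by positivity
  have hyL : R * y ≤ L / 16 := by
    by_contra hcon
    push Not at hcon
    have h0 : (L : ℝ) / (16 * R) < y := by
      rw [div_lt_iff₀ (by positivity)]
      have : y * (16 * R) = 16 * (R * y) := by ring
      rw [this]
      linarith
    have h1 : ((L : ℝ) / (16 * R)) ^ 4 < y ^ 4 := pow_lt_pow_left₀ h0 (by positivity) (by norm_num)
    rw [hy4] at h1
    have hE0 : (0 : ℝ) < E := by
      have : 0 < E := by omega
      exact_mod_cast this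
    have h2 : ((L : ℝ) / (16 * R)) ^ 4 = (L : ℝ) ^ 3 * (L / E) := by
      rw [div_pow, hEr]
      ring
    rw [h2] at h1
    have h3 : (1 : ℝ) ≤ L / E := by
      rw [one_le_div hE0]
      exact_mod_cast hLR
    have h4 : (0 : ℝ) < (L : ℝ) ^ 3 := by positivity
    have h5 := le_mul_of_one_le_right h4.le h3
    linarith
  set d : ℕ := ⌈K / c0⌉₊ + ⌈y⌉₊ with hd
  have hd1 : K ≤ c0 * d := by
    have h1 := Nat.le_ceil (K / c0)
    rw [div_le_iff₀ hc0] at h1
    refine h1.trans ?_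
    rw [mul_comm]
    apply mul_le_mul_of_nonneg_left _ hc0.le
    rw [hd]
    push_cast
    have : (0 : ℝ) ≤ (⌈y⌉₊ : ℝ) := Nat.cast_nonneg _
    linarith
  have hdy : y ≤ d := by
    refine (Nat.le_ceil y).trans ?_
    rw [hd]
    push_cast
    have : (0 : ℝ) ≤ (⌈K / c0⌉₊ : ℝ) := Nat.cast_nonneg _
    linarith
  have hd2 : L ^ 3 ≤ d ^ 4 := by
    have h1 : (L : ℝ) ^ 3 ≤ (d : ℝ) ^ 4 := by
      rw [← hy4]
      exact pow_le_pow_left₀ hy0 hdy 4
    exact_mod_cast h1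
  have hd3 : (d : ℝ) ≤ K / c0 + y + 2 := by
    have h1 := (Nat.ceil_lt_add_one (by positivity : 0 ≤ K / c0)).le
    have h2 := (Nat.ceil_lt_add_one hy0).le
    rw [hd]
    push_cast
    linarith
  have hR32 : 32 * (R : ℝ) ≤ L := by
    have h2 : 32 * R ≤ L := hER.trans hLR
    exact_mod_cast h2
  have hRd3 : (R : ℝ) * d ≤ R * (K / c0) + R * y + 2 * R := by
    have h1 := mul_le_mul_of_nonneg_left hd3 hRr.le
    linarith
  have hRd4 : 4 * (R * d) ≤ L := by
    have h1 : (4 : ℝ) * (R * d) ≤ L := by linarith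
    exact_mod_cast h1
  have hdL : d ≤ L := by
    have h1 : d ≤ R * d := Nat.le_mul_of_pos_left d (by omega)
    omega
  -- the modulus
  set P1 : Finset ℕ := pW W w with hP1
  set M1 : ℕ := ∏ q ∈ P1, q with hM1
  set M : ℕ := W * M1 with hM
  have hM10 : 0 < M1 := mr_pos W w
  have hM0 : 0 < M := Nat.mul_pos hW hM10
  have hMle : M ≤ 2 ^ (3 * w) := by
    have h1 : W ≤ 2 ^ w := hWw.trans Nat.lt_two_pow_self.le
    calc M ≤ 2 ^ w * 4 ^ w := Nat.mul_le_mul h1 (mr_le W w)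
      _ = 2 ^ (3 * w) := by
        rw [show (4 : ℕ) = 2 ^ 2 by norm_num, ← pow_mul, ← pow_add]
        congr 1
        ring
  have hMprime : ∀ q : ℕ, q.Prime → q ∣ M → q ≤ L ^ 6 := by
    intro q hq hqM
    have h1 : q ≤ w := by
      rcases (hq.dvd_mul).mp hqM with h | h
      · exact (Nat.le_of_dvd hW h).trans hWw
      · exact mr_prime hq h
    have h2 : L ≤ L ^ 6 := Nat.le_self_pow (by norm_num) L
    omega
  have hP1p : ∀ q ∈ P1, q.Prime := fun q hq => (mem_filter.mp hq).2.1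
  have hPp : ∀ q ∈ W.primeFactors ∪ P1, q.Prime := by
    intro q hq
    rcases mem_union.mp hq with h | h
    · exact Nat.prime_of_mem_primeFactors h
    · exact hP1p q h
  obtain ⟨b1, hb1⟩ := exists_class P1 hP1p A (fun a j => cst r L (nu W s a + j))
  obtain ⟨b, hbr, hbb1⟩ := Nat.chineseRemainder (mr_coprime W w) s b1
  have hcost : ∑ a ∈ A, cst r L ((W.primeFactors ∪ P1).filter
      (fun q : ℕ => (q : ℤ) ∣ (b : ℤ) - (a : ℤ))).card ≤ c0 * d := by
    refine le_trans ?_ hd1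
    have e1 : ∑ a ∈ A, cst r L ((W.primeFactors ∪ P1).filter
        (fun q : ℕ => (q : ℤ) ∣ (b : ℤ) - (a : ℤ))).card =
        ∑ a ∈ A, cst r L (nu W s a + (P1.filter
          (fun q : ℕ => (q : ℤ) ∣ (b1 : ℤ) - (a : ℤ))).card) := by
      refine sum_congr rfl fun a _ => ?_
      rw [hP1, mr_card hbr hbb1]
    rw [e1]
    refine hb1.trans ?_
    have e2 : ∀ a ∈ A, Ex (fun q : ℕ => 1 / (q : ℝ)) P1 (fun T => cst r L (nu W s a + T.card)) ≤
        2 * C1 * ((W : ℝ) / Nat.totient W) * wcost r l (nu W s a) := by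
      intro a ha
      have hk := hAnu a ha
      have e3 : Ex (fun q : ℕ => 1 / (q : ℝ)) P1 (fun T => cst r L (nu W s a + T.card)) =
          Ex (fun q : ℕ => 1 / (q : ℝ)) P1 (fun T => cst (r - nu W s a) L T.card) :=
        Ex_congr fun T _ => mr_cst r L _ _
      rw [e3]
      have h1 := havg (r - nu W s a) (by omega) (by omega) W L hW (by omega)
        (by rw [← hlam, ← hw]; exact hWw)
      rw [← hlam, ← hw, ← hP1] at h1
      refine h1.trans ?_
      rw [hwc a ha]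
      have h2 := mr_neg hll0 hlam1 hlllam (mr_half (r - nu W s a - 1)).1
        (mr_half (r - nu W s a - 1)).2
      calc C1 * ((W : ℝ) / Nat.totient W) * (lam : ℝ) ^ (-(1 / 2 : ℝ) ^ (r - nu W s a - 1))
          ≤ C1 * ((W : ℝ) / Nat.totient W) * (2 * l ^ (-(1 / 2 : ℝ) ^ (r - nu W s a - 1))) :=
            mul_le_mul_of_nonneg_left h2 (by positivity)
        _ = _ := by ring
    refine (sum_le_sum e2).trans (le_of_eq ?_)
    rw [← mul_sum, ← hS, hK, hτ]
    ring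
  -- the blocks
  set H : ℕ := M * (2 ^ (R * d) + 1) with hH
  have hH0 : 0 < H := by positivity
  set m : ℕ := (x - x / 2) / (2 * H) with hm
  have hmx : x / 2 + 2 * H * m ≤ x := by
    have h1 : 2 * H * m ≤ x - x / 2 := Nat.mul_div_le _ _
    have h2 : x / 2 ≤ x := Nat.div_le_self _ _
    omega
  have hcount := count_blocks A (fun n => n ≡ s [MOD W] ∧
      ∀ a ∈ A, a ≤ n → r < (n - a).primeFactorsList.length)
    (x / 2) H m (by
      intro t hs0 hs1 hs2
      obtain ⟨n, hn1, hn2, hn3, hn4⟩ := hkill L d hLL0 hd2 hdL M hM0 hMprime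
        (W.primeFactors ∪ P1) hPp (mr_dvdM W w) b A t H (by omega) le_rfl hs2 hcost
      exact ⟨n, hn1, hn2, (hn3.of_mul_right M1).trans hbr, hn4⟩)
  have hcount3 : m ≤ ((Finset.Ioc (x / 2) (x / 2 + 2 * H * m)).filter
      (fun n => n ≡ s [MOD W] ∧
        ∀ a ∈ A, a ≤ n → r < (n - a).primeFactorsList.length)).card + A.card := by
    refine hcount.trans (le_of_eq (congrArg (· + A.card) (congrArg Finset.card ?_)))
    ext n
    simp only [mem_filter]
  have hcount2 : m ≤ ((Finset.Ioc (x / 2) x).filter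
      (fun n => n ≡ s [MOD W] ∧
        ∀ a ∈ A, a ≤ n → r < (n - a).primeFactorsList.length)).card + A.card := by
    refine hcount3.trans (Nat.add_le_add_right (card_le_card ?_) _)
    intro n hn
    rw [mem_filter, mem_Ioc] at hn ⊢
    exact ⟨⟨hn.1.1, hn.1.2.trans hmx⟩, hn.2⟩
  -- sizes
  have hH8 : 8 * H ≤ 2 ^ (3 * w + R * d + 4) := by
    have h1 : 2 ^ (R * d) + 1 ≤ 2 ^ (R * d + 1) := by
      rw [pow_succ]
      have : 1 ≤ 2 ^ (R * d) := Nat.one_le_two_pow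
      omega
    calc 8 * H ≤ 8 * (2 ^ (3 * w) * 2 ^ (R * d + 1)) :=
          Nat.mul_le_mul_left _ (Nat.mul_le_mul hMle h1)
      _ = 2 ^ (3 * w + R * d + 4) := by
        rw [← pow_add, show (8 : ℕ) = 2 ^ 3 by norm_num, ← pow_add]
        congr 1
        ring
  have hAL : A.card ≤ L * L := by
    have h1 : (A.card : ℝ) ≤ (L : ℝ) * ((lam : ℝ) + 1) := by
      have h3 : τ ≤ L := by
        refine hτl.trans ?_
        exact mul_le_of_le_one_left (Nat.cast_nonneg _) (min_le_right _ _)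
      refine hAτ.trans ((mul_le_mul_of_nonneg_left h3 hlamp.le).trans (le_of_eq ?_))
      ring
    have h2 : A.card ≤ L * (lam + 1) := by exact_mod_cast h1
    refine h2.trans (Nat.mul_le_mul_left _ ?_)
    have : lam < 2 ^ lam := Nat.lt_two_pow_self
    omega
  have hHx : 8 * H * (1 + A.card) ≤ x := by
    obtain ⟨k, hk⟩ : ∃ k, L - 1 = (3 * w + R * d + 4) + k :=
      ⟨L - 1 - (3 * w + R * d + 4), by omega⟩
    have hk20 : 20 ≤ k := by omega
    have hLk : L ≤ 2 * k + 12 := by omega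
    have h1 : 1 + A.card ≤ 2 ^ k := by
      refine le_trans ?_ (mr_growth k hk20)
      have h2 : L * L ≤ (2 * k + 12) ^ 2 := by
        rw [pow_two]
        exact Nat.mul_le_mul hLk hLk
      omega
    calc 8 * H * (1 + A.card) ≤ 2 ^ (3 * w + R * d + 4) * 2 ^ k := Nat.mul_le_mul hH8 h1
      _ = 2 ^ (L - 1) := by rw [← pow_add, ← hk]
      _ ≤ x := hLx
  have hHr : (0 : ℝ) < H := by exact_mod_cast hH0
  have hm1 : (x : ℝ) / (4 * H) - 1 ≤ m := by
    have h1 : x - x / 2 < 2 * H * (m + 1) := by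
      have h2 := Nat.div_add_mod (x - x / 2) (2 * H)
      have h3 := Nat.mod_lt (x - x / 2) (by omega : 0 < 2 * H)
      rw [← hm] at h2
      rw [mul_add, mul_one]
      omega
    have h2 : x ≤ 4 * H * (m + 1) := by
      have h4 : x ≤ 2 * (x - x / 2) := by omega
      calc x ≤ 2 * (x - x / 2) := h4
        _ ≤ 2 * (2 * H * (m + 1)) := Nat.mul_le_mul_left _ h1.le
        _ = 4 * H * (m + 1) := by ring
    have h3 : (x : ℝ) ≤ 4 * H * (m + 1) := by exact_mod_cast h2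
    rw [sub_le_iff_le_add, div_le_iff₀ (by positivity)]
    linarith
  have hfin : (x : ℝ) / (8 * H) ≤ (((Finset.Ioc (x / 2) x).filter
      (fun n => n ≡ s [MOD W] ∧
        ∀ a ∈ A, a ≤ n → r < (n - a).primeFactorsList.length)).card : ℝ) := by
    have h1 : (m : ℝ) ≤ (((Finset.Ioc (x / 2) x).filter
      (fun n => n ≡ s [MOD W] ∧
        ∀ a ∈ A, a ≤ n → r < (n - a).primeFactorsList.length)).card : ℝ) + A.card := by
      exact_mod_cast hcount2
    have h2 : (1 : ℝ) + A.card ≤ x / (8 * H) := by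
      rw [le_div_iff₀ (by positivity)]
      have : (8 * (H : ℝ) * (1 + A.card)) ≤ x := by exact_mod_cast hHx
      linarith
    have h3 : (x : ℝ) / (4 * H) = x / (8 * H) + x / (8 * H) := by
      field_simp
      norm_num
    linarith
  refine le_trans ?_ hfin
  have hdivinv : (x : ℝ) / (8 * H) = x * (8 * (H : ℝ))⁻¹ := div_eq_mul_inv _ _
  rw [hdivinv]
  apply mul_le_mul_of_nonneg_left _ (Nat.cast_nonneg _)
  rw [Real.exp_neg]
  apply inv_anti₀ (by positivity)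
  rw [← Real.log_le_iff_le_exp (by positivity)]
  -- the logarithm of `8 H`
  have hlog8 : Real.log (8 * (H : ℝ)) ≤ Real.log W + (2 * w + R * d + 4) := by
    have h1 : 8 * H ≤ W * 2 ^ (2 * w + R * d + 4) := by
      have h2 : 2 ^ (R * d) + 1 ≤ 2 ^ (R * d + 1) := by
        rw [pow_succ]
        have : 1 ≤ 2 ^ (R * d) := Nat.one_le_two_pow
        omega
      calc 8 * H ≤ 8 * ((W * 4 ^ w) * 2 ^ (R * d + 1)) :=
            Nat.mul_le_mul_left _ (Nat.mul_le_mul (Nat.mul_le_mul_left _ (mr_le W w)) h2)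
        _ = W * 2 ^ (2 * w + R * d + 4) := by
          rw [show (4 : ℕ) ^ w = 2 ^ (2 * w) by rw [show (4 : ℕ) = 2 ^ 2 by norm_num, ← pow_mul],
            show (2 : ℕ) ^ (2 * w + R * d + 4) = 2 ^ (2 * w) * 2 ^ (R * d + 1) * 8 by
              rw [← pow_add, show (8 : ℕ) = 2 ^ 3 by norm_num, ← pow_add]; congr 1]
          ring
    have h3 : (8 * (H : ℝ)) ≤ W * 2 ^ (2 * w + R * d + 4) := by exact_mod_cast h1
    refine (Real.log_le_log (by positivity) h3).trans ?_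
    rw [Real.log_mul hWr.ne' (by positivity), Real.log_pow]
    have h4 : ((2 * w + R * d + 4 : ℕ) : ℝ) * Real.log 2 ≤ ((2 * w + R * d + 4 : ℕ) : ℝ) :=
      mul_le_of_le_one_right (Nat.cast_nonneg _) hl2'
    push_cast at h4 ⊢
    linarith
  refine hlog8.trans ?_
  -- comparison with `L ^ (4/5)`
  set z : ℝ := (L : ℝ) ^ (4 / 5 : ℝ) with hz
  have hL1 : (1 : ℝ) ≤ L := by linarith
  have hz1 : 1 ≤ z := Real.one_le_rpow hL1 (by norm_num)
  have hyz : y ≤ z := Real.rpow_le_rpow_of_exponent_le hL1 (by norm_num)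
  have hwz : (w : ℝ) ≤ z := by
    have h1 : (w : ℝ) ≤ (L : ℝ) ^ (1 / 2 : ℝ) := by
      rw [← Real.sqrt_eq_rpow]
      apply Real.le_sqrt_of_sq_le
      rw [pow_two]
      exact_mod_cast hww
    exact h1.trans (Real.rpow_le_rpow_of_exponent_le hL1 (by norm_num))
  have hWz : Real.log W ≤ z := by
    have h1 : Real.log W ≤ W := (Real.log_le_sub_one_of_pos hWr).trans (by linarith)
    have h2 : (W : ℝ) ≤ w := by exact_mod_cast hWw
    linarith
  have hzx : z ≤ 2 * Real.log x ^ (4 / 5 : ℝ) := by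
    have h1 : z ≤ (2 * Real.log x) ^ (4 / 5 : ℝ) :=
      Real.rpow_le_rpow hL0r.le hLlog (by norm_num)
    rw [Real.mul_rpow (by norm_num) hlogx0.le] at h1
    have h2 : (2 : ℝ) ^ (4 / 5 : ℝ) ≤ 2 ^ (1 : ℝ) :=
      Real.rpow_le_rpow_of_exponent_le (by norm_num) (by norm_num)
    rw [Real.rpow_one] at h2
    exact h1.trans (mul_le_mul_of_nonneg_right h2 (by positivity))
  have hRK : R * (K / c0) = 2 * R * C1 / c0 * τ := by
    rw [hK]
    ring
  have hs0 : 0 ≤ Real.log x ^ (4 / 5 : ℝ) := by positivity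
  have hRy : R * y ≤ R * z := mul_le_mul_of_nonneg_left hyz hRr.le
  have hRz : (R : ℝ) ≤ R * z := le_mul_of_one_le_right hRr.le hz1
  have hRzx : R * z ≤ R * (2 * Real.log x ^ (4 / 5 : ℝ)) := mul_le_mul_of_nonneg_left hzx hRr.le
  have h1 : (2 * R * C1 / c0 + 6 * R + 14) * (τ + Real.log x ^ (4 / 5 : ℝ)) =
      2 * R * C1 / c0 * τ + 3 * (R * (2 * Real.log x ^ (4 / 5 : ℝ))) +
        14 * Real.log x ^ (4 / 5 : ℝ) +
        ((6 * R + 14) * τ + 2 * R * C1 / c0 * Real.log x ^ (4 / 5 : ℝ)) := by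
    ring
  have h2 : 0 ≤ (6 * R + 14) * τ + 2 * R * C1 / c0 * Real.log x ^ (4 / 5 : ℝ) := by
    positivity
  rw [h1]
  linarith

end Pool.Agent.RT
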