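import Pool.Agent.RS.Near

/-! RT/NearR.  Near-orthogonality without a bound for the coefficients, and with a set `R` of indices
which are not used (`M` need not be coprime to `p i`, `i ∈ R`).

`corr_R`: copy of `RS.corr` (its proof uses `hM i` only for `i ∈ supp σ ∪ supp σ'`).
`near_R`: as `RS.near_orth`: expand the square, `corr_R` for each pair with `Y σ Y σ' ≠ 0`, error
`≤ ∑∑ |Y σ| |Y σ'| 2 D^2 = 2 D^2 (∑ |Y|)^2`, and by Cauchy-Schwarz and `RS.count_le`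
`(∑|Y|)^2 ≤ 2 D^2 ∑ Y^2 ≤ 2 D^2 * D * ∑ Y^2/PH` (`PH ≤ PP ≤ D` on the support).  The main term is
`RS.quad_bound` (`(1/5)`). Total error `(1/5 T + 4 D^5) ∑ Y^2/PH`. -/

namespace Pool.Agent.RT

open Finset Pool.Agent.RS

variable {ι κ : Type} [Fintype ι] [DecidableEq ι] [DecidableEq κ]

omit [DecidableEq κ] in
private theorem abs_eo_le' {q : ℕ} (hq : 2 ≤ q) (a : κ → ℤ) (n : ℤ) (o : Option κ) :
    |eo q a n o| ≤ 1 := by
  cases o with
  | none => simp [eo]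
  | some j => exact abs_ee_le hq _

omit [DecidableEq κ] in
private theorem eo_periodic (q : ℕ) (a : κ → ℤ) (m n : ℤ) (h : (q : ℤ) ∣ m - n)
    (o : Option κ) : eo q a m o = eo q a n o := by
  cases o with
  | none => rfl
  | some j =>
    show ee q (m - a j) = ee q (n - a j)
    unfold ee
    have h1 : ((q : ℤ) ∣ m - a j) ↔ ((q : ℤ) ∣ n - a j) := by
      have h2 : m - a j = (m - n) + (n - a j) := by ring
      rw [h2]
      exact dvd_add_right h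
    by_cases h3 : (q : ℤ) ∣ n - a j
    · rw [if_pos h3, if_pos (h1.2 h3)]
    · rw [if_neg h3, if_neg (fun h' => h3 (h1.1 h'))]

theorem corr_R {p : ι → ℕ} {M : ℕ} (hp : ∀ i, 2 ≤ p i)
    (hc : ∀ i j, i ≠ j → Nat.Coprime (p i) (p j)) (n0 : ℤ)
    (a : κ → ℤ) (hd : ∀ i j j', j ≠ j' → ¬ (p i : ℤ) ∣ a j - a j') (T : ℕ)
    (σ σ' : ι → Option κ) (hM : ∀ i ∈ supp σ ∪ supp σ', Nat.Coprime M (p i)) :
    |∑ t ∈ range T, EE p a σ (n0 + M * t) * EE p a σ' (n0 + M * t) -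
        T * ∏ i, GG (p i) (σ i) (σ' i)| ≤ 2 * (PP p (supp σ) * PP p (supp σ')) := by
  have hper : ∀ i, ∀ o : Option κ, ∀ t : ℕ, eo (p i) a (n0 + M * ((t + p i : ℕ) : ℤ)) o =
      eo (p i) a (n0 + M * (t : ℤ)) o := by
    intro i o t
    refine eo_periodic _ _ _ _ ⟨(M : ℤ), ?_⟩ _
    push_cast
    ring
  have h1 := avg_prod (supp σ ∪ supp σ') p (fun i _ => by have := hp i; omega)
    (fun i _ j _ hij => hc i j hij)
    (fun i t => eo (p i) a (n0 + M * (t : ℤ)) (σ i) * eo (p i) a (n0 + M * (t : ℤ)) (σ' i))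
    (by
      intro i _ t
      show eo (p i) a (n0 + M * ((t + p i : ℕ) : ℤ)) (σ i) *
        eo (p i) a (n0 + M * ((t + p i : ℕ) : ℤ)) (σ' i) = _
      rw [hper, hper])
    (by
      intro i _ t
      rw [abs_mul]
      exact mul_le_one₀ (abs_eo_le' (hp i) a _ _) (abs_nonneg _) (abs_eo_le' (hp i) a _ _)) T
  have hout : ∀ i, i ∉ supp σ ∪ supp σ' → σ i = none ∧ σ' i = none := by
    intro i hi
    rw [mem_union, mem_supp, mem_supp, not_or, not_not, not_not] at hi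
    exact hi
  have e1 : ∀ t : ℕ, ∏ i ∈ supp σ ∪ supp σ', (eo (p i) a (n0 + M * (t : ℤ)) (σ i) *
      eo (p i) a (n0 + M * (t : ℤ)) (σ' i)) =
      EE p a σ (n0 + M * t) * EE p a σ' (n0 + M * t) := by
    intro t
    unfold EE
    rw [← prod_mul_distrib]
    refine prod_subset (subset_univ _) ?_
    intro i _ hi
    obtain ⟨h2, h3⟩ := hout i hi
    rw [h2, h3]
    simp [eo]
  have e2 : ∏ i ∈ supp σ ∪ supp σ', ((∑ u ∈ range (p i), eo (p i) a (n0 + M * (u : ℤ)) (σ i) *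
      eo (p i) a (n0 + M * (u : ℤ)) (σ' i)) / p i) = ∏ i, GG (p i) (σ i) (σ' i) := by
    rw [prod_congr rfl fun i hi => gram_avg (hp i) (hM i hi) n0 a (hd i) (σ i) (σ' i)]
    refine prod_subset (subset_univ _) ?_
    intro i _ hi
    obtain ⟨h2, h3⟩ := hout i hi
    rw [h2, h3]
    rfl
  rw [sum_congr rfl fun t _ => e1 t, e2] at h1
  refine h1.trans ?_
  refine mul_le_mul_of_nonneg_left ?_ (by norm_num)
  have h2 : ∀ S : Finset ι, (1 : ℝ) ≤ PP p S := by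
    intro S
    unfold PP
    have : ∀ i ∈ S, (1 : ℝ) ≤ (p i : ℝ) := by
      intro i _
      have := hp i
      exact_mod_cast (by omega : 1 ≤ p i)
    calc (1 : ℝ) = ∏ _i ∈ S, (1 : ℝ) := by simp
      _ ≤ _ := prod_le_prod (fun _ _ => by norm_num) this
  have h3 : PP p (supp σ ∪ supp σ') * PP p (supp σ ∩ supp σ') =
      PP p (supp σ) * PP p (supp σ') := prod_union_inter
  rw [← h3]
  show PP p (supp σ ∪ supp σ') ≤ _
  exact le_mul_of_one_le_right ((by norm_num : (0 : ℝ) ≤ 1).trans (h2 _)) (h2 _)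

theorem near_R [Fintype κ] {p : ι → ℕ} {M : ℕ} (hp : ∀ i, 2 ≤ p i)
    (hc : ∀ i j, i ≠ j → Nat.Coprime (p i) (p j)) (R : Finset ι)
    (hM : ∀ i, i ∉ R → Nat.Coprime M (p i)) (n0 : ℤ)
    (a : κ → ℤ) (hd : ∀ i j j', j ≠ j' → ¬ (p i : ℤ) ∣ a j - a j')
    (hk : ∑ i, (Fintype.card κ : ℝ) / (p i : ℝ) ^ 2 ≤ 1 / 2) {D : ℝ} (hD : 0 ≤ D)
    (hN : ∀ S : Finset ι, PP p S ≤ D →
      ∑ i ∈ S, (Fintype.card κ : ℝ) / ((p i : ℝ) - 1) ≤ 1 / 6)
    (Y : (ι → Option κ) → ℝ)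
    (hYs : ∀ σ, Y σ ≠ 0 → PP p (supp σ) ≤ D ∧ Disjoint (supp σ) R) (T : ℕ) :
    |∑ t ∈ range T, (∑ σ, Y σ * EE p a σ (n0 + M * t)) ^ 2 -
        T * ∑ σ, Y σ ^ 2 / PH p (supp σ)| ≤
      (1 / 5 * T + 4 * D ^ 5) * ∑ σ, Y σ ^ 2 / PH p (supp σ) := by
  classical
  set A : (ι → Option κ) → (ι → Option κ) → ℝ := fun σ σ' =>
    ∏ i, GG (p i) (σ i) (σ' i) with hAdef
  have hcnt := count_le (κ := κ) hp hk hD
  set F : Finset (ι → Option κ) := (univ : Finset (ι → Option κ)).filter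
    (fun σ => PP p (supp σ) ≤ D) with hFdef
  have hp0 : ∀ i, (0 : ℝ) < (p i : ℝ) := by
    intro i
    have : (2 : ℝ) ≤ p i := by exact_mod_cast hp i
    linarith
  have hp1 : ∀ i, (0 : ℝ) < (p i : ℝ) - 1 := by
    intro i
    have : (2 : ℝ) ≤ p i := by exact_mod_cast hp i
    linarith
  have hPP : ∀ S : Finset ι, 0 < PP p S := fun S => prod_pos fun i _ => hp0 i
  have hPH : ∀ S : Finset ι, 0 < PH p S := fun S => prod_pos fun i _ => hp1 i
  have hPHPP : ∀ S : Finset ι, PH p S ≤ PP p S := fun S =>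
    prod_le_prod (fun i _ => (hp1 i).le) fun i _ => by linarith
  have hq := quad_bound hp Y (fun σ hσ => hN _ (hYs σ hσ).1)
  have hexp : ∑ t ∈ range T, (∑ σ, Y σ * EE p a σ (n0 + M * t)) ^ 2 =
      ∑ σ, ∑ σ', Y σ * Y σ' * ∑ t ∈ range T,
        EE p a σ (n0 + M * t) * EE p a σ' (n0 + M * t) := by
    have h1 : ∀ t ∈ range T, (∑ σ, Y σ * EE p a σ (n0 + M * t)) ^ 2 =
        ∑ σ, ∑ σ', Y σ * Y σ' * (EE p a σ (n0 + M * t) * EE p a σ' (n0 + M * t)) := by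
      intro t _
      rw [sq, sum_mul_sum]
      refine sum_congr rfl fun σ _ => sum_congr rfl fun σ' _ => ?_
      ring
    rw [sum_congr rfl h1, sum_comm]
    refine sum_congr rfl fun σ _ => ?_
    rw [sum_comm]
    refine sum_congr rfl fun σ' _ => ?_
    rw [← mul_sum]
  have hterm : ∀ σ σ', |Y σ * Y σ' * (∑ t ∈ range T,
      EE p a σ (n0 + M * t) * EE p a σ' (n0 + M * t) - T * A σ σ')| ≤
      |Y σ| * |Y σ'| * (2 * D ^ 2) := by
    intro σ σ'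
    by_cases h1 : Y σ = 0
    · rw [h1]
      simp
    by_cases h2 : Y σ' = 0
    · rw [h2]
      simp
    obtain ⟨h3, h4⟩ := hYs σ h1
    obtain ⟨h5, h6⟩ := hYs σ' h2
    rw [abs_mul, abs_mul]
    refine mul_le_mul_of_nonneg_left ?_ (by positivity)
    have h7 := corr_R hp hc n0 a hd T σ σ' (by
      intro i hi
      apply hM
      intro hiR
      rcases mem_union.1 hi with h | h
      · exact disjoint_left.1 h4 h hiR
      · exact disjoint_left.1 h6 h hiR)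
    refine h7.trans ?_
    have h8 : PP p (supp σ) * PP p (supp σ') ≤ D * D := mul_le_mul h3 h5 (hPP _).le hD
    nlinarith
  have herr : |∑ σ, ∑ σ', Y σ * Y σ' * ∑ t ∈ range T,
        EE p a σ (n0 + M * t) * EE p a σ' (n0 + M * t) -
      T * ∑ σ, ∑ σ', Y σ * Y σ' * A σ σ'| ≤ (∑ σ, |Y σ|) ^ 2 * (2 * D ^ 2) := by
    rw [mul_sum, ← sum_sub_distrib]
    have h1 : ∀ σ, ∑ σ', Y σ * Y σ' * ∑ t ∈ range T,
        EE p a σ (n0 + M * t) * EE p a σ' (n0 + M * t) - T * ∑ σ', Y σ * Y σ' * A σ σ' =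
        ∑ σ', Y σ * Y σ' * (∑ t ∈ range T,
        EE p a σ (n0 + M * t) * EE p a σ' (n0 + M * t) - T * A σ σ') := by
      intro σ
      rw [mul_sum, ← sum_sub_distrib]
      refine sum_congr rfl fun σ' _ => ?_
      ring
    rw [sum_congr rfl fun σ _ => h1 σ, sq, sum_mul_sum, sum_mul]
    refine (abs_sum_le_sum_abs _ _).trans (sum_le_sum fun σ _ => ?_)
    rw [sum_mul]
    exact (abs_sum_le_sum_abs _ _).trans (sum_le_sum fun σ' _ => hterm σ σ')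
  have hZ0 : 0 ≤ ∑ σ, Y σ ^ 2 / PH p (supp σ) :=
    sum_nonneg fun σ _ => div_nonneg (sq_nonneg _) (hPH _).le
  have hsumF : ∑ σ, |Y σ| = ∑ σ ∈ F, |Y σ| := by
    symm
    refine sum_subset (filter_subset _ _) fun σ _ hσ => ?_
    rw [abs_eq_zero]
    by_contra h
    exact hσ (mem_filter.2 ⟨mem_univ _, (hYs σ h).1⟩)
  have hsq : ∑ σ ∈ F, |Y σ| ^ 2 ≤ D * ∑ σ, Y σ ^ 2 / PH p (supp σ) := by
    rw [mul_sum]
    have h1 : ∑ σ ∈ F, |Y σ| ^ 2 ≤ ∑ σ ∈ F, D * (Y σ ^ 2 / PH p (supp σ)) := by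
      refine sum_le_sum fun σ hσ => ?_
      have h2 : PH p (supp σ) ≤ D := (hPHPP _).trans (mem_filter.1 hσ).2
      rw [sq_abs, ← mul_div_assoc, le_div_iff₀ (hPH _), mul_comm]
      exact mul_le_mul_of_nonneg_right h2 (sq_nonneg _)
    refine h1.trans (sum_le_sum_of_subset_of_nonneg (filter_subset _ _) fun σ _ _ => ?_)
    exact mul_nonneg hD (div_nonneg (sq_nonneg _) (hPH _).le)
  have hCS : (∑ σ, |Y σ|) ^ 2 ≤ 2 * D ^ 2 * (D * ∑ σ, Y σ ^ 2 / PH p (supp σ)) := by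
    rw [hsumF]
    refine (sq_sum_le_card_mul_sum_sq (s := F) (f := fun σ => |Y σ|)).trans ?_
    exact mul_le_mul hcnt hsq (sum_nonneg fun σ _ => sq_nonneg _) (by positivity)
  have herr2 : (∑ σ, |Y σ|) ^ 2 * (2 * D ^ 2) ≤
      4 * D ^ 5 * ∑ σ, Y σ ^ 2 / PH p (supp σ) := by
    calc (∑ σ, |Y σ|) ^ 2 * (2 * D ^ 2) ≤
        (2 * D ^ 2 * (D * ∑ σ, Y σ ^ 2 / PH p (supp σ))) * (2 * D ^ 2) :=
          mul_le_mul_of_nonneg_right hCS (by positivity)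
      _ = _ := by ring
  have hT0 : (0 : ℝ) ≤ T := Nat.cast_nonneg T
  have hq' : |T * ∑ σ, ∑ σ', Y σ * Y σ' * A σ σ' - T * ∑ σ, Y σ ^ 2 / PH p (supp σ)| ≤
      1 / 5 * (T * ∑ σ, Y σ ^ 2 / PH p (supp σ)) := by
    rw [← mul_sub, abs_mul, abs_of_nonneg hT0]
    calc (T : ℝ) * |∑ σ, ∑ σ', Y σ * Y σ' * A σ σ' - ∑ σ, Y σ ^ 2 / PH p (supp σ)| ≤
          T * (1 / 5 * ∑ σ, Y σ ^ 2 / PH p (supp σ)) := mul_le_mul_of_nonneg_left hq hT0
      _ = _ := by ring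
  rw [hexp]
  calc _ = |(∑ σ, ∑ σ', Y σ * Y σ' * ∑ t ∈ range T,
        EE p a σ (n0 + M * t) * EE p a σ' (n0 + M * t) -
      T * ∑ σ, ∑ σ', Y σ * Y σ' * A σ σ') + (T * ∑ σ, ∑ σ', Y σ * Y σ' * A σ σ' -
        T * ∑ σ, Y σ ^ 2 / PH p (supp σ))| := by
        congr 1
        ring
    _ ≤ _ := abs_add_le _ _
    _ ≤ 4 * D ^ 5 * ∑ σ, Y σ ^ 2 / PH p (supp σ) +
        1 / 5 * (T * ∑ σ, Y σ ^ 2 / PH p (supp σ)) :=
        add_le_add (herr.trans herr2) hq'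
    _ = _ := by ring

end Pool.Agent.RT
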