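import Pool.Agent.RT.NearR

/-! RT/NearT.  Upper bound on the `t` for which all `p i`, `i ∈ T`, divide `n0 + M t - a j`, for
coefficients `Y` of assignments avoiding `j`.

(1) The `t < N` in question form a subset of one class modulo `Π = ∏_{i∈T} p i` (`M` is invertible mod
`Π`): if there is none the sum is `0`; otherwise let `t0 < Π` be the residue of one of them; all of them
are `t0 + Π t'` with `t' < N/Π + 1` (natural division), and `n = n0 + M t0 + (M Π) t'`.  The sum over the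
class is at most the sum over all `t' < N/Π + 1` of the square of
`F(t') = ∑_σ Y σ EE σ (n0 + M t0 + (M Π) t')`; every such `n` is `≡ a j` mod `p i`, `i ∈ T`.
(2) At such `n`, for `i ∈ T`: `eo (p i) a n none = 1`, and for `σ i = some j'`, `j' ≠ j` (as
`cell σ j = ∅`): `p i ∤ n - a j'` (`hd`), so `eo = 1/(p i - 1)`.  Hence
`F = ∑_σ Y σ (∏_{i ∈ T ∩ supp σ} 1/(p i - 1)) EE (σ off T) n = ∑_ρ X ρ EE ρ n`, where
`σ off T = fun i => if i ∈ T then none else σ i` and `X ρ = ∑_{σ : σ off T = ρ} Y σ / PH (T ∩ supp σ)`.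
(3) Cauchy-Schwarz: `X ρ ^ 2 ≤ (∑_{σ off T = ρ} Y σ ^ 2/PH (T ∩ supp σ)) (∑_{σ off T = ρ} 1/PH (T ∩ supp σ))`
and the last sum is `∏_{i∈T} (1 + k/(p i - 1)) ≤ exp(1/6) ≤ 6/5` (for `ρ = none` on `T`; sum over
functions `T → Option κ`).  So
`∑_ρ X ρ ^ 2/PH (supp ρ) ≤ 6/5 ∑_σ Y σ ^ 2/(PH (T ∩ supp σ) PH (supp σ \ T)) = 6/5 ∑ Y^2/PH (supp σ)`.
(4) `near_R` with `R = T`, modulus `M Π`, `X` (support `⊆ supp σ \ T`, `PP ≤ D`):
`∑_{t'} F^2 ≤ (6/5 (N/Π + 1) + 4 D^5) ∑ X^2/PH`, and `(6/5)^2 ≤ 3/2`, `6/5 * 4 ≤ 5`. -/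

namespace Pool.Agent.RT

open Finset Pool.Agent.RS

variable {ι κ : Type} [Fintype ι] [DecidableEq ι] [DecidableEq κ] [Fintype κ]

/-- remove the coordinates in `T` -/
def off (T : Finset ι) (σ : ι → Option κ) : ι → Option κ := fun i => if i ∈ T then none else σ i

/-- the factor of the removed coordinates -/
private noncomputable def colW (p : ι → ℕ) (T : Finset ι) (σ : ι → Option κ) : ℝ :=
  ∏ i, if i ∈ T then (if σ i = none then 1 else ((p i : ℝ) - 1)⁻¹) else 1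

omit [Fintype ι] [DecidableEq ι] in
private theorem col_q {p : ι → ℕ} (hp : ∀ i, 2 ≤ p i) (i : ι) : (0 : ℝ) < (p i : ℝ) - 1 := by
  have h : (2 : ℝ) ≤ p i := by exact_mod_cast hp i
  linarith

omit [DecidableEq κ] [Fintype κ] in
private theorem colW_nonneg {p : ι → ℕ} (hp : ∀ i, 2 ≤ p i) (T : Finset ι)
    (σ : ι → Option κ) : 0 ≤ colW p T σ := by
  refine prod_nonneg fun i _ => ?_
  have := (col_q hp i).le
  split_ifs
  · norm_num
  · exact inv_nonneg.2 this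
  · norm_num

omit [DecidableEq κ] [Fintype κ] in
private theorem supp_off (T : Finset ι) (σ : ι → Option κ) : supp (off T σ) = supp σ \ T := by
  ext i
  rw [mem_supp, mem_sdiff, mem_supp]
  unfold off
  by_cases h : i ∈ T
  · simp [h]
  · simp [h]

omit [DecidableEq κ] [Fintype κ] in
private theorem colW_eq (p : ι → ℕ) (T : Finset ι) (σ : ι → Option κ) :
    colW p T σ = (PH p (T ∩ supp σ))⁻¹ := by
  unfold colW PH
  rw [← prod_inv_distrib]
  have h1 : ∏ i ∈ T ∩ supp σ, ((p i : ℝ) - 1)⁻¹ =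
      ∏ i, if i ∈ T ∩ supp σ then ((p i : ℝ) - 1)⁻¹ else 1 := by
    rw [Fintype.prod_ite_mem]
  rw [h1]
  refine prod_congr rfl fun i _ => ?_
  by_cases hT : i ∈ T
  · by_cases hs : σ i = none
    · have h2 : i ∉ T ∩ supp σ := by
        rw [mem_inter, mem_supp]
        exact fun h => h.2 hs
      rw [if_pos hT, if_pos hs, if_neg h2]
    · have h2 : i ∈ T ∩ supp σ := by
        rw [mem_inter, mem_supp]
        exact ⟨hT, hs⟩
      rw [if_pos hT, if_neg hs, if_pos h2]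
  · have h2 : i ∉ T ∩ supp σ := by
      rw [mem_inter]
      exact fun h => hT h.1
    rw [if_neg hT, if_neg h2]

omit [DecidableEq κ] [Fintype κ] in
private theorem colW_PH (p : ι → ℕ) (T : Finset ι) (σ : ι → Option κ) :
    colW p T σ / PH p (supp (off T σ)) = (PH p (supp σ))⁻¹ := by
  have h1 : PH p (supp σ) = PH p (T ∩ supp σ) * PH p (supp σ \ T) := by
    have h2 : supp σ = (T ∩ supp σ) ∪ (supp σ \ T) := by
      ext i
      simp only [mem_union, mem_inter, mem_sdiff]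
      tauto
    unfold PH
    conv_lhs => rw [h2]
    rw [prod_union]
    rw [disjoint_left]
    intro i h3 h4
    exact (mem_sdiff.1 h4).2 (mem_inter.1 h3).1
  rw [supp_off, colW_eq, h1, mul_inv, div_eq_mul_inv]

private theorem col_exp : Real.exp (1 / 6) ≤ 6 / 5 := by
  have h1 : (5 : ℝ) / 6 ≤ Real.exp (-(1 / 6)) := by
    have := Real.add_one_le_exp (-(1 / 6) : ℝ)
    linarith
  rw [Real.exp_neg] at h1
  have h2 := Real.exp_pos (1 / 6 : ℝ)
  rw [le_inv_comm₀ (by norm_num) h2] at h1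
  linarith [h1, (by norm_num : ((5 : ℝ) / 6)⁻¹ = 6 / 5)]

private theorem colW_sum {p : ι → ℕ} (hp : ∀ i, 2 ≤ p i) (T : Finset ι)
    (hT : ∑ i ∈ T, (Fintype.card κ : ℝ) / ((p i : ℝ) - 1) ≤ 1 / 6) (ρ : ι → Option κ) :
    ∑ σ ∈ univ.filter (fun σ => off T σ = ρ), colW p T σ ≤ 6 / 5 := by
  set S : ι → Finset (Option κ) := fun i => if i ∈ T then univ else {ρ i} with hS
  have h1 : univ.filter (fun σ => off T σ = ρ) ⊆ Fintype.piFinset S := by
    intro σ hσ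
    rw [mem_filter] at hσ
    rw [Fintype.mem_piFinset]
    intro i
    by_cases hi : i ∈ T
    · simp [hS, hi]
    · have h2 := congrFun hσ.2 i
      unfold off at h2
      rw [if_neg hi] at h2
      simp [hS, hi, h2]
  refine (sum_le_sum_of_subset_of_nonneg h1 fun σ _ _ => colW_nonneg hp T σ).trans ?_
  have h2 : ∑ σ ∈ Fintype.piFinset S, colW p T σ = ∏ i, ∑ o ∈ S i,
      (if i ∈ T then (if o = none then 1 else ((p i : ℝ) - 1)⁻¹) else 1) := by
    rw [prod_univ_sum]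
    rfl
  have h3 : ∀ i, ∑ o ∈ S i, (if i ∈ T then (if o = none then 1 else ((p i : ℝ) - 1)⁻¹) else 1) =
      if i ∈ T then 1 + (Fintype.card κ : ℝ) / ((p i : ℝ) - 1) else 1 := by
    intro i
    by_cases hi : i ∈ T
    · simp only [hS, hi, if_true]
      rw [Fintype.sum_option]
      simp [div_eq_mul_inv]
    · simp [hS, hi]
  rw [h2, prod_congr rfl fun i _ => h3 i, Fintype.prod_ite_mem]
  calc ∏ i ∈ T, (1 + (Fintype.card κ : ℝ) / ((p i : ℝ) - 1)) ≤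
      ∏ i ∈ T, Real.exp ((Fintype.card κ : ℝ) / ((p i : ℝ) - 1)) := by
        refine prod_le_prod (fun i _ => ?_) fun i _ => ?_
        · have := col_q hp i
          positivity
        · rw [add_comm]
          exact Real.add_one_le_exp _
    _ = Real.exp (∑ i ∈ T, (Fintype.card κ : ℝ) / ((p i : ℝ) - 1)) := (Real.exp_sum _ _).symm
    _ ≤ Real.exp (1 / 6) := Real.exp_le_exp.2 hT
    _ ≤ 6 / 5 := col_exp

omit [Fintype κ] in
private theorem col_EE {p : ι → ℕ} (a : κ → ℤ)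
    (hd : ∀ i j j', j ≠ j' → ¬ (p i : ℤ) ∣ a j - a j') (j : κ) (T : Finset ι)
    (σ : ι → Option κ) (hσ : cell σ j = ∅) (n : ℤ) (hn : ∀ i ∈ T, (p i : ℤ) ∣ n - a j) :
    EE p a σ n = colW p T σ * EE p a (off T σ) n := by
  unfold EE colW
  rw [← prod_mul_distrib]
  refine prod_congr rfl fun i _ => ?_
  by_cases hi : i ∈ T
  · rw [if_pos hi]
    have h1 : off T σ i = none := by
      unfold off
      rw [if_pos hi]
    rw [h1]
    rcases h2 : σ i with _ | j'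
    · simp [eo]
    · have hj : j' ≠ j := by
        rintro rfl
        have h3 : i ∈ cell σ j' := mem_cell.2 h2
        rw [hσ] at h3
        exact absurd h3 (notMem_empty i)
      have h4 : ¬ (p i : ℤ) ∣ n - a j' := by
        intro h5
        have h6 := dvd_sub (hn i hi) h5
        have h7 : n - a j - (n - a j') = a j' - a j := by ring
        rw [h7] at h6
        exact hd i j' j hj h6
      simp only [eo, ee, if_neg h4]
      simp
  · have h1 : off T σ i = σ i := by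
      unfold off
      rw [if_neg hi]
    rw [if_neg hi, one_mul, h1]

/-- steps (2), (3): collapse of the coordinates in `T` -/
theorem collapse {p : ι → ℕ} (hp : ∀ i, 2 ≤ p i) (a : κ → ℤ)
    (hd : ∀ i j j', j ≠ j' → ¬ (p i : ℤ) ∣ a j - a j') (j : κ) (T : Finset ι)
    (hT : ∑ i ∈ T, (Fintype.card κ : ℝ) / ((p i : ℝ) - 1) ≤ 1 / 6) {D : ℝ}
    (Y : (ι → Option κ) → ℝ) (hYs : ∀ σ, Y σ ≠ 0 → PP p (supp σ) ≤ D ∧ cell σ j = ∅) :
    ∃ X : (ι → Option κ) → ℝ,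
      (∀ ρ, X ρ ≠ 0 → PP p (supp ρ) ≤ D ∧ Disjoint (supp ρ) T) ∧
      ∑ ρ, X ρ ^ 2 / PH p (supp ρ) ≤ 6 / 5 * ∑ σ, Y σ ^ 2 / PH p (supp σ) ∧
      ∀ n : ℤ, (∀ i ∈ T, (p i : ℤ) ∣ n - a j) →
        ∑ σ, Y σ * EE p a σ n = ∑ ρ, X ρ * EE p a ρ n := by
  classical
  have hPH : ∀ S : Finset ι, 0 < PH p S := fun S => prod_pos fun i _ => col_q hp i
  have hPPmono : ∀ S S' : Finset ι, S ⊆ S' → PP p S ≤ PP p S' := by
    intro S S' h
    unfold PP
    rw [← prod_sdiff h]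
    have h0 : (0 : ℝ) ≤ ∏ i ∈ S, (p i : ℝ) := prod_nonneg fun i _ => Nat.cast_nonneg _
    refine le_mul_of_one_le_left h0 ?_
    have h1 : ∀ i ∈ S' \ S, (1 : ℝ) ≤ (p i : ℝ) := by
      intro i _
      have := hp i
      exact_mod_cast (by omega : 1 ≤ p i)
    calc (1 : ℝ) = ∏ _i ∈ S' \ S, (1 : ℝ) := by simp
      _ ≤ _ := prod_le_prod (fun _ _ => by norm_num) h1
  refine ⟨fun ρ => ∑ σ ∈ univ.filter (fun σ => off T σ = ρ), Y σ * colW p T σ, ?_, ?_, ?_⟩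
  · intro ρ hρ
    obtain ⟨σ, hσ, hσ0⟩ := exists_ne_zero_of_sum_ne_zero hρ
    rw [mem_filter] at hσ
    have hY : Y σ ≠ 0 := left_ne_zero_of_mul hσ0
    rw [← hσ.2, supp_off]
    refine ⟨(hPPmono _ _ sdiff_subset).trans (hYs σ hY).1, ?_⟩
    exact disjoint_sdiff_self_left
  · have h1 : ∀ ρ, (∑ σ ∈ univ.filter (fun σ => off T σ = ρ), Y σ * colW p T σ) ^ 2 /
        PH p (supp ρ) ≤ 6 / 5 * ∑ σ ∈ univ.filter (fun σ => off T σ = ρ),
          Y σ ^ 2 / PH p (supp σ) := by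
      intro ρ
      have h2 : (∑ σ ∈ univ.filter (fun σ => off T σ = ρ), Y σ * colW p T σ) ^ 2 ≤
          (∑ σ ∈ univ.filter (fun σ => off T σ = ρ), Y σ ^ 2 * colW p T σ) *
            ∑ σ ∈ univ.filter (fun σ => off T σ = ρ), colW p T σ := by
        refine sum_sq_le_sum_mul_sum_of_sq_le_mul _ (fun σ _ => ?_) (fun σ _ => ?_)
          fun σ _ => le_of_eq ?_
        · exact mul_nonneg (sq_nonneg _) (colW_nonneg hp T σ)
        · exact colW_nonneg hp T σ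
        · ring
      have h3 : 0 ≤ ∑ σ ∈ univ.filter (fun σ => off T σ = ρ), Y σ ^ 2 * colW p T σ :=
        sum_nonneg fun σ _ => mul_nonneg (sq_nonneg _) (colW_nonneg hp T σ)
      have h4 := h2.trans (mul_le_mul_of_nonneg_left (colW_sum hp T hT ρ) h3)
      rw [div_le_iff₀ (hPH _)]
      refine h4.trans (le_of_eq ?_)
      rw [mul_comm, mul_assoc, sum_mul]
      congr 1
      refine sum_congr rfl fun σ hσ => ?_
      rw [mem_filter] at hσ
      have h5 := colW_PH p T σ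
      rw [hσ.2] at h5
      rw [div_eq_mul_inv (Y σ ^ 2), ← h5]
      have := (hPH (supp ρ)).ne'
      field_simp
    refine (sum_le_sum fun ρ _ => h1 ρ).trans (le_of_eq ?_)
    rw [← mul_sum]
    congr 1
    exact sum_fiberwise univ (fun σ => off T σ) fun σ => Y σ ^ 2 / PH p (supp σ)
  · intro n hn
    have h1 : ∀ σ, Y σ * EE p a σ n = Y σ * colW p T σ * EE p a (off T σ) n := by
      intro σ
      by_cases hY : Y σ = 0
      · rw [hY]
        ring
      · rw [col_EE a hd j T σ (hYs σ hY).2 n hn]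
        ring
    rw [sum_congr rfl fun σ _ => h1 σ,
      ← sum_fiberwise univ (fun σ => off T σ) fun σ => Y σ * colW p T σ * EE p a (off T σ) n]
    refine sum_congr rfl fun ρ _ => ?_
    rw [sum_mul]
    refine sum_congr rfl fun σ hσ => ?_
    rw [mem_filter] at hσ
    rw [hσ.2]

omit [Fintype ι] [DecidableEq ι] [Fintype κ] [DecidableEq κ] in
/-- the `t` with all `p i ∣ n0 + M t - a j` lie in one class modulo `∏ p i` -/
theorem class_T {p : ι → ℕ} {M : ℕ} (hc : ∀ i j, i ≠ j → Nat.Coprime (p i) (p j))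
    (hM : ∀ i, Nat.Coprime M (p i)) (n0 b : ℤ) (T : Finset ι) (t t1 : ℕ)
    (h : ∀ i ∈ T, (p i : ℤ) ∣ n0 + M * t - b) (h1 : ∀ i ∈ T, (p i : ℤ) ∣ n0 + M * t1 - b) :
    t % (∏ i ∈ T, p i) = t1 % (∏ i ∈ T, p i) := by
  have h2 : ∀ i ∈ T, (p i : ℤ) ∣ (t : ℤ) - t1 := by
    intro i hi
    have h3 : (p i : ℤ) ∣ (M : ℤ) * ((t : ℤ) - t1) := by
      have h4 := dvd_sub (h i hi) (h1 i hi)
      have h5 : (n0 + (M : ℤ) * t - b) - (n0 + M * t1 - b) = (M : ℤ) * ((t : ℤ) - t1) := by ring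
      rwa [h5] at h4
    have h6 : IsCoprime (p i : ℤ) (M : ℤ) := Nat.isCoprime_iff_coprime.mpr (hM i).symm
    exact h6.dvd_of_dvd_mul_left h3
  have h7 : ((∏ i ∈ T, p i : ℕ) : ℤ) ∣ (t : ℤ) - t1 := by
    rw [Nat.cast_prod]
    refine Finset.prod_dvd_of_coprime ?_ h2
    intro i _ j _ hij
    exact Nat.isCoprime_iff_coprime.mpr (hc i j hij)
  have h8 : ((t1 : ℤ) : ℤ) ≡ (t : ℤ) [ZMOD ((∏ i ∈ T, p i : ℕ) : ℤ)] :=
    (Int.modEq_iff_dvd).mpr h7
  have h9 : t1 ≡ t [MOD (∏ i ∈ T, p i)] := (Int.natCast_modEq_iff).mp h8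
  exact h9.symm

open Classical in
theorem near_T {p : ι → ℕ} {M : ℕ} (hp : ∀ i, 2 ≤ p i)
    (hc : ∀ i j, i ≠ j → Nat.Coprime (p i) (p j)) (hM : ∀ i, Nat.Coprime M (p i)) (n0 : ℤ)
    (a : κ → ℤ) (hd : ∀ i j j', j ≠ j' → ¬ (p i : ℤ) ∣ a j - a j')
    (hk : ∑ i, (Fintype.card κ : ℝ) / (p i : ℝ) ^ 2 ≤ 1 / 2) {D : ℝ} (hD : 0 ≤ D)
    (hN : ∀ S : Finset ι, PP p S ≤ D →
      ∑ i ∈ S, (Fintype.card κ : ℝ) / ((p i : ℝ) - 1) ≤ 1 / 6)
    (j : κ) (T : Finset ι) (hT : ∑ i ∈ T, (Fintype.card κ : ℝ) / ((p i : ℝ) - 1) ≤ 1 / 6)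
    (Y : (ι → Option κ) → ℝ) (hYs : ∀ σ, Y σ ≠ 0 → PP p (supp σ) ≤ D ∧ cell σ j = ∅) (N : ℕ) :
    ∑ t ∈ (range N).filter (fun t : ℕ => ∀ i ∈ T, (p i : ℤ) ∣ n0 + M * t - a j),
        (∑ σ, Y σ * EE p a σ (n0 + M * t)) ^ 2 ≤
      (3 / 2 * (N / PP p T + 1) + 5 * D ^ 5) * ∑ σ, Y σ ^ 2 / PH p (supp σ) := by
  have hp1 : ∀ i, (0 : ℝ) < (p i : ℝ) - 1 := by
    intro i
    have : (2 : ℝ) ≤ p i := by exact_mod_cast hp i
    linarith
  have hPH : ∀ S : Finset ι, 0 < PH p S := fun S => prod_pos fun i _ => hp1 i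
  have hSY : 0 ≤ ∑ σ, Y σ ^ 2 / PH p (supp σ) :=
    sum_nonneg fun σ _ => div_nonneg (sq_nonneg _) (hPH _).le
  have hPi0 : 0 < ∏ i ∈ T, p i := prod_pos fun i _ => by have := hp i; omega
  have hPP : PP p T = ((∏ i ∈ T, p i : ℕ) : ℝ) := by
    unfold PP
    rw [Nat.cast_prod]
  have hPPpos : 0 < PP p T := by
    rw [hPP]
    exact_mod_cast hPi0
  have hNT : (0 : ℝ) ≤ N / PP p T := div_nonneg (Nat.cast_nonneg _) hPPpos.le
  have hD5 : 0 ≤ D ^ 5 := pow_nonneg hD 5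
  by_cases hne : ((range N).filter
      (fun t : ℕ => ∀ i ∈ T, (p i : ℤ) ∣ n0 + M * t - a j)).Nonempty
  swap
  · rw [Finset.not_nonempty_iff_eq_empty] at hne
    rw [hne, sum_empty]
    positivity
  obtain ⟨t1, ht1⟩ := hne
  have ht1' := (mem_filter.mp ht1).2
  set Q : ℕ := ∏ i ∈ T, p i with hQdef
  set t0 : ℕ := t1 % Q with ht0
  obtain ⟨X, hX1, hX2, hX3⟩ := collapse hp a hd j T hT Y hYs
  -- every `n` of the class has the divisibility pattern
  have hdiv : ∀ t' : ℕ, ∀ i ∈ T, (p i : ℤ) ∣ (n0 + M * t0) + ((M * Q : ℕ) : ℤ) * t' - a j := by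
    intro t' i hi
    have h1 := ht1' i hi
    have h2 : (p i : ℤ) ∣ (Q : ℤ) := by
      exact_mod_cast (Finset.dvd_prod_of_mem p hi)
    have h3 : (t1 : ℤ) = t0 + Q * (t1 / Q : ℕ) := by
      have := Nat.mod_add_div t1 Q
      exact_mod_cast this.symm
    have h4 : (n0 + (M : ℤ) * t0) + ((M * Q : ℕ) : ℤ) * t' - a j =
        (n0 + M * t1 - a j) + (Q : ℤ) * ((M : ℤ) * ((t' : ℤ) - (t1 / Q : ℕ))) := by
      rw [h3]
      push_cast
      ring
    rw [h4]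
    exact dvd_add h1 (h2.mul_right _)
  -- the elements of the filter
  have hmem : ∀ t ∈ (range N).filter (fun t : ℕ => ∀ i ∈ T, (p i : ℤ) ∣ n0 + M * t - a j),
      t = t0 + Q * (t / Q) := by
    intro t ht
    have h1 := class_T hc hM n0 (a j) T t t1 (mem_filter.mp ht).2 ht1'
    have h2 := Nat.mod_add_div t Q
    rw [← hQdef] at h1
    rw [h1] at h2
    exact h2.symm
  have hstep : ∑ t ∈ (range N).filter (fun t : ℕ => ∀ i ∈ T, (p i : ℤ) ∣ n0 + M * t - a j),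
        (∑ σ, Y σ * EE p a σ (n0 + M * t)) ^ 2 ≤
      ∑ t' ∈ range (N / Q + 1),
        (∑ ρ, X ρ * EE p a ρ ((n0 + M * t0) + ((M * Q : ℕ) : ℤ) * t')) ^ 2 := by
    have h1 : ∑ t ∈ (range N).filter (fun t : ℕ => ∀ i ∈ T, (p i : ℤ) ∣ n0 + M * t - a j),
        (∑ σ, Y σ * EE p a σ (n0 + M * t)) ^ 2 =
        ∑ t' ∈ ((range N).filter
          (fun t : ℕ => ∀ i ∈ T, (p i : ℤ) ∣ n0 + M * t - a j)).image (fun t => t / Q),
        (∑ ρ, X ρ * EE p a ρ ((n0 + M * t0) + ((M * Q : ℕ) : ℤ) * t')) ^ 2 := by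
      rw [sum_image]
      · refine sum_congr rfl fun t ht => ?_
        have h2 := hmem t ht
        have h3 : n0 + (M : ℤ) * t = (n0 + M * t0) + ((M * Q : ℕ) : ℤ) * (t / Q : ℕ) := by
          have h4 : (t : ℤ) = t0 + Q * (t / Q : ℕ) := by exact_mod_cast h2
          conv_lhs => rw [h4]
          push_cast
          ring
        rw [h3, hX3 _ (hdiv (t / Q))]
      · intro t ht t' ht' hh
        have h2 := hmem t ht
        have h3 := hmem t' ht'
        have hh' : t / Q = t' / Q := hh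
        rw [h2, h3, hh']
    rw [h1]
    refine sum_le_sum_of_subset_of_nonneg ?_ fun _ _ _ => sq_nonneg _
    intro t' ht'
    obtain ⟨t, ht, rfl⟩ := mem_image.mp ht'
    have h2 := mem_range.mp (mem_filter.mp ht).1
    exact mem_range.mpr (Nat.lt_succ_of_le (Nat.div_le_div_right h2.le))
  have hMQ : ∀ i, i ∉ T → Nat.Coprime (M * Q) (p i) := by
    intro i hi
    refine Nat.Coprime.mul_left (hM i) ?_
    refine Nat.Coprime.prod_left fun l hl => ?_
    exact hc l i (fun h => hi (h ▸ hl))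
  have hnear := near_R hp hc T hMQ (n0 + M * t0) a hd hk hD hN X hX1 (N / Q + 1)
  have hup := (abs_le.mp hnear).2
  set SX : ℝ := ∑ ρ, X ρ ^ 2 / PH p (supp ρ) with hSX
  set SY : ℝ := ∑ σ, Y σ ^ 2 / PH p (supp σ) with hSYdef
  have hSX0 : 0 ≤ SX := sum_nonneg fun σ _ => div_nonneg (sq_nonneg _) (hPH _).le
  have hcast : (((N / Q + 1 : ℕ) : ℝ)) ≤ N / PP p T + 1 := by
    rw [hPP]
    push_cast
    have := @Nat.cast_div_le ℝ _ _ _ N Q
    linarith
  have h1 : ∑ t' ∈ range (N / Q + 1),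
        (∑ ρ, X ρ * EE p a ρ ((n0 + M * t0) + ((M * Q : ℕ) : ℤ) * t')) ^ 2 ≤
      (6 / 5 * (N / PP p T + 1) + 4 * D ^ 5) * SX := by
    have h2 : ((N / Q + 1 : ℕ) : ℝ) * SX ≤ (N / PP p T + 1) * SX :=
      mul_le_mul_of_nonneg_right hcast hSX0
    nlinarith
  refine hstep.trans (h1.trans ?_)
  have h3 : (6 / 5 * ((N : ℝ) / PP p T + 1) + 4 * D ^ 5) * SX ≤
      (6 / 5 * (N / PP p T + 1) + 4 * D ^ 5) * (6 / 5 * SY) :=
    mul_le_mul_of_nonneg_left hX2 (by positivity)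
  refine h3.trans ?_
  have h4 : (6 / 5 * ((N : ℝ) / PP p T + 1) + 4 * D ^ 5) * (6 / 5 * SY) =
      (36 / 25 * (N / PP p T + 1) + 24 / 5 * D ^ 5) * SY := by ring
  rw [h4]
  refine mul_le_mul_of_nonneg_right ?_ hSY
  nlinarith

end Pool.Agent.RT
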