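import Pool.Agent.RT.Cube

/-! RT/NumOp.  The number operator inequality `number_op` for functions of degree `≤ d` on a
product space, by induction on the set of coordinates, and its consequence `weight_le` for the
weighted sum over the chosen coordinates. -/

namespace Pool.Agent.RT

open Finset

variable {ι : Type} [DecidableEq ι]

private theorem nop_erase {P S : Finset ι} {p : ι} (hp : p ∉ P) (hS : S ⊆ P) : S.erase p = S :=
  erase_eq_of_notMem fun h => hp (hS h)

private theorem nop_sq (q : ι → ℝ) {P : Finset ι} {p : ι} (hp : p ∉ P) (f : Finset ι → ℝ) :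
    Ex q (insert p P) (fun S => f S ^ 2) =
      Ex q P (fun S => (f S + q p * Dd p f S) ^ 2) +
        q p * (1 - q p) * Ex q P (fun S => Dd p f S ^ 2) := by
  rw [Ex_insert hp, ← Ex_smul, ← Ex_add]
  refine Ex_congr fun S hS => ?_
  simp only [Dd, nop_erase hp hS]
  ring

private theorem nop_self (q : ι → ℝ) {P : Finset ι} {p : ι} (hp : p ∉ P) (f : Finset ι → ℝ) :
    Ex q (insert p P) (fun S => Dd p f S ^ 2) = Ex q P (fun S => Dd p f S ^ 2) := by
  rw [nop_sq q hp]
  have h1 : ∀ S, S ⊆ P → Dd p (Dd p f) S = 0 := by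
    intro S hS
    change Dd p f (insert p S) - Dd p f (S.erase p) = 0
    rw [Dd_insert, nop_erase hp hS, sub_self]
  have h2 : Ex q P (fun S => (Dd p f S + q p * Dd p (Dd p f) S) ^ 2) =
      Ex q P (fun S => Dd p f S ^ 2) := by
    refine Ex_congr fun S hS => ?_
    rw [h1 S hS, mul_zero, add_zero]
  have h3 : Ex q P (fun S => Dd p (Dd p f) S ^ 2) = 0 := by
    have h4 : Ex q P (fun S => Dd p (Dd p f) S ^ 2) = Ex q P (fun _ => (0 : ℝ)) := by
      refine Ex_congr fun S hS => ?_
      rw [h1 S hS]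
      norm_num
    rw [h4, Ex_const]
  rw [h2, h3, mul_zero, add_zero]

theorem number_op {q : ι → ℝ} (h0 : ∀ i, 0 ≤ q i) (h1 : ∀ i, q i ≤ 1) (P : Finset ι) (d : ℕ)
    (f : Finset ι → ℝ) (hf : DegLe d f) :
    ∑ i ∈ P, q i * (1 - q i) * Ex q P (fun S => Dd i f S ^ 2) ≤
      d * Ex q P (fun S => f S ^ 2) := by
  induction P using Finset.induction_on generalizing d f with
  | empty =>
    rw [sum_empty]
    exact mul_nonneg (Nat.cast_nonneg _) (Ex_nonneg h0 h1 fun S _ => sq_nonneg _)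
  | insert p P hp ih =>
    rcases d with _ | d
    · have hz : ∀ i S, Dd i f S = 0 := by
        intro i S
        change f (insert i S) - f (S.erase i) = 0
        rw [hf (insert i S), hf (S.erase i), sub_self]
      rw [Nat.cast_zero, zero_mul]
      apply le_of_eq
      refine sum_eq_zero fun i _ => ?_
      have h2 : Ex q (insert p P) (fun S => Dd i f S ^ 2) = 0 := by
        have h3 : Ex q (insert p P) (fun S => Dd i f S ^ 2) =
            Ex q (insert p P) (fun _ => (0 : ℝ)) := by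
          refine Ex_congr fun S _ => ?_
          rw [hz]
          norm_num
        rw [h3, Ex_const]
      rw [h2, mul_zero]
    · set g : Finset ι → ℝ := Dd p f with hg
      set h : Finset ι → ℝ := fun S => f S + q p * g S with hh
      have hgd : DegLe d g := hf p
      have hhd : DegLe (d + 1) h := hf.add (hgd.succ.smul (q p))
      have e1 : ∀ i, Ex q (insert p P) (fun S => Dd i f S ^ 2) =
          Ex q P (fun S => Dd i h S ^ 2) +
            q p * (1 - q p) * Ex q P (fun S => Dd i g S ^ 2) := by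
        intro i
        rw [nop_sq q hp]
        have h2 : Dd i h = fun S => Dd i f S + q p * Dd p (Dd i f) S := by
          rw [hh, Dd_add, Dd_smul, hg, Dd_comm i p f]
        have h3 : Dd p (Dd i f) = Dd i g := by
          rw [hg, Dd_comm]
        rw [h2, h3]
      have e2 : Ex q (insert p P) (fun S => Dd p f S ^ 2) = Ex q P (fun S => g S ^ 2) :=
        nop_self q hp f
      have e3 : Ex q (insert p P) (fun S => f S ^ 2) = Ex q P (fun S => h S ^ 2) +
          q p * (1 - q p) * Ex q P (fun S => g S ^ 2) := nop_sq q hp f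
      have i1 := ih (d + 1) h hhd
      have i2 := ih d g hgd
      rw [sum_insert hp, e2, e3]
      have e4 : ∑ i ∈ P, q i * (1 - q i) * Ex q (insert p P) (fun S => Dd i f S ^ 2) =
          ∑ i ∈ P, q i * (1 - q i) * Ex q P (fun S => Dd i h S ^ 2) +
            q p * (1 - q p) *
              ∑ i ∈ P, q i * (1 - q i) * Ex q P (fun S => Dd i g S ^ 2) := by
        rw [mul_sum, ← sum_add_distrib]
        refine sum_congr rfl fun i _ => ?_
        rw [e1 i]
        ring
      rw [e4]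
      have hc : 0 ≤ q p * (1 - q p) := mul_nonneg (h0 p) (by linarith [h1 p])
      have i3 := mul_le_mul_of_nonneg_left i2 hc
      push_cast at i1 ⊢
      nlinarith [i1, i3]

private theorem nop_one {q : ι → ℝ} (h0 : ∀ i, 0 ≤ q i) (h1 : ∀ i, q i ≤ 1) {P : Finset ι}
    {i : ι} (hi : i ∈ P) (f : Finset ι → ℝ) :
    Ex q P (fun S => if i ∈ S then f S ^ 2 else 0) ≤
      2 * q i * Ex q P (fun S => f S ^ 2) +
        2 * (q i * (1 - q i)) * Ex q P (fun S => Dd i f S ^ 2) := by
  obtain ⟨Q, hQ, rfl⟩ : ∃ Q, i ∉ Q ∧ insert i Q = P :=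
    ⟨P.erase i, notMem_erase _ _, insert_erase hi⟩
  rw [nop_self q hQ f, nop_sq q hQ f, Ex_insert hQ]
  have ha := h0 i
  have hb := h1 i
  have e1 : Ex q Q (fun S => (if i ∈ S then f S ^ 2 else 0) +
      q i * Dd i (fun S => if i ∈ S then f S ^ 2 else 0) S) ≤
      Ex q Q (fun S => 2 * q i * (f S + q i * Dd i f S) ^ 2 +
        2 * q i * (1 - q i) ^ 2 * Dd i f S ^ 2) := by
    refine Ex_mono h0 h1 fun S hS => ?_
    have hiS : i ∉ S := fun h => hQ (hS h)
    simp only [Dd, nop_erase hQ hS, if_neg hiS, mem_insert_self, if_true, sub_zero, zero_add]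
    nlinarith [mul_nonneg ha (sq_nonneg ((f S + q i * (f (insert i S) - f S)) -
      (1 - q i) * (f (insert i S) - f S)))]
  refine e1.trans ?_
  rw [Ex_add, Ex_smul, Ex_smul]
  have hG : 0 ≤ Ex q Q (fun S => Dd i f S ^ 2) := Ex_nonneg h0 h1 fun S _ => sq_nonneg _
  have h3 : 0 ≤ q i * (1 - q i) := mul_nonneg ha (by linarith)
  have h4 : 0 ≤ q i * (1 - q i) * Ex q Q (fun S => Dd i f S ^ 2) := mul_nonneg h3 hG
  have h5 : 0 ≤ q i * (q i * (1 - q i) * Ex q Q (fun S => Dd i f S ^ 2)) := mul_nonneg ha h4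
  nlinarith [h4, h5]

theorem weight_le {q : ι → ℝ} (h0 : ∀ i, 0 ≤ q i) (h1 : ∀ i, q i ≤ 1) (P : Finset ι) (d : ℕ)
    (f : Finset ι → ℝ) (hf : DegLe d f) (l : ι → ℝ) {v v' : ℝ} (hl0 : ∀ i ∈ P, 0 ≤ l i)
    (hlv : ∀ i ∈ P, l i ≤ v) (hv' : ∑ i ∈ P, q i * l i ≤ v') (hv : 0 ≤ v) :
    Ex q P (fun S => f S ^ 2 * ∑ i ∈ S, l i) ≤
      (2 * v' + 2 * d * v) * Ex q P (fun S => f S ^ 2) := by
  have hE : 0 ≤ Ex q P (fun S => f S ^ 2) := Ex_nonneg h0 h1 fun S _ => sq_nonneg _
  have e1 : Ex q P (fun S => f S ^ 2 * ∑ i ∈ S, l i) =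
      ∑ i ∈ P, l i * Ex q P (fun S => if i ∈ S then f S ^ 2 else 0) := by
    have e2 : Ex q P (fun S => f S ^ 2 * ∑ i ∈ S, l i) =
        Ex q P (fun S => ∑ i ∈ P, l i * (if i ∈ S then f S ^ 2 else 0)) := by
      refine Ex_congr fun S hS => ?_
      rw [mul_sum, ← sum_subset hS (f := fun i => l i * (if i ∈ S then f S ^ 2 else 0))]
      · refine sum_congr rfl fun i hi => ?_
        rw [if_pos hi, mul_comm]
      · intro i _ hi
        rw [if_neg hi, mul_zero]
    rw [e2, Ex_sum]
    refine sum_congr rfl fun i _ => ?_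
    rw [Ex_smul]
  rw [e1]
  have e3 : ∑ i ∈ P, l i * Ex q P (fun S => if i ∈ S then f S ^ 2 else 0) ≤
      ∑ i ∈ P, (2 * Ex q P (fun S => f S ^ 2) * (q i * l i) +
        2 * v * (q i * (1 - q i) * Ex q P (fun S => Dd i f S ^ 2))) := by
    refine sum_le_sum fun i hi => ?_
    have h2 := mul_le_mul_of_nonneg_left (nop_one h0 h1 hi f) (hl0 i hi)
    have h3 : 0 ≤ q i * (1 - q i) * Ex q P (fun S => Dd i f S ^ 2) :=
      mul_nonneg (mul_nonneg (h0 i) (by linarith [h1 i]))
        (Ex_nonneg h0 h1 fun S _ => sq_nonneg _)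
    have h4 := mul_le_mul_of_nonneg_right (hlv i hi) h3
    nlinarith [h2, h4]
  refine e3.trans ?_
  rw [sum_add_distrib, ← mul_sum, ← mul_sum]
  have h5 := number_op h0 h1 P d f hf
  have h6 := mul_le_mul_of_nonneg_left hv' hE
  have h7 := mul_le_mul_of_nonneg_left h5 hv
  nlinarith [h6, h7]

end Pool.Agent.RT
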