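import Pool.Agent.RS.Rough

/-! RT/SBase.  Weights depending on the element, and the function `g` at an integer `n` with exact
divisibility pattern `T` for the element `j`.

If `n - a j` is divisible by `p i` exactly for `i ∈ T` then the factor `∏_{i∈S} ee (p i) (n - a j)` is
`(1/PH S) ∏_{i ∈ S ∩ T} (1 - p i)`; the cell of `j` is summed out with `RS.decomp`. -/

namespace Pool.Agent.RT

open Finset Pool.Agent.RS

variable {ι κ : Type} [Fintype ι] [DecidableEq ι] [DecidableEq κ]

/-- the truncated sum at `U` for the pattern `T` -/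
noncomputable def cT (p : ι → ℕ) (f : Finset ι → ℝ) (D : ℝ) (T U : Finset ι) : ℝ :=
  open Classical in ∑ S ∈ (univ \ U).powerset, if PP p S * PP p U ≤ D then
    f S / PH p S * ∏ i ∈ S ∩ T, (1 - (p i : ℝ)) else 0

variable [Fintype κ]

/-- the untruncated weight `∏_j y_j (cell j)` -/
noncomputable def Yt (y : κ → Finset ι → ℝ) (σ : ι → Option κ) : ℝ := ∏ j, y j (cell σ j)

/-- the truncated weight -/
noncomputable def Yd (p : ι → ℕ) (y : κ → Finset ι → ℝ) (D : ℝ) (σ : ι → Option κ) : ℝ :=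
  open Classical in if PP p (supp σ) ≤ D then Yt y σ else 0

/-- coefficients of `g` at `n` with pattern `T` for `j` -/
noncomputable def ZT (p : ι → ℕ) (y : κ → Finset ι → ℝ) (D : ℝ) (j : κ) (T : Finset ι)
    (σ : ι → Option κ) : ℝ :=
  open Classical in if cell σ j = ∅ then Yt y σ * cT p (y j) D T (supp σ) else 0

theorem Yt_split (y : κ → Finset ι → ℝ) (hy0 : ∀ j, y j ∅ = 1) (σ : ι → Option κ) (m : κ) :
    Yt y σ = y m (cell σ m) * Yt y (era σ m) := by
  unfold Yt
  rw [← mul_prod_erase univ _ (mem_univ m), ← mul_prod_erase univ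
    (fun j => y j (cell (era σ m) j)) (mem_univ m), cell_era_self, hy0, one_mul]
  congr 1
  refine prod_congr rfl fun j hj => ?_
  rw [cell_era_of_ne σ (mem_erase.mp hj).1]


theorem cT_eq_zero {p : ι → ℕ} (hp : ∀ i, 2 ≤ p i) (f : Finset ι → ℝ) {D : ℝ} (T : Finset ι)
    {U : Finset ι} (hU : D < PP p U) : cT p f D T U = 0 := by
  classical
  unfold cT
  apply Finset.sum_eq_zero
  intro S _
  rw [if_neg]
  intro h
  have h1 := one_le_PP hp S
  have h2 := one_le_PP hp U
  nlinarith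


theorem ZT_eq {p : ι → ℕ} (hp : ∀ i, 2 ≤ p i) (y : κ → Finset ι → ℝ) (D : ℝ) (j : κ)
    (T : Finset ι) (σ : ι → Option κ) (h : cell σ j = ∅) :
    ZT p y D j T σ = Yd p y D σ * cT p (y j) D T (supp σ) := by
  classical
  unfold ZT Yd
  rw [if_pos h]
  by_cases hD : PP p (supp σ) ≤ D
  · rw [if_pos hD]
  · rw [if_neg hD, cT_eq_zero hp (y j) T (lt_of_not_ge hD), mul_zero, mul_zero]


theorem ZT_supp {p : ι → ℕ} (hp : ∀ i, 2 ≤ p i) (y : κ → Finset ι → ℝ) {D : ℝ} (j : κ)
    (T : Finset ι) (σ : ι → Option κ) (h : ZT p y D j T σ ≠ 0) :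
    PP p (supp σ) ≤ D ∧ cell σ j = ∅ := by
  classical
  unfold ZT at h
  by_cases hc : cell σ j = ∅
  · rw [if_pos hc] at h
    refine ⟨?_, hc⟩
    by_contra hcon
    rw [cT_eq_zero hp (y j) T (lt_of_not_ge hcon), mul_zero] at h
    exact h rfl
  · rw [if_neg hc] at h
    exact absurd rfl h


open Classical in
theorem rough_T {p : ι → ℕ} (hp : ∀ i, 2 ≤ p i) (a : κ → ℤ) (y : κ → Finset ι → ℝ)
    (hy0 : ∀ j, y j ∅ = 1) (D : ℝ) (j : κ) (n : ℤ) :
    ∑ σ, Yd p y D σ * EE p a σ n =
      ∑ σ, ZT p y D j (univ.filter (fun i => (p i : ℤ) ∣ n - a j)) σ * EE p a σ n := by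
  have hee : ∀ S : Finset ι, ∏ i ∈ S, ee (p i) (n - a j) = 1 / PH p S *
      ∏ i ∈ S ∩ univ.filter (fun i => (p i : ℤ) ∣ n - a j), (1 - (p i : ℝ)) := by
    intro S
    rw [← Finset.prod_ite_mem, PH, one_div, ← Finset.prod_inv_distrib, ← Finset.prod_mul_distrib]
    refine Finset.prod_congr rfl fun i _ => ?_
    have h1 : (2 : ℝ) ≤ (p i : ℝ) := by exact_mod_cast hp i
    have h2 : (p i : ℝ) - 1 ≠ 0 := by
      intro h
      linarith
    unfold ee
    by_cases hd : (p i : ℤ) ∣ n - a j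
    · have hm : i ∈ univ.filter (fun i => (p i : ℤ) ∣ n - a j) :=
        mem_filter.2 ⟨mem_univ _, hd⟩
      rw [if_pos hd, if_pos hm]
      field_simp
      ring
    · have hm : i ∉ univ.filter (fun i => (p i : ℤ) ∣ n - a j) := fun h =>
        hd (mem_filter.1 h).2
      rw [if_neg hd, if_neg hm, mul_one, one_div]
  have hL : ∑ σ, Yd p y D σ * EE p a σ n =
      ∑ σ : ι → Option κ, (fun (s : ι → Option κ) (S : Finset ι) =>
        if PP p S * PP p (supp s) ≤ D then y j S * Yt y s * ((1 / PH p S *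
          ∏ i ∈ S ∩ univ.filter (fun i => (p i : ℤ) ∣ n - a j), (1 - (p i : ℝ))) * EE p a s n)
        else 0) (era σ j) (cell σ j) := by
    apply Finset.sum_congr rfl
    intro σ _
    unfold Yd
    simp only
    rw [PP_supp_split p σ j]
    by_cases h : PP p (cell σ j) * PP p (supp (era σ j)) ≤ D
    · rw [if_pos h, if_pos h, Yt_split y hy0 σ j, EE_split p a σ j n, hee]
    · rw [if_neg h, if_neg h, zero_mul]
  rw [hL]
  refine (decomp j (fun (s : ι → Option κ) (S : Finset ι) =>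
        if PP p S * PP p (supp s) ≤ D then y j S * Yt y s * ((1 / PH p S *
          ∏ i ∈ S ∩ univ.filter (fun i => (p i : ℤ) ∣ n - a j), (1 - (p i : ℝ))) * EE p a s n)
        else 0)).trans ?_
  rw [Finset.sum_filter]
  apply Finset.sum_congr rfl
  intro σ _
  unfold ZT
  by_cases hc : cell σ j = ∅
  · rw [if_pos hc, if_pos hc]
    unfold cT
    rw [Finset.mul_sum, Finset.sum_mul]
    apply Finset.sum_congr rfl
    intro S _
    by_cases h : PP p S * PP p (supp σ) ≤ D
    · simp only [if_pos h]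
      ring
    · simp only [if_neg h]
      ring
  · rw [if_neg hc, if_neg hc, zero_mul]


end Pool.Agent.RT
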