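import Pool.Agent.RT.Cube
import Pool.Agent.RT.Dual
import Pool.Agent.RS.Rough

/-! RT/Wgt.  The weights, from duality.

`Ω = {S // S ≠ ∅ ∧ PP p S ≤ S1}`, `w S = 1/(PH S log PP S) > 0` (`PP S ≥ 2`), `e = 1`,
`K = {T // T ≠ ∅ ∧ T.card ≤ d}` (a finite type), `v T S = if T ⊆ S then 1 else 0`.  For `c : K → ℝ`
the function `u S = 1 + ∑_T c_T 1_{T ⊆ S}` has `DegLe d u` (`DegLe_const`, `DegLe.add`, `DegLe.sum`,
`DegLe.smul`, `DegLe_ind`) and `u ∅ = 1`, so `dual` applies and gives `g`.  Put `y ∅ = 1`,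
`y S = - g S / log (PP S)` for `S ∈ Ω`, `y S = 0` otherwise.  For `T ≠ ∅`, `|T| ≤ d`:
`∑_{S ⊇ T} y/PH = -∑_Ω w g v_T = 0`; `T = ∅`: `1 - ∑_Ω w g = 0`;
energy `= ∑_Ω g^2/(PH log PP) ≤ 1/Q`. -/

namespace Pool.Agent.RT

open Finset Pool.Agent.RS

private lemma PH_pos {ι : Type} [Fintype ι] [DecidableEq ι] {p : ι → ℕ} (hp : ∀ i, 2 ≤ p i)
    (S : Finset ι) : 0 < PH p S := by
  unfold PH
  apply Finset.prod_pos
  intro i _
  have : (2 : ℝ) ≤ p i := by exact_mod_cast hp i
  linarith

private lemma PP_ge_two {ι : Type} [Fintype ι] [DecidableEq ι] {p : ι → ℕ} (hp : ∀ i, 2 ≤ p i)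
    {S : Finset ι} (hS : S ≠ ∅) : 2 ≤ PP p S := by
  obtain ⟨i, hi⟩ := Finset.nonempty_iff_ne_empty.2 hS
  unfold PP
  rw [← Finset.mul_prod_erase S _ hi]
  have h1 : (2 : ℝ) ≤ p i := by exact_mod_cast hp i
  have h2 : (1 : ℝ) ≤ ∏ j ∈ S.erase i, (p j : ℝ) := by
    rw [← Nat.cast_prod]
    have : 0 < ∏ j ∈ S.erase i, p j :=
      Finset.prod_pos fun j _ => lt_of_lt_of_le (by norm_num) (hp j)
    exact_mod_cast this
  nlinarith

open Classical in
theorem exists_wt {ι : Type} [Fintype ι] [DecidableEq ι] {p : ι → ℕ} (hp : ∀ i, 2 ≤ p i)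
    {S1 : ℝ} (hS1 : 1 ≤ S1) (d : ℕ) {Q : ℝ} (hQ : 0 < Q)
    (h : ∀ u : Finset ι → ℝ, DegLe d u → u ∅ = 1 →
      Q ≤ ∑ S ∈ (univ : Finset (Finset ι)).filter (fun S => S ≠ ∅ ∧ PP p S ≤ S1),
        u S ^ 2 / (PH p S * Real.log (PP p S))) :
    ∃ y : Finset ι → ℝ, y ∅ = 1 ∧ (∀ S, y S ≠ 0 → PP p S ≤ S1) ∧
      (∀ T : Finset ι, T.card ≤ d →
        ∑ S ∈ (univ : Finset (Finset ι)).filter (fun S => T ⊆ S), y S / PH p S = 0) ∧
      ∑ S ∈ (univ : Finset (Finset ι)).filter (fun S => S ≠ ∅),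
        y S ^ 2 / PH p S * Real.log (PP p S) ≤ 1 / Q := by
  set Pr : Finset ι → Prop := fun S => S ≠ ∅ ∧ PP p S ≤ S1 with hPr
  let Ω : Type := {S : Finset ι // Pr S}
  let K : Type := {T : Finset ι // T ≠ ∅ ∧ T.card ≤ d}
  let w : Ω → ℝ := fun S => 1 / (PH p S.1 * Real.log (PP p S.1))
  let v : K → Ω → ℝ := fun T S => if T.1 ⊆ S.1 then 1 else 0
  have hlog : ∀ S : Finset ι, S ≠ ∅ → 0 < Real.log (PP p S) := fun S hS =>
    Real.log_pos (by have := PP_ge_two hp hS; linarith)
  have hw : ∀ S : Ω, 0 < w S := fun S =>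
    one_div_pos.2 (mul_pos (PH_pos hp _) (hlog _ S.2.1))
  have hsub : ∀ f : Finset ι → ℝ, ∑ S ∈ (univ : Finset (Finset ι)).filter Pr, f S =
      ∑ S : Ω, f S.1 := fun f =>
    Finset.sum_subtype ((univ : Finset (Finset ι)).filter Pr) (fun x => by simp) f
  have hdual : ∀ c : K → ℝ, Q ≤ ∑ S : Ω, w S * (1 + ∑ k, c k * v k S) ^ 2 := by
    intro c
    have h1 := h (fun S => 1 + ∑ k : K, c k * (if k.1 ⊆ S then (1 : ℝ) else 0))
      (DegLe.add (DegLe_const d 1)
        (DegLe.sum univ (fun k _ => DegLe.smul (c k) (DegLe_ind k.1 k.2.2)))) ?_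
    · refine h1.trans (le_of_eq ?_)
      rw [hsub]
      apply Finset.sum_congr rfl
      intro S _
      simp only [w, v]
      ring
    · have : ∑ k : K, c k * (if k.1 ⊆ (∅ : Finset ι) then (1 : ℝ) else 0) = 0 := by
        apply Finset.sum_eq_zero
        intro k _
        rw [if_neg, mul_zero]
        intro hk
        exact k.2.1 (Finset.subset_empty.1 hk)
      simp only [this, add_zero]
  obtain ⟨g, hg1, hg2, hg3⟩ := dual w (fun _ => 1) hw v hQ hdual
  let gg : Finset ι → ℝ := fun S => if hS : Pr S then g ⟨S, hS⟩ else 0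
  have hgg : ∀ S : Ω, gg S.1 = g S := fun S => by
    simp only [gg]
    rw [dif_pos S.2]
  have hgg0 : ∀ S, ¬ Pr S → gg S = 0 := fun S hS => by
    simp only [gg]
    rw [dif_neg hS]
  let y : Finset ι → ℝ := fun S => if S = ∅ then 1 else - gg S / Real.log (PP p S)
  have hy0 : y ∅ = 1 := by simp [y]
  have hy1 : ∀ S, S ≠ ∅ → y S = - gg S / Real.log (PP p S) := fun S hS => by
    simp only [y]
    rw [if_neg hS]
  refine ⟨y, hy0, ?_, ?_, ?_⟩
  · intro S hS
    by_cases hS0 : S = ∅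
    · subst hS0
      simpa [PP] using hS1
    · by_contra hlt
      apply hS
      rw [hy1 S hS0, hgg0 S (fun hP => hlt hP.2)]
      simp
  · intro T hT
    -- the sum over all sets which contain `T`
    have key : ∀ S : Finset ι, (if T ⊆ S then y S / PH p S else 0) =
        (if S = ∅ then (if T = ∅ then (1 : ℝ) else 0) else 0) -
        (if Pr S then 1 / (PH p S * Real.log (PP p S)) * gg S * (if T ⊆ S then (1 : ℝ) else 0)
          else 0) := by
      intro S
      by_cases hS0 : S = ∅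
      · subst hS0
        have hnP : ¬ Pr ∅ := fun hP => hP.1 rfl
        rw [if_neg hnP, if_pos rfl, hy0]
        by_cases hT0 : T = ∅
        · rw [if_pos hT0, if_pos (by rw [hT0])]
          simp [PH]
        · rw [if_neg hT0, if_neg (fun hTs => hT0 (Finset.subset_empty.1 hTs))]
          simp
      · rw [if_neg hS0, hy1 S hS0]
        by_cases hP : Pr S
        · rw [if_pos hP]
          by_cases hTS : T ⊆ S
          · rw [if_pos hTS, if_pos hTS]
            have h1 := (PH_pos hp S).ne'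
            have h2 := (hlog S hS0).ne'
            field_simp
            ring
          · rw [if_neg hTS, if_neg hTS]
            ring
        · rw [if_neg hP, hgg0 S hP]
          simp
    rw [Finset.sum_filter, Finset.sum_congr rfl fun S _ => key S, Finset.sum_sub_distrib,
      ← Finset.sum_filter (s := (univ : Finset (Finset ι))) (p := Pr), hsub]
    have e1 : ∑ S : Finset ι, (if S = ∅ then (if T = ∅ then (1 : ℝ) else 0) else 0) =
        if T = ∅ then (1 : ℝ) else 0 := by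
      rw [Finset.sum_ite_eq']
      simp
    rw [e1]
    by_cases hT0 : T = ∅
    · rw [if_pos hT0]
      have e2 : ∑ S : Ω, 1 / (PH p S.1 * Real.log (PP p S.1)) * gg S.1 *
          (if T ⊆ S.1 then (1 : ℝ) else 0) = 1 := by
        refine Eq.trans ?_ hg2
        apply Finset.sum_congr rfl
        intro S _
        rw [hgg, if_pos (by rw [hT0]; exact Finset.empty_subset _)]
      rw [e2, sub_self]
    · rw [if_neg hT0]
      have e2 : ∑ S : Ω, 1 / (PH p S.1 * Real.log (PP p S.1)) * gg S.1 *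
          (if T ⊆ S.1 then (1 : ℝ) else 0) = 0 := by
        refine Eq.trans ?_ (hg1 ⟨T, hT0, hT⟩)
        apply Finset.sum_congr rfl
        intro S _
        rw [hgg]
      rw [e2, sub_zero]
  · -- the energy
    have key : ∀ S : Finset ι, (if S ≠ ∅ then y S ^ 2 / PH p S * Real.log (PP p S) else 0) =
        if Pr S then 1 / (PH p S * Real.log (PP p S)) * gg S ^ 2 else 0 := by
      intro S
      by_cases hS0 : S = ∅
      · have hnP : ¬ Pr S := fun hP => hP.1 hS0
        rw [if_neg hnP, if_neg (by simpa using hS0)]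
      · rw [if_pos hS0, hy1 S hS0]
        by_cases hP : Pr S
        · rw [if_pos hP]
          have h1 := (PH_pos hp S).ne'
          have h2 := (hlog S hS0).ne'
          field_simp
        · rw [if_neg hP, hgg0 S hP]
          simp
    rw [Finset.sum_filter, Finset.sum_congr rfl fun S _ => key S,
      ← Finset.sum_filter (s := (univ : Finset (Finset ι))) (p := Pr), hsub]
    refine le_trans (le_of_eq ?_) hg3
    apply Finset.sum_congr rfl
    intro S _
    rw [hgg]

end Pool.Agent.RT
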